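import Pool.Agent.Work.MP_71b0e8_gt.Skel.BDefs

/-!
# B0a : closed linear first order systems on open sets of `ℝ³` : growth and uniqueness
-/

open scoped ContDiff Topology
open Metric Set Filter

noncomputable section

namespace YR

theorem fderiv_eq_sum_b0 {f : E → ℝ} {x : E} (v : E) :
    fderiv ℝ f x v = ∑ a, v a * pd a f x := by
  have h : v = ∑ a, v a • be a := by
    ext b
    simp [be, Finset.sum_apply, Pi.single_apply]
  conv_lhs => rw [h]
  rw [map_sum]
  exact Finset.sum_congr rfl fun a _ => by rw [map_smul, smul_eq_mul]; rfl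

/-- growth of solutions along a segment -/
theorem lin_growth {m : ℕ} {F : Fin m → E → ℝ} {A : Fin 3 → Fin m → Fin m → E → ℝ} {K : ℝ}
    (hK : 0 ≤ K) {x y : E}
    (hF : ∀ z ∈ segment ℝ x y, ∀ j, DifferentiableAt ℝ (F j) z)
    (hs : ∀ z ∈ segment ℝ x y, ∀ a j, pd a (F j) z = ∑ k, A a j k z * F k z)
    (hA : ∀ z ∈ segment ℝ x y, ∀ a j k, |A a j k z| ≤ K) :
    ∀ j, |F j y| ≤ Real.exp (3 * m * K * ‖y - x‖) * ∑ k, |F k x| := by
  set v : E := y - x with hv
  have hseg : ∀ t ∈ Icc (0 : ℝ) 1, x + t • v ∈ segment ℝ x y := by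
    intro t ht
    rw [segment_eq_image']
    exact ⟨t, ht, rfl⟩
  let φ : ℝ → (Fin m → ℝ) := fun t j => F j (x + t • v)
  let φ' : ℝ → (Fin m → ℝ) := fun t j => fderiv ℝ (F j) (x + t • v) v
  have hd : ∀ t ∈ Icc (0 : ℝ) 1, HasDerivAt φ (φ' t) t := by
    intro t ht
    rw [hasDerivAt_pi]
    intro j
    have h1 : HasDerivAt (fun s : ℝ => x + s • v) v t := by
      simpa using ((hasDerivAt_id t).smul_const v).const_add x
    exact (hF _ (hseg t ht) j).hasFDerivAt.comp_hasDerivAt t h1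
  have hva : ∀ a, |v a| ≤ ‖v‖ := fun a => by
    rw [← Real.norm_eq_abs]
    exact PiLp.norm_apply_le v a
  have hder : ∀ t ∈ Icc (0 : ℝ) 1, ‖φ' t‖ ≤ (3 * m * K * ‖v‖) * ‖φ t‖ := by
    intro t ht
    refine (pi_norm_le_iff_of_nonneg (by positivity)).2 fun j => ?_
    have e1 : φ' t j = ∑ a, v a * ∑ k, A a j k (x + t • v) * F k (x + t • v) := by
      show fderiv ℝ (F j) (x + t • v) v = _
      rw [fderiv_eq_sum_b0]
      exact Finset.sum_congr rfl fun a _ => by rw [hs _ (hseg t ht)]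
    rw [e1, Real.norm_eq_abs]
    refine (Finset.abs_sum_le_sum_abs _ _).trans ?_
    have h3 : ∀ a ∈ (Finset.univ : Finset (Fin 3)),
        |v a * ∑ k, A a j k (x + t • v) * F k (x + t • v)| ≤ ‖v‖ * (m * (K * ‖φ t‖)) := by
      intro a _
      rw [abs_mul]
      refine mul_le_mul (hva a) ?_ (abs_nonneg _) (norm_nonneg _)
      refine (Finset.abs_sum_le_sum_abs _ _).trans ?_
      have h4 : ∀ k ∈ (Finset.univ : Finset (Fin m)),
          |A a j k (x + t • v) * F k (x + t • v)| ≤ K * ‖φ t‖ := by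
        intro k _
        rw [abs_mul]
        refine mul_le_mul (hA _ (hseg t ht) a j k) ?_ (abs_nonneg _) hK
        have := norm_le_pi_norm (φ t) k
        rwa [Real.norm_eq_abs] at this
      refine (Finset.sum_le_sum h4).trans ?_
      rw [Finset.sum_const, Finset.card_univ, Fintype.card_fin, nsmul_eq_mul]
    refine (Finset.sum_le_sum h3).trans ?_
    rw [Finset.sum_const, Finset.card_univ, Fintype.card_fin, nsmul_eq_mul]
    push_cast
    nlinarith
  have h0 : ‖φ 0‖ ≤ ∑ k, |F k x| := by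
    refine (pi_norm_le_iff_of_nonneg (Finset.sum_nonneg fun _ _ => abs_nonneg _)).2 fun j => ?_
    have e : φ 0 j = F j x := by
      show F j (x + (0 : ℝ) • v) = F j x
      rw [zero_smul, add_zero]
    rw [e, Real.norm_eq_abs]
    exact Finset.single_le_sum (f := fun k => |F k x|) (fun _ _ => abs_nonneg _)
      (Finset.mem_univ j)
  have hg := norm_le_gronwallBound_of_norm_deriv_right_le (f := φ) (f' := φ')
    (δ := ∑ k, |F k x|) (K := 3 * m * K * ‖v‖) (ε := 0) (a := 0) (b := 1)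
    (fun t ht => (hd t ht).continuousAt.continuousWithinAt)
    (fun t ht => (hd t (Ico_subset_Icc_self ht)).hasDerivWithinAt) h0
    (fun t ht => by rw [add_zero]; exact hder t (Ico_subset_Icc_self ht)) 1 (by simp)
  rw [gronwallBound_ε0, sub_zero, mul_one] at hg
  intro j
  have e : φ 1 j = F j y := by
    show F j (x + (1 : ℝ) • v) = F j y
    rw [one_smul, hv, add_sub_cancel]
  have := (norm_le_pi_norm (φ 1) j).trans hg
  rw [e, Real.norm_eq_abs, mul_comm] at this
  exact this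

/-- uniqueness on a ball -/
theorem lin_unique {m : ℕ} {x0 : E} {r : ℝ} {F : Fin m → E → ℝ}
    {A : Fin 3 → Fin m → Fin m → E → ℝ}
    (hA : ∀ a j k, ContinuousOn (A a j k) (ball x0 r))
    (hF : ∀ z ∈ ball x0 r, ∀ j, DifferentiableAt ℝ (F j) z)
    (hs : ∀ z ∈ ball x0 r, ∀ a j, pd a (F j) z = ∑ k, A a j k z * F k z)
    {x : E} (hx : x ∈ ball x0 r) (h0 : ∀ j, F j x = 0) :
    ∀ y ∈ ball x0 r, ∀ j, F j y = 0 := by
  intro y hy j
  have hsub : segment ℝ x y ⊆ ball x0 r := (convex_ball x0 r).segment_subset hx hy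
  have hcomp : IsCompact (segment ℝ x y) := by
    rw [segment_eq_image']
    exact isCompact_Icc.image (by fun_prop)
  have hb : ∀ p : Fin 3 × Fin m × Fin m, ∃ C : ℝ, ∀ z ∈ segment ℝ x y, |A p.1 p.2.1 p.2.2 z| ≤ C := by
    intro p
    obtain ⟨C, hC⟩ := hcomp.exists_bound_of_continuousOn ((hA p.1 p.2.1 p.2.2).mono hsub)
    exact ⟨C, fun z hz => by simpa [Real.norm_eq_abs] using hC z hz⟩
  choose C hC using hb
  set K : ℝ := ∑ p, |C p| with hKdef
  have hK : 0 ≤ K := Finset.sum_nonneg fun _ _ => abs_nonneg _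
  have h1 := lin_growth (F := F) (A := A) hK (fun z hz => hF z (hsub hz))
    (fun z hz => hs z (hsub hz)) (fun z hz a j k => by
      refine (hC (a, j, k) z hz).trans ((le_abs_self _).trans ?_)
      exact Finset.single_le_sum (f := fun p => |C p|) (fun _ _ => abs_nonneg _)
        (Finset.mem_univ (a, j, k))) j
  have h2 : ∑ k, |F k x| = 0 := by simp [h0]
  rw [h2, mul_zero] at h1
  exact abs_eq_zero.1 (le_antisymm h1 (abs_nonneg _))

end YR
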