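import Pool.Agent.Work.MP_71b0e8_gt.Skel.B5
import Pool.Agent.Work.MP_71b0e8_gt.Skel.B8

/-!
# B9a : interior `L⁴` bound of the gradients of the corrections
-/

open scoped ContDiff Topology
open MeasureTheory Metric Set Filter

noncomputable section

namespace YR

variable {M : Type*} [TopologicalSpace M] [T2Space M] [CompactSpace M] [ConnectedSpace M]
  [MeasurableSpace M] [BorelSpace M] {𝒜 : Atl M} {𝒢 : Met 𝒜} {θ η0 : M → ℝ}
  {κ : ℕ → M → ℝ} {κ' : M → ℝ} {C : ℝ}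

theorem ZD.kap_grad (h : ZD 𝒢 θ) (hs : Seed 𝒢 θ η0) (hk : Kap 𝒢 θ η0 κ κ' C) {δ : ℝ}
    (hδ : 0 < δ) : ∃ A, ∀ m, ∫ p in {p | δ ≤ θ p}, 𝒢.inn (κ m) (κ m) p ^ 2 ∂𝒢.vol ≤ A := by
  set χ : M → ℝ := fun p => Real.smoothTransition (2 * θ p / δ - 1) with hχdef
  have hχ : 𝒜.Sm χ := by
    have h1 : ContDiffOn ℝ ∞ (fun t : ℝ => Real.smoothTransition (2 * t / δ - 1)) Set.univ := by
      refine ContDiff.contDiffOn ?_
      exact Real.smoothTransition.contDiff.comp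
        (((contDiff_const.mul contDiff_id).div_const δ).sub contDiff_const)
    exact Atl.Sm.comp (F := fun t : ℝ => Real.smoothTransition (2 * t / δ - 1)) h1 h.sm
      fun p => Set.mem_univ _
  have hχ0 : ∀ p, χ p ≠ 0 → δ / 2 < θ p := by
    intro p hp
    by_contra hcon
    push Not at hcon
    apply hp
    refine Real.smoothTransition.zero_of_nonpos ?_
    rw [sub_nonpos, div_le_one hδ]
    linarith
  have hχ1 : ∀ p, δ ≤ θ p → χ p = 1 := by
    intro p hp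
    refine Real.smoothTransition.one_of_one_le ?_
    rw [le_sub_iff_add_le, le_div_iff₀ hδ]
    linarith
  obtain ⟨C4, hC4⟩ := 𝒢.grad4 hχ
  obtain ⟨Ce, hCe⟩ := h.ee_bound hs
  obtain ⟨Cs, hCs0, hCs, -, -⟩ := 𝒢.exists_curv_bound
  -- the bounds of `κ m` and of its laplacian
  set A1 : ℝ := |C| * (1 + (δ / 2) ^ (-(1 / 4) : ℝ)) with hA1
  set A2 : ℝ := (Cs * A1 + (|Ce| * (δ / 2)⁻¹ + 1)) / 8 with hA2
  have hδ2 : 0 < δ / 2 := by positivity
  have hA1n : 0 ≤ A1 := by positivity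
  have hA2n : 0 ≤ A2 := by positivity
  have hb : ∀ m p, χ p ≠ 0 → |κ m p| ≤ A1 + A2 ∧ |𝒢.lap (κ m) p| ≤ A1 + A2 := by
    intro m p hp
    have hθ := hχ0 p hp
    have hθ0 : 0 < θ p := hδ2.trans hθ
    have h1 : |κ m p| ≤ A1 := by
      refine (hk.bd m p hθ0).trans ?_
      have h2 : θ p ^ (-(1 / 4) : ℝ) ≤ (δ / 2) ^ (-(1 / 4) : ℝ) :=
        Real.rpow_le_rpow_of_nonpos hδ2 hθ.le (by norm_num)
      have h3 : 0 ≤ θ p ^ (-(1 / 4) : ℝ) := Real.rpow_nonneg hθ0.le _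
      refine mul_le_mul (le_abs_self C) (by linarith) (by linarith) (abs_nonneg C)
    have h4 : |𝒢.L (κ m) p| ≤ |Ce| * (δ / 2)⁻¹ + 1 := by
      have h5 := hk.eq m p
      have h6 : |qcut θ (m + 1) p * 𝒢.ee θ η0 p| ≤ |Ce| * (δ / 2)⁻¹ := by
        rw [abs_mul]
        have h7 : |qcut θ (m + 1) p| ≤ 1 := by
          rw [qcut, abs_of_nonneg (Real.smoothTransition.nonneg _)]
          exact Real.smoothTransition.le_one _
        have h8 : |𝒢.ee θ η0 p| ≤ |Ce| * (δ / 2)⁻¹ := by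
          refine (hCe p hθ0).trans ?_
          refine mul_le_mul (le_abs_self _) ?_ (inv_nonneg.2 hθ0.le) (abs_nonneg _)
          exact inv_anti₀ hδ2 hθ.le
        calc |qcut θ (m + 1) p| * |𝒢.ee θ η0 p| ≤ 1 * (|Ce| * (δ / 2)⁻¹) :=
              mul_le_mul h7 h8 (abs_nonneg _) zero_le_one
          _ = _ := one_mul _
      have h9 : (1 : ℝ) / (m + 1) ≤ 1 := by
        rw [div_le_one (by positivity)]
        have : (0 : ℝ) ≤ m := Nat.cast_nonneg m
        linarith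
      have h10 : 𝒢.L (κ m) p = (𝒢.L (κ m) p + qcut θ (m + 1) p * 𝒢.ee θ η0 p) -
          qcut θ (m + 1) p * 𝒢.ee θ η0 p := by ring
      rw [h10]
      refine (abs_sub _ _).trans ?_
      linarith
    have h11 : |𝒢.lap (κ m) p| ≤ A2 := by
      have h12 : 𝒢.lap (κ m) p = (𝒢.scal p * κ m p - 𝒢.L (κ m) p) / 8 := by
        rw [Met.L]
        ring
      rw [h12, abs_div, abs_of_pos (show (0 : ℝ) < 8 by norm_num), hA2]
      refine div_le_div_of_nonneg_right ?_ (by norm_num)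
      refine (abs_sub _ _).trans ?_
      rw [abs_mul]
      have h13 : |𝒢.scal p| * |κ m p| ≤ Cs * A1 :=
        mul_le_mul (hCs p) h1 (abs_nonneg _) hCs0.le
      linarith
    exact ⟨by linarith, by linarith⟩
  refine ⟨C4 * (A1 + A2) ^ 4, fun m => ?_⟩
  have hmain := hC4 (κ m) (hk.sm m) (A1 + A2) (by linarith) (hb m)
  refine le_trans ?_ hmain
  have hsm : 𝒜.Sm fun p => χ p ^ 4 * 𝒢.inn (κ m) (κ m) p ^ 2 :=
    (hχ.pow 4).mul ((𝒢.Sm_inn (hk.sm m) (hk.sm m)).pow 2)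
  have hint := 𝒢.integrable_sm hsm
  have hmeas : MeasurableSet {p | δ ≤ θ p} :=
    (isClosed_le continuous_const h.sm.continuous).measurableSet
  calc ∫ p in {p | δ ≤ θ p}, 𝒢.inn (κ m) (κ m) p ^ 2 ∂𝒢.vol
      = ∫ p in {p | δ ≤ θ p}, χ p ^ 4 * 𝒢.inn (κ m) (κ m) p ^ 2 ∂𝒢.vol := by
        refine setIntegral_congr_fun hmeas fun p hp => ?_
        have h14 := hχ1 p hp
        show _ = χ p ^ 4 * _
        rw [h14]
        ring
    _ ≤ ∫ p, χ p ^ 4 * 𝒢.inn (κ m) (κ m) p ^ 2 ∂𝒢.vol := by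
        refine setIntegral_le_integral hint (Filter.Eventually.of_forall fun p => ?_)
        simp only [Pi.zero_apply]
        positivity

end YR
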