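import Pool.Agent.Work.MP_71b0e8_gt.Skel.B5
import Pool.Agent.Work.MP_71b0e8_gt.Skel.B7
import Pool.Agent.Work.MP_71b0e8_gt.B9a
import Pool.Agent.Work.MP_71b0e8_gt.Skel.Reg

/-!
# B9b : the limit `η = η₀ + κ' θ^{3/2}` is a smooth solution on `N = {θ > 0}`
-/

open scoped ContDiff Topology
open MeasureTheory Metric Set Filter

noncomputable section

namespace YR

theorem b9_opnorm {f : E → ℝ} {x : E} {D : ℝ} (h : ∀ c, |pd c f x| ≤ D) :
    ‖fderiv ℝ f x‖ ≤ 3 * D := by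
  have hD : 0 ≤ D := le_trans (abs_nonneg _) (h 0)
  refine ContinuousLinearMap.opNorm_le_bound _ (by positivity) fun v => ?_
  rw [fderiv_eq_sum, Real.norm_eq_abs]
  calc |∑ a, v a * pd a f x| ≤ ∑ a, |v a * pd a f x| := Finset.abs_sum_le_sum_abs _ _
    _ ≤ ∑ _a : Fin 3, ‖v‖ * D := by
        refine Finset.sum_le_sum fun a _ => ?_
        rw [abs_mul]
        refine mul_le_mul ?_ (h a) (abs_nonneg _) (norm_nonneg _)
        have := EuclideanSpace.norm_eq v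
        rw [this]
        refine Real.le_sqrt_of_sq_le ?_
        rw [← Real.norm_eq_abs]
        exact Finset.single_le_sum (f := fun i => ‖v i‖ ^ 2) (fun i _ => by positivity)
          (Finset.mem_univ a)
    _ = 3 * D * ‖v‖ := by
        simp [Finset.sum_const]
        ring

variable {M : Type*} [TopologicalSpace M] [T2Space M] [CompactSpace M] [ConnectedSpace M]
  {𝒜 : Atl M} {𝒢 : Met 𝒜} {θ η0 : M → ℝ}
  {κ : ℕ → M → ℝ} {κ' : M → ℝ} {C : ℝ}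

omit [T2Space M] [ConnectedSpace M] in
theorem b9_bdd (h : ZD 𝒢 θ) : ∃ B, 0 < B ∧ ∀ p, θ p ≤ B := by
  obtain ⟨B, hB⟩ := isCompact_univ.exists_bound_of_continuousOn h.sm.continuous.continuousOn
  refine ⟨max B 1, by positivity, fun p => ?_⟩
  exact le_trans (le_trans (le_abs_self _) (by simpa using hB p (mem_univ p))) (le_max_left _ _)

omit [T2Space M] [CompactSpace M] [ConnectedSpace M] in
theorem b9_kap' (hk : Kap 𝒢 θ η0 κ κ' C) {p : M} (hp : 0 < θ p) :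
    |κ' p| ≤ C * (1 + θ p ^ (-(1 / 4) : ℝ)) := by
  have h1 : Tendsto (fun n => κ n p) atTop (𝓝 (κ' p)) :=
    (hk.lim (θ p) hp).tendsto_at (by simp : p ∈ {q | θ p ≤ θ q})
  exact le_of_tendsto h1.abs (Eventually.of_forall fun m => hk.bd m p hp)

omit [T2Space M] [CompactSpace M] [ConnectedSpace M] in
theorem b9_C (hk : Kap 𝒢 θ η0 κ κ' C) {p : M} (hp : 0 < θ p) : 0 ≤ C := by
  have h1 := le_trans (abs_nonneg _) (hk.bd 0 p hp)
  have h2 : 0 < 1 + θ p ^ (-(1 / 4) : ℝ) := by positivity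
  exact nonneg_of_mul_nonneg_left h1 h2

omit [T2Space M] [ConnectedSpace M] in
theorem b9_part3 (h : ZD 𝒢 θ) (hk : Kap 𝒢 θ η0 κ κ' C) :
    ∃ C', ∀ p, 0 < θ p → |etam θ η0 κ' p - η0 p| ≤ C' * θ p ^ (5 / 4 : ℝ) := by
  obtain ⟨B, hB0, hB⟩ := b9_bdd h
  refine ⟨C * (B ^ (1 / 4 : ℝ) + 1), fun p hp => ?_⟩
  have h1 : etam θ η0 κ' p - η0 p = κ' p * θ p ^ (3 / 2 : ℝ) := by
    unfold etam; ring
  have hC := b9_C hk hp
  rw [h1, abs_mul, abs_of_pos (Real.rpow_pos_of_pos hp (3 / 2))]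
  have e1 : θ p ^ (-(1 / 4) : ℝ) * θ p ^ (3 / 2 : ℝ) = θ p ^ (5 / 4 : ℝ) := by
    rw [← Real.rpow_add hp]; norm_num
  have e2 : θ p ^ (3 / 2 : ℝ) = θ p ^ (1 / 4 : ℝ) * θ p ^ (5 / 4 : ℝ) := by
    rw [← Real.rpow_add hp]; norm_num
  have e3 : θ p ^ (1 / 4 : ℝ) ≤ B ^ (1 / 4 : ℝ) := Real.rpow_le_rpow hp.le (hB p) (by norm_num)
  have e4 : 0 < θ p ^ (5 / 4 : ℝ) := Real.rpow_pos_of_pos hp _
  calc |κ' p| * θ p ^ (3 / 2 : ℝ) ≤ C * (1 + θ p ^ (-(1 / 4) : ℝ)) * θ p ^ (3 / 2 : ℝ) :=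
        mul_le_mul_of_nonneg_right (b9_kap' hk hp) (by positivity)
    _ = C * (θ p ^ (3 / 2 : ℝ) + θ p ^ (5 / 4 : ℝ)) := by rw [← e1]; ring
    _ = C * (θ p ^ (1 / 4 : ℝ) + 1) * θ p ^ (5 / 4 : ℝ) := by rw [e2]; ring
    _ ≤ C * (B ^ (1 / 4 : ℝ) + 1) * θ p ^ (5 / 4 : ℝ) := by
        gcongr

/-- the ball around a point of `N` -/
theorem b9_ball {M : Type*} [TopologicalSpace M] {𝒜 : Atl M} {𝒢 : Met 𝒜} {θ : M → ℝ} (h : ZD 𝒢 θ) {p : M} (hp : 0 < θ p) : ∃ i, ∃ z ∈ ball (0 : E) 1, ∃ r > 0,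
    (𝒜.φ i).symm z = p ∧ closedBall z r ⊆ {x ∈ ball (0 : E) 4 | θ p / 2 < 𝒜.rd θ i x} := by
  obtain ⟨i, z, hz, rfl⟩ := 𝒜.exists_chart p
  have hopen : IsOpen (𝒜.dom {q | θ ((𝒜.φ i).symm z) / 2 < θ q} i) :=
    𝒜.isOpen_dom (isOpen_lt continuous_const h.sm.continuous) i
  have hz4 : z ∈ ball (0 : E) 4 := ball_subset_ball (by norm_num) hz
  have hzm : z ∈ 𝒜.dom {q | θ ((𝒜.φ i).symm z) / 2 < θ q} i :=
    ⟨hz4, by show θ ((𝒜.φ i).symm z) / 2 < θ ((𝒜.φ i).symm z); linarith⟩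
  obtain ⟨r, hr, hr2⟩ := Metric.nhds_basis_closedBall.mem_iff.1 (hopen.mem_nhds hzm)
  exact ⟨i, z, hz, r, hr, rfl, fun x hx => hr2 hx⟩

variable [MeasurableSpace M] [BorelSpace M]

/-- a continuous function on an open set is bounded on a compact subset -/
theorem b9_bound {U K : Set E} {f : E → ℝ} (hf : ContinuousOn f U) (hK : IsCompact K)
    (hKU : K ⊆ U) : ∃ D, 0 ≤ D ∧ ∀ x ∈ K, |f x| ≤ D := by
  obtain ⟨D, hD⟩ := hK.exists_bound_of_continuousOn (hf.mono hKU)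
  exact ⟨max D 0, le_max_right _ _, fun x hx => le_trans (by simpa using hD x hx) (le_max_left _ _)⟩

/-- the `L⁴` bound of the gradients in the chart -/
theorem b9_grad (h : ZD 𝒢 θ) (hs : Seed 𝒢 θ η0) (hk : Kap 𝒢 θ η0 κ κ' C) {δ : ℝ}
    (hδ : 0 < δ) {i : Fin 𝒜.n} {z : E} {r : ℝ}
    (hb : closedBall z r ⊆ {x ∈ ball (0 : E) 4 | δ < 𝒜.rd θ i x}) :
    ∃ A, ∀ n, ∫ x in ball z r, ‖fderiv ℝ (𝒜.rd (etam θ η0 (κ n)) i) x‖ ^ 4 ≤ A := by
  obtain ⟨B, hB0, hB⟩ := b9_bdd h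
  obtain ⟨A0, hA0⟩ := h.kap_grad hs hk hδ
  have hK : IsCompact (closedBall z r) := isCompact_closedBall z r
  have hK4 : closedBall z r ⊆ ball (0 : E) 4 := fun x hx => (hb hx).1
  obtain ⟨Cc, hCc, hch⟩ := 𝒢.chart_integral_le i hK hK4
  have hG := 𝒢.lm i
  -- bounds for the fixed functions
  have hbd1 : ∀ c : Fin 3, ∃ D, 0 ≤ D ∧ ∀ x ∈ closedBall z r, |pd c (𝒜.rd η0 i) x| ≤ D := fun c =>
    b9_bound (pd_smooth isOpen_ball (hs.sm i)).continuousOn hK hK4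
  have hN : IsOpen {q : M | 0 < θ q} := isOpen_lt continuous_const h.sm.continuous
  have hf : 𝒜.SmOn {q : M | 0 < θ q} fun q => θ q ^ (3 / 2 : ℝ) :=
    (h.sm.on _).rpow (fun q hq => hq) _
  have hKN : closedBall z r ⊆ 𝒜.dom {q : M | 0 < θ q} i := fun x hx =>
    ⟨(hb hx).1, lt_trans hδ (hb hx).2⟩
  have hfi : ContDiffOn ℝ ∞ (fun x => 𝒜.rd θ i x ^ (3 / 2 : ℝ)) (𝒜.dom {q : M | 0 < θ q} i) :=
    hf i
  have hdo : IsOpen (𝒜.dom {q : M | 0 < θ q} i) := 𝒜.isOpen_dom hN i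
  have hbd2 : ∀ c : Fin 3, ∃ D, 0 ≤ D ∧ ∀ x ∈ closedBall z r,
      |pd c (fun x => 𝒜.rd θ i x ^ (3 / 2 : ℝ)) x| ≤ D := fun c =>
    b9_bound (pd_smooth hdo hfi).continuousOn hK hKN
  have hbd3 : ∀ c : Fin 3, ∃ D, 0 ≤ D ∧ ∀ x ∈ closedBall z r, |𝒢.g i x c c| ≤ D := fun c =>
    b9_bound (hG.smooth c c).continuousOn hK hK4
  choose D1 hD1 hD1' using hbd1
  choose D2 hD2 hD2' using hbd2
  choose D3 hD3 hD3' using hbd3
  set Ck : ℝ := C * (1 + δ ^ (-(1 / 4) : ℝ)) with hCk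
  set Bf : ℝ := B ^ (3 / 2 : ℝ) with hBf
  set P : ℝ := 3 * ∑ c, (D1 c + Ck * D2 c) with hP
  set Q : ℝ := 3 * ∑ c, Bf * √(D3 c) with hQ
  have key : ∀ n, ∀ x ∈ closedBall z r, ‖fderiv ℝ (𝒜.rd (etam θ η0 (κ n)) i) x‖ ≤
      P + Q * √(YR.inn (𝒢.g i) (𝒜.rd (κ n) i) (𝒜.rd (κ n) i) x) := by
    intro n x hx
    have hx4 := hK4 hx
    have hxN := hKN hx
    set S := √(YR.inn (𝒢.g i) (𝒜.rd (κ n) i) (𝒜.rd (κ n) i) x) with hS
    have hk4 : |𝒜.rd (κ n) i x| ≤ Ck := by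
      refine le_trans (hk.bd n _ (lt_trans hδ (hb hx).2)) ?_
      have hCC : 0 ≤ C := b9_C hk (p := (𝒜.φ i).symm x) (lt_trans hδ (hb hx).2)
      have h1 : θ ((𝒜.φ i).symm x) ^ (-(1 / 4) : ℝ) ≤ δ ^ (-(1 / 4) : ℝ) :=
        Real.rpow_le_rpow_of_nonpos hδ (hb hx).2.le (by norm_num)
      rw [hCk]; gcongr
    have hCk0 : 0 ≤ Ck := le_trans (abs_nonneg _) hk4
    have hf4 : |𝒜.rd θ i x ^ (3 / 2 : ℝ)| ≤ Bf := by
      have h0 : 0 < 𝒜.rd θ i x := lt_trans hδ (hb hx).2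
      rw [abs_of_pos (Real.rpow_pos_of_pos h0 _)]
      exact Real.rpow_le_rpow h0.le (hB _) (by norm_num)
    have hBf0 : 0 ≤ Bf := le_trans (abs_nonneg _) hf4
    have hda : DifferentiableAt ℝ (𝒜.rd η0 i) x :=
      ((hs.sm i).contDiffAt (isOpen_ball.mem_nhds hx4)).differentiableAt (by simp)
    have hdk : DifferentiableAt ℝ (𝒜.rd (κ n) i) x :=
      ((hk.sm n i).contDiffAt (isOpen_ball.mem_nhds hx4)).differentiableAt (by simp)
    have hdf : DifferentiableAt ℝ (fun x => 𝒜.rd θ i x ^ (3 / 2 : ℝ)) x :=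
      (hfi.contDiffAt (hdo.mem_nhds hxN)).differentiableAt (by simp)
    have e0 : 𝒜.rd (etam θ η0 (κ n)) i =
        fun y => 𝒜.rd η0 i y + 𝒜.rd (κ n) i y * 𝒜.rd θ i y ^ (3 / 2 : ℝ) := rfl
    have hc : ∀ c, |pd c (𝒜.rd (etam θ η0 (κ n)) i) x| ≤
        (D1 c + Ck * D2 c) + Bf * √(D3 c) * S := by
      intro c
      rw [e0, pd_add (g := fun y => 𝒜.rd (κ n) i y * 𝒜.rd θ i y ^ (3 / 2 : ℝ)) hda (hdk.mul hdf),
        pd_mul hdk hdf]
      have hpk : |pd c (𝒜.rd (κ n) i) x| ≤ √(D3 c) * S := by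
        rw [hS, ← Real.sqrt_mul (hD3 c)]
        refine Real.le_sqrt_of_sq_le ?_
        rw [sq_abs]
        refine le_trans (pd_sq_le hG hx4 c) ?_
        refine mul_le_mul_of_nonneg_right (le_trans (le_abs_self _) (hD3' c x hx)) ?_
        exact inn_self_nonneg hG hx4
      calc |pd c (𝒜.rd η0 i) x + (pd c (𝒜.rd (κ n) i) x * 𝒜.rd θ i x ^ (3 / 2 : ℝ) +
            𝒜.rd (κ n) i x * pd c (fun y => 𝒜.rd θ i y ^ (3 / 2 : ℝ)) x)|
          ≤ |pd c (𝒜.rd η0 i) x| + (|pd c (𝒜.rd (κ n) i) x| * |𝒜.rd θ i x ^ (3 / 2 : ℝ)| +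
            |𝒜.rd (κ n) i x| * |pd c (fun y => 𝒜.rd θ i y ^ (3 / 2 : ℝ)) x|) := by
              refine le_trans (abs_add_le _ _) (add_le_add le_rfl ?_)
              refine le_trans (abs_add_le _ _) ?_
              rw [abs_mul, abs_mul]
        _ ≤ D1 c + ((√(D3 c) * S) * Bf + Ck * D2 c) := by
              refine add_le_add (hD1' c x hx) (add_le_add ?_ ?_)
              · exact mul_le_mul hpk hf4 (abs_nonneg _) (by positivity)
              · exact mul_le_mul hk4 (hD2' c x hx) (abs_nonneg _) hCk0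
        _ = _ := by ring
    have hS0 : 0 ≤ S := Real.sqrt_nonneg _
    have hc2 : ∀ c, |pd c (𝒜.rd (etam θ η0 (κ n)) i) x| ≤
        ∑ c, ((D1 c + Ck * D2 c) + Bf * √(D3 c) * S) := fun c =>
      le_trans (hc c) (Finset.single_le_sum
        (f := fun c => ((D1 c + Ck * D2 c) + Bf * √(D3 c) * S))
        (fun c _ => by have := hD1 c; have := hD2 c; positivity) (Finset.mem_univ c))
    refine le_trans (b9_opnorm hc2) (le_of_eq ?_)
    rw [Finset.sum_add_distrib, hP, hQ, ← Finset.sum_mul]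
    ring
  refine ⟨8 * P ^ 4 * volume.real (ball z r) + 8 * Q ^ 4 * (Cc * A0), fun n => ?_⟩
  set F : M → ℝ := {p | δ ≤ θ p}.indicator (fun p => 𝒢.inn (κ n) (κ n) p ^ 2) with hF
  have hmeas : MeasurableSet {p | δ ≤ θ p} :=
    (isClosed_le continuous_const h.sm.continuous).measurableSet
  have hFi : Integrable F 𝒢.vol :=
    (𝒢.integrable_sm ((𝒢.Sm_inn (hk.sm n) (hk.sm n)).pow 2)).indicator hmeas
  have hF0 : ∀ p, 0 ≤ F p := fun p => indicator_nonneg (fun q _ => sq_nonneg _) p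
  obtain ⟨hc1, hc2⟩ := hch F hFi hF0
  have hFint : ∫ p, F p ∂𝒢.vol ≤ A0 := by
    rw [hF, integral_indicator hmeas]; exact hA0 n
  have hFx : ∀ x ∈ closedBall z r, 𝒜.rd F i x =
      YR.inn (𝒢.g i) (𝒜.rd (κ n) i) (𝒜.rd (κ n) i) x ^ 2 := by
    intro x hx
    have : (𝒜.φ i).symm x ∈ {p | δ ≤ θ p} := (hb hx).2.le
    rw [← 𝒢.inn_chart isOpen_univ ((hk.sm n).on _) ((hk.sm n).on _) i (z := x)
      ⟨hK4 hx, mem_univ _⟩]
    unfold Atl.rd
    rw [hF, indicator_of_mem this]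
  have hball : ball z r ⊆ closedBall z r := ball_subset_closedBall
  have hI1 : IntegrableOn (𝒜.rd F i) (ball z r) := hc1.mono_set hball
  have hI0 : IntegrableOn (fun _ : E => 8 * P ^ 4) (ball z r) volume :=
    integrableOn_const (measure_ball_lt_top.ne)
  have hI2 : IntegrableOn (fun x => 8 * P ^ 4 + 8 * Q ^ 4 * 𝒜.rd F i x) (ball z r) :=
    hI0.add (hI1.const_mul _)
  calc ∫ x in ball z r, ‖fderiv ℝ (𝒜.rd (etam θ η0 (κ n)) i) x‖ ^ 4
      ≤ ∫ x in ball z r, (8 * P ^ 4 + 8 * Q ^ 4 * 𝒜.rd F i x) := by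
        refine integral_mono_of_nonneg (Eventually.of_forall fun x => by positivity) hI2 ?_
        refine (ae_restrict_iff' measurableSet_ball).2 (Eventually.of_forall fun x hx => ?_)
        have hx' := hball hx
        have h1 := key n x hx'
        simp only
        rw [hFx x hx']
        have hinn := inn_self_nonneg (u := 𝒜.rd (κ n) i) hG (hK4 hx')
        set S := √(YR.inn (𝒢.g i) (𝒜.rd (κ n) i) (𝒜.rd (κ n) i) x) with hS
        have hS2 : YR.inn (𝒢.g i) (𝒜.rd (κ n) i) (𝒜.rd (κ n) i) x = S ^ 2 :=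
          (Real.sq_sqrt hinn).symm
        rw [hS2]
        have h2 : ‖fderiv ℝ (𝒜.rd (etam θ η0 (κ n)) i) x‖ ^ 4 ≤ (P + Q * S) ^ 4 :=
          pow_le_pow_left₀ (norm_nonneg _) h1 4
        refine le_trans h2 ?_
        nlinarith [sq_nonneg (P - Q * S), sq_nonneg (P ^ 2 - (Q * S) ^ 2), sq_nonneg (P + Q * S),
          sq_nonneg (P * (P - Q * S)), sq_nonneg (Q * S * (P - Q * S)),
          sq_nonneg ((P + Q * S) * (P - Q * S)), sq_nonneg ((P - Q * S) * (P - Q * S))]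
    _ = 8 * P ^ 4 * volume.real (ball z r) + 8 * Q ^ 4 * ∫ x in ball z r, 𝒜.rd F i x := by
        rw [integral_add hI0 (hI1.const_mul _),
          setIntegral_const, integral_const_mul, smul_eq_mul]
        ring
    _ ≤ 8 * P ^ 4 * volume.real (ball z r) + 8 * Q ^ 4 * (Cc * A0) := by
        have h3 : ∫ x in ball z r, 𝒜.rd F i x ≤ Cc * A0 :=
          calc ∫ x in ball z r, 𝒜.rd F i x ≤ ∫ x in closedBall z r, 𝒜.rd F i x :=
                setIntegral_mono_set hc1 (Eventually.of_forall fun x => hF0 _)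
                  (Eventually.of_forall hball)
            _ ≤ Cc * ∫ p, F p ∂𝒢.vol := hc2
            _ ≤ Cc * A0 := mul_le_mul_of_nonneg_left hFint hCc.le
        have h4 : 0 ≤ 8 * Q ^ 4 := by positivity
        nlinarith [mul_le_mul_of_nonneg_left h3 h4]

/-- the equation in the chart, tested -/
theorem b9_test (h : ZD 𝒢 θ) (hs : Seed 𝒢 θ η0) (hk : Kap 𝒢 θ η0 κ κ' C) {δ : ℝ}
    (hδ : 0 < δ) {i : Fin 𝒜.n} {z : E} {r : ℝ}
    (hb : closedBall z r ⊆ {x ∈ ball (0 : E) 4 | δ < 𝒜.rd θ i x}) :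
    ∃ ε : ℕ → ℝ, Tendsto ε atTop (𝓝 0) ∧
      ∀ n φ, Tst (ball z r) φ → ∀ K, (∀ x, |φ x| ≤ K) → (∀ x, ‖fderiv ℝ φ x‖ ≤ K) →
      ∀ a b, |∫ x, TT (𝒢.g i) (𝒜.rd (etam θ η0 (κ n)) i) a b x * φ x| ≤ ε n * K := by
  obtain ⟨B, hB0, hB⟩ := b9_bdd h
  have hK : IsCompact (closedBall z r) := isCompact_closedBall z r
  have hK4 : closedBall z r ⊆ ball (0 : E) 4 := fun x hx => (hb hx).1
  obtain ⟨Cc, hCc, hch⟩ := 𝒢.chart_integral_le i hK hK4
  have hG := 𝒢.lm i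
  have hN : IsOpen {q : M | 0 < θ q} := isOpen_lt continuous_const h.sm.continuous
  have hKN : closedBall z r ⊆ 𝒜.dom {q : M | 0 < θ q} i := fun x hx =>
    ⟨(hb hx).1, lt_trans hδ (hb hx).2⟩
  have hbd3 : ∀ c : Fin 3, ∃ D, 0 ≤ D ∧ ∀ x ∈ closedBall z r, |𝒢.g i x c c| ≤ D := fun c =>
    b9_bound (hG.smooth c c).continuousOn hK hK4
  choose D hD hD' using hbd3
  set D0 : ℝ := ∑ c, D c with hD0
  have hD0' : 0 ≤ D0 := Finset.sum_nonneg fun c _ => hD c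
  have hDc : ∀ c, ∀ x ∈ closedBall z r, 𝒢.g i x c c ≤ D0 := fun c x hx =>
    le_trans (le_trans (le_abs_self _) (hD' c x hx))
      (Finset.single_le_sum (f := D) (fun c _ => hD c) (Finset.mem_univ c))
  set I : ℕ → ℝ := fun n =>
    ∫ p in {p | 0 < θ p}, (θ p)⁻¹ * 𝒢.t2 (etam θ η0 (κ n)) p ∂𝒢.vol with hI
  have hI0 : ∀ n, 0 ≤ I n := fun n => integral_nonneg_of_ae <|
    (ae_restrict_iff' hN.measurableSet).2 (Eventually.of_forall fun p hp =>
      mul_nonneg (inv_nonneg.2 (le_of_lt hp)) (𝒢.t2_nonneg _ _))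
  have hIt : Tendsto I atTop (𝓝 0) := h.t2_small hs hk
  set s : ℕ → ℝ := fun n => √(I n) + 1 / ((n : ℝ) + 1) with hsdef
  have hs0 : ∀ n, 0 < s n := fun n => by
    have : (0 : ℝ) < 1 / ((n : ℝ) + 1) := by positivity
    have := Real.sqrt_nonneg (I n)
    simp only [hsdef]; linarith
  have hst : Tendsto s atTop (𝓝 0) := by
    have h1 : Tendsto (fun n => √(I n)) atTop (𝓝 0) := by
      have := (Real.continuous_sqrt.tendsto 0).comp hIt
      rw [Real.sqrt_zero] at this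
      exact this
    have h2 := h1.add tendsto_one_div_add_atTop_nhds_zero_nat
    rw [add_zero] at h2
    exact h2
  set R : ℝ := D0 ^ 2 * B * Cc with hR
  have hR0 : 0 ≤ R := by positivity
  refine ⟨fun n => (volume.real (ball z r) + R) * s n, by simpa using hst.const_mul _, ?_⟩
  intro n φ hφ K hφK _ a b
  have hK0 : 0 ≤ K := le_trans (abs_nonneg _) (hφK 0)
  set w := 𝒜.rd (etam θ η0 (κ n)) i with hw
  set F : M → ℝ := {p | δ ≤ θ p}.indicator (fun p => (θ p)⁻¹ * 𝒢.t2 (etam θ η0 (κ n)) p) with hF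
  have hmeas : MeasurableSet {p | δ ≤ θ p} :=
    (isClosed_le continuous_const h.sm.continuous).measurableSet
  have hsub : {p | δ ≤ θ p} ⊆ {p | 0 < θ p} := fun p hp => lt_of_lt_of_le hδ hp
  have hFi0 := (h.t2_int hs (hk.sm n)).1
  have hFi : Integrable F 𝒢.vol := (integrable_indicator_iff hmeas).2 (hFi0.mono_set hsub)
  have hF0 : ∀ p, 0 ≤ F p := fun p => indicator_nonneg (fun q hq =>
    mul_nonneg (inv_nonneg.2 (le_of_lt (hsub hq))) (𝒢.t2_nonneg _ _)) p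
  obtain ⟨hc1, hc2⟩ := hch F hFi hF0
  have hFint : ∫ p, F p ∂𝒢.vol ≤ I n := by
    rw [hF, integral_indicator hmeas]
    refine setIntegral_mono_set hFi0 ?_ (Eventually.of_forall hsub)
    exact (ae_restrict_iff' hN.measurableSet).2 (Eventually.of_forall fun p hp =>
      mul_nonneg (inv_nonneg.2 (le_of_lt hp)) (𝒢.t2_nonneg _ _))
  have hTF : ∀ x ∈ closedBall z r, TT (𝒢.g i) w a b x ^ 2 ≤ D0 ^ 2 * B * 𝒜.rd F i x := by
    intro x hx
    have hm : (𝒜.φ i).symm x ∈ {p | δ ≤ θ p} := (hb hx).2.le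
    have h1 := comp_sq_le hG (hK4 hx) (fun a b => TT (𝒢.g i) w a b x) a b
    have h2 := 𝒢.t2_chart hN (h.etam_smooth hs (hk.sm n)) i (hKN hx)
    have h3 : 𝒜.rd F i x = (θ ((𝒜.φ i).symm x))⁻¹ * 𝒢.t2 (etam θ η0 (κ n)) ((𝒜.φ i).symm x) := by
      unfold Atl.rd
      rw [hF, indicator_of_mem hm]
    rw [← h2] at h1
    have h4 : 0 < θ ((𝒜.φ i).symm x) := hsub hm
    have h5 : 𝒢.t2 (etam θ η0 (κ n)) ((𝒜.φ i).symm x) ≤ B * 𝒜.rd F i x := by
      have h6 : 0 ≤ 𝒜.rd F i x := hF0 _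
      calc 𝒢.t2 (etam θ η0 (κ n)) ((𝒜.φ i).symm x)
          = θ ((𝒜.φ i).symm x) * 𝒜.rd F i x := by rw [h3]; field_simp
        _ ≤ B * 𝒜.rd F i x := mul_le_mul_of_nonneg_right (hB _) h6
    have h7 := 𝒢.t2_nonneg (etam θ η0 (κ n)) ((𝒜.φ i).symm x)
    have h8 : 𝒢.g i x a a * 𝒢.g i x b b ≤ D0 ^ 2 := by
      have h9 : 0 ≤ 𝒢.g i x b b := (hG.pos x (hK4 hx)).diag_pos.le
      rw [sq]
      exact mul_le_mul (hDc a x hx) (hDc b x hx) h9 hD0'
    calc TT (𝒢.g i) w a b x ^ 2 ≤ 𝒢.g i x a a * 𝒢.g i x b b *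
          𝒢.t2 (etam θ η0 (κ n)) ((𝒜.φ i).symm x) := h1
      _ ≤ D0 ^ 2 * (B * 𝒜.rd F i x) := mul_le_mul h8 h5 h7 (by positivity)
      _ = _ := by ring
  have hball : ball z r ⊆ closedBall z r := ball_subset_closedBall
  have hI1 : IntegrableOn (𝒜.rd F i) (ball z r) := hc1.mono_set hball
  have hI3 : IntegrableOn (fun _ : E => s n / 2) (ball z r) volume :=
    integrableOn_const (measure_ball_lt_top.ne)
  have hI2 : IntegrableOn (fun x => s n / 2 + D0 ^ 2 * B / (2 * s n) * 𝒜.rd F i x) (ball z r) :=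
    hI3.add (hI1.const_mul _)
  have hsupp : ∀ x, x ∉ ball z r → TT (𝒢.g i) w a b x * φ x = 0 := by
    intro x hx
    have : φ x = 0 := image_eq_zero_of_notMem_tsupport fun hx' => hx (hφ.2.2 hx')
    rw [this, mul_zero]
  have hint : ∫ x, TT (𝒢.g i) w a b x * φ x = ∫ x in ball z r, TT (𝒢.g i) w a b x * φ x :=
    (setIntegral_eq_integral_of_forall_compl_eq_zero hsupp).symm
  have h3 : ∫ x in ball z r, 𝒜.rd F i x ≤ Cc * I n :=
    calc ∫ x in ball z r, 𝒜.rd F i x ≤ ∫ x in closedBall z r, 𝒜.rd F i x :=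
          setIntegral_mono_set hc1 (Eventually.of_forall fun x => hF0 _)
            (Eventually.of_forall hball)
      _ ≤ Cc * ∫ p, F p ∂𝒢.vol := hc2
      _ ≤ Cc * I n := mul_le_mul_of_nonneg_left hFint hCc.le
  have hsI : I n ≤ s n ^ 2 := by
    have h1 : √(I n) ≤ s n := by
      simp only [hsdef]
      have : (0 : ℝ) ≤ 1 / ((n : ℝ) + 1) := by positivity
      linarith
    calc I n = √(I n) ^ 2 := (Real.sq_sqrt (hI0 n)).symm
      _ ≤ s n ^ 2 := pow_le_pow_left₀ (Real.sqrt_nonneg _) h1 2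
  calc |∫ x, TT (𝒢.g i) w a b x * φ x|
      = ‖∫ x in ball z r, TT (𝒢.g i) w a b x * φ x‖ := by rw [hint, Real.norm_eq_abs]
    _ ≤ ∫ x in ball z r, ‖TT (𝒢.g i) w a b x * φ x‖ := norm_integral_le_integral_norm _
    _ ≤ ∫ x in ball z r, K * (s n / 2 + D0 ^ 2 * B / (2 * s n) * 𝒜.rd F i x) := by
        refine integral_mono_of_nonneg (Eventually.of_forall fun x => norm_nonneg _)
          (hI2.const_mul _) ?_
        refine (ae_restrict_iff' measurableSet_ball).2 (Eventually.of_forall fun x hx => ?_)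
        have hx' := hball hx
        have h1 := hTF x hx'
        simp only [norm_mul, Real.norm_eq_abs]
        rw [mul_comm]
        refine mul_le_mul (hφK x) ?_ (abs_nonneg _) hK0
        have h2 : |TT (𝒢.g i) w a b x| ≤ s n / 2 + TT (𝒢.g i) w a b x ^ 2 / (2 * s n) := by
          rw [← sq_abs]
          have h4 := hs0 n
          rw [div_add_div _ _ (by norm_num) (by positivity), le_div_iff₀ (by positivity)]
          nlinarith [sq_nonneg (|TT (𝒢.g i) w a b x| - s n)]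
        refine le_trans h2 (add_le_add le_rfl ?_)
        have h4 := hs0 n
        calc TT (𝒢.g i) w a b x ^ 2 / (2 * s n) ≤ (D0 ^ 2 * B * 𝒜.rd F i x) / (2 * s n) := by
              gcongr
          _ = _ := by ring
    _ = K * (s n / 2 * volume.real (ball z r) +
          D0 ^ 2 * B / (2 * s n) * ∫ x in ball z r, 𝒜.rd F i x) := by
        rw [integral_const_mul, integral_add hI3 (hI1.const_mul _),
          setIntegral_const, integral_const_mul, smul_eq_mul]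
        ring
    _ ≤ K * (s n / 2 * volume.real (ball z r) + D0 ^ 2 * B / (2 * s n) * (Cc * s n ^ 2)) := by
        have h4 := hs0 n
        gcongr
        exact le_trans h3 (mul_le_mul_of_nonneg_left hsI hCc.le)
    _ = K * (s n / 2 * volume.real (ball z r) + R / 2 * s n) := by
        have h4 := (hs0 n).ne'
        rw [hR]
        field_simp
    _ ≤ (volume.real (ball z r) + R) * s n * K := by
        have h4 := (hs0 n).le
        have h5 : 0 ≤ volume.real (ball z r) := measureReal_nonneg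
        have h6 : 0 ≤ K * s n * (volume.real (ball z r) + R) := by positivity
        nlinarith

/-- the local result -/
theorem b9_local (h : ZD 𝒢 θ) (hs : Seed 𝒢 θ η0) (hk : Kap 𝒢 θ η0 κ κ' C) {p : M}
    (hp : 0 < θ p) : ∃ i, ∃ z, ∃ r > 0, (𝒜.φ i).symm z = p ∧ z ∈ ball (0 : E) 4 ∧
      closedBall z r ⊆ ball (0 : E) 4 ∧
      ContDiffOn ℝ ∞ (𝒜.rd (etam θ η0 κ') i) (ball z r) ∧
      ∀ x ∈ ball z r, ∀ a b, TT (𝒢.g i) (𝒜.rd (etam θ η0 κ') i) a b x = 0 := by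
  obtain ⟨i, z, hz, r, hr, hzp, hb⟩ := b9_ball h hp
  obtain ⟨B, hB0, hB⟩ := b9_bdd h
  have hδ : 0 < θ p / 2 := by positivity
  have hN : IsOpen {q : M | 0 < θ q} := isOpen_lt continuous_const h.sm.continuous
  have hKN : closedBall z r ⊆ 𝒜.dom {q : M | 0 < θ q} i := fun x hx =>
    ⟨(hb hx).1, lt_trans hδ (hb hx).2⟩
  have hdo : IsOpen (𝒜.dom {q : M | 0 < θ q} i) := 𝒜.isOpen_dom hN i
  obtain ⟨A, hA⟩ := b9_grad h hs hk hδ hb
  obtain ⟨ε, hε, hT⟩ := b9_test h hs hk hδ hb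
  have hlim : TendstoUniformlyOn (fun n => 𝒜.rd (etam θ η0 (κ n)) i) (𝒜.rd (etam θ η0 κ') i)
      atTop (closedBall z r) := by
    rw [Metric.tendstoUniformlyOn_iff]
    intro e he
    have h1 := Metric.tendstoUniformlyOn_iff.1 (hk.lim (θ p / 2) hδ) (e / (B ^ (3 / 2 : ℝ) + 1))
      (by positivity)
    filter_upwards [h1] with n hn x hx
    have hx0 : 0 < θ ((𝒜.φ i).symm x) := lt_trans hδ (hb hx).2
    have h2 := hn ((𝒜.φ i).symm x) (hb hx).2.le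
    rw [Real.dist_eq] at h2 ⊢
    have h3 : 𝒜.rd (etam θ η0 κ') i x - 𝒜.rd (etam θ η0 (κ n)) i x =
        (κ' ((𝒜.φ i).symm x) - κ n ((𝒜.φ i).symm x)) * θ ((𝒜.φ i).symm x) ^ (3 / 2 : ℝ) := by
      unfold Atl.rd etam; ring
    have h4 : 0 < θ ((𝒜.φ i).symm x) ^ (3 / 2 : ℝ) := Real.rpow_pos_of_pos hx0 _
    have h5 : θ ((𝒜.φ i).symm x) ^ (3 / 2 : ℝ) ≤ B ^ (3 / 2 : ℝ) :=
      Real.rpow_le_rpow hx0.le (hB _) (by norm_num)
    rw [h3, abs_mul, abs_of_pos h4]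
    have h6 : 0 < B ^ (3 / 2 : ℝ) + 1 := by positivity
    rw [lt_div_iff₀ h6] at h2
    refine lt_of_le_of_lt ?_ h2
    refine mul_le_mul_of_nonneg_left (by linarith) (abs_nonneg _)
  have hreg := reg ((𝒢.lm i).mono hdo (fun x hx => hx.1)) hr hKN
    (fun n => 𝒜.rd (etam θ η0 (κ n)) i) (fun n => h.etam_smooth hs (hk.sm n) i)
    (𝒜.rd (etam θ η0 κ') i) hlim A hA ε hε hT
  exact ⟨i, z, r, hr, hzp, ball_subset_ball (by norm_num) hz, fun x hx => (hb hx).1,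
    hreg.1, hreg.2⟩

theorem ZD.eta_limit (h : ZD 𝒢 θ) (hs : Seed 𝒢 θ η0) (hk : Kap 𝒢 θ η0 κ κ' C) :
    𝒜.SmOn {p | 0 < θ p} (etam θ η0 κ') ∧ (∀ p, 0 < θ p → 𝒢.t2 (etam θ η0 κ') p = 0) ∧
      ∃ C', ∀ p, 0 < θ p → |etam θ η0 κ' p - η0 p| ≤ C' * θ p ^ (5 / 4 : ℝ) := by
  have hN : IsOpen {q : M | 0 < θ q} := isOpen_lt continuous_const h.sm.continuous
  have h1 : 𝒜.SmOn {p | 0 < θ p} (etam θ η0 κ') := by
    refine Atl.smOn_of_local fun p hp => ?_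
    obtain ⟨i, z, r, hr, hzp, hz4, hb4, hsm, -⟩ := b9_local h hs hk hp
    have hbt : ball z r ⊆ (𝒜.φ i).target := by
      rw [𝒜.target_eq]; exact ball_subset_closedBall.trans hb4
    refine ⟨(𝒜.φ i).symm '' ball z r, ?_, ⟨z, mem_ball_self hr, hzp⟩, ?_⟩
    · exact (𝒜.φ i).symm.isOpen_image_of_subset_source isOpen_ball hbt
    · refine Atl.smOn_of_chart i ((𝒜.φ i).symm.isOpen_image_of_subset_source isOpen_ball hbt) ?_ ?_
      · rintro _ ⟨x, hx, rfl⟩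
        exact (𝒜.φ i).map_target (hbt hx)
      · refine hsm.mono ?_
        rintro x ⟨hx4, y, hy, hyx⟩
        have hx4' : x ∈ (𝒜.φ i).target := by rw [𝒜.target_eq]; exact hx4
        have : y = x := by
          rw [← (𝒜.φ i).right_inv (hbt hy), hyx, (𝒜.φ i).right_inv hx4']
        rwa [← this]
  refine ⟨h1, fun p hp => ?_, b9_part3 h hk⟩
  obtain ⟨i, z, r, hr, hzp, hz4, hb4, -, hT⟩ := b9_local h hs hk hp
  rw [← hzp]
  refine 𝒢.t2_of_TT hN h1 i ⟨hz4, ?_⟩ (hT z (mem_ball_self hr))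
  show 0 < θ ((𝒜.φ i).symm z)
  rw [hzp]; exact hp

end YR
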