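import Pool.Agent.Work.MP_71b0e8_gt.Skel.B4
import Pool.Agent.Work.MP_71b0e8_gt.Skel.B5
import Pool.Agent.Work.MP_71b0e8_gt.Skel.B9
import Pool.Agent.Work.MP_71b0e8_gt.Skel.B10

/-!
# B11 : solutions with prescribed differential at a zero of `θ`
-/

open scoped ContDiff Topology
open MeasureTheory Metric Set Filter

noncomputable section

namespace YR

variable {M : Type*} [TopologicalSpace M] [T2Space M] [CompactSpace M] [ConnectedSpace M]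
  [MeasurableSpace M] [BorelSpace M] {𝒜 : Atl M} {𝒢 : Met 𝒜} {θ : M → ℝ}

theorem ZD.exists_eta (h : ZD 𝒢 θ) (hDR : DR 𝒢 0) (hMP : 𝒢.MP) {z : M}
    (hz : θ z = 0) (i : Fin 𝒜.n) (hi : z ∈ (𝒜.φ i).source) (ξ : Fin 3 → ℝ) :
    ∃ η : M → ℝ, 𝒜.Sm η ∧ (∀ p, 𝒢.t2 η p = 0) ∧ η z = 0 ∧
      ∀ a, pd a (𝒜.rd η i) (𝒜.φ i z) = ξ a := by
  obtain ⟨η0, hs, hη0z, hpd⟩ := h.exists_seed hz i hi ξ
  obtain ⟨κ, κ', C, hk⟩ := h.exists_kap hDR hMP hs
  obtain ⟨hsm, ht, C', hC'⟩ := h.eta_limit hs hk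
  obtain ⟨η', hη', heq, ht'⟩ := h.remov hsm ht
  set x0 : E := 𝒜.φ i z with hx0
  have hx : x0 ∈ ball (0 : E) 4 := by
    rw [← 𝒜.target_eq i]; exact (𝒜.φ i).map_source hi
  have hrdz : ∀ u : M → ℝ, 𝒜.rd u i x0 = u z := by
    intro u; unfold Atl.rd; rw [hx0, (𝒜.φ i).left_inv hi]
  have h0 : 𝒜.rd θ i x0 = 0 := by rw [hrdz, hz]
  obtain ⟨c, hc, r, hr, hsub, hq⟩ := h.quad i hx h0
  have hnh : ball (0 : E) 4 ∈ 𝓝 x0 := isOpen_ball.mem_nhds hx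
  have hd' : DifferentiableAt ℝ (𝒜.rd η' i) x0 :=
    ((hη' i).differentiableOn (by norm_num)).differentiableAt hnh
  have hd0 : DifferentiableAt ℝ (𝒜.rd η0 i) x0 :=
    ((hs.sm i).differentiableOn (by norm_num)).differentiableAt hnh
  set f : E → ℝ := fun y => 𝒜.rd η' i y - 𝒜.rd η0 i y with hf
  have hdf : DifferentiableAt ℝ f x0 := hd'.sub hd0
  set K : ℝ := |C'| * c⁻¹ ^ (5 / 4 : ℝ) with hK
  have hK0 : 0 ≤ K := by positivity
  -- bound away from `x0`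
  have hb : ∀ y ∈ ball x0 (min r 1), y ≠ x0 → |f y| ≤ K * ‖y - x0‖ ^ 2 := by
    intro y hy hne
    have hyr : y ∈ ball x0 r := ball_subset_ball (min_le_left _ _) hy
    have hy1 : ‖y - x0‖ < 1 := by
      have := ball_subset_ball (min_le_right r 1) hy
      rwa [mem_ball, dist_eq_norm] at this
    have hpos : 0 < ‖y - x0‖ := norm_pos_iff.2 (sub_ne_zero.2 hne)
    obtain ⟨hq1, hq2⟩ := hq y hyr
    have hθ : 0 < 𝒜.rd θ i y := lt_of_lt_of_le (by positivity) hq1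
    have e1 : f y = etam θ η0 κ' ((𝒜.φ i).symm y) - η0 ((𝒜.φ i).symm y) := by
      simp only [hf, Atl.rd]
      rw [heq _ hθ]
    have e2 := hC' ((𝒜.φ i).symm y) hθ
    rw [← e1] at e2
    have e3 : θ ((𝒜.φ i).symm y) ^ (5 / 4 : ℝ) ≤ c⁻¹ ^ (5 / 4 : ℝ) * ‖y - x0‖ ^ 2 := by
      calc θ ((𝒜.φ i).symm y) ^ (5 / 4 : ℝ) ≤ (c⁻¹ * ‖y - x0‖ ^ 2) ^ (5 / 4 : ℝ) :=
            Real.rpow_le_rpow hθ.le hq2 (by norm_num)
        _ = c⁻¹ ^ (5 / 4 : ℝ) * (‖y - x0‖ ^ 2) ^ (5 / 4 : ℝ) :=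
            Real.mul_rpow (by positivity) (by positivity)
        _ ≤ c⁻¹ ^ (5 / 4 : ℝ) * ‖y - x0‖ ^ 2 := by
            refine mul_le_mul_of_nonneg_left ?_ (by positivity)
            calc (‖y - x0‖ ^ 2) ^ (5 / 4 : ℝ) ≤ (‖y - x0‖ ^ 2) ^ (1 : ℝ) :=
                  Real.rpow_le_rpow_of_exponent_ge (by positivity)
                    (pow_le_one₀ hpos.le hy1.le) (by norm_num)
              _ = ‖y - x0‖ ^ 2 := Real.rpow_one _
    calc |f y| ≤ C' * θ ((𝒜.φ i).symm y) ^ (5 / 4 : ℝ) := e2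
      _ ≤ |C'| * θ ((𝒜.φ i).symm y) ^ (5 / 4 : ℝ) :=
          mul_le_mul_of_nonneg_right (le_abs_self _) (Real.rpow_nonneg hθ.le _)
      _ ≤ |C'| * (c⁻¹ ^ (5 / 4 : ℝ) * ‖y - x0‖ ^ 2) :=
          mul_le_mul_of_nonneg_left e3 (abs_nonneg _)
      _ = K * ‖y - x0‖ ^ 2 := by rw [hK]; ring
  -- value at `x0` by continuity
  have hmin : 0 < min r 1 := lt_min hr one_pos
  haveI : (𝓝[≠] x0).NeBot := by
    have : Nontrivial E := inferInstance
    exact Module.punctured_nhds_neBot ℝ E x0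
  have hf0 : f x0 = 0 := by
    have t1 : Tendsto (fun y => |f y|) (𝓝[≠] x0) (𝓝 |f x0|) :=
      (hdf.continuousAt.abs).mono_left nhdsWithin_le_nhds
    have t2 : Tendsto (fun y => K * ‖y - x0‖ ^ 2) (𝓝[≠] x0) (𝓝 0) := by
      have : Tendsto (fun y => K * ‖y - x0‖ ^ 2) (𝓝 x0) (𝓝 (K * ‖x0 - x0‖ ^ 2)) := by
        have hc : Continuous fun y : E => K * ‖y - x0‖ ^ 2 := by fun_prop
        exact hc.tendsto x0
      simp only [sub_self, norm_zero, ne_eq, OfNat.ofNat_ne_zero, not_false_eq_true, zero_pow,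
        mul_zero] at this
      exact this.mono_left nhdsWithin_le_nhds
    have t3 : |f x0| ≤ 0 := by
      refine le_of_tendsto_of_tendsto t1 t2 ?_
      have hmem : ball x0 (min r 1) ∈ 𝓝[≠] x0 :=
        mem_nhdsWithin_of_mem_nhds (ball_mem_nhds x0 hmin)
      filter_upwards [hmem, self_mem_nhdsWithin] with y hy hne
      exact hb y hy hne
    exact abs_nonpos_iff.1 t3
  have hO : f =O[𝓝 x0] fun y => ‖y - x0‖ ^ 2 := by
    refine Asymptotics.IsBigO.of_bound K ?_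
    filter_upwards [ball_mem_nhds x0 hmin] with y hy
    rcases eq_or_ne y x0 with rfl | hne
    · rw [hf0]; simp
    · rw [Real.norm_eq_abs, norm_pow, norm_norm]
      exact hb y hy hne
  have hfd : fderiv ℝ f x0 = 0 := (hO.hasFDerivAt (by norm_num)).fderiv
  refine ⟨η', hη', ht', ?_, ?_⟩
  · have := hf0
    simp only [hf, hrdz, hη0z, sub_zero] at this
    exact this
  · intro a
    have h1 : fderiv ℝ f x0 = fderiv ℝ (𝒜.rd η' i) x0 - fderiv ℝ (𝒜.rd η0 i) x0 :=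
      fderiv_fun_sub hd' hd0
    rw [hfd] at h1
    have h2 : fderiv ℝ (𝒜.rd η' i) x0 = fderiv ℝ (𝒜.rd η0 i) x0 := (sub_eq_zero.1 h1.symm)
    rw [← hpd a]
    unfold pd
    rw [h2]

end YR
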