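import Pool.Agent.Work.MP_71b0e8_gt.B12a
import Pool.Agent.Work.MP_71b0e8_gt.Skel.B11
import Pool.Agent.Work.MP_71b0e8_gt.Skel.Glob2

/-!
# B12b : the positive solution (`ZD.partB`)
-/

open scoped ContDiff Topology
open MeasureTheory Metric Set Filter

noncomputable section

namespace YR

variable {M : Type*} [TopologicalSpace M] [T2Space M] [CompactSpace M] [ConnectedSpace M]
  [MeasurableSpace M] [BorelSpace M] {𝒜 : Atl M} {𝒢 : Met 𝒜} {θ : M → ℝ}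

/-- PART B: a positive solution exists -/
theorem ZD.partB (h : ZD 𝒢 θ) (hDR : DR 𝒢 0) (hMP : 𝒢.MP) :
    ∃ Ξ : M → ℝ, 𝒜.Sm Ξ ∧ (∀ p, 0 < Ξ p) ∧ (∀ p, 𝒢.t2 Ξ p = 0) ∧ ∀ p, 𝒢.bb Ξ Ξ p = 1 := by
  classical
  obtain ⟨z, hz⟩ := h.zero
  set i := 𝒜.idx z with hi
  set x₀ := 𝒜.φ i z with hx₀def
  have hsrc : z ∈ (𝒜.φ i).source := Atl.idx_source z
  have hx₀ : x₀ ∈ ball (0 : E) 4 := Atl.map_mem i hsrc
  have hsymm : (𝒜.φ i).symm x₀ = z := (𝒜.φ i).left_inv hsrc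
  obtain ⟨ξ, hξ⟩ := exists_orthonormal (𝒢.lm i) hx₀
  have hη := fun j => h.exists_eta hDR hMP hz i hsrc (ξ j)
  choose η hηs hηt hηz hηp using hη
  have hθc : Continuous θ := h.sm.continuous
  -- the values of `bb`
  have hbθ : ∀ j p, 𝒢.bb (η j) θ p = 0 := by
    intro j p
    rw [𝒢.bb_const (hηs j) h.sm (hηt j) h.t2 p z]
    unfold Met.bb
    rw [hz, hηz j, h.inn_zero hz]
    ring
  have hbη : ∀ j k p, 𝒢.bb (η j) (η k) p = if j = k then -1 else 0 := by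
    intro j k p
    rw [𝒢.bb_const (hηs j) (hηs k) (hηt j) (hηt k) p z]
    have h1 : 𝒢.inn (η j) (η k) z = if j = k then 1 else 0 := by
      have h2 := 𝒢.inn_chart isOpen_univ ((hηs j).on univ) ((hηs k).on univ) i
        (z := x₀) ⟨hx₀, mem_univ _⟩
      rw [hsymm] at h2
      rw [h2, ← hξ j k]
      unfold YR.inn
      refine Finset.sum_congr rfl fun a _ => Finset.sum_congr rfl fun b _ => ?_
      rw [hηp j a, hηp k b]
    unfold Met.bb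
    rw [hηz j, hηz k, h1]
    split_ifs <;> ring
  -- the open set `N`
  set N : Set M := {p | 0 < θ p} with hN
  have hNo : IsOpen N := isOpen_lt continuous_const hθc
  let η4 : M → ℝ := fun p => ∑ j, η j p ^ 2 / θ p
  have hη4 : 𝒜.SmOn N η4 := by
    refine Atl.SmOn.sum fun j _ => ?_
    exact (((hηs j).on N).pow 2).div (h.sm.on N) fun p hp => ne_of_gt hp
  have hchart : ∀ p ∈ N, 𝒢.t2 η4 p = 0 ∧ 𝒢.bb θ η4 p = 2 ∧ 𝒢.bb η4 η4 p = 0 := by
    intro p hp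
    set k := 𝒜.idx p with hk
    have hpk : p ∈ (𝒜.φ k).source := Atl.idx_source p
    have hxk : 𝒜.φ k p ∈ ball (0 : E) 4 := Atl.map_mem k hpk
    have hpsymm : (𝒜.φ k).symm (𝒜.φ k p) = p := (𝒜.φ k).left_inv hpk
    have hdom : 𝒜.φ k p ∈ 𝒜.dom N k := ⟨hxk, by rw [mem_ofPred_eq, hpsymm]; exact hp⟩
    have hdo : IsOpen (𝒜.dom N k) := Atl.isOpen_dom hNo k
    have hsub : 𝒜.dom N k ⊆ ball (0 : E) 4 := fun x hx => hx.1
    have hLM : LM (𝒜.dom N k) (𝒢.g k) := (𝒢.lm k).mono hdo hsub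
    have halg := alg_point hLM (w := 𝒜.rd θ k) (e := fun j => 𝒜.rd (η j) k)
      ((h.sm k).mono hsub) (fun y hy => hy.2) (fun j => (hηs j k).mono hsub)
      (𝒢.TT_of_t2 hNo (h.sm.on N) (fun p _ => h.t2 p) k)
      (fun j => 𝒢.TT_of_t2 hNo ((hηs j).on N) (fun p _ => hηt j p) k)
      (fun x hx => by
        rw [← 𝒢.bb_chart hNo (h.sm.on N) (h.sm.on N) k hx]
        exact h.bb_self _)
      (fun j x hx => by
        rw [← 𝒢.bb_chart hNo ((hηs j).on N) (h.sm.on N) k hx]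
        exact hbθ j _)
      (fun j l x hx => by
        rw [← 𝒢.bb_chart hNo ((hηs j).on N) ((hηs l).on N) k hx]
        exact hbη j l _)
      _ hdom
    obtain ⟨e1, e2, e3⟩ := halg
    have hrd : 𝒜.rd η4 k = fun y => ∑ j, 𝒜.rd (η j) k y ^ 2 / 𝒜.rd θ k y := rfl
    rw [← hrd] at e1 e2 e3
    refine ⟨?_, ?_, ?_⟩
    · have := 𝒢.t2_of_TT hNo hη4 k hdom e1
      rwa [hpsymm] at this
    · have := 𝒢.bb_chart hNo (h.sm.on N) hη4 k hdom
      rw [hpsymm] at this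
      rw [this, e2]
    · have := 𝒢.bb_chart hNo hη4 hη4 k hdom
      rw [hpsymm] at this
      rw [this, e3]
  obtain ⟨η', hη's, hη'N, hη't⟩ := h.remov hη4 fun p hp => (hchart p hp).1
  have hNe : ∃ p, p ∈ N := by
    obtain ⟨p, hp⟩ := h.ne
    exact ⟨p, lt_of_le_of_ne (h.nn p) (Ne.symm hp)⟩
  obtain ⟨p₀, hp₀⟩ := hNe
  have hs1 : 𝒜.Sm fun p => θ p + η' p := h.sm.add hη's
  have hs2 : 𝒜.Sm fun p => (1 / 2 : ℝ) * (θ p + η' p) := (Atl.Sm.const _).mul hs1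
  have ht2 : ∀ p, 𝒢.t2 (fun p => (1 / 2 : ℝ) * (θ p + η' p)) p = 0 := by
    intro p
    rw [𝒢.t2_const_mul isOpen_univ (mem_univ p) (hs1.on univ),
      𝒢.t2_add_eq_zero isOpen_univ (mem_univ p) (h.sm.on univ) (hη's.on univ) (h.t2 p) (hη't p),
      mul_zero]
  have hbb : ∀ p, 𝒢.bb (fun p => (1 / 2 : ℝ) * (θ p + η' p))
      (fun p => (1 / 2 : ℝ) * (θ p + η' p)) p = 1 := by
    intro p
    rw [𝒢.bb_const hs2 hs2 ht2 ht2 p p₀]
    have e1 : 𝒢.bb θ η' p₀ = 2 := by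
      rw [← (hchart p₀ hp₀).2.1]
      exact 𝒢.bb_congr hNo hp₀ (fun q _ => rfl) (fun q hq => hη'N q hq)
    have e2 : 𝒢.bb η' η' p₀ = 0 := by
      rw [← (hchart p₀ hp₀).2.2]
      exact 𝒢.bb_congr hNo hp₀ (fun q hq => hη'N q hq) (fun q hq => hη'N q hq)
    have e3 : 𝒢.bb η' θ p₀ = 2 := by rw [𝒢.bb_symm, e1]
    have hu := isOpen_univ (X := M)
    have hadd : ∀ f, 𝒢.bb (fun p => θ p + η' p) f p₀ = 𝒢.bb θ f p₀ + 𝒢.bb η' f p₀ := fun f =>
      𝒢.bb_add hu (mem_univ p₀) (h.sm.on univ) (hη's.on univ) f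
    have hcm : ∀ f, 𝒢.bb (fun p => (1 / 2 : ℝ) * (θ p + η' p)) f p₀ =
        1 / 2 * 𝒢.bb (fun p => θ p + η' p) f p₀ := fun f =>
      𝒢.bb_const_mul hu (mem_univ p₀) (hs1.on univ) _ f
    rw [hcm, 𝒢.bb_symm, hcm, hadd, 𝒢.bb_symm θ (fun p => θ p + η' p),
      𝒢.bb_symm η' (fun p => θ p + η' p), hadd, hadd, h.bb_self, e1, e2, e3]
    norm_num
  have hcont : Continuous fun p => (1 / 2 : ℝ) * (θ p + η' p) := hs2.continuous
  have hnn : ∀ p, 0 ≤ (1 / 2 : ℝ) * (θ p + η' p) := by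
    have hcl : IsClosed {p | 0 ≤ (1 / 2 : ℝ) * (θ p + η' p)} :=
      isClosed_le continuous_const hcont
    have hsub : N ⊆ {p | 0 ≤ (1 / 2 : ℝ) * (θ p + η' p)} := by
      intro p hp
      have hp' : 0 < θ p := hp
      have h1 : η' p = ∑ j, η j p ^ 2 / θ p := hη'N p hp
      have h2 : 0 ≤ ∑ j, η j p ^ 2 / θ p :=
        Finset.sum_nonneg fun j _ => div_nonneg (sq_nonneg _) hp'.le
      change 0 ≤ (1 / 2 : ℝ) * (θ p + η' p)
      rw [h1]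
      positivity
    have huniv := hcl.closure_subset_iff.2 hsub
    rw [h.dense.closure_eq] at huniv
    exact fun p => huniv (mem_univ p)
  refine ⟨fun p => (1 / 2 : ℝ) * (θ p + η' p), hs2, fun p => ?_, ht2, hbb⟩
  refine lt_of_le_of_ne (hnn p) fun h0 => ?_
  have h1 := hbb p
  unfold Met.bb at h1
  rw [← h0] at h1
  have h2 := 𝒢.inn_self_nonneg (fun p => (1 / 2 : ℝ) * (θ p + η' p)) p
  linarith

end YR
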