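import Pool.Agent.Work.MP_71b0e8_gt.Skel.B12
import Pool.Agent.Work.MP_71b0e8_gt.Skel.MaxP
import Pool.Agent.Work.MP_71b0e8_gt.Top

/-!
# B13 : `PartB` of Top from `ZD.partB`
-/

open scoped ContDiff Topology
open MeasureTheory Metric Set Filter

noncomputable section

namespace YR

theorem MP_of_scal {M : Type*} [TopologicalSpace M] [CompactSpace M] [T2Space M]
    [ConnectedSpace M] {𝒜 : Atl M} (𝒢 : Met 𝒜) (hR : ∀ p, 0 < 𝒢.scal p) : 𝒢.MP := by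
  intro u hu hL p
  obtain ⟨q, -, hq⟩ := isCompact_univ.exists_isMinOn univ_nonempty
    (𝒢.Sm_scal.continuous).continuousOn
  have hr : 0 < 𝒢.scal q := hR q
  have hUB := UB_neg 𝒢 hr le_rfl (fun p => hq (mem_univ p))
  have hk : 𝒜.Sm fun q => (-1 : ℝ) * u q := (Atl.Sm.const (-1)).mul hu
  have h1 := hUB (fun q => (-1 : ℝ) * u q) hk 0 le_rfl (fun p => by
    have h2 := hL p
    unfold Met.L at h2 ⊢
    rw [𝒢.lap_const_mul isOpen_univ (mem_univ p) (hu.on univ)]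
    linarith) p
  linarith

theorem partB_of.{u} (hD : ∀ (M : Type u) [TopologicalSpace M] [T2Space M] [CompactSpace M]
    [ConnectedSpace M] [MeasurableSpace M] [BorelSpace M] (𝒜 : Atl M) (𝒢 : Met 𝒜),
    (∀ p, 0 < 𝒢.scal p) → DR 𝒢 0) : PartB.{u} := by
  intro M _ _ _ _ _ _ 𝒜 𝒢 hs θ hθ hnn hne hz h0
  have h : ZD 𝒢 θ := ⟨hθ, hnn, h0, hs, hz, hne⟩
  obtain ⟨Ξ, h1, h2, h3, -⟩ := h.partB (hD M 𝒜 𝒢 hs) (MP_of_scal 𝒢 hs)
  exact ⟨Ξ, h1, h2, h3⟩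

end YR
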