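import Pool.Agent.Work.MP_71b0e8_gt.Skel.B2
import Pool.Agent.Work.MP_71b0e8_gt.Skel.Int

/-!
# B3 : the barrier `(θ + s)^{-1/4}` and the volume of `{θ ≤ s}`
-/

open scoped ContDiff Topology
open MeasureTheory Metric Set Filter

noncomputable section

namespace YR

variable {M : Type*} [TopologicalSpace M] [T2Space M] [CompactSpace M] [ConnectedSpace M]
  {𝒜 : Atl M} {𝒢 : Met 𝒜} {θ : M → ℝ}

omit [T2Space M] [CompactSpace M] [ConnectedSpace M] in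
theorem ZD.add_pos' (h : ZD 𝒢 θ) {s : ℝ} (hs : 0 < s) (p : M) : 0 < θ p + s := by
  have := h.nn p; linarith

/-- `(θ+s)^{-1/4}` is smooth -/
theorem ZD.sm_barrier (h : ZD 𝒢 θ) {s : ℝ} (hs : 0 < s) :
    𝒜.Sm fun q => (θ q + s) ^ (-(1 / 4) : ℝ) :=
  (h.sm.add (Atl.Sm.const s)).rpow (fun p => h.add_pos' hs p) _

/-- exact formula -/
theorem ZD.L_barrier (h : ZD 𝒢 θ) {s : ℝ} (hs : 0 < s) (p : M) :
    𝒢.L (fun q => (θ q + s) ^ (-(1 / 4) : ℝ)) p =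
      (θ p + s) ^ (-(9 / 4) : ℝ) * (𝒢.rho θ p * θ p + 6 * 𝒢.rho θ p * s -
        𝒢.scal p / 2 * θ p * (θ p + s)) + 𝒢.scal p * (θ p + s) ^ (-(1 / 4) : ℝ) := by
  have ht : 0 < θ p + s := h.add_pos' hs p
  have hS : IsOpen (Ioi (-s)) := isOpen_Ioi
  have hd : ∀ (r x : ℝ), x ∈ Ioi (-s) →
      HasDerivAt (fun y : ℝ => (y + s) ^ r) (r * (x + s) ^ (r - 1)) x := by
    intro r x hx
    have hx' : 0 < x + s := by
      have : -s < x := hx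
      linarith
    have h1 : HasDerivAt (fun y : ℝ => y + s) 1 x := (hasDerivAt_id x).add_const s
    have h2 := h1.rpow_const (p := r) (Or.inl hx'.ne')
    simpa using h2
  have hF : ContDiffOn ℝ ∞ (fun x : ℝ => (x + s) ^ (-(1 / 4) : ℝ)) (Ioi (-s)) := by
    intro x hx
    have hx' : x + s ≠ 0 := by
      have : -s < x := hx
      linarith [this] |> fun (h : (0 : ℝ) < x + s) => h.ne'
    exact ((contDiffAt_id.add contDiffAt_const).rpow_const_of_ne hx').contDiffWithinAt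
  have hθ : θ p ∈ Ioi (-s) := by
    have : -s < θ p := by linarith
    exact this
  have hl := 𝒢.lap_comp (U := univ) isOpen_univ (mem_univ p) (h.sm.on univ) hS hF
    (fun q _ => by
      have : -s < θ q := by linarith [h.nn q]
      exact this)
  have hd1 : deriv (fun x : ℝ => (x + s) ^ (-(1 / 4) : ℝ)) (θ p) =
      (-(1 / 4)) * (θ p + s) ^ (-(5 / 4) : ℝ) := by
    rw [(hd _ _ hθ).deriv]
    norm_num
  have hd2 : deriv (deriv (fun x : ℝ => (x + s) ^ (-(1 / 4) : ℝ))) (θ p) =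
      (5 / 16) * (θ p + s) ^ (-(9 / 4) : ℝ) := by
    have he : deriv (fun x : ℝ => (x + s) ^ (-(1 / 4) : ℝ)) =ᶠ[𝓝 (θ p)]
        fun x => (-(1 / 4) : ℝ) * (x + s) ^ (-(5 / 4) : ℝ) := by
      filter_upwards [hS.mem_nhds hθ] with x hx
      rw [(hd _ _ hx).deriv]
      norm_num
    rw [he.deriv_eq, ((hd _ _ hθ).const_mul _).deriv]
    norm_num
    ring_nf
  rw [Met.L, hl, hd1, hd2, h.inn_self]
  have hlap : 𝒢.lap θ p = 3 * 𝒢.rho θ p - 𝒢.scal p / 4 * θ p := by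
    rw [Met.rho]; ring
  have h54 : (θ p + s) ^ (-(5 / 4) : ℝ) = (θ p + s) ^ (-(9 / 4) : ℝ) * (θ p + s) := by
    rw [← Real.rpow_add_one ht.ne']; norm_num
  rw [hlap, h54]
  ring

/-- `ρ` is positive where `θ` is small -/
theorem ZD.exists_rho_lower (h : ZD 𝒢 θ) : ∃ m > 0, ∀ p, θ p < m → m ≤ 𝒢.rho θ p := by
  have hc : Continuous fun p => max (θ p) (𝒢.rho θ p) :=
    h.sm.continuous.max (𝒢.Sm_rho h.sm).continuous
  obtain ⟨p₀, h₀⟩ := h.zero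
  obtain ⟨p₁, -, h₁⟩ := isCompact_univ.exists_isMinOn ⟨p₀, mem_univ _⟩ hc.continuousOn
  refine ⟨max (θ p₁) (𝒢.rho θ p₁), ?_, fun p hp => ?_⟩
  · rcases (h.nn p₁).eq_or_lt with h2 | h2
    · exact lt_max_of_lt_right (h.rho_pos h2.symm)
    · exact lt_max_of_lt_left h2
  · have h3 : max (θ p₁) (𝒢.rho θ p₁) ≤ max (θ p) (𝒢.rho θ p) := h₁ (mem_univ p)
    rcases le_max_iff.1 h3 with h4 | h4
    · exact absurd h4 (not_le.2 hp)
    · exact h4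

theorem ZD.barrier (h : ZD 𝒢 θ) : ∃ c > 0, ∃ C, ∀ s, 0 < s → s ≤ 1 → ∀ p,
    c * (θ p + s) ^ (-(5 / 4) : ℝ) - C ≤ 𝒢.L (fun q => (θ q + s) ^ (-(1 / 4) : ℝ)) p := by
  obtain ⟨m, hm, hρ⟩ := h.exists_rho_lower
  obtain ⟨p₀, h₀⟩ := h.zero
  obtain ⟨p₁, -, h₁⟩ := isCompact_univ.exists_isMinOn ⟨p₀, mem_univ _⟩
    (𝒢.Sm_rho h.sm).continuous.continuousOn
  set K : ℝ := |𝒢.rho θ p₁| with hK
  have hK0 : 0 ≤ K := abs_nonneg _
  have hKb : ∀ p, -K ≤ 𝒢.rho θ p := fun p => by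
    have h2 : 𝒢.rho θ p₁ ≤ 𝒢.rho θ p := h₁ (mem_univ p)
    have h3 : -K ≤ 𝒢.rho θ p₁ := neg_abs_le _
    linarith
  refine ⟨m, hm, (6 * K + m) * m ^ (-(5 / 4) : ℝ), fun s hs hs1 p => ?_⟩
  have ht : 0 < θ p + s := h.add_pos' hs p
  have hR := h.R p
  have hn := h.nn p
  rw [h.L_barrier hs p]
  set t := θ p + s with htd
  have h54 : t ^ (-(5 / 4) : ℝ) = t ^ (-(9 / 4) : ℝ) * t := by
    rw [← Real.rpow_add_one ht.ne']; norm_num
  have h14 : t ^ (-(1 / 4) : ℝ) = t ^ (-(5 / 4) : ℝ) * t := by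
    rw [← Real.rpow_add_one ht.ne']; norm_num
  have p94 : 0 < t ^ (-(9 / 4) : ℝ) := Real.rpow_pos_of_pos ht _
  have p54 : 0 < t ^ (-(5 / 4) : ℝ) := Real.rpow_pos_of_pos ht _
  have q54 : 0 < m ^ (-(5 / 4) : ℝ) := Real.rpow_pos_of_pos hm _
  have hrw : t ^ (-(9 / 4) : ℝ) * (𝒢.rho θ p * θ p + 6 * 𝒢.rho θ p * s -
        𝒢.scal p / 2 * θ p * t) + 𝒢.scal p * t ^ (-(1 / 4) : ℝ) =
      t ^ (-(9 / 4) : ℝ) * (𝒢.rho θ p * (θ p + 6 * s)) +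
        𝒢.scal p * t ^ (-(5 / 4) : ℝ) * (t - θ p / 2) := by
    rw [h14, h54]; ring
  rw [hrw]
  have hpos : 0 ≤ 𝒢.scal p * t ^ (-(5 / 4) : ℝ) * (t - θ p / 2) := by
    refine mul_nonneg (mul_nonneg hR.le p54.le) ?_
    rw [htd]; linarith
  rcases lt_or_ge (θ p) m with h2 | h2
  · have h3 := hρ p h2
    have h4 : m * t ≤ 𝒢.rho θ p * (θ p + 6 * s) := by
      have h5 : t ≤ θ p + 6 * s := by rw [htd]; linarith
      have h6 : 0 ≤ θ p + 6 * s := by linarith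
      calc m * t ≤ m * (θ p + 6 * s) := mul_le_mul_of_nonneg_left h5 hm.le
        _ ≤ _ := mul_le_mul_of_nonneg_right h3 h6
    have h7 : m * t ^ (-(5 / 4) : ℝ) ≤ t ^ (-(9 / 4) : ℝ) * (𝒢.rho θ p * (θ p + 6 * s)) := by
      rw [h54]
      calc m * (t ^ (-(9 / 4) : ℝ) * t) = t ^ (-(9 / 4) : ℝ) * (m * t) := by ring
        _ ≤ _ := mul_le_mul_of_nonneg_left h4 p94.le
    have h8 : 0 ≤ (6 * K + m) * m ^ (-(5 / 4) : ℝ) := by positivity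
    linarith
  · have h3 := hKb p
    have h4 : -(6 * K * t) ≤ 𝒢.rho θ p * (θ p + 6 * s) := by
      have h5 : θ p + 6 * s ≤ 6 * t := by rw [htd]; linarith
      have h6 : 0 ≤ θ p + 6 * s := by linarith
      have h7 : -K * (θ p + 6 * s) ≤ 𝒢.rho θ p * (θ p + 6 * s) :=
        mul_le_mul_of_nonneg_right h3 h6
      have h8 : K * (θ p + 6 * s) ≤ K * (6 * t) := mul_le_mul_of_nonneg_left h5 hK0
      linarith
    have h7 : -(6 * K * t ^ (-(5 / 4) : ℝ)) ≤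
        t ^ (-(9 / 4) : ℝ) * (𝒢.rho θ p * (θ p + 6 * s)) := by
      rw [h54]
      calc -(6 * K * (t ^ (-(9 / 4) : ℝ) * t)) = t ^ (-(9 / 4) : ℝ) * (-(6 * K * t)) := by ring
        _ ≤ _ := mul_le_mul_of_nonneg_left h4 p94.le
    have h9 : t ^ (-(5 / 4) : ℝ) ≤ m ^ (-(5 / 4) : ℝ) := by
      refine Real.rpow_le_rpow_of_nonpos hm ?_ (by norm_num)
      rw [htd]; linarith
    have h10 : (6 * K + m) * t ^ (-(5 / 4) : ℝ) ≤ (6 * K + m) * m ^ (-(5 / 4) : ℝ) :=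
      mul_le_mul_of_nonneg_left h9 (by positivity)
    linarith

theorem ZD.vol_small [MeasurableSpace M] [BorelSpace M] (h : ZD 𝒢 θ) :
    ∃ C, ∀ s, 0 < s → s ≤ 1 → 𝒢.vol.real {p | θ p ≤ s} ≤ C * s ^ (5 / 4 : ℝ) := by
  obtain ⟨c, hc, C, hb⟩ := h.barrier
  obtain ⟨p₀, h₀⟩ := h.zero
  obtain ⟨p₁, -, h₁⟩ := isCompact_univ.exists_isMaxOn ⟨p₀, mem_univ _⟩
    𝒢.Sm_scal.continuous.continuousOn
  set K : ℝ := 𝒢.scal p₁ with hK
  have hK0 : 0 < K := h.R p₁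
  have hKb : ∀ p, 𝒢.scal p ≤ K := fun p => h₁ (mem_univ p)
  set ε : ℝ := c / (2 * K) with hε
  have hε0 : 0 < ε := by positivity
  set V : ℝ := 𝒢.vol.real univ with hV
  have hV0 : 0 ≤ V := measureReal_nonneg
  set D : ℝ := (C + K * ε ^ (-(1 / 4) : ℝ)) * V with hD
  refine ⟨2 * D / c * 2 ^ (5 / 4 : ℝ), fun s hs hs1 => ?_⟩
  have hpos : ∀ p, 0 < θ p + s := h.add_pos' hs
  have cont : ∀ r : ℝ, Continuous fun p => (θ p + s) ^ r := fun r =>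
    (h.sm.continuous.add continuous_const).rpow_const fun p => Or.inl (hpos p).ne'
  have int : ∀ r : ℝ, Integrable (fun p => (θ p + s) ^ r) 𝒢.vol := fun r =>
    𝒢.integrable_of_continuous (cont r)
  have hsm := h.sm_barrier hs
  have hLint : ∫ p, 𝒢.L (fun q => (θ q + s) ^ (-(1 / 4) : ℝ)) p ∂𝒢.vol =
      ∫ p, 𝒢.scal p * (θ p + s) ^ (-(1 / 4) : ℝ) ∂𝒢.vol := by
    have h2 : ∀ p, 𝒢.L (fun q => (θ q + s) ^ (-(1 / 4) : ℝ)) p =
        -8 * 𝒢.lap (fun q => (θ q + s) ^ (-(1 / 4) : ℝ)) p +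
          𝒢.scal p * (θ p + s) ^ (-(1 / 4) : ℝ) := fun p => rfl
    simp_rw [h2]
    rw [integral_add, integral_const_mul, 𝒢.integral_lap hsm]
    · simp
    · exact (𝒢.integrable_sm (𝒢.Sm_lap hsm)).const_mul _
    · exact 𝒢.integrable_of_continuous (𝒢.Sm_scal.continuous.mul (cont _))
  have hpt : ∀ p, c * (θ p + s) ^ (-(5 / 4) : ℝ) - C + (𝒢.scal p * (θ p + s) ^ (-(1 / 4) : ℝ) -
      K * (ε * (θ p + s) ^ (-(5 / 4) : ℝ) + ε ^ (-(1 / 4) : ℝ))) ≤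
        𝒢.L (fun q => (θ q + s) ^ (-(1 / 4) : ℝ)) p := by
    intro p
    have h2 := hb s hs hs1 p
    have ht := hpos p
    have h14 : (θ p + s) ^ (-(1 / 4) : ℝ) = (θ p + s) ^ (-(5 / 4) : ℝ) * (θ p + s) := by
      rw [← Real.rpow_add_one ht.ne']; norm_num
    have p54 : 0 < (θ p + s) ^ (-(5 / 4) : ℝ) := Real.rpow_pos_of_pos ht _
    have p14 : 0 < (θ p + s) ^ (-(1 / 4) : ℝ) := Real.rpow_pos_of_pos ht _
    have h3 : (θ p + s) ^ (-(1 / 4) : ℝ) ≤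
        ε * (θ p + s) ^ (-(5 / 4) : ℝ) + ε ^ (-(1 / 4) : ℝ) := by
      rcases le_total (θ p + s) ε with h4 | h4
      · rw [h14]
        have h5 : 0 ≤ ε ^ (-(1 / 4) : ℝ) := Real.rpow_nonneg hε0.le _
        nlinarith
      · have h5 : (θ p + s) ^ (-(1 / 4) : ℝ) ≤ ε ^ (-(1 / 4) : ℝ) :=
          Real.rpow_le_rpow_of_nonpos hε0 h4 (by norm_num)
        have h6 : 0 ≤ ε * (θ p + s) ^ (-(5 / 4) : ℝ) := by positivity
        linarith
    have h4 : 𝒢.scal p * (θ p + s) ^ (-(1 / 4) : ℝ) ≤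
        K * (ε * (θ p + s) ^ (-(5 / 4) : ℝ) + ε ^ (-(1 / 4) : ℝ)) :=
      (mul_le_mul_of_nonneg_right (hKb p) p14.le).trans (mul_le_mul_of_nonneg_left h3 hK0.le)
    linarith
  have hKε : K * ε = c / 2 := by
    rw [hε]; field_simp
  have hmain : c / 2 * ∫ p, (θ p + s) ^ (-(5 / 4) : ℝ) ∂𝒢.vol ≤ D := by
    have h2 : ∫ p, (c / 2 * (θ p + s) ^ (-(5 / 4) : ℝ) - (C + K * ε ^ (-(1 / 4) : ℝ)) +
        𝒢.scal p * (θ p + s) ^ (-(1 / 4) : ℝ)) ∂𝒢.vol ≤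
        ∫ p, 𝒢.L (fun q => (θ q + s) ^ (-(1 / 4) : ℝ)) p ∂𝒢.vol := by
      refine integral_mono ?_ ?_ ?_
      · exact (((int _).const_mul _).sub (integrable_const _)).add
          (𝒢.integrable_of_continuous (𝒢.Sm_scal.continuous.mul (cont _)))
      · exact 𝒢.integrable_sm (𝒢.Sm_L hsm)
      · intro p
        have h3 := hpt p
        have h4 : K * (ε * (θ p + s) ^ (-(5 / 4) : ℝ) + ε ^ (-(1 / 4) : ℝ)) =
            c / 2 * (θ p + s) ^ (-(5 / 4) : ℝ) + K * ε ^ (-(1 / 4) : ℝ) := by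
          rw [mul_add, ← mul_assoc, hKε]
        rw [h4] at h3
        show c / 2 * (θ p + s) ^ (-(5 / 4) : ℝ) - (C + K * ε ^ (-(1 / 4) : ℝ)) +
          𝒢.scal p * (θ p + s) ^ (-(1 / 4) : ℝ) ≤ _
        linarith
    rw [hLint, integral_add, integral_sub, integral_const_mul, integral_const] at h2
    · rw [smul_eq_mul] at h2
      have h3 : 𝒢.vol.real univ * (C + K * ε ^ (-(1 / 4) : ℝ)) = D := by
        rw [hD, hV]; ring
      linarith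
    · exact (int _).const_mul _
    · exact integrable_const _
    · exact ((int _).const_mul _).sub (integrable_const _)
    · exact 𝒢.integrable_of_continuous (𝒢.Sm_scal.continuous.mul (cont _))
  have hmk := mul_meas_ge_le_integral_of_nonneg (μ := 𝒢.vol)
    (f := fun p => (θ p + s) ^ (-(5 / 4) : ℝ))
    (Eventually.of_forall fun p => Real.rpow_nonneg (hpos p).le _) (int _)
    ((2 * s) ^ (-(5 / 4) : ℝ))
  have hsub : 𝒢.vol.real {p | θ p ≤ s} ≤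
      𝒢.vol.real {p | (2 * s) ^ (-(5 / 4) : ℝ) ≤ (θ p + s) ^ (-(5 / 4) : ℝ)} := by
    refine measureReal_mono (fun p hp => ?_) (measure_ne_top _ _)
    have hp' : θ p ≤ s := hp
    exact Real.rpow_le_rpow_of_nonpos (hpos p) (by linarith) (by norm_num)
  have h2s : 0 < (2 * s) ^ (-(5 / 4) : ℝ) := Real.rpow_pos_of_pos (by positivity) _
  have hinv : (2 * s) ^ (-(5 / 4) : ℝ) * (2 ^ (5 / 4 : ℝ) * s ^ (5 / 4 : ℝ)) = 1 := by
    rw [← Real.mul_rpow (by norm_num) hs.le, ← Real.rpow_add (by positivity)]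
    norm_num
  have h5 : (2 * s) ^ (-(5 / 4) : ℝ) * 𝒢.vol.real {p | θ p ≤ s} ≤ 2 * D / c := by
    have h6 : ∫ p, (θ p + s) ^ (-(5 / 4) : ℝ) ∂𝒢.vol ≤ 2 * D / c := by
      rw [le_div_iff₀ hc]; linarith
    exact ((mul_le_mul_of_nonneg_left hsub h2s.le).trans hmk).trans h6
  have h6 : 0 ≤ 2 ^ (5 / 4 : ℝ) * s ^ (5 / 4 : ℝ) := by positivity
  calc 𝒢.vol.real {p | θ p ≤ s} =
        (2 * s) ^ (-(5 / 4) : ℝ) * 𝒢.vol.real {p | θ p ≤ s} *
          (2 ^ (5 / 4 : ℝ) * s ^ (5 / 4 : ℝ)) := by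
        rw [mul_right_comm, hinv, one_mul]
    _ ≤ 2 * D / c * (2 ^ (5 / 4 : ℝ) * s ^ (5 / 4 : ℝ)) := mul_le_mul_of_nonneg_right h5 h6
    _ = _ := by ring

theorem ZD.vol_zero [MeasurableSpace M] [BorelSpace M] (h : ZD 𝒢 θ) :
    𝒢.vol {p | θ p = 0} = 0 := by
  obtain ⟨C, hC⟩ := h.vol_small
  have h1 : ∀ s : ℝ, 0 < s → s ≤ 1 → 𝒢.vol.real {p | θ p = 0} ≤ C * s ^ (5 / 4 : ℝ) :=
    fun s hs hs1 => (measureReal_mono (fun p hp => by
      have : θ p = 0 := hp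
      show θ p ≤ s
      linarith) (measure_ne_top _ _)).trans (hC s hs hs1)
  have h2 : Tendsto (fun s : ℝ => C * s ^ (5 / 4 : ℝ)) (𝓝[>] 0) (𝓝 (C * 0 ^ (5 / 4 : ℝ))) := by
    have h3 : Continuous fun s : ℝ => C * s ^ (5 / 4 : ℝ) :=
      continuous_const.mul (Real.continuous_rpow_const (by norm_num))
    exact (h3.tendsto 0).mono_left nhdsWithin_le_nhds
  have h3 : 𝒢.vol.real {p | θ p = 0} ≤ C * 0 ^ (5 / 4 : ℝ) := by
    refine ge_of_tendsto h2 ?_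
    filter_upwards [Ioc_mem_nhdsGT (zero_lt_one : (0 : ℝ) < 1)] with s hs
    exact h1 s hs.1 hs.2
  rw [Real.zero_rpow (by norm_num), mul_zero] at h3
  have h4 : 𝒢.vol.real {p | θ p = 0} = 0 := le_antisymm h3 measureReal_nonneg
  exact (measureReal_eq_zero_iff (measure_ne_top _ _)).1 h4

end YR
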