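import Pool.Agent.Work.MP_71b0e8_gt.Skel.B3

/-!
# B5a : the error `ee`
-/

open scoped ContDiff Topology
open MeasureTheory Metric Set Filter

noncomputable section

namespace YR

variable {M : Type*} [TopologicalSpace M] [T2Space M] [CompactSpace M] [ConnectedSpace M]
  {𝒜 : Atl M} {𝒢 : Met 𝒜} {θ η0 : M → ℝ}

theorem ZD.ee_bound (h : ZD 𝒢 θ) (hs : Seed 𝒢 θ η0) : ∃ C, ∀ p, 0 < θ p →
    |𝒢.ee θ η0 p| ≤ C * (θ p)⁻¹ := by
  obtain ⟨C, hC⟩ := hs.bd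
  refine ⟨24 * C, fun p hp => ?_⟩
  have h1 := (hC p).2.1
  unfold Met.ee
  rw [abs_mul, abs_mul, abs_of_pos (Real.rpow_pos_of_pos hp _)]
  have h2 : |(-24 : ℝ)| = 24 := by norm_num
  rw [h2]
  have h3 : θ p ^ (-(5 / 2) : ℝ) * θ p ^ (3 / 2 : ℝ) = (θ p)⁻¹ := by
    rw [← Real.rpow_add hp, ← Real.rpow_neg_one]
    norm_num
  calc 24 * θ p ^ (-(5 / 2) : ℝ) * |𝒢.bb η0 θ p|
      ≤ 24 * θ p ^ (-(5 / 2) : ℝ) * (C * θ p ^ (3 / 2 : ℝ)) :=
        mul_le_mul_of_nonneg_left h1 (by positivity)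
    _ = 24 * C * (θ p ^ (-(5 / 2) : ℝ) * θ p ^ (3 / 2 : ℝ)) := by ring
    _ = 24 * C * (θ p)⁻¹ := by rw [h3]

theorem ZD.ee_sm (h : ZD 𝒢 θ) (hs : Seed 𝒢 θ η0) {m : ℝ} (hm : 0 < m) :
    𝒜.Sm fun p => qcut θ m p * 𝒢.ee θ η0 p := by
  have hU : IsOpen {p | 0 < θ p} := isOpen_lt continuous_const h.sm.continuous
  have hq : 𝒜.Sm (qcut θ m) := by
    have h1 : 𝒜.Sm fun p => m * θ p - 1 := ((Atl.Sm.const m).mul h.sm).sub (Atl.Sm.const 1)
    exact Atl.Sm.comp (F := Real.smoothTransition) (S := univ)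
      Real.smoothTransition.contDiff.contDiffOn h1 (fun _ => mem_univ _)
  refine hq.mul_on hU ?_ ?_
  · have h2 : Function.support (qcut θ m) ⊆ {p | 1 / m ≤ θ p} := by
      intro p hp
      by_contra hcon
      apply hp
      unfold qcut
      apply Real.smoothTransition.zero_of_nonpos
      have h3 : θ p < 1 / m := not_le.mp hcon
      rw [lt_div_iff₀ hm] at h3
      linarith
    have h4 : IsClosed {p | 1 / m ≤ θ p} := isClosed_le continuous_const h.sm.continuous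
    refine (closure_minimal h2 h4).trans fun p hp => ?_
    have h5 : 1 / m ≤ θ p := hp
    have h6 : 0 < 1 / m := by positivity
    exact lt_of_lt_of_le h6 h5
  · have h7 : 𝒜.SmOn {p | 0 < θ p} (fun p => θ p ^ (-(5 / 2) : ℝ)) :=
      (h.sm.on _).rpow (fun p hp => hp) _
    have h8 : 𝒜.SmOn {p | 0 < θ p} (𝒢.bb η0 θ) := (𝒢.Sm_bb hs.sm h.sm).on _
    exact ((Atl.SmOn.const (-24)).mul h7).mul h8

end YR
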