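import Pool.Agent.Work.MP_71b0e8_gt.Skel.B3

/-!
# B5b : comparison with the barrier
-/

open scoped ContDiff Topology
open MeasureTheory Metric Set Filter

noncomputable section

namespace YR

variable {M : Type*} [TopologicalSpace M] [T2Space M] [CompactSpace M] [ConnectedSpace M]
  {𝒜 : Atl M} {𝒢 : Met 𝒜} {θ η0 : M → ℝ}

omit [T2Space M] [ConnectedSpace M] in
theorem ZD.exists_scal_lb (h : ZD 𝒢 θ) : ∃ R₀ : ℝ, 0 < R₀ ∧ ∀ p, R₀ ≤ 𝒢.scal p := by
  obtain ⟨q, -⟩ := h.zero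
  have : Nonempty M := ⟨q⟩
  obtain ⟨p₀, -, hp₀⟩ := isCompact_univ.exists_isMinOn (univ_nonempty (α := M))
    (𝒢.Sm_scal.continuous.continuousOn)
  exact ⟨𝒢.scal p₀, h.R p₀, fun p => hp₀ (mem_univ p)⟩

theorem ZD.comparison (h : ZD 𝒢 θ) (hMP : 𝒢.MP) : ∃ c > 0, ∃ C, ∀ (a β s : ℝ), 0 ≤ a → 0 ≤ β →
    0 < s → s ≤ 1 → ∀ u : M → ℝ, 𝒜.Sm u →
      (∀ p, |𝒢.L u p| ≤ a * c * (θ p + s) ^ (-(5 / 4) : ℝ) + β) →
      ∀ p, |u p| ≤ a * (θ p + s) ^ (-(1 / 4) : ℝ) + C * (a + β) := by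
  obtain ⟨c, hc, C, hC⟩ := h.barrier
  obtain ⟨R₀, hR₀, hR⟩ := h.exists_scal_lb
  have hC' : (0 : ℝ) ≤ max C 0 := le_max_right _ _
  refine ⟨c, hc, (max C 0 + 1) / R₀, fun a β s ha hβ hs hs1 u hu hL => ?_⟩
  set b : M → ℝ := fun q => (θ q + s) ^ (-(1 / 4) : ℝ) with hb
  have hbs : 𝒜.Sm b := h.sm_barrier hs
  set K : ℝ := (a * max C 0 + β) / R₀ with hK
  have hKR : R₀ * K = a * max C 0 + β := by rw [hK]; field_simp
  have hK0 : 0 ≤ K := by rw [hK]; positivity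
  have key : ∀ v : M → ℝ, 𝒜.Sm v → (∀ p, 𝒢.L v p ≤ a * c * (θ p + s) ^ (-(5 / 4) : ℝ) + β) →
      ∀ p, v p ≤ a * b p + K := by
    intro v hv hLv
    have hw : 𝒜.Sm (fun q => (a * b q + K) - v q) :=
      (((Atl.Sm.const a).mul hbs).add (Atl.Sm.const K)).sub hv
    have hpos := hMP _ hw (fun p => ?_)
    · intro p
      have := hpos p
      linarith
    · have e1 : 𝒢.lap (fun q => (a * b q + K) - v q) p = a * 𝒢.lap b p - 𝒢.lap v p := by
        rw [𝒢.lap_sub isOpen_univ (mem_univ p) ((((Atl.Sm.const a).mul hbs).add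
            (Atl.Sm.const K)).on univ) (hv.on univ),
          𝒢.lap_add (u := fun q => a * b q) (v := fun _ => K) isOpen_univ (mem_univ p)
            (((Atl.Sm.const a).mul hbs).on univ) ((Atl.Sm.const K).on univ),
          𝒢.lap_const_mul isOpen_univ (mem_univ p) (hbs.on univ), 𝒢.lap_const]
        ring
      have e2 : 𝒢.L (fun q => (a * b q + K) - v q) p =
          a * 𝒢.L b p + 𝒢.scal p * K - 𝒢.L v p := by
        unfold Met.L
        rw [e1]
        ring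
      rw [e2]
      have h1 := hC s hs hs1 p
      have h2 := mul_le_mul_of_nonneg_left h1 ha
      have h3 := hLv p
      have h4 : R₀ * K ≤ 𝒢.scal p * K := mul_le_mul_of_nonneg_right (hR p) hK0
      have h5 : a * C ≤ a * max C 0 := mul_le_mul_of_nonneg_left (le_max_left _ _) ha
      have h6 : a * (c * (θ p + s) ^ (-(5 / 4) : ℝ) - C) =
          a * c * (θ p + s) ^ (-(5 / 4) : ℝ) - a * C := by ring
      rw [h6] at h2
      linarith
  have hKle : K ≤ (max C 0 + 1) / R₀ * (a + β) := by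
    rw [hK, div_mul_eq_mul_div, div_le_div_iff_of_pos_right hR₀]
    nlinarith [mul_nonneg hC' hβ]
  intro p
  have h1 := key u hu (fun p => (le_abs_self _).trans (hL p)) p
  have hn : 𝒜.Sm (fun q => (-1 : ℝ) * u q) := (Atl.Sm.const (-1)).mul hu
  have h2 := key (fun q => (-1 : ℝ) * u q) hn (fun p => ?_) p
  · rw [abs_le]
    constructor
    · linarith
    · linarith
  · have e3 : 𝒢.L (fun q => (-1 : ℝ) * u q) p = - 𝒢.L u p := by
      unfold Met.L
      rw [𝒢.lap_const_mul isOpen_univ (mem_univ p) (hu.on univ)]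
      ring
    rw [e3]
    exact (neg_le_abs _).trans (hL p)

end YR
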