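import Pool.Agent.Work.MP_71b0e8_gt.Skel.DR0

/-! Module DRA: the scalar profile `Φ(s) = e^{-μ√s}/√s · η(s)`. -/

open scoped ContDiff Topology
open MeasureTheory Metric Set Filter

noncomputable section

namespace YR

/-- the cut off, `1` for `s ≤ σ/2`, `0` for `s ≥ 3σ/4` -/
def dA_eta (σ s : ℝ) : ℝ := Real.smoothTransition (3 - 4 * s / σ)

theorem dA_eta_smooth (σ : ℝ) : ContDiff ℝ ∞ (dA_eta σ) := by
  unfold dA_eta
  refine Real.smoothTransition.contDiff.comp ?_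
  exact contDiff_const.sub ((contDiff_const.mul contDiff_id).div_const _)

theorem dA_eta_one {σ : ℝ} (hσ : 0 < σ) {s : ℝ} (hs : s ≤ σ / 2) : dA_eta σ s = 1 := by
  unfold dA_eta
  apply Real.smoothTransition.one_of_one_le
  have : 4 * s / σ ≤ 2 := by rw [div_le_iff₀ hσ]; linarith
  linarith

theorem dA_eta_zero {σ : ℝ} (hσ : 0 < σ) {s : ℝ} (hs : 3 * σ / 4 ≤ s) : dA_eta σ s = 0 := by
  unfold dA_eta
  apply Real.smoothTransition.zero_of_nonpos
  have : 3 ≤ 4 * s / σ := by rw [le_div_iff₀ hσ]; linarith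
  linarith

theorem dA_eta_abs (σ s : ℝ) : |dA_eta σ s| ≤ 1 := by
  unfold dA_eta
  rw [abs_of_nonneg (Real.smoothTransition.nonneg _)]
  exact Real.smoothTransition.le_one _

def dA_e1 (σ : ℝ) : ℝ → ℝ := deriv (dA_eta σ)
def dA_e2 (σ : ℝ) : ℝ → ℝ := deriv (dA_e1 σ)

theorem dA_e1_smooth (σ : ℝ) : ContDiff ℝ ∞ (dA_e1 σ) := by
  have h := dA_eta_smooth σ
  exact (contDiff_infty_iff_deriv.mp h).2

theorem dA_e2_smooth (σ : ℝ) : ContDiff ℝ ∞ (dA_e2 σ) := by
  have h := dA_e1_smooth σ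
  exact (contDiff_infty_iff_deriv.mp h).2

theorem dA_hd1 (σ s : ℝ) : HasDerivAt (dA_eta σ) (dA_e1 σ s) s :=
  ((dA_eta_smooth σ).differentiable (by simp) s).hasDerivAt

theorem dA_hd2 (σ s : ℝ) : HasDerivAt (dA_e1 σ) (dA_e2 σ s) s :=
  ((dA_e1_smooth σ).differentiable (by simp) s).hasDerivAt

theorem dA_e_small {σ : ℝ} (hσ : 0 < σ) {s : ℝ} (hs : s < σ / 2) :
    dA_e1 σ s = 0 ∧ dA_e2 σ s = 0 := by
  have h1 : ∀ t, t < σ / 2 → dA_e1 σ t = 0 := by
    intro t ht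
    have h : dA_eta σ =ᶠ[𝓝 t] fun _ => 1 := by
      filter_upwards [Iio_mem_nhds ht] with u hu
      exact dA_eta_one hσ (le_of_lt hu)
    unfold dA_e1
    rw [h.deriv_eq, deriv_const]
  refine ⟨h1 s hs, ?_⟩
  have h : dA_e1 σ =ᶠ[𝓝 s] fun _ => 0 := by
    filter_upwards [Iio_mem_nhds hs] with u hu
    exact h1 u hu
  unfold dA_e2
  rw [h.deriv_eq, deriv_const]

theorem dA_e_large {σ : ℝ} (hσ : 0 < σ) {s : ℝ} (hs : 3 * σ / 4 < s) :
    dA_e1 σ s = 0 ∧ dA_e2 σ s = 0 := by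
  have h1 : ∀ t, 3 * σ / 4 < t → dA_e1 σ t = 0 := by
    intro t ht
    have h : dA_eta σ =ᶠ[𝓝 t] fun _ => 0 := by
      filter_upwards [Ioi_mem_nhds ht] with u hu
      exact dA_eta_zero hσ (le_of_lt hu)
    unfold dA_e1
    rw [h.deriv_eq, deriv_const]
  refine ⟨h1 s hs, ?_⟩
  have h : dA_e1 σ =ᶠ[𝓝 s] fun _ => 0 := by
    filter_upwards [Ioi_mem_nhds hs] with u hu
    exact h1 u hu
  unfold dA_e2
  rw [h.deriv_eq, deriv_const]

theorem dA_e_bound {σ : ℝ} (hσ : 0 < σ) : ∃ C : ℝ, 0 < C ∧ ∀ s, |dA_e1 σ s| ≤ C ∧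
    |dA_e2 σ s| ≤ C := by
  obtain ⟨C1, h1⟩ := (isCompact_Icc (a := σ / 2) (b := σ)).exists_bound_of_continuousOn
    (dA_e1_smooth σ).continuous.continuousOn
  obtain ⟨C2, h2⟩ := (isCompact_Icc (a := σ / 2) (b := σ)).exists_bound_of_continuousOn
    (dA_e2_smooth σ).continuous.continuousOn
  refine ⟨|C1| + |C2| + 1, by positivity, fun s => ?_⟩
  by_cases hs1 : s < σ / 2
  · obtain ⟨e1, e2⟩ := dA_e_small hσ hs1
    rw [e1, e2, abs_zero]
    exact ⟨by positivity, by positivity⟩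
  by_cases hs2 : σ < s
  · obtain ⟨e1, e2⟩ := dA_e_large hσ (s := s) (by linarith)
    rw [e1, e2, abs_zero]
    exact ⟨by positivity, by positivity⟩
  · have hs : s ∈ Icc (σ / 2) σ := ⟨not_lt.mp hs1, not_lt.mp hs2⟩
    have a1 := h1 s hs
    have a2 := h2 s hs
    rw [Real.norm_eq_abs] at a1 a2
    have b1 := le_abs_self C1
    have b2 := le_abs_self C2
    have c1 := abs_nonneg C1
    have c2 := abs_nonneg C2
    exact ⟨by linarith, by linarith⟩

/-! ### the function `e^{-μ√s}/√s` -/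

def dA_f0 (μ s : ℝ) : ℝ := Real.exp (-μ * √s) / √s
def dA_f1 (μ s : ℝ) : ℝ := -(1 / 2) * (Real.exp (-μ * √s) * (μ * √s + 1) / √s ^ 3)
def dA_f2 (μ s : ℝ) : ℝ :=
  1 / 4 * (Real.exp (-μ * √s) * (μ ^ 2 * √s ^ 2 + 3 * μ * √s + 3) / √s ^ 5)

theorem dA_f0_hd (μ : ℝ) {s : ℝ} (hs : 0 < s) : HasDerivAt (dA_f0 μ) (dA_f1 μ s) s := by
  have hr : 0 < √s := Real.sqrt_pos.mpr hs
  have h1 := Real.hasDerivAt_sqrt hs.ne'
  have h2 : HasDerivAt (fun s => Real.exp (-μ * √s)) (Real.exp (-μ * √s) * (-μ * (1 / (2 * √s)))) s :=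
    (h1.const_mul (-μ)).exp
  have h3 := h2.div h1 hr.ne'
  refine h3.congr_deriv ?_
  unfold dA_f1
  generalize √s = r at *
  generalize Real.exp (-μ * r) = e at *
  field_simp
  ring

theorem dA_f1_hd (μ : ℝ) {s : ℝ} (hs : 0 < s) : HasDerivAt (dA_f1 μ) (dA_f2 μ s) s := by
  have hr : 0 < √s := Real.sqrt_pos.mpr hs
  have h1 := Real.hasDerivAt_sqrt hs.ne'
  have h2 : HasDerivAt (fun s => Real.exp (-μ * √s)) (Real.exp (-μ * √s) * (-μ * (1 / (2 * √s)))) s :=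
    (h1.const_mul (-μ)).exp
  have h4 : HasDerivAt (fun s => μ * √s + 1) (μ * (1 / (2 * √s))) s :=
    (h1.const_mul μ).add_const 1
  have h5 : HasDerivAt (fun s => √s ^ 3) (3 * √s ^ 2 * (1 / (2 * √s))) s := by
    refine HasDerivAt.congr_deriv (h1.pow 3) ?_
    norm_num
  have h6 : HasDerivAt (fun s => Real.exp (-μ * √s) * (μ * √s + 1))
      (Real.exp (-μ * √s) * (-μ * (1 / (2 * √s))) * (μ * √s + 1) +
        Real.exp (-μ * √s) * (μ * (1 / (2 * √s)))) s := h2.mul h4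
  have h7 : HasDerivAt (fun s => Real.exp (-μ * √s) * (μ * √s + 1) / √s ^ 3)
      (((Real.exp (-μ * √s) * (-μ * (1 / (2 * √s))) * (μ * √s + 1) +
        Real.exp (-μ * √s) * (μ * (1 / (2 * √s)))) * √s ^ 3 -
        Real.exp (-μ * √s) * (μ * √s + 1) * (3 * √s ^ 2 * (1 / (2 * √s)))) / (√s ^ 3) ^ 2) s :=
    h6.div h5 (by positivity)
  have h3 := h7.const_mul (-(1 / 2) : ℝ)
  clear h7 h6 h5 h4 h2 h1
  refine h3.congr_deriv ?_
  unfold dA_f2
  generalize √s = r at *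
  generalize Real.exp (-μ * r) = e at *
  field_simp
  ring

theorem dA_f0_smooth (μ : ℝ) : ContDiffOn ℝ ∞ (dA_f0 μ) (Ioi 0) := by
  intro s hs
  have hs' : (0 : ℝ) < s := hs
  have h1 : ContDiffAt ℝ ∞ (fun s : ℝ => √s) s := Real.contDiffAt_sqrt hs'.ne'
  have h2 : ContDiffAt ℝ ∞ (fun s : ℝ => Real.exp (-μ * √s)) s :=
    (contDiffAt_const.mul h1).exp
  have h3 : ContDiffAt ℝ ∞ (fun s : ℝ => (√s)⁻¹) s := h1.inv (Real.sqrt_pos.mpr hs').ne'
  have h4 : ContDiffAt ℝ ∞ (dA_f0 μ) s := by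
    have := h2.mul h3
    exact this
  exact h4.contDiffWithinAt

theorem dA_ode (μ : ℝ) {s : ℝ} (hs : 0 < s) :
    4 * s * dA_f2 μ s + 6 * dA_f1 μ s - μ ^ 2 * dA_f0 μ s = 0 := by
  have hr : 0 < √s := Real.sqrt_pos.mpr hs
  have hss : s = √s ^ 2 := (Real.sq_sqrt hs.le).symm
  unfold dA_f0 dA_f1 dA_f2
  conv_lhs => enter [1, 1, 1, 2]; rw [hss]
  generalize √s = r at *
  generalize Real.exp (-μ * r) = e at *
  field_simp
  ring

/-- elementary bounds in terms of `e^{-μ r/2}` -/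
theorem dA_bd {μ s : ℝ} (hμ : 0 < μ) (hs : 0 < s) :
    |dA_f0 μ s| ≤ Real.exp (-(μ / 2) * √s) / √s ∧
    |dA_f1 μ s| ≤ Real.exp (-(μ / 2) * √s) / √s ^ 3 ∧
    |dA_f2 μ s| ≤ 6 * Real.exp (-(μ / 2) * √s) / √s ^ 5 := by
  have hr : 0 < √s := Real.sqrt_pos.mpr hs
  unfold dA_f0 dA_f1 dA_f2
  generalize √s = r at *
  have ht : 0 < μ * r := by positivity
  have he : Real.exp (-μ * r) = Real.exp (-(μ / 2) * r) * Real.exp (-(μ / 2) * r) := by
    rw [← Real.exp_add]; ring_nf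
  have hinv : Real.exp (-(μ / 2) * r) * Real.exp (μ * r / 2) = 1 := by
    rw [← Real.exp_add, show -(μ / 2) * r + μ * r / 2 = 0 by ring, Real.exp_zero]
  have hq := Real.quadratic_le_exp_of_nonneg (x := μ * r / 2) (by positivity)
  set e : ℝ := Real.exp (-(μ / 2) * r) with hedef
  have hepos : 0 < e := Real.exp_pos _
  have hele : e ≤ 1 := by
    rw [hedef]
    apply Real.exp_le_one_iff.mpr
    nlinarith
  have h1 : e * (μ * r + 1) ≤ 2 := by
    have : μ * r + 1 ≤ 2 * Real.exp (μ * r / 2) := by nlinarith [sq_nonneg (μ * r / 2)]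
    calc e * (μ * r + 1) ≤ e * (2 * Real.exp (μ * r / 2)) :=
          mul_le_mul_of_nonneg_left this hepos.le
      _ = 2 := by linear_combination 2 * hinv
  have h2 : e * (μ ^ 2 * r ^ 2 + 3 * μ * r + 3) ≤ 24 := by
    have : μ ^ 2 * r ^ 2 + 3 * μ * r + 3 ≤ 24 * Real.exp (μ * r / 2) := by
      nlinarith [sq_nonneg (μ * r)]
    calc e * (μ ^ 2 * r ^ 2 + 3 * μ * r + 3) ≤ e * (24 * Real.exp (μ * r / 2)) :=
          mul_le_mul_of_nonneg_left this hepos.le
      _ = 24 := by linear_combination 24 * hinv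
  rw [he]
  refine ⟨?_, ?_, ?_⟩
  · rw [abs_of_nonneg (by positivity)]
    refine div_le_div_of_nonneg_right ?_ hr.le
    nlinarith
  · rw [abs_mul, abs_neg, abs_of_nonneg (by norm_num : (0 : ℝ) ≤ 1 / 2),
      abs_of_nonneg (by positivity), ← mul_div_assoc]
    refine div_le_div_of_nonneg_right ?_ (by positivity)
    have : 1 / 2 * (e * e * (μ * r + 1)) = e * (e * (μ * r + 1)) / 2 := by ring
    rw [this]
    nlinarith
  · rw [abs_of_nonneg (by positivity), ← mul_div_assoc]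
    refine div_le_div_of_nonneg_right ?_ (by positivity)
    have : 1 / 4 * (e * e * (μ ^ 2 * r ^ 2 + 3 * μ * r + 3)) =
      e * (e * (μ ^ 2 * r ^ 2 + 3 * μ * r + 3)) / 4 := by ring
    rw [this]
    nlinarith

theorem exists_prof {σ : ℝ} (hσ : 0 < σ) : ∃ K : ℝ, 0 < K ∧ ∀ ε : ℝ, 0 < ε →
    ∃ μ0 : ℝ, 0 < μ0 ∧ ∀ μ : ℝ, μ0 ≤ μ → Nonempty (Prof K μ σ ε) := by
  obtain ⟨C, hC, hCb⟩ := dA_e_bound hσ
  set K : ℝ := 6 + 3 * C * σ + C * σ ^ 2 with hK
  have hKpos : 0 < K := by rw [hK]; positivity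
  refine ⟨K, hKpos, fun ε hε => ?_⟩
  set ρ : ℝ := √(σ / 2) with hρ
  have hρpos : 0 < ρ := Real.sqrt_pos.mpr (by positivity)
  -- the error in the ode tends to `0`
  set c1 : ℝ := 10 / ρ + 4 * √σ with hc1
  have hlim : Tendsto (fun μ : ℝ => C * (4 * μ + c1) * Real.exp (-μ * ρ)) atTop (𝓝 0) := by
    have h1 : Tendsto (fun μ : ℝ => μ * Real.exp (-ρ * μ)) atTop (𝓝 0) := by
      have := Real.tendsto_pow_mul_exp_neg_atTop_nhds_zero 1
      have h2 : Tendsto (fun μ : ℝ => ρ * μ) atTop atTop := tendsto_id.const_mul_atTop hρpos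
      have h3 := (this.comp h2).const_mul (ρ⁻¹)
      simp only [Function.comp_def, pow_one, mul_zero] at h3
      refine h3.congr fun μ => ?_
      rw [neg_mul]
      field_simp
    have h2 : Tendsto (fun μ : ℝ => Real.exp (-ρ * μ)) atTop (𝓝 0) := by
      have h3 : Tendsto (fun μ : ℝ => ρ * μ) atTop atTop := tendsto_id.const_mul_atTop hρpos
      have h4 := Real.tendsto_exp_neg_atTop_nhds_zero.comp h3
      refine h4.congr fun μ => ?_
      simp only [Function.comp_def, neg_mul]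
    have h3 := (h1.const_mul (4 * C)).add (h2.const_mul (C * c1))
    simp only [mul_zero, add_zero] at h3
    refine h3.congr fun μ => ?_
    rw [show -ρ * μ = -μ * ρ by ring]
    ring
  obtain ⟨μ1, hμ1⟩ := (eventually_atTop.mp ((tendsto_order.mp hlim).2 ε hε))
  refine ⟨max μ1 1, lt_of_lt_of_le one_pos (le_max_right _ _), fun μ hμ => ?_⟩
  have hμpos : 0 < μ := lt_of_lt_of_le one_pos ((le_max_right _ _).trans hμ)
  have herr := (hμ1 μ ((le_max_left _ _).trans hμ)).le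
  have hz : ∀ s, σ ≤ s → dA_eta σ s = 0 ∧ dA_e1 σ s = 0 ∧ dA_e2 σ s = 0 := fun s hs =>
    ⟨dA_eta_zero hσ (by linarith), (dA_e_large hσ (by linarith)).1,
      (dA_e_large hσ (by linarith)).2⟩
  refine ⟨{ P := fun s => dA_f0 μ s * dA_eta σ s
            P1 := fun s => dA_f1 μ s * dA_eta σ s + dA_f0 μ s * dA_e1 σ s
            P2 := fun s => (dA_f2 μ s * dA_eta σ s + dA_f1 μ s * dA_e1 σ s) +
              (dA_f1 μ s * dA_e1 σ s + dA_f0 μ s * dA_e2 σ s)
            smooth := (dA_f0_smooth μ).mul (dA_eta_smooth σ).contDiffOn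
            d1 := fun s hs => (dA_f0_hd μ hs).mul (dA_hd1 σ s)
            d2 := fun s hs => ((dA_f1_hd μ hs).mul (dA_hd1 σ s)).add
              ((dA_f0_hd μ hs).mul (dA_hd2 σ s))
            zero := fun s hs => by
              obtain ⟨h1, h2, h3⟩ := hz s hs
              simp [h1, h2, h3]
            ode := ?_, b0 := ?_, b1 := ?_, b2 := ?_, asy := ?_ }⟩
  · -- ode
    intro s hs
    have hr : 0 < √s := Real.sqrt_pos.mpr hs
    have hode := dA_ode μ hs
    have heq : 4 * s * ((dA_f2 μ s * dA_eta σ s + dA_f1 μ s * dA_e1 σ s) +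
        (dA_f1 μ s * dA_e1 σ s + dA_f0 μ s * dA_e2 σ s)) +
        6 * (dA_f1 μ s * dA_eta σ s + dA_f0 μ s * dA_e1 σ s) -
        μ ^ 2 * (dA_f0 μ s * dA_eta σ s) =
        8 * s * dA_f1 μ s * dA_e1 σ s + 4 * s * dA_f0 μ s * dA_e2 σ s +
          6 * dA_f0 μ s * dA_e1 σ s := by
      linear_combination dA_eta σ s * hode
    rw [heq]
    by_cases hs1 : s < σ / 2
    · obtain ⟨e1, e2⟩ := dA_e_small hσ hs1
      rw [e1, e2]
      simpa using hε.le
    by_cases hs2 : σ < s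
    · obtain ⟨_, e1, e2⟩ := hz s hs2.le
      rw [e1, e2]
      simpa using hε.le
    rw [not_lt] at hs1 hs2
    have hrρ : ρ ≤ √s := Real.sqrt_le_sqrt hs1
    have hrσ : √s ≤ √σ := Real.sqrt_le_sqrt hs2
    have hss : s = √s ^ 2 := (Real.sq_sqrt hs.le).symm
    obtain ⟨hb1, hb2⟩ := hCb s
    have hexp : Real.exp (-μ * √s) ≤ Real.exp (-μ * ρ) := by
      apply Real.exp_le_exp.mpr
      nlinarith
    have hE : 0 < Real.exp (-μ * √s) := Real.exp_pos _
    have k1 : |8 * s * dA_f1 μ s| ≤ Real.exp (-μ * √s) * (4 * μ + 4 / √s) := by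
      have : 8 * s * dA_f1 μ s = -(Real.exp (-μ * √s) * (4 * μ + 4 / √s)) := by
        unfold dA_f1
        conv_lhs => enter [1, 2]; rw [hss]
        field_simp
        ring
      rw [this, abs_neg, abs_of_nonneg (by positivity)]
    have k2 : |4 * s * dA_f0 μ s| ≤ Real.exp (-μ * √s) * (4 * √s) := by
      have : 4 * s * dA_f0 μ s = Real.exp (-μ * √s) * (4 * √s) := by
        unfold dA_f0
        conv_lhs => enter [1, 2]; rw [hss]
        field_simp
      rw [this, abs_of_nonneg (by positivity)]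
    have k3 : |6 * dA_f0 μ s| ≤ Real.exp (-μ * √s) * (6 / √s) := by
      have : 6 * dA_f0 μ s = Real.exp (-μ * √s) * (6 / √s) := by
        unfold dA_f0; ring
      rw [this, abs_of_nonneg (by positivity)]
    have k4 : |8 * s * dA_f1 μ s * dA_e1 σ s| ≤ Real.exp (-μ * √s) * (4 * μ + 4 / √s) * C := by
      rw [abs_mul]
      exact mul_le_mul k1 hb1 (abs_nonneg _) (by positivity)
    have k5 : |4 * s * dA_f0 μ s * dA_e2 σ s| ≤ Real.exp (-μ * √s) * (4 * √s) * C := by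
      rw [abs_mul]
      exact mul_le_mul k2 hb2 (abs_nonneg _) (by positivity)
    have k6 : |6 * dA_f0 μ s * dA_e1 σ s| ≤ Real.exp (-μ * √s) * (6 / √s) * C := by
      rw [abs_mul]
      exact mul_le_mul k3 hb1 (abs_nonneg _) (by positivity)
    have hinv : 1 / √s ≤ 1 / ρ := one_div_le_one_div_of_le hρpos hrρ
    have hsum : Real.exp (-μ * √s) * (4 * μ + 4 / √s) * C + Real.exp (-μ * √s) * (4 * √s) * C +
        Real.exp (-μ * √s) * (6 / √s) * C ≤ C * (4 * μ + c1) * Real.exp (-μ * ρ) := by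
      have e1 : Real.exp (-μ * √s) * (4 * μ + 4 / √s) * C + Real.exp (-μ * √s) * (4 * √s) * C +
        Real.exp (-μ * √s) * (6 / √s) * C =
        (C * (4 * μ + 10 * (1 / √s) + 4 * √s)) * Real.exp (-μ * √s) := by ring
      rw [e1]
      refine mul_le_mul ?_ hexp hE.le (by positivity)
      refine mul_le_mul_of_nonneg_left ?_ hC.le
      rw [hc1, show (10 : ℝ) / ρ = 10 * (1 / ρ) by ring]
      linarith
    refine (abs_add_le _ _).trans ?_
    refine (add_le_add (abs_add_le _ _) le_rfl).trans ?_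
    linarith
  · -- b0
    intro s hs
    obtain ⟨h0, _, _⟩ := dA_bd hμpos hs
    have hr : 0 < √s := Real.sqrt_pos.mpr hs
    have hE : 0 < Real.exp (-(μ / 2) * √s) := Real.exp_pos _
    rw [abs_mul]
    calc |dA_f0 μ s| * |dA_eta σ s| ≤ Real.exp (-(μ / 2) * √s) / √s * 1 :=
          mul_le_mul h0 (dA_eta_abs σ s) (abs_nonneg _) (by positivity)
      _ ≤ K * Real.exp (-(μ / 2) * √s) / √s := by
          rw [mul_one]
          refine div_le_div_of_nonneg_right ?_ hr.le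
          have : 1 ≤ K := by
            rw [hK]
            have : 0 < C * σ := by positivity
            have : 0 < C * σ ^ 2 := by positivity
            nlinarith
          nlinarith
  · -- b1
    intro s hs
    obtain ⟨h0, h1, _⟩ := dA_bd hμpos hs
    have hr : 0 < √s := Real.sqrt_pos.mpr hs
    have hE : 0 < Real.exp (-(μ / 2) * √s) := Real.exp_pos _
    by_cases hsσ : σ ≤ s
    · obtain ⟨e0, e1, e2⟩ := hz s hsσ
      rw [e0, e1]
      simp only [mul_zero, add_zero, abs_zero]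
      positivity
    rw [not_le] at hsσ
    have hss : √s ^ 2 ≤ σ := by rw [Real.sq_sqrt hs.le]; exact hsσ.le
    obtain ⟨hb1, hb2⟩ := hCb s
    have m1 : |dA_f1 μ s * dA_eta σ s| ≤ Real.exp (-(μ / 2) * √s) / √s ^ 3 * 1 := by
      rw [abs_mul]; exact mul_le_mul h1 (dA_eta_abs σ s) (abs_nonneg _) (by positivity)
    have m2 : |dA_f0 μ s * dA_e1 σ s| ≤ Real.exp (-(μ / 2) * √s) / √s ^ 3 * (C * σ) := by
      rw [abs_mul]
      calc |dA_f0 μ s| * |dA_e1 σ s| ≤ Real.exp (-(μ / 2) * √s) / √s * C :=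
            mul_le_mul h0 hb1 (abs_nonneg _) (by positivity)
        _ = Real.exp (-(μ / 2) * √s) / √s ^ 3 * (C * √s ^ 2) := by field_simp
        _ ≤ _ := by gcongr
    refine (abs_add_le _ _).trans ((add_le_add m1 m2).trans ?_)
    rw [← mul_add, mul_comm, ← mul_div_assoc]
    refine div_le_div_of_nonneg_right ?_ (by positivity)
    refine mul_le_mul_of_nonneg_right ?_ hE.le
    rw [hK]
    have : 0 < C * σ := by positivity
    have : 0 < C * σ ^ 2 := by positivity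
    nlinarith
  · -- b2
    intro s hs
    obtain ⟨h0, h1, h2⟩ := dA_bd hμpos hs
    have hr : 0 < √s := Real.sqrt_pos.mpr hs
    have hE : 0 < Real.exp (-(μ / 2) * √s) := Real.exp_pos _
    by_cases hsσ : σ ≤ s
    · obtain ⟨e0, e1, e2⟩ := hz s hsσ
      rw [e0, e1, e2]
      simp only [mul_zero, add_zero, abs_zero]
      positivity
    rw [not_le] at hsσ
    have hss : √s ^ 2 ≤ σ := by rw [Real.sq_sqrt hs.le]; exact hsσ.le
    have hs4 : √s ^ 4 ≤ σ ^ 2 := by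
      calc √s ^ 4 = (√s ^ 2) ^ 2 := by ring
        _ ≤ σ ^ 2 := by gcongr
    obtain ⟨hb1, hb2⟩ := hCb s
    have m1 : |dA_f2 μ s * dA_eta σ s| ≤ Real.exp (-(μ / 2) * √s) / √s ^ 5 * 6 := by
      rw [abs_mul]
      calc |dA_f2 μ s| * |dA_eta σ s| ≤ 6 * Real.exp (-(μ / 2) * √s) / √s ^ 5 * 1 :=
            mul_le_mul h2 (dA_eta_abs σ s) (abs_nonneg _) (by positivity)
        _ = _ := by ring
    have m2 : |dA_f1 μ s * dA_e1 σ s| ≤ Real.exp (-(μ / 2) * √s) / √s ^ 5 * (C * σ) := by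
      rw [abs_mul]
      calc |dA_f1 μ s| * |dA_e1 σ s| ≤ Real.exp (-(μ / 2) * √s) / √s ^ 3 * C :=
            mul_le_mul h1 hb1 (abs_nonneg _) (by positivity)
        _ = Real.exp (-(μ / 2) * √s) / √s ^ 5 * (C * √s ^ 2) := by field_simp
        _ ≤ _ := by gcongr
    have m3 : |dA_f0 μ s * dA_e2 σ s| ≤ Real.exp (-(μ / 2) * √s) / √s ^ 5 * (C * σ ^ 2) := by
      rw [abs_mul]
      calc |dA_f0 μ s| * |dA_e2 σ s| ≤ Real.exp (-(μ / 2) * √s) / √s * C :=
            mul_le_mul h0 hb2 (abs_nonneg _) (by positivity)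
        _ = Real.exp (-(μ / 2) * √s) / √s ^ 5 * (C * √s ^ 4) := by field_simp
        _ ≤ _ := by gcongr
    refine (abs_add_le _ _).trans ?_
    refine (add_le_add (abs_add_le _ _) (abs_add_le _ _)).trans ?_
    refine (add_le_add (add_le_add m1 m2) (add_le_add m2 m3)).trans ?_
    rw [← mul_add, ← mul_add, ← mul_add, mul_comm, ← mul_div_assoc]
    refine div_le_div_of_nonneg_right ?_ (by positivity)
    refine mul_le_mul_of_nonneg_right ?_ hE.le
    rw [hK]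
    have : 0 < C * σ := by positivity
    nlinarith
  · -- asy
    have h1 : ContinuousAt (fun s : ℝ => 1 / 4 * (Real.exp (-μ * √s) *
        (μ ^ 2 * √s ^ 2 + 3 * μ * √s + 3))) 0 := by
      fun_prop
    have h2 : Tendsto (fun s : ℝ => 1 / 4 * (Real.exp (-μ * √s) *
        (μ ^ 2 * √s ^ 2 + 3 * μ * √s + 3))) (𝓝[>] 0) (𝓝 (3 / 4)) := by
      have h3 := h1.tendsto.mono_left (nhdsWithin_le_nhds (s := Ioi 0))
      have h4 : (1 / 4 * (Real.exp (-μ * √(0 : ℝ)) *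
        (μ ^ 2 * √(0 : ℝ) ^ 2 + 3 * μ * √(0 : ℝ) + 3)) : ℝ) = 3 / 4 := by
        rw [Real.sqrt_zero, mul_zero, Real.exp_zero]; norm_num
      rwa [h4] at h3
    refine h2.congr' ?_
    have hpos : (0 : ℝ) < σ / 2 := by positivity
    filter_upwards [self_mem_nhdsWithin, mem_nhdsWithin_of_mem_nhds (Iio_mem_nhds hpos)] with s hs hs2
    have hs : (0 : ℝ) < s := hs
    have hs2 : s < σ / 2 := hs2
    obtain ⟨e1, e2⟩ := dA_e_small hσ hs2
    have hr : 0 < √s := Real.sqrt_pos.mpr hs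
    rw [e1, e2, dA_eta_one hσ hs2.le]
    unfold dA_f2
    field_simp
    ring

end YR
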