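import Pool.Agent.Work.MP_71b0e8_gt.Skel.DR0
import Pool.Agent.Work.MP_71b0e8_gt.Skel.Loc2

/-! Module DRB: the quadratic form. -/

open scoped ContDiff Topology
open MeasureTheory Metric Set Filter

noncomputable section

namespace YR

theorem qd_smul (G : E → Mat) (y z : E) (r : ℝ) : qd G y (r • z) = r ^ 2 * qd G y z := by
  unfold qd
  simp only [PiLp.smul_apply, smul_eq_mul, Fin.sum_univ_three]
  ring

theorem db_qd_pos {G : E → Mat} {U : Set E} (hG : LM U G) {y : E} (hy : y ∈ U) {z : E}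
    (hz : z ≠ 0) : 0 < qd G y z := by
  have h := Matrix.posDef_iff_dotProduct_mulVec.mp (hG.pos y hy)
  have hz' : (fun i => z i) ≠ 0 := by
    intro h0
    apply hz
    ext i
    exact congrFun h0 i
  have h1 := h.2 hz'
  have h2 : star (fun i => z i) ⬝ᵥ (Matrix.mulVec (G y) (fun i => z i)) = qd G y z := by
    unfold qd
    simp only [dotProduct, Matrix.mulVec, Fin.sum_univ_three, Pi.star_apply, star_trivial]
    ring
  rwa [h2] at h1

theorem db_coord (a : Fin 3) : Continuous fun z : E => z a :=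
  (EuclideanSpace.proj a : E →L[ℝ] ℝ).continuous

theorem db_coord_le (z : E) (a : Fin 3) : |z a| ≤ ‖z‖ := by
  have := PiLp.norm_apply_le z a
  simpa using this

theorem qd_bounds {G : E → Mat} (hG : LM (ball 0 4) G) : ∃ b : ℝ, 0 < b ∧ ∃ B : ℝ,
    ∀ y ∈ closedBall (0 : E) 3, ∀ z : E, b * ‖z‖ ^ 2 ≤ qd G y z ∧ qd G y z ≤ B * ‖z‖ ^ 2 := by
  have hsub : closedBall (0 : E) 3 ⊆ ball 0 4 := closedBall_subset_ball (by norm_num)
  have hK : IsCompact (closedBall (0 : E) 3 ×ˢ sphere (0 : E) 1) :=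
    (isCompact_closedBall _ _).prod (isCompact_sphere _ _)
  have hcont : ContinuousOn (fun p : E × E => qd G p.1 p.2)
      (closedBall (0 : E) 3 ×ˢ sphere (0 : E) 1) := by
    unfold qd
    refine continuousOn_finsetSum _ fun a _ => continuousOn_finsetSum _ fun b _ => ?_
    have h1 : ContinuousOn (fun p : E × E => G p.1 a b)
        (closedBall (0 : E) 3 ×ˢ sphere (0 : E) 1) :=
      (hG.smooth a b).continuousOn.comp continuousOn_fst fun p hp => hsub hp.1
    exact (h1.mul ((db_coord a).comp continuous_snd).continuousOn).mul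
      ((db_coord b).comp continuous_snd).continuousOn
  have hne : (closedBall (0 : E) 3 ×ˢ sphere (0 : E) 1).Nonempty := by
    refine ⟨(0, be 0), ?_, ?_⟩
    · simp
    · simp [be]
  obtain ⟨p0, hp0, hmin⟩ := hK.exists_isMinOn hne hcont
  obtain ⟨p1, hp1, hmax⟩ := hK.exists_isMaxOn hne hcont
  have hpos : 0 < qd G p0.1 p0.2 := by
    refine db_qd_pos hG (hsub hp0.1) ?_
    intro h
    have := hp0.2
    rw [h] at this
    simp at this
  refine ⟨qd G p0.1 p0.2, hpos, qd G p1.1 p1.2, fun y hy z => ?_⟩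
  by_cases hz : z = 0
  · subst hz
    have : qd G y 0 = 0 := by unfold qd; simp
    rw [this]; simp
  · have hn : 0 < ‖z‖ := norm_pos_iff.mpr hz
    have hmem : (y, ‖z‖⁻¹ • z) ∈ closedBall (0 : E) 3 ×ˢ sphere (0 : E) 1 := by
      refine ⟨hy, ?_⟩
      rw [mem_sphere_zero_iff_norm, norm_smul, norm_inv, norm_norm]
      exact inv_mul_cancel₀ hn.ne'
    have e : qd G y z = ‖z‖ ^ 2 * qd G y (‖z‖⁻¹ • z) := by
      rw [qd_smul]
      field_simp
    have h1 : qd G p0.1 p0.2 ≤ qd G y (‖z‖⁻¹ • z) := hmin hmem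
    have h2 : qd G y (‖z‖⁻¹ • z) ≤ qd G p1.1 p1.2 := hmax hmem
    rw [e]
    constructor
    · rw [mul_comm]
      exact mul_le_mul_of_nonneg_left h1 (by positivity)
    · rw [mul_comm (qd G p1.1 p1.2)]
      exact mul_le_mul_of_nonneg_left h2 (by positivity)

theorem db_bound {f : E → ℝ} (hf : ContinuousOn f (ball 0 4)) :
    ∃ C : ℝ, 0 < C ∧ ∀ y ∈ closedBall (0 : E) 3, |f y| ≤ C := by
  have hsub : closedBall (0 : E) 3 ⊆ ball 0 4 := closedBall_subset_ball (by norm_num)
  obtain ⟨C, hC⟩ := (isCompact_closedBall (0 : E) 3).exists_bound_of_continuousOn (hf.mono hsub)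
  refine ⟨|C| + 1, by positivity, fun y hy => ?_⟩
  have := hC y hy
  rw [Real.norm_eq_abs] at this
  linarith [le_abs_self C]

theorem det_bounds {G : E → Mat} (hG : LM (ball 0 4) G) : ∃ B : ℝ, ∀ y ∈ closedBall (0 : E) 3,
    √(G y).det ≤ B := by
  obtain ⟨C, _, hC⟩ := db_bound (det_smooth hG).continuousOn
  exact ⟨√C, fun y hy => Real.sqrt_le_sqrt ((le_abs_self _).trans (hC y hy))⟩

theorem db_lip {f : E → ℝ} (hf : ContDiffOn ℝ ∞ f (ball 0 4)) :
    ∃ C : ℝ, 0 < C ∧ ∀ x ∈ closedBall (0 : E) 3, ∀ y ∈ closedBall (0 : E) 3,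
      |f y - f x| ≤ C * ‖x - y‖ := by
  have hsub : closedBall (0 : E) 3 ⊆ ball 0 4 := closedBall_subset_ball (by norm_num)
  have h1 : ContinuousOn (fderiv ℝ f) (closedBall 0 3) :=
    (hf.continuousOn_fderiv_of_isOpen isOpen_ball (by simp)).mono hsub
  obtain ⟨C, hC⟩ := (isCompact_closedBall (0 : E) 3).exists_bound_of_continuousOn h1
  refine ⟨|C| + 1, by positivity, fun x hx y hy => ?_⟩
  have h2 := (convex_closedBall (0 : E) 3).norm_image_sub_le_of_norm_fderiv_le
    (f := f) (C := |C| + 1) (fun z hz => (hf.contDiffAt (isOpen_ball.mem_nhds (hsub hz))).differentiableAt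
      (by simp)) (fun z hz => (hC z hz).trans (by linarith [le_abs_self C])) hx hy
  rw [Real.norm_eq_abs, norm_sub_rev y x] at h2
  exact h2

theorem db_sum {f : Fin 3 → ℝ} {m : ℝ} (h : ∀ a, |f a| ≤ m) : |∑ a, f a| ≤ 3 * m := by
  refine (Finset.abs_sum_le_sum_abs _ _).trans ?_
  refine (Finset.sum_le_sum fun a _ => h a).trans ?_
  simp

/-! ### derivatives of the quadratic form -/

theorem db_pd_coord (y x : E) (a c : Fin 3) :
    pd c (fun x' : E => (x' - y) a) x = if a = c then 1 else 0 := by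
  have h : HasFDerivAt (fun x' : E => (x' - y) a) (EuclideanSpace.proj a : E →L[ℝ] ℝ) x := by
    have h1 : HasFDerivAt (fun x' : E => x' - y) (ContinuousLinearMap.id ℝ E) x :=
      (hasFDerivAt_id x).sub_const y
    exact ((EuclideanSpace.proj a : E →L[ℝ] ℝ).hasFDerivAt).comp x h1
  unfold pd
  rw [h.fderiv]
  simp [be]

theorem db_diff_coord (y x : E) (a : Fin 3) :
    DifferentiableAt ℝ (fun x' : E => (x' - y) a) x := by
  have h1 : DifferentiableAt ℝ (fun x' : E => x' - y) x := differentiableAt_id.sub_const y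
  exact ((EuclideanSpace.proj a : E →L[ℝ] ℝ).differentiableAt).comp x h1

theorem db_pd_lin (c : Fin 3) (k : Fin 3 → ℝ) (y x : E) :
    pd c (fun x' : E => ∑ b, k b * (x' - y) b) x = k c := by
  have hd : ∀ b, DifferentiableAt ℝ (fun x' : E => k b * (x' - y) b) x := fun b =>
    (db_diff_coord y x b).const_mul (k b)
  rw [pd_sum fun b _ => hd b]
  have : ∀ b, pd c (fun x' : E => k b * (x' - y) b) x = if b = c then k b else 0 := by
    intro b
    rw [pd_mul (differentiableAt_const _) (db_diff_coord y x b), pd_const, db_pd_coord]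
    split_ifs <;> simp
  simp only [this]
  simp

theorem db_pd_qd {G : E → Mat} {y : E} (hs : ∀ a b, G y a b = G y b a) (c : Fin 3) (x : E) :
    pd c (fun x' => qd G y (x' - y)) x = 2 * ∑ b, G y c b * (x - y) b := by
  have h1 : (fun x' => qd G y (x' - y)) =
      fun x' : E => ∑ a, (∑ b, G y a b * (x' - y) b) * (x' - y) a := by
    funext x'
    unfold qd
    refine Finset.sum_congr rfl fun a _ => ?_
    rw [Finset.sum_mul]
    exact Finset.sum_congr rfl fun b _ => by ring
  have hd : ∀ a, DifferentiableAt ℝ (fun x' : E => ∑ b, G y a b * (x' - y) b) x := fun a =>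
    DifferentiableAt.fun_sum fun b _ => (db_diff_coord y x b).const_mul (G y a b)
  have hd2 : ∀ a, DifferentiableAt ℝ (fun x' : E => (∑ b, G y a b * (x' - y) b) * (x' - y) a) x :=
    fun a => (hd a).mul (db_diff_coord y x a)
  rw [h1, pd_sum fun a _ => hd2 a]
  have h2 : ∀ a, pd c (fun x' : E => (∑ b, G y a b * (x' - y) b) * (x' - y) a) x =
      G y a c * (x - y) a + (∑ b, G y a b * (x - y) b) * (if a = c then 1 else 0) := by
    intro a
    rw [pd_mul (hd a) (db_diff_coord y x a), db_pd_lin, db_pd_coord]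
  simp only [h2, Finset.sum_add_distrib]
  have h3 : ∑ a, (∑ b, G y a b * (x - y) b) * (if a = c then (1 : ℝ) else 0) =
      ∑ b, G y c b * (x - y) b := by
    simp
  rw [h3, two_mul]
  congr 1
  exact Finset.sum_congr rfl fun a _ => by rw [hs a c]

theorem db_hess {G : E → Mat} {y : E} (hs : ∀ a b, G y a b = G y b a) (a b : Fin 3) (x : E) :
    hess G (fun x' => qd G y (x' - y)) a b x =
      2 * G y b a - ∑ k, chr G k a b x * (2 * ∑ c, G y k c * (x - y) c) := by
  unfold hess
  have h1 : pd b (fun x' => qd G y (x' - y)) = fun x => ∑ c, (2 * G y b c) * (x - y) c := by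
    funext z
    rw [db_pd_qd hs, Finset.mul_sum]
    exact Finset.sum_congr rfl fun c _ => by ring
  rw [h1, db_pd_lin]
  congr 1
  exact Finset.sum_congr rfl fun k _ => by rw [db_pd_qd hs]

/-- `|ds|² = 4 g^{ab}(x) g_{ac}(y) g_{bd}(y) z^c z^d = 4 q + 4 g^{ab}(x)(g_{ac}(y) - g_{ac}(x)) …`,
`lap s = 2 g^{ab}(x) g_{ab}(y) - 2 g^{ab}(x) Γ^k_{ab}(x) g_{kc}(y) z^c` -/
theorem geo_bounds {G : E → Mat} (hG : LM (ball 0 4) G) : ∃ C : ℝ, 0 < C ∧
    ∀ x ∈ closedBall (0 : E) 3, ∀ y ∈ closedBall (0 : E) 2,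
      |inn G (fun x' => qd G y (x' - y)) (fun x' => qd G y (x' - y)) x - 4 * qd G y (x - y)| ≤
        C * ‖x - y‖ ^ 3 ∧
      |lap G (fun x' => qd G y (x' - y)) x - 6| ≤ C * ‖x - y‖ := by
  have hsub : closedBall (0 : E) 3 ⊆ ball 0 4 := closedBall_subset_ball (by norm_num)
  have hsub2 : closedBall (0 : E) 2 ⊆ closedBall 0 3 := closedBall_subset_closedBall (by norm_num)
  choose C1 hC1 h1 using fun a b => db_bound (gi_smooth hG a b).continuousOn
  choose C2 hC2 h2 using fun k a b => db_bound (chr_smooth hG k a b).continuousOn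
  choose C3 hC3 h3 using fun a b => db_bound (hG.smooth a b).continuousOn
  choose C4 hC4 h4 using fun a b => db_lip (hG.smooth a b)
  -- common bound
  set C : ℝ := 1 + ∑ a, ∑ b, (C1 a b + C3 a b + C4 a b + ∑ k, C2 k a b) with hC
  have hterm : ∀ a b, C1 a b + C3 a b + C4 a b + ∑ k, C2 k a b ≤ C - 1 := by
    intro a b
    have e : C - 1 = ∑ a, ∑ b, (C1 a b + C3 a b + C4 a b + ∑ k, C2 k a b) := by
      rw [hC]; ring
    rw [e]
    have hpos : ∀ a b, 0 ≤ C1 a b + C3 a b + C4 a b + ∑ k, C2 k a b := fun a b => by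
      have := hC1 a b
      have := hC3 a b
      have := hC4 a b
      have : 0 ≤ ∑ k, C2 k a b := Finset.sum_nonneg fun k _ => (hC2 k a b).le
      linarith
    refine (Finset.single_le_sum (f := fun b => C1 a b + C3 a b + C4 a b + ∑ k, C2 k a b)
      (fun b _ => hpos a b) (Finset.mem_univ b)).trans ?_
    exact Finset.single_le_sum (f := fun a => ∑ b, (C1 a b + C3 a b + C4 a b + ∑ k, C2 k a b))
      (fun a _ => Finset.sum_nonneg fun b _ => hpos a b) (Finset.mem_univ a)
  have hk : ∀ k a b, C2 k a b ≤ ∑ k, C2 k a b := fun k a b =>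
    Finset.single_le_sum (f := fun k => C2 k a b) (fun k _ => (hC2 k a b).le) (Finset.mem_univ k)
  have hC1' : ∀ a b, C1 a b ≤ C := fun a b => by
    have := hterm a b
    have := hC3 a b
    have := hC4 a b
    have : 0 ≤ ∑ k, C2 k a b := Finset.sum_nonneg fun k _ => (hC2 k a b).le
    linarith
  have hC2' : ∀ k a b, C2 k a b ≤ C := fun k a b => by
    have := hterm a b
    have := hC1 a b
    have := hC3 a b
    have := hC4 a b
    have := hk k a b
    linarith
  have hC3' : ∀ a b, C3 a b ≤ C := fun a b => by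
    have := hterm a b
    have := hC1 a b
    have := hC4 a b
    have : 0 ≤ ∑ k, C2 k a b := Finset.sum_nonneg fun k _ => (hC2 k a b).le
    linarith
  have hC4' : ∀ a b, C4 a b ≤ C := fun a b => by
    have := hterm a b
    have := hC1 a b
    have := hC3 a b
    have : 0 ≤ ∑ k, C2 k a b := Finset.sum_nonneg fun k _ => (hC2 k a b).le
    linarith
  have hCpos : 1 ≤ C := by
    have := hterm 0 0
    have := hC1 0 0
    have := hC3 0 0
    have := hC4 0 0
    have : 0 ≤ ∑ k, C2 k 0 0 := Finset.sum_nonneg fun k _ => (hC2 k 0 0).le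
    linarith
  have hC0 : 0 ≤ C := by linarith
  clear_value C
  refine ⟨1000 * C ^ 3, by positivity, fun x hx y hy => ?_⟩
  have hxU : x ∈ ball (0 : E) 4 := hsub hx
  have hyU : y ∈ ball (0 : E) 4 := hsub (hsub2 hy)
  have hs : ∀ a b, G y a b = G y b a := hG.symm y hyU
  set z := x - y with hz
  have hzc : ∀ c, |z c| ≤ ‖z‖ := db_coord_le z
  have hnz : 0 ≤ ‖z‖ := norm_nonneg z
  have g1 : ∀ a b, |gi G x a b| ≤ C := fun a b => (h1 a b x hx).trans (hC1' a b)
  have g2 : ∀ k a b, |chr G k a b x| ≤ C := fun k a b => (h2 k a b x hx).trans (hC2' k a b)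
  have g3 : ∀ a b, |G y a b| ≤ C := fun a b => (h3 a b y (hsub2 hy)).trans (hC3' a b)
  have g4 : ∀ a b, |G y a b - G x a b| ≤ C * ‖z‖ := fun a b =>
    (h4 a b x hx y (hsub2 hy)).trans (mul_le_mul_of_nonneg_right (hC4' a b) hnz)
  have p1 : ∀ a, |∑ c, G y a c * z c| ≤ 3 * (C * ‖z‖) := fun a => db_sum fun c => by
    rw [abs_mul]
    exact mul_le_mul (g3 a c) (hzc c) (abs_nonneg _) hC0
  have p2 : ∀ b, |∑ c, (G y b c - G x b c) * z c| ≤ 3 * (C * ‖z‖ * ‖z‖) := fun b =>
    db_sum fun c => by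
      rw [abs_mul]
      exact mul_le_mul (g4 b c) (hzc c) (abs_nonneg _) (by positivity)
  constructor
  · -- first
    have e1 : inn G (fun x' => qd G y (x' - y)) (fun x' => qd G y (x' - y)) x =
        4 * ∑ a, ∑ b, gi G x a b * (∑ c, G y a c * z c) * (∑ c, G y b c * z c) := by
      unfold inn
      rw [Finset.mul_sum]
      refine Finset.sum_congr rfl fun a _ => ?_
      rw [Finset.mul_sum]
      refine Finset.sum_congr rfl fun b _ => ?_
      rw [db_pd_qd hs, db_pd_qd hs]
      ring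
    have e2 : ∀ a, z a = ∑ b, gi G x a b * ∑ c, G x b c * z c := by
      intro a
      have h := fun c => gi_mul hG hxU a c
      calc z a = ∑ c, (if a = c then 1 else 0) * z c := by simp
        _ = ∑ c, (∑ b, gi G x a b * G x b c) * z c :=
            Finset.sum_congr rfl fun c _ => by rw [h c]
        _ = ∑ c, ∑ b, gi G x a b * (G x b c * z c) :=
            Finset.sum_congr rfl fun c _ => by
              rw [Finset.sum_mul]
              exact Finset.sum_congr rfl fun b _ => by ring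
        _ = ∑ b, ∑ c, gi G x a b * (G x b c * z c) := Finset.sum_comm
        _ = _ := Finset.sum_congr rfl fun b _ => by rw [Finset.mul_sum]
    have e3 : qd G y z = ∑ a, ∑ b, gi G x a b * (∑ c, G y a c * z c) * (∑ c, G x b c * z c) := by
      have : qd G y z = ∑ a, (∑ c, G y a c * z c) * z a := by
        unfold qd
        refine Finset.sum_congr rfl fun a _ => ?_
        rw [Finset.sum_mul]
        exact Finset.sum_congr rfl fun b _ => by ring
      rw [this]
      refine Finset.sum_congr rfl fun a _ => ?_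
      conv_lhs => rw [e2 a]
      rw [Finset.mul_sum]
      exact Finset.sum_congr rfl fun b _ => by ring
    have e4 : inn G (fun x' => qd G y (x' - y)) (fun x' => qd G y (x' - y)) x - 4 * qd G y z =
        4 * ∑ a, ∑ b, gi G x a b * (∑ c, G y a c * z c) * ∑ c, (G y b c - G x b c) * z c := by
      rw [e1, e3, ← mul_sub, ← Finset.sum_sub_distrib]
      congr 1
      refine Finset.sum_congr rfl fun a _ => ?_
      rw [← Finset.sum_sub_distrib]
      refine Finset.sum_congr rfl fun b _ => ?_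
      rw [← mul_sub, ← Finset.sum_sub_distrib]
      congr 1
      exact Finset.sum_congr rfl fun c _ => by ring
    rw [e4, abs_mul, abs_of_nonneg (by norm_num : (0 : ℝ) ≤ 4)]
    have e5 : |∑ a, ∑ b, gi G x a b * (∑ c, G y a c * z c) * ∑ c, (G y b c - G x b c) * z c| ≤
        3 * (3 * (C * (3 * (C * ‖z‖)) * (3 * (C * ‖z‖ * ‖z‖)))) := by
      refine db_sum fun a => db_sum fun b => ?_
      rw [abs_mul, abs_mul]
      exact mul_le_mul (mul_le_mul (g1 a b) (p1 a) (abs_nonneg _) hC0) (p2 b) (abs_nonneg _)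
        (by positivity)
    have e6 : 0 ≤ C ^ 3 * ‖z‖ ^ 3 := by positivity
    nlinarith
  · -- second
    have e1 : lap G (fun x' => qd G y (x' - y)) x - 6 =
        2 * ∑ a, ∑ b, gi G x a b * (G y a b - G x a b) -
        2 * ∑ a, ∑ b, gi G x a b * ∑ k, chr G k a b x * ∑ c, G y k c * z c := by
      have h3 : ∑ a, ∑ b, gi G x a b * G x a b = 3 := tr_metric hG hxU
      unfold lap tr
      have e2 : ∀ a b, gi G x a b * hess G (fun x' => qd G y (x' - y)) a b x =
          2 * (gi G x a b * (G y a b - G x a b)) + 2 * (gi G x a b * G x a b) -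
          2 * (gi G x a b * ∑ k, chr G k a b x * ∑ c, G y k c * z c) := by
        intro a b
        rw [db_hess hs, hs b a]
        have : ∑ k, chr G k a b x * (2 * ∑ c, G y k c * (x - y) c) =
            2 * ∑ k, chr G k a b x * ∑ c, G y k c * z c := by
          rw [Finset.mul_sum]
          exact Finset.sum_congr rfl fun k _ => by ring
        rw [this]
        ring
      simp only [e2, Finset.sum_sub_distrib, Finset.sum_add_distrib, ← Finset.mul_sum, h3]
      ring
    rw [e1]
    have q1 : |∑ a, ∑ b, gi G x a b * (G y a b - G x a b)| ≤ 3 * (3 * (C * (C * ‖z‖))) := by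
      refine db_sum fun a => db_sum fun b => ?_
      rw [abs_mul]
      exact mul_le_mul (g1 a b) (g4 a b) (abs_nonneg _) hC0
    have q2 : |∑ a, ∑ b, gi G x a b * ∑ k, chr G k a b x * ∑ c, G y k c * z c| ≤
        3 * (3 * (C * (3 * (C * (3 * (C * ‖z‖)))))) := by
      refine db_sum fun a => db_sum fun b => ?_
      rw [abs_mul]
      refine mul_le_mul (g1 a b) (db_sum fun k => ?_) (abs_nonneg _) hC0
      rw [abs_mul]
      exact mul_le_mul (g2 k a b) (p1 k) (abs_nonneg _) hC0
    have q3 : C * (C * ‖z‖) ≤ C ^ 3 * ‖z‖ := by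
      have : C ^ 2 ≤ C ^ 3 := pow_le_pow_right₀ hCpos (by norm_num)
      nlinarith
    have q4 : 0 ≤ C ^ 3 * ‖z‖ := by positivity
    refine (abs_sub _ _).trans ?_
    rw [abs_mul, abs_mul, abs_of_nonneg (by norm_num : (0 : ℝ) ≤ 2)]
    nlinarith

end YR
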