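import Pool.Agent.Work.MP_71b0e8_gt.Skel.DR0

/-! DRC : radial integrals on `ℝ³`. -/

open scoped ContDiff Topology
open MeasureTheory Metric Set Filter

noncomputable section

namespace YR

theorem drc_int1 {a : ℝ} (ha : 0 < a) :
    IntegrableOn (fun y : ℝ => Real.exp (-a * y)) (Ioi 0) ∧
    ∫ y in Ioi (0 : ℝ), Real.exp (-a * y) = 1 / a := by
  refine ⟨exp_neg_integrableOn_Ioi 0 ha, ?_⟩
  rw [integral_exp_mul_Ioi (by linarith) 0]
  simp

theorem drc_int2 {a : ℝ} (ha : 0 < a) :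
    IntegrableOn (fun y : ℝ => y * Real.exp (-a * y)) (Ioi 0) ∧
    ∫ y in Ioi (0 : ℝ), y * Real.exp (-a * y) = 1 / a ^ 2 := by
  constructor
  · have h := integrableOn_rpow_mul_exp_neg_mul_rpow (p := 1) (s := 1) (b := a) (by norm_num)
      one_pos ha
    simpa using h
  · have h := Real.integral_rpow_mul_exp_neg_mul_Ioi (a := 2) (r := a) (by norm_num) ha
    have h2 : ∫ y in Ioi (0 : ℝ), y * Real.exp (-a * y) =
        ∫ t : ℝ in Ioi 0, t ^ ((2 : ℝ) - 1) * Real.exp (-(a * t)) := by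
      refine setIntegral_congr_fun measurableSet_Ioi fun t _ => ?_
      norm_num
    rw [h2, h, Real.Gamma_two]
    norm_num

theorem exp_int : ∃ A : ℝ, 0 < A ∧ ∀ a : ℝ, 0 < a →
    Integrable (fun z : E => Real.exp (-a * ‖z‖) / ‖z‖ ^ 2) ∧
    ∫ z : E, Real.exp (-a * ‖z‖) / ‖z‖ ^ 2 ≤ A / a ∧
    Integrable (fun z : E => Real.exp (-a * ‖z‖) / ‖z‖) ∧
    ∫ z : E, Real.exp (-a * ‖z‖) / ‖z‖ ≤ A / a ^ 2 := by
  have hd : Module.finrank ℝ E = 3 := by simp
  have hv : 0 < (volume : Measure E).real (ball 0 1) :=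
    ENNReal.toReal_pos (measure_ball_pos volume 0 one_pos).ne' measure_ball_lt_top.ne
  refine ⟨3 * (volume : Measure E).real (ball 0 1), by positivity, fun a ha => ?_⟩
  have e1 : EqOn (fun y : ℝ => y ^ (Module.finrank ℝ E - 1) • (Real.exp (-a * y) / y ^ 2))
      (fun y => Real.exp (-a * y)) (Ioi 0) := by
    intro y hy
    have hy' : (0 : ℝ) < y := hy
    simp only [hd, smul_eq_mul]
    field_simp
  have e2 : EqOn (fun y : ℝ => y ^ (Module.finrank ℝ E - 1) • (Real.exp (-a * y) / y))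
      (fun y => y * Real.exp (-a * y)) (Ioi 0) := by
    intro y hy
    have hy' : (0 : ℝ) < y := hy
    simp only [hd, smul_eq_mul]
    field_simp
  obtain ⟨i1, j1⟩ := drc_int1 ha
  obtain ⟨i2, j2⟩ := drc_int2 ha
  refine ⟨?_, ?_, ?_, ?_⟩
  · exact (integrable_fun_norm_addHaar volume (f := fun y => Real.exp (-a * y) / y ^ 2)).2
      ((integrableOn_congr_fun e1 measurableSet_Ioi).2 i1)
  · rw [integral_fun_norm_addHaar volume (fun y => Real.exp (-a * y) / y ^ 2),
      setIntegral_congr_fun measurableSet_Ioi e1, j1, hd]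
    simp only [nsmul_eq_mul, smul_eq_mul]
    apply le_of_eq
    push_cast
    ring
  · exact (integrable_fun_norm_addHaar volume (f := fun y => Real.exp (-a * y) / y)).2
      ((integrableOn_congr_fun e2 measurableSet_Ioi).2 i2)
  · rw [integral_fun_norm_addHaar volume (fun y => Real.exp (-a * y) / y),
      setIntegral_congr_fun measurableSet_Ioi e2, j2, hd]
    simp only [nsmul_eq_mul, smul_eq_mul]
    apply le_of_eq
    push_cast
    ring

theorem kap0_integrable : Integrable (fun v : E => 24 / √(‖v‖ ^ 2 + 1) ^ 5) := by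
  have h := (integrable_rpow_neg_one_add_norm_sq (E := E) (μ := volume) (r := 5)
    (by simp; norm_num)).const_mul 24
  refine h.congr (Eventually.of_forall fun v => ?_)
  have hp : (0 : ℝ) < 1 + ‖v‖ ^ 2 := by positivity
  show 24 * (1 + ‖v‖ ^ 2) ^ (-(5 : ℝ) / 2) = 24 / √(‖v‖ ^ 2 + 1) ^ 5
  have h5 : √(1 + ‖v‖ ^ 2) ^ 5 = (1 + ‖v‖ ^ 2) ^ ((5 : ℝ) / 2) := by
    rw [Real.sqrt_eq_rpow, ← Real.rpow_natCast ((1 + ‖v‖ ^ 2) ^ ((1 : ℝ) / 2)) 5,
      ← Real.rpow_mul hp.le]
    norm_num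
  have h6 : (-(5 : ℝ) / 2) = -((5 : ℝ) / 2) := by norm_num
  rw [add_comm (‖v‖ ^ 2), h5, h6, Real.rpow_neg hp.le]
  rfl

theorem kap0_pos : 0 < kap0 := by
  unfold kap0
  rw [integral_pos_iff_support_of_nonneg (fun v => by positivity) kap0_integrable]
  have : Function.support (fun v : E => 24 / √(‖v‖ ^ 2 + 1) ^ 5) = univ := by
    ext v
    have hp : (0 : ℝ) < √(‖v‖ ^ 2 + 1) := Real.sqrt_pos.2 (by positivity)
    simp only [Function.mem_support, mem_univ, iff_true]
    positivity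
  rw [this]
  simp

open MatrixOrder in
theorem drc_factor {M : Mat} (hM : M.PosDef) : ∃ B : Mat, M = B.transpose * B ∧ B.det ≠ 0 ∧
    √M.det = |B.det| := by
  obtain ⟨B, hB⟩ := CStarAlgebra.nonneg_iff_eq_star_mul_self.mp hM.posSemidef.nonneg
  have hB' : M = B.transpose * B := by
    rw [hB, Matrix.star_eq_conjTranspose, Matrix.conjTranspose_eq_transpose_of_trivial]
  have hdet : M.det = B.det ^ 2 := by
    rw [hB', Matrix.det_mul, Matrix.det_transpose]
    ring
  refine ⟨B, hB', ?_, ?_⟩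
  · intro h0
    have := hM.det_pos
    rw [hdet, h0] at this
    simp at this
  · rw [hdet, Real.sqrt_sq_eq_abs]

theorem drc_norm (G : E → Mat) (y : E) {B : Mat} (hB : G y = B.transpose * B) (v : E) :
    qd G y v = ‖B.toLpLin 2 2 v‖ ^ 2 := by
  rw [EuclideanSpace.norm_sq_eq]
  unfold qd
  have h1 : ∀ i, (B.toLpLin 2 2 v).ofLp i = ∑ a, B i a * v a := by
    intro i
    rw [Matrix.ofLp_toLpLin, Matrix.toLin'_apply]
    rfl
  simp only [h1, hB, Matrix.mul_apply, Matrix.transpose_apply, Real.norm_eq_abs, sq_abs,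
    Fin.sum_univ_three]
  ring

/-- `∫ (|v|²_{G y} + 1)^{-5/2} dv · √det G(y) = κ₀` (linear change of variables) -/
theorem kap0_change {G : E → Mat} (hG : LM (ball 0 4) G) {y : E} (hy : y ∈ ball (0 : E) 4) :
    ∫ v : E, √(G y).det * (24 / √(qd G y v + 1) ^ 5) = kap0 := by
  obtain ⟨B, hB, hdet, hs⟩ := drc_factor (hG.pos y hy)
  have hdet' : LinearMap.det (B.toLpLin 2 2) ≠ 0 := by
    rw [LinearMap.det_toLpLin]; exact hdet
  have h1 := Measure.map_linearMap_addHaar_eq_smul_addHaar (μ := (volume : Measure E)) hdet'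
  rw [LinearMap.det_toLpLin] at h1
  have hc : Continuous (fun v : E => 24 / √(‖v‖ ^ 2 + 1) ^ 5) := by
    apply Continuous.div continuous_const (by fun_prop)
    intro v
    have hp : (0 : ℝ) < √(‖v‖ ^ 2 + 1) := Real.sqrt_pos.2 (by positivity)
    positivity
  have hBc : Continuous (B.toLpLin 2 2 : E → E) :=
    LinearMap.continuous_of_finiteDimensional _
  have h2 : ∫ v : E, 24 / √(‖B.toLpLin 2 2 v‖ ^ 2 + 1) ^ 5 = |(B.det)⁻¹| * kap0 := by
    have h3 := integral_map (μ := (volume : Measure E)) hBc.measurable.aemeasurable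
      (f := fun v : E => 24 / √(‖v‖ ^ 2 + 1) ^ 5) hc.aestronglyMeasurable
    rw [← h3, h1, integral_smul_measure, ENNReal.toReal_ofReal (abs_nonneg _)]
    rfl
  simp_rw [drc_norm G y hB]
  rw [integral_const_mul, h2, hs, ← mul_assoc, ← abs_mul, mul_inv_cancel₀ hdet]
  simp

end YR
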