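import Pool.Agent.Work.MP_71b0e8_gt.Skel.DRA
import Pool.Agent.Work.MP_71b0e8_gt.Skel.DRB
import Pool.Agent.Work.MP_71b0e8_gt.Skel.DRC

open scoped ContDiff Topology
open MeasureTheory Metric Set Filter

noncomputable section

namespace YR

/-! ### DRD : the approximate identity. Substitute `y = x - √δ v`; the function
`(x, δ) ↦ ∫ √det G(x - √δ v)/κ₀ · 32 · δ^{5/2} Φ''(δ (q_{x-√δv}(v) + 1)) h(x - √δ v) dv` extends
continuously to `δ = 0` (dominated by `C (1 + |v|²)^{-5/2}`), hence uniformly for `x` in a compact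
set. -/

theorem Prof.P2_cont {K μ σ ε : ℝ} (p : Prof K μ σ ε) : ContinuousOn p.P2 (Ioi 0) := by
  have h1 : ContDiffOn ℝ ∞ (deriv p.P) (Ioi 0) :=
    ((contDiffOn_infty_iff_deriv_of_isOpen isOpen_Ioi).1 p.smooth).2
  have h2 : ContDiffOn ℝ ∞ p.P1 (Ioi 0) :=
    h1.congr fun s hs => ((p.d1 s hs).deriv).symm
  have h3 : ContDiffOn ℝ ∞ (deriv p.P1) (Ioi 0) :=
    ((contDiffOn_infty_iff_deriv_of_isOpen isOpen_Ioi).1 h2).2
  have h4 : ContDiffOn ℝ ∞ p.P2 (Ioi 0) :=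
    h3.congr fun s hs => ((p.d2 s hs).deriv).symm
  exact h4.continuousOn

theorem Prof.K_nonneg {K μ σ ε : ℝ} (p : Prof K μ σ ε) : 0 ≤ K := by
  have h := (abs_nonneg _).trans (p.b2 1 one_pos)
  rw [Real.sqrt_one, one_pow, div_one] at h
  exact nonneg_of_mul_nonneg_left h (Real.exp_pos _)

theorem qd_cont {G : E → Mat} (hG : LM (ball 0 4) G) :
    ContinuousOn (fun q : E × E => qd G q.1 q.2) (ball 0 4 ×ˢ univ) := by
  have h1 : ∀ a b, ContinuousOn (fun q : E × E => G q.1 a b) (ball 0 4 ×ˢ univ) := by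
    intro a b
    exact ((hG.smooth a b).continuousOn).comp continuousOn_fst (fun q hq => hq.1)
  have h2 : ∀ a, ContinuousOn (fun q : E × E => q.2 a) (ball 0 4 ×ˢ univ) := by
    intro a
    exact ((EuclideanSpace.proj a : E →L[ℝ] ℝ).continuous.comp continuous_snd).continuousOn
  unfold qd
  refine continuousOn_finsetSum _ fun a _ => continuousOn_finsetSum _ fun b _ => ?_
  exact ((h1 a b).mul (h2 a)).mul (h2 b)

theorem det_cont {G : E → Mat} (hG : LM (ball 0 4) G) :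
    ContinuousOn (fun y => √(G y).det) (ball 0 4) := by
  refine Real.continuous_sqrt.comp_continuousOn ?_
  have h0 : ContinuousOn G (ball 0 4) := by
    refine continuousOn_pi.2 fun a => continuousOn_pi.2 fun b => (hG.smooth a b).continuousOn
  exact (Continuous.matrix_det continuous_id).comp_continuousOn h0

/-- the rescaled integrand -/
def Jd (G : E → Mat) (P2 : ℝ → ℝ) (h : E → ℝ) (δ : ℝ) (x v : E) : ℝ :=
  √(G (x - √δ • v)).det / kap0 *
    (32 * (√δ ^ 5 * P2 (qd G (x - √δ • v) (√δ • v) + δ))) * h (x - √δ • v)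

theorem Jd_eq (G : E → Mat) (P2 : ℝ → ℝ) {h : E → ℝ} (hs : ∀ y, h y ≠ 0 → ‖y‖ ≤ 2)
    {δ : ℝ} (hδ : 0 < δ) (x : E) :
    (∫ y in closedBall (0 : E) 2,
        √(G y).det / kap0 * (32 * δ * P2 (qd G y (x - y) + δ)) * h y) =
      ∫ v, Jd G P2 h δ x v := by
  set f : E → ℝ := fun y => √(G y).det / kap0 * (32 * δ * P2 (qd G y (x - y) + δ)) * h y with hf
  have h1 : (∫ y in closedBall (0 : E) 2, f y) = ∫ y, f y := by
    refine setIntegral_eq_integral_of_forall_compl_eq_zero fun y hy => ?_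
    have : h y = 0 := by
      by_contra h0
      exact hy (mem_closedBall_zero_iff.2 (hs y h0))
    simp only [hf, this, mul_zero]
  have hsq : √δ ^ 2 = δ := Real.sq_sqrt hδ.le
  have hpos : 0 < √δ := Real.sqrt_pos.2 hδ
  have h2 : (∫ v : E, f (x - √δ • v)) = (√δ ^ 3)⁻¹ * ∫ y, f y := by
    have e := Measure.integral_comp_smul (volume : Measure E) (fun y => f (x - y)) √δ
    rw [e, integral_sub_left_eq_self f volume x]
    have : Module.finrank ℝ E = 3 := by simp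
    rw [this, abs_of_pos (by positivity), smul_eq_mul]
  have h3 : (∫ y, f y) = √δ ^ 3 * ∫ v : E, f (x - √δ • v) := by
    rw [h2, ← mul_assoc, mul_inv_cancel₀ (by positivity), one_mul]
  rw [h1, h3, ← integral_const_mul]
  congr 1
  ext v
  simp only [hf, Jd, sub_sub_cancel]
  have : √δ ^ 5 = √δ ^ 3 * δ := by rw [← hsq]; simp only [Real.sqrt_sq hpos.le]; ring
  rw [this]
  ring

theorem Jd_bound {G : E → Mat} (hG : LM (ball 0 4) G) {K μ σ ε : ℝ} (p : Prof K μ σ ε)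
    (hμ : 0 < μ) {h : E → ℝ} (hc : Continuous h) (hs : ∀ y, h y ≠ 0 → ‖y‖ ≤ 2) :
    ∃ C : ℝ, ∀ δ : ℝ, 0 < δ → ∀ x v : E,
      ‖Jd G p.P2 h δ x v‖ ≤ C * (24 / √(‖v‖ ^ 2 + 1) ^ 5) := by
  obtain ⟨b, hb, B', hbB⟩ := qd_bounds hG
  obtain ⟨B, hB⟩ := det_bounds hG
  have hcs : HasCompactSupport h := by
    refine HasCompactSupport.of_support_subset_isCompact (isCompact_closedBall (0 : E) 2) ?_
    intro y hy
    exact mem_closedBall_zero_iff.2 (hs y hy)
  obtain ⟨H, hH⟩ := hcs.exists_bound_of_continuous hc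
  have hH0 : 0 ≤ H := (norm_nonneg _).trans (hH 0)
  have hK := p.K_nonneg
  have hk0 := kap0_pos
  have hB0 : 0 ≤ B := (Real.sqrt_nonneg _).trans (hB 0 (by simp))
  set b1 := min b 1 with hb1
  have hb1pos : 0 < b1 := lt_min hb one_pos
  refine ⟨B / kap0 * (32 * (K / √b1 ^ 5)) * H / 24, fun δ hδ x v => ?_⟩
  set y := x - √δ • v with hy
  have hnn : 0 < √(‖v‖ ^ 2 + 1) := Real.sqrt_pos.2 (by positivity)
  by_cases hzero : h y = 0
  · have : Jd G p.P2 h δ x v = 0 := by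
      unfold Jd
      rw [← hy, hzero, mul_zero]
    rw [this, norm_zero]
    positivity
  have hy2 : ‖y‖ ≤ 2 := hs y hzero
  have hy3 : y ∈ closedBall (0 : E) 3 := mem_closedBall_zero_iff.2 (by linarith)
  have hq := (hbB y hy3 v).1
  have hq0 : 0 ≤ qd G y v := le_trans (by positivity) hq
  have hsq : √δ ^ 2 = δ := Real.sq_sqrt hδ.le
  have hpos : 0 < √δ := Real.sqrt_pos.2 hδ
  have hs1 : qd G y (√δ • v) + δ = δ * (qd G y v + 1) := by
    rw [qd_smul, hsq]; ring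
  have hspos : 0 < δ * (qd G y v + 1) := by positivity
  have hP : |p.P2 (δ * (qd G y v + 1))| ≤ K / (√δ ^ 5 * √(qd G y v + 1) ^ 5) := by
    refine (p.b2 _ hspos).trans ?_
    rw [Real.sqrt_mul hδ.le, mul_pow]
    have h1 : Real.exp (-(μ / 2) * (√δ * √(qd G y v + 1))) ≤ 1 := by
      rw [Real.exp_le_one_iff]
      have : 0 ≤ √δ * √(qd G y v + 1) := by positivity
      nlinarith
    have h2 : 0 < √(qd G y v + 1) := Real.sqrt_pos.2 (by linarith)
    gcongr
    calc K * _ ≤ K * 1 := by gcongr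
      _ = K := mul_one K
  have hR : √b1 * √(‖v‖ ^ 2 + 1) ≤ √(qd G y v + 1) := by
    rw [← Real.sqrt_mul hb1pos.le]
    refine Real.sqrt_le_sqrt ?_
    have e1 : b1 ≤ b := min_le_left _ _
    have e2 : b1 ≤ 1 := min_le_right _ _
    nlinarith [sq_nonneg ‖v‖]
  have hb1s : 0 < √b1 := Real.sqrt_pos.2 hb1pos
  have h2 : 0 < √(qd G y v + 1) := Real.sqrt_pos.2 (by linarith)
  have hP2 : √δ ^ 5 * |p.P2 (δ * (qd G y v + 1))| ≤ K / √b1 ^ 5 * (1 / √(‖v‖ ^ 2 + 1) ^ 5) := by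
    calc √δ ^ 5 * |p.P2 (δ * (qd G y v + 1))|
        ≤ √δ ^ 5 * (K / (√δ ^ 5 * √(qd G y v + 1) ^ 5)) := by gcongr
      _ = K / √(qd G y v + 1) ^ 5 := by field_simp
      _ ≤ K / (√b1 * √(‖v‖ ^ 2 + 1)) ^ 5 := by gcongr
      _ = K / √b1 ^ 5 * (1 / √(‖v‖ ^ 2 + 1) ^ 5) := by rw [mul_pow]; field_simp
  unfold Jd
  rw [← hy, hs1, Real.norm_eq_abs, abs_mul, abs_mul, abs_mul, abs_mul, abs_of_nonneg
    (show (0 : ℝ) ≤ √(G y).det / kap0 by positivity), abs_of_pos (show (0 : ℝ) < 32 by norm_num),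
    abs_of_pos (show (0 : ℝ) < √δ ^ 5 by positivity)]
  calc √(G y).det / kap0 * (32 * (√δ ^ 5 * |p.P2 (δ * (qd G y v + 1))|)) * |h y|
      ≤ B / kap0 * (32 * (K / √b1 ^ 5 * (1 / √(‖v‖ ^ 2 + 1) ^ 5))) * H := by
        have hd := hB y hy3
        have hh : |h y| ≤ H := hH y
        gcongr
    _ = B / kap0 * (32 * (K / √b1 ^ 5)) * H / 24 * (24 / √(‖v‖ ^ 2 + 1) ^ 5) := by ring

theorem Jd_meas {G : E → Mat} (hG : LM (ball 0 4) G) {K μ σ ε : ℝ} (p : Prof K μ σ ε)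
    {h : E → ℝ} (hc : Continuous h) (hs : ∀ y, h y ≠ 0 → ‖y‖ ≤ 2) {δ : ℝ} (hδ : 0 < δ) (x : E) :
    AEStronglyMeasurable (fun v => Jd G p.P2 h δ x v) volume := by
  obtain ⟨b, hb, B', hbB⟩ := qd_bounds hG
  have hcy : Continuous (fun v : E => x - √δ • v) := by fun_prop
  set S : Set E := (fun v : E => x - √δ • v) ⁻¹' ball 0 3 with hS
  have hSo : IsOpen S := isOpen_ball.preimage hcy
  have h4 : ∀ v ∈ S, x - √δ • v ∈ ball (0 : E) 4 := fun v hv =>
    ball_subset_ball (by norm_num) hv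
  have hcont : ContinuousOn (fun v => Jd G p.P2 h δ x v) S := by
    unfold Jd
    refine ContinuousOn.mul (ContinuousOn.mul ?_ ?_) (hc.comp hcy).continuousOn
    · exact ((det_cont hG).comp hcy.continuousOn h4).div_const _
    · refine continuousOn_const.mul (continuousOn_const.mul ?_)
      refine p.P2_cont.comp ?_ ?_
      · refine ContinuousOn.add ?_ continuousOn_const
        exact (qd_cont hG).comp (f := fun v : E => (x - √δ • v, √δ • v))
          (hcy.continuousOn.prodMk (by fun_prop)) (fun v hv => ⟨h4 v hv, mem_univ _⟩)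
      · intro v hv
        have hv3 : x - √δ • v ∈ closedBall (0 : E) 3 := ball_subset_closedBall hv
        have := (hbB _ hv3 (√δ • v)).1
        have h0 : 0 ≤ b * ‖√δ • v‖ ^ 2 := by positivity
        show (0 : ℝ) < qd G (x - √δ • v) (√δ • v) + δ
        linarith
  have hind : (fun v => Jd G p.P2 h δ x v) = S.indicator (fun v => Jd G p.P2 h δ x v) := by
    ext v
    by_cases hv : v ∈ S
    · rw [indicator_of_mem hv]
    · rw [indicator_of_notMem hv]
      have : h (x - √δ • v) = 0 := by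
        by_contra h0
        have := hs _ h0
        exact hv (mem_ball_zero_iff.2 (by linarith))
      unfold Jd
      rw [this, mul_zero]
  rw [hind, aestronglyMeasurable_indicator_iff hSo.measurableSet]
  exact hcont.aestronglyMeasurable hSo.measurableSet

theorem Jd_tendsto {G : E → Mat} (hG : LM (ball 0 4) G) {K μ σ ε : ℝ} (p : Prof K μ σ ε)
    {h : E → ℝ} (hc : Continuous h) {x0 : E} (hx0 : x0 ∈ closedBall (0 : E) 3) (v : E) :
    Tendsto (fun q : ℝ × E => Jd G p.P2 h q.1 q.2 v) (𝓝[>] (0 : ℝ) ×ˢ 𝓝 x0)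
      (𝓝 (√(G x0).det / kap0 * (32 * ((3 / 4) / √(qd G x0 v + 1) ^ 5)) * h x0)) := by
  obtain ⟨b, hb, B', hbB⟩ := qd_bounds hG
  have hx4 : x0 ∈ ball (0 : E) 4 := closedBall_subset_ball (by norm_num) hx0
  have hq0 : 0 ≤ qd G x0 v := le_trans (by positivity) (hbB x0 hx0 v).1
  set l : Filter (ℝ × E) := 𝓝[>] (0 : ℝ) ×ˢ 𝓝 x0 with hl
  have t1 : Tendsto (fun q : ℝ × E => q.1) l (𝓝[>] 0) := tendsto_fst
  have t1' : Tendsto (fun q : ℝ × E => q.1) l (𝓝 0) := t1.mono_right nhdsWithin_le_nhds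
  have t2 : Tendsto (fun q : ℝ × E => q.2) l (𝓝 x0) := tendsto_snd
  have ts : Tendsto (fun q : ℝ × E => √q.1) l (𝓝 0) := by
    have := (Real.continuous_sqrt.tendsto 0).comp t1'
    rwa [Real.sqrt_zero] at this
  have ty : Tendsto (fun q : ℝ × E => q.2 - √q.1 • v) l (𝓝 x0) := by
    have := t2.sub (ts.smul_const v)
    rwa [zero_smul, sub_zero] at this
  have hn4 : ball (0 : E) 4 ∈ 𝓝 x0 := isOpen_ball.mem_nhds hx4
  have tdet : Tendsto (fun q : ℝ × E => √(G (q.2 - √q.1 • v)).det) l (𝓝 √(G x0).det) :=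
    ((det_cont hG).continuousAt hn4).tendsto.comp ty
  have th : Tendsto (fun q : ℝ × E => h (q.2 - √q.1 • v)) l (𝓝 (h x0)) :=
    (hc.tendsto x0).comp ty
  have hqc : ContinuousAt (fun y => qd G y v) x0 := by
    have h1 : ContinuousAt (fun q : E × E => qd G q.1 q.2) (x0, v) :=
      (qd_cont hG).continuousAt (prod_mem_nhds hn4 univ_mem)
    exact ContinuousAt.comp (f := fun y : E => (y, v)) (g := fun q : E × E => qd G q.1 q.2) h1
      (by fun_prop)
  have tq : Tendsto (fun q : ℝ × E => qd G (q.2 - √q.1 • v) v + 1) l (𝓝 (qd G x0 v + 1)) :=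
    (hqc.tendsto.comp ty).add_const 1
  have hqpos : ∀ᶠ q in l, 0 < qd G (q.2 - √q.1 • v) v + 1 :=
    tq.eventually (lt_mem_nhds (show (0 : ℝ) < qd G x0 v + 1 by linarith))
  have hδpos : ∀ᶠ q : ℝ × E in l, 0 < q.1 := t1.eventually self_mem_nhdsWithin
  have tsv : Tendsto (fun q : ℝ × E => q.1 * (qd G (q.2 - √q.1 • v) v + 1)) l (𝓝[>] 0) := by
    refine tendsto_nhdsWithin_iff.2 ⟨?_, ?_⟩
    · have := t1'.mul tq
      rwa [zero_mul] at this
    · filter_upwards [hqpos, hδpos] with q h1 h2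
      exact mul_pos h2 h1
  have t3 : Tendsto (fun q : ℝ × E =>
      √(q.1 * (qd G (q.2 - √q.1 • v) v + 1)) ^ 5 *
        p.P2 (q.1 * (qd G (q.2 - √q.1 • v) v + 1))) l (𝓝 (3 / 4)) := p.asy.comp tsv
  have t4 : Tendsto (fun q : ℝ × E => √(qd G (q.2 - √q.1 • v) v + 1) ^ 5) l
      (𝓝 (√(qd G x0 v + 1) ^ 5)) := ((Real.continuous_sqrt.tendsto _).comp tq).pow 5
  have h4 : √(qd G x0 v + 1) ^ 5 ≠ 0 := by
    have : 0 < √(qd G x0 v + 1) := Real.sqrt_pos.2 (by linarith)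
    positivity
  have t5 := t3.div t4 h4
  have t6 : Tendsto (fun q : ℝ × E =>
      √q.1 ^ 5 * p.P2 (qd G (q.2 - √q.1 • v) (√q.1 • v) + q.1)) l
      (𝓝 ((3 / 4) / √(qd G x0 v + 1) ^ 5)) := by
    refine t5.congr' ?_
    filter_upwards [hqpos, hδpos] with q h1 h2
    have e1 : qd G (q.2 - √q.1 • v) (√q.1 • v) + q.1 = q.1 * (qd G (q.2 - √q.1 • v) v + 1) := by
      rw [qd_smul, Real.sq_sqrt h2.le]; ring
    have e2 : 0 < √(qd G (q.2 - √q.1 • v) v + 1) := Real.sqrt_pos.2 h1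
    simp only [Pi.div_apply]
    rw [e1, Real.sqrt_mul h2.le, mul_pow]
    field_simp
  exact ((tdet.div_const kap0).mul (t6.const_mul 32)).mul th

theorem approx_id {G : E → Mat} (hG : LM (ball 0 4) G) {K μ σ ε : ℝ} (p : Prof K μ σ ε)
    (hμ : 0 < μ)
    (hσ : ∀ y ∈ closedBall (0 : E) 2, ∀ z : E, qd G y z < σ → ‖z‖ ≤ 1)
    {h : E → ℝ} (hc : Continuous h) (hs : ∀ y, h y ≠ 0 → ‖y‖ ≤ 2) {η : ℝ} (hη : 0 < η) :
    ∀ᶠ δ in 𝓝[>] (0 : ℝ), ∀ x : E,
      |(∫ y in closedBall (0 : E) 2,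
        √(G y).det / kap0 * (32 * δ * p.P2 (qd G y (x - y) + δ)) * h y) - h x| ≤ η := by
  obtain ⟨C, hC⟩ := Jd_bound hG p hμ hc hs
  have hlim : ∀ x0 ∈ closedBall (0 : E) 3,
      Tendsto (fun q : ℝ × E => ∫ v, Jd G p.P2 h q.1 q.2 v) (𝓝[>] (0 : ℝ) ×ˢ 𝓝 x0)
        (𝓝 (h x0)) := by
    intro x0 hx0
    have hδpos : ∀ᶠ q : ℝ × E in 𝓝[>] (0 : ℝ) ×ˢ 𝓝 x0, 0 < q.1 :=
      (tendsto_fst (f := 𝓝[>] (0 : ℝ)) (g := 𝓝 x0)).eventually self_mem_nhdsWithin
    have key := tendsto_integral_filter_of_dominated_convergence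
      (μ := (volume : Measure E)) (l := 𝓝[>] (0 : ℝ) ×ˢ 𝓝 x0)
      (F := fun q : ℝ × E => fun v => Jd G p.P2 h q.1 q.2 v)
      (f := fun v => √(G x0).det / kap0 * (32 * ((3 / 4) / √(qd G x0 v + 1) ^ 5)) * h x0)
      (fun v => C * (24 / √(‖v‖ ^ 2 + 1) ^ 5))
      (by filter_upwards [hδpos] with q hq; exact Jd_meas hG p hc hs hq q.2)
      (by filter_upwards [hδpos] with q hq; exact Eventually.of_forall fun v => hC q.1 hq q.2 v)
      (kap0_integrable.const_mul C)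
      (Eventually.of_forall fun v => Jd_tendsto hG p hc hx0 v)
    have e : (∫ v : E, √(G x0).det / kap0 * (32 * ((3 / 4) / √(qd G x0 v + 1) ^ 5)) * h x0) =
        h x0 := by
      have e1 : ∀ v : E, √(G x0).det / kap0 * (32 * ((3 / 4) / √(qd G x0 v + 1) ^ 5)) * h x0 =
          (h x0 / kap0) * (√(G x0).det * (24 / √(qd G x0 v + 1) ^ 5)) := by
        intro v; ring
      simp_rw [e1]
      rw [integral_const_mul, kap0_change hG (closedBall_subset_ball (by norm_num) hx0)]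
      exact div_mul_cancel₀ _ kap0_pos.ne'
    rw [e] at key
    exact key
  have hcpt : ∀ᶠ δ in 𝓝 (0 : ℝ), ∀ x ∈ closedBall (0 : E) 3, 0 < δ →
      |(∫ v, Jd G p.P2 h δ x v) - h x| ≤ η := by
    refine (isCompact_closedBall (0 : E) 3).eventually_forall_of_forall_eventually ?_
    intro x0 hx0
    have t : Tendsto (fun q : ℝ × E => |(∫ v, Jd G p.P2 h q.1 q.2 v) - h q.2|)
        (𝓝[>] (0 : ℝ) ×ˢ 𝓝 x0) (𝓝 |h x0 - h x0|) :=
      ((hlim x0 hx0).sub ((hc.tendsto x0).comp tendsto_snd)).abs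
    rw [sub_self, abs_zero] at t
    have t2 := t.eventually (ge_mem_nhds hη)
    have e : 𝓝[>] (0 : ℝ) ×ˢ 𝓝 x0 = 𝓝[Ioi 0 ×ˢ univ] ((0 : ℝ), x0) := by
      rw [nhdsWithin_prod_eq, nhdsWithin_univ]
    rw [e, eventually_nhdsWithin_iff] at t2
    filter_upwards [t2] with q hq hq0
    exact hq ⟨hq0, mem_univ _⟩
  rw [eventually_nhdsWithin_iff]
  filter_upwards [hcpt] with δ hδ hδ0 x
  have hδ0' : 0 < δ := hδ0
  by_cases hx : x ∈ closedBall (0 : E) 3
  · rw [Jd_eq G p.P2 hs hδ0' x]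
    exact hδ x hx hδ0'
  · have hx3 : 3 < ‖x‖ := by
      simpa [mem_closedBall_zero_iff] using hx
    have hhx : h x = 0 := by
      by_contra h0
      have := hs x h0
      linarith
    have hz : (∫ y in closedBall (0 : E) 2,
        √(G y).det / kap0 * (32 * δ * p.P2 (qd G y (x - y) + δ)) * h y) = 0 := by
      refine setIntegral_eq_zero_of_forall_eq_zero fun y hy => ?_
      have hy2 : ‖y‖ ≤ 2 := mem_closedBall_zero_iff.1 hy
      have h1 : 1 < ‖x - y‖ := by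
        have := norm_sub_norm_le x y
        linarith
      have h2 : σ ≤ qd G y (x - y) := by
        by_contra hlt
        have := hσ y hy (x - y) (not_le.1 hlt)
        linarith
      have h3 := (p.zero (qd G y (x - y) + δ) (by linarith)).2.2
      rw [h3, mul_zero, mul_zero, zero_mul]
    rw [hz, hhx, sub_self, abs_zero]
    exact hη.le

end YR
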