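import Pool.Agent.Work.MP_71b0e8_gt.Skel.DRD
import Pool.Agent.Work.MP_71b0e8_gt.Skel.DRE

/-! Module DRF: assembly of the local parametrix. -/

open scoped ContDiff Topology
open MeasureTheory Metric Set Filter

noncomputable section

namespace YR

/-! ### smoothness in both variables -/

theorem df_pd {H : E → E → ℝ} (hH : ContDiff ℝ ∞ (fun p : E × E => H p.1 p.2)) (a : Fin 3) :
    ContDiff ℝ ∞ (fun p : E × E => pd a (fun x' => H x' p.2) p.1) := by
  have h1 : (fun p : E × E => pd a (fun x' => H x' p.2) p.1) =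
      fun p : E × E => fderiv ℝ (fun p : E × E => H p.1 p.2) p (be a, 0) := by
    funext p
    have h2 : HasFDerivAt (fun x' : E => ((x', p.2) : E × E))
        (ContinuousLinearMap.inl ℝ E E) p.1 := hasFDerivAt_prodMk_left p.1 p.2
    have h3 : HasFDerivAt (fun p : E × E => H p.1 p.2)
        (fderiv ℝ (fun p : E × E => H p.1 p.2) p) (p.1, p.2) :=
      (hH.differentiable (by simp) p).hasFDerivAt
    have h4 := h3.comp p.1 h2
    unfold pd
    rw [show (fun x' => H x' p.2) = (fun p : E × E => H p.1 p.2) ∘ fun x' : E => ((x', p.2) : E × E)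
      from rfl, h4.fderiv]
    simp
  rw [h1]
  exact (hH.fderiv_right (by simp)).clm_apply contDiff_const

theorem df_lap_cont (G : E → Mat) {H : E → E → ℝ}
    (hH : ContDiff ℝ ∞ (fun p : E × E => H p.1 p.2)) (x : E) :
    Continuous (fun y => lap G (fun x' => H x' y) x) := by
  have h1 : ∀ a, Continuous fun y => pd a (fun x' => H x' y) x := fun a =>
    (df_pd hH a).continuous.comp (by fun_prop : Continuous fun y : E => ((x, y) : E × E))
  have h2 : ∀ a b, Continuous fun y => pd a (pd b (fun x' => H x' y)) x := fun a b =>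
    (df_pd (H := fun x' y => pd b (fun x'' => H x'' y) x') (df_pd hH b) a).continuous.comp
      (by fun_prop : Continuous fun y : E => ((x, y) : E × E))
  unfold lap tr hess
  refine continuous_finsetSum _ fun a _ => continuous_finsetSum _ fun b _ => ?_
  refine continuous_const.mul ((h2 a b).sub ?_)
  exact continuous_finsetSum _ fun k _ => continuous_const.mul (h1 k)

theorem df_slice {H : E → E → ℝ}
    (hH : ContDiff ℝ ∞ (fun p : E × E => H p.1 p.2)) (x : E) : Continuous (fun y => H x y) :=
  hH.continuous.comp (by fun_prop : Continuous fun y : E => ((x, y) : E × E))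

/-! ### the profile -/

section prof

variable {K μ σ ε : ℝ} (p : Prof K μ σ ε)

theorem df_deriv {s : ℝ} (hs : 0 < s) : deriv p.P s = p.P1 s := (p.d1 s hs).deriv

theorem df_P1_smooth : ContDiffOn ℝ ∞ p.P1 (Ioi 0) := by
  have h1 : ContDiffOn ℝ ∞ (deriv p.P) (Ioi 0) :=
    p.smooth.deriv_of_isOpen isOpen_Ioi (by simp)
  exact h1.congr fun s hs => (df_deriv p hs).symm

theorem df_P2_smooth : ContDiffOn ℝ ∞ p.P2 (Ioi 0) := by
  have h1 : ContDiffOn ℝ ∞ (deriv p.P1) (Ioi 0) :=
    (df_P1_smooth p).deriv_of_isOpen isOpen_Ioi (by simp)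
  exact h1.congr fun s hs => ((p.d2 s hs).deriv).symm

end prof

/-! ### the quadratic form -/

theorem df_qd_smooth (G : E → Mat) (y : E) : ContDiff ℝ ∞ (fun x => qd G y (x - y)) := by
  unfold qd
  refine ContDiff.sum fun a _ => ContDiff.sum fun b _ => ?_
  have hc : ∀ a : Fin 3, ContDiff ℝ ∞ fun x : E => (x - y) a := fun a =>
    ((EuclideanSpace.proj a : E →L[ℝ] ℝ).contDiff).comp (contDiff_id.sub contDiff_const)
  exact (contDiff_const.mul (hc a)).mul (hc b)

theorem df_qd_cont {G : E → Mat} (hG : LM (ball 0 4) G) (x : E) :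
    ContinuousOn (fun y => qd G y (x - y)) (closedBall (0 : E) 2) := by
  unfold qd
  have hsub : closedBall (0 : E) 2 ⊆ ball 0 4 := closedBall_subset_ball (by norm_num)
  refine continuousOn_finsetSum _ fun a _ => continuousOn_finsetSum _ fun b _ => ?_
  have hc : ∀ a : Fin 3, Continuous fun y : E => (x - y) a := fun a =>
    ((EuclideanSpace.proj a : E →L[ℝ] ℝ).continuous).comp (continuous_const.sub continuous_id)
  exact (((hG.smooth a b).continuousOn.mono hsub).mul (hc a).continuousOn).mul (hc b).continuousOn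

theorem df_det_cont {G : E → Mat} (hG : LM (ball 0 4) G) :
    ContinuousOn (fun y => √(G y).det) (closedBall (0 : E) 2) := by
  have hsub : closedBall (0 : E) 2 ⊆ ball 0 4 := closedBall_subset_ball (by norm_num)
  exact ((det_smooth hG).continuousOn.mono hsub).sqrt

/-- the kernel inequality -/
theorem df_kern {K μ σ ε b : ℝ} (p : Prof K μ σ ε) (hK : 0 < K) (hμ : 0 < μ) (hb : 0 < b)
    {q δ r : ℝ} (hδ : 0 < δ) (hr : 0 ≤ r) (hq : b * r ^ 2 ≤ q) :
    |p.P1 (q + δ)| * r ≤ K / √b ^ 3 * (Real.exp (-(μ / 2 * √b) * r) / r ^ 2) ∧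
    |p.P2 (q + δ)| * r ^ 3 ≤ K / √b ^ 5 * (Real.exp (-(μ / 2 * √b) * r) / r ^ 2) ∧
    (r ≠ 0 → |p.P (q + δ)| ≤ K / √b * (Real.exp (-(μ / 2 * √b) * r) / r)) := by
  have hq0 : 0 ≤ q := le_trans (by positivity) hq
  have hs : 0 < q + δ := by linarith
  by_cases hr0 : r = 0
  · subst hr0
    refine ⟨by simp, by simp, fun h => (h rfl).elim⟩
  have hrpos : 0 < r := lt_of_le_of_ne hr (Ne.symm hr0)
  have hsb : 0 < √b := Real.sqrt_pos.mpr hb
  have hle : √b * r ≤ √(q + δ) := by
    rw [show √b * r = √(b * r ^ 2) by rw [Real.sqrt_mul hb.le, Real.sqrt_sq hr]]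
    exact Real.sqrt_le_sqrt (by linarith)
  have hpos : 0 < √b * r := by positivity
  have hexp : Real.exp (-(μ / 2) * √(q + δ)) ≤ Real.exp (-(μ / 2 * √b) * r) := by
    apply Real.exp_le_exp.mpr
    have : μ / 2 * (√b * r) ≤ μ / 2 * √(q + δ) := mul_le_mul_of_nonneg_left hle (by positivity)
    nlinarith
  have key : ∀ n : ℕ, K * Real.exp (-(μ / 2) * √(q + δ)) / √(q + δ) ^ n ≤
      K * Real.exp (-(μ / 2 * √b) * r) / (√b * r) ^ n := by
    intro n
    have h1 : (√b * r) ^ n ≤ √(q + δ) ^ n := pow_le_pow_left₀ hpos.le hle n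
    have h2 : 0 < (√b * r) ^ n := by positivity
    exact div_le_div₀ (by positivity) (mul_le_mul_of_nonneg_left hexp hK.le) h2 h1
  refine ⟨?_, ?_, fun _ => ?_⟩
  · have h1 := (p.b1 _ hs).trans (key 3)
    calc |p.P1 (q + δ)| * r ≤ K * Real.exp (-(μ / 2 * √b) * r) / (√b * r) ^ 3 * r :=
          mul_le_mul_of_nonneg_right h1 hr
      _ = K / √b ^ 3 * (Real.exp (-(μ / 2 * √b) * r) / r ^ 2) := by field_simp
  · have h1 := (p.b2 _ hs).trans (key 5)
    calc |p.P2 (q + δ)| * r ^ 3 ≤ K * Real.exp (-(μ / 2 * √b) * r) / (√b * r) ^ 5 * r ^ 3 :=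
          mul_le_mul_of_nonneg_right h1 (by positivity)
      _ = K / √b ^ 5 * (Real.exp (-(μ / 2 * √b) * r) / r ^ 2) := by field_simp
  · have h0 := p.b0 _ hs
    have h1 := key 1
    rw [pow_one, pow_one] at h1
    refine (h0.trans h1).trans (le_of_eq ?_)
    field_simp

/-- Laplacian of the kernel -/
theorem df_lap_kk {G : E → Mat} (hG : LM (ball 0 4) G) {K μ σ ε : ℝ} (p : Prof K μ σ ε)
    {δ : ℝ} (hδ : 0 < δ) (f : E → ℝ) {x y : E} (hx : x ∈ ball (0 : E) 4)
    (hq : ∀ z, 0 ≤ qd G y z) :
    lap G (fun x' => kk G p.P δ x' y * f y) x = √(G y).det / kap0 * f y *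
      (p.P1 (qd G y (x - y) + δ) * lap G (fun x' => qd G y (x' - y)) x +
        p.P2 (qd G y (x - y) + δ) *
          inn G (fun x' => qd G y (x' - y)) (fun x' => qd G y (x' - y)) x) := by
  have hF : ContDiffOn ℝ ∞ (fun t => p.P (t + δ)) (Ioi (-δ)) := by
    refine p.smooth.comp (contDiff_id.add contDiff_const).contDiffOn fun t ht => ?_
    have : -δ < t := ht
    show 0 < t + δ
    linarith
  have hu : ContDiffOn ℝ ∞ (fun x' => qd G y (x' - y)) (ball 0 4) :=
    (df_qd_smooth G y).contDiffOn
  have hm : ∀ z ∈ ball (0 : E) 4, qd G y (z - y) ∈ Ioi (-δ) := fun z _ => by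
    show -δ < _
    have := hq (z - y)
    linarith
  have h1 := lap_comp hG isOpen_Ioi hF hu hx hm
  have hd : ∀ t, -δ < t → HasDerivAt (fun t => p.P (t + δ)) (p.P1 (t + δ)) t := fun t ht => by
    have h := p.d1 (t + δ) (by linarith)
    exact h.comp_add_const t δ
  have hd2 : ∀ t, -δ < t → HasDerivAt (fun t => p.P1 (t + δ)) (p.P2 (t + δ)) t := fun t ht => by
    have h := p.d2 (t + δ) (by linarith)
    exact h.comp_add_const t δ
  have hm0 : -δ < qd G y (x - y) := hm x hx
  have e1 : deriv (fun t => p.P (t + δ)) (qd G y (x - y)) = p.P1 (qd G y (x - y) + δ) :=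
    (hd _ hm0).deriv
  have e2 : deriv (deriv (fun t => p.P (t + δ))) (qd G y (x - y)) =
      p.P2 (qd G y (x - y) + δ) := by
    have h2 : deriv (fun t => p.P (t + δ)) =ᶠ[𝓝 (qd G y (x - y))] fun t => p.P1 (t + δ) := by
      filter_upwards [isOpen_Ioi.mem_nhds hm0] with t ht
      exact (hd t ht).deriv
    rw [h2.deriv_eq]
    exact (hd2 _ hm0).deriv
  rw [e1, e2] at h1
  have h3 : (fun x' => kk G p.P δ x' y * f y) =
      fun x' => (√(G y).det / kap0 * f y) * (fun x'' => p.P (qd G y (x'' - y) + δ)) x' := by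
    funext x'
    unfold kk
    ring
  rw [h3]
  have hs : ContDiffOn ℝ ∞ (fun x'' => p.P (qd G y (x'' - y) + δ)) (ball 0 4) :=
    hF.comp hu fun z hz => hm z hz
  rw [lap_const_mul hG hs hx, h1]

theorem param {G : E → Mat} (hG : LM (ball 0 4) G) {c : ℝ} (hc : 0 < c) :
    ∃ lam0 : ℝ, 0 < lam0 ∧ ∀ lam : ℝ, lam0 ≤ lam → ∀ f : E → ℝ, ContDiff ℝ ∞ f →
      (∀ x, f x ≠ 0 → ‖x‖ ≤ 2) → (∀ x, |f x| ≤ 1) →
      ∃ u : E → ℝ, ContDiff ℝ ∞ u ∧ (∀ x, u x ≠ 0 → ‖x‖ ≤ 3) ∧ (∀ x, |u x| ≤ c) ∧
        ∀ x ∈ ball (0 : E) 4, |-8 * lap G u x + lam * u x - f x| ≤ c := by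
  obtain ⟨b, hb, B, hqb⟩ := qd_bounds hG
  obtain ⟨D0, hD0⟩ := det_bounds hG
  obtain ⟨Cg, hCg, hgeo⟩ := geo_bounds hG
  obtain ⟨K, hK, hprof⟩ := exists_prof hb
  obtain ⟨A, hA, hexp⟩ := exp_int
  have hκ := kap0_pos
  set D : ℝ := max D0 1 with hDdef
  have hD : 0 < D := lt_of_lt_of_le one_pos (le_max_right _ _)
  have hDle : ∀ y ∈ closedBall (0 : E) 3, √(G y).det ≤ D := fun y hy =>
    (hD0 y hy).trans (le_max_left _ _)
  have hsb : 0 < √b := Real.sqrt_pos.mpr hb
  set V2 : ℝ := (volume (closedBall (0 : E) 2)).toReal with hV2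
  have hV2n : 0 ≤ V2 := ENNReal.toReal_nonneg
  set ε : ℝ := c * kap0 / (32 * D * (V2 + 1)) with hε
  have hεpos : 0 < ε := by rw [hε]; positivity
  obtain ⟨μ0, hμ0, hμ⟩ := hprof ε hεpos
  set b1 : ℝ := K / √b ^ 3 + K / √b ^ 5 with hb1
  have hb1pos : 0 < b1 := by rw [hb1]; positivity
  set a1 : ℝ := 32 * D * Cg * b1 * A / (kap0 * c) with ha1
  have ha1pos : 0 < a1 := by rw [ha1]; positivity
  set a2 : ℝ := D * (K / √b) * A / (kap0 * c) with ha2
  have ha2pos : 0 < a2 := by rw [ha2]; positivity
  set μ1 : ℝ := max μ0 (2 * (a1 + a2 + 1) / √b) with hμ1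
  have hμ1pos : 0 < μ1 := lt_of_lt_of_le hμ0 (le_max_left _ _)
  refine ⟨8 * μ1 ^ 2, by positivity, fun lam hlam f hf hfs hf1 => ?_⟩
  set μ : ℝ := √(lam / 8) with hμdef
  have hμ1le : μ1 ≤ μ := by
    rw [hμdef]
    apply Real.le_sqrt_of_sq_le
    linarith
  have hμpos : 0 < μ := lt_of_lt_of_le hμ1pos hμ1le
  have hlam0 : 0 ≤ lam / 8 := by
    have : 0 ≤ μ1 ^ 2 := sq_nonneg _
    linarith
  have hμsq : μ ^ 2 = lam / 8 := Real.sq_sqrt hlam0
  obtain ⟨p⟩ := hμ μ ((le_max_left _ _).trans hμ1le)
  set a : ℝ := μ / 2 * √b with ha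
  have ha_ge : a1 + a2 + 1 ≤ a := by
    have h1 : 2 * (a1 + a2 + 1) / √b ≤ μ := (le_max_right _ _).trans hμ1le
    rw [div_le_iff₀ hsb] at h1
    rw [ha]; linarith
  have hapos : 0 < a := by linarith
  obtain ⟨hI2, hI2b, hI1, hI1b⟩ := hexp a hapos
  have hsub23 : closedBall (0 : E) 2 ⊆ closedBall 0 3 := closedBall_subset_closedBall (by norm_num)
  have hsub34 : closedBall (0 : E) 3 ⊆ ball 0 4 := closedBall_subset_ball (by norm_num)
  have hσ : ∀ y ∈ closedBall (0 : E) 2, ∀ z : E, qd G y z < b → ‖z‖ ≤ 1 := by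
    intro y hy z hz
    have h1 := (hqb y (hsub23 hy) z).1
    have h2 : b * ‖z‖ ^ 2 < b * 1 := by linarith
    have h3 : ‖z‖ ^ 2 < 1 := lt_of_mul_lt_mul_left h2 hb.le
    exact ((sq_lt_one_iff₀ (norm_nonneg z)).mp h3).le
  obtain ⟨δ, hδa, hδ⟩ := ((approx_id hG p hμpos hσ hf.continuous hfs
    (η := c / 2) (by positivity)).and self_mem_nhdsWithin).exists
  have hδ : 0 < δ := hδ
  have hH : ContDiff ℝ ∞ (fun q : E × E => kk G p.P δ q.1 q.2 * f q.2) :=
    kk_smooth hG p.smooth hδ hf hfs
  set H : E → E → ℝ := fun x y => kk G p.P δ x y * f y with hHdef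
  set u : E → ℝ := fun x => ∫ y in closedBall (0 : E) 2, H x y with hu
  have hus : ContDiff ℝ ∞ u := smooth_int (H := H) hH
  have hq0 : ∀ y ∈ closedBall (0 : E) 2, ∀ z, 0 ≤ qd G y z := fun y hy z =>
    le_trans (by positivity) (hqb y (hsub23 hy) z).1
  -- support
  have hHzero : ∀ x y : E, 3 < ‖x‖ → H x y = 0 := by
    intro x y hx
    by_cases hy : f y = 0
    · simp [hHdef, hy]
    · have hy2 := hfs y hy
      have hyb : y ∈ closedBall (0 : E) 2 := mem_closedBall_zero_iff.mpr hy2
      have h1 : 1 < ‖x - y‖ := by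
        have := norm_sub_norm_le x y
        linarith
      have h2 := (hqb y (hsub23 hyb) (x - y)).1
      have h3 : b ≤ qd G y (x - y) + δ := by
        have : b * 1 ≤ b * ‖x - y‖ ^ 2 := mul_le_mul_of_nonneg_left (one_le_pow₀ h1.le) hb.le
        linarith
      simp [hHdef, kk, (p.zero _ h3).1]
  have huzero : ∀ x : E, 3 < ‖x‖ → u x = 0 := by
    intro x hx
    simp only [hu, hHzero x _ hx, integral_zero]
  refine ⟨u, hus, fun x hx => ?_, fun x => ?_, fun x hx => ?_⟩
  · by_contra h
    exact hx (huzero x (not_le.mp h))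
  · -- sup bound
    have hI1x : Integrable (fun y : E => Real.exp (-a * ‖x - y‖) / ‖x - y‖) :=
      hI1.comp_sub_left x
    have hI1xb : ∫ y : E, Real.exp (-a * ‖x - y‖) / ‖x - y‖ ≤ A / a ^ 2 := by
      rw [integral_sub_left_eq_self (fun z : E => Real.exp (-a * ‖z‖) / ‖z‖) volume x]
      exact hI1b
    have hbd : ∀ᵐ y ∂(volume.restrict (closedBall (0 : E) 2)),
        ‖H x y‖ ≤ D / kap0 * (K / √b) * (Real.exp (-a * ‖x - y‖) / ‖x - y‖) := by
      have hne : ∀ᵐ y ∂(volume.restrict (closedBall (0 : E) 2)), y ≠ x :=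
        ae_restrict_of_ae (by
          have : volume ({x} : Set E) = 0 := measure_singleton x
          exact compl_mem_ae_iff.mpr this)
      filter_upwards [hne, ae_restrict_mem measurableSet_closedBall] with y hyx hy
      have hz : ‖x - y‖ ≠ 0 := norm_ne_zero_iff.mpr (sub_ne_zero.mpr (Ne.symm hyx))
      have h1 := (df_kern p hK hμpos hb hδ (norm_nonneg (x - y))
        (hqb y (hsub23 hy) (x - y)).1).2.2 hz
      have h2 : |√(G y).det / kap0| ≤ D / kap0 := by
        rw [abs_of_nonneg (by positivity)]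
        exact div_le_div_of_nonneg_right (hDle y (hsub23 hy)) hκ.le
      rw [Real.norm_eq_abs, hHdef]
      simp only [kk]
      rw [abs_mul, abs_mul]
      calc |√(G y).det / kap0| * |p.P (qd G y (x - y) + δ)| * |f y|
          ≤ (D / kap0 * (K / √b * (Real.exp (-(μ / 2 * √b) * ‖x - y‖) / ‖x - y‖))) * 1 :=
            mul_le_mul (mul_le_mul h2 h1 (abs_nonneg _) (by positivity)) (hf1 y) (abs_nonneg _)
              (by positivity)
        _ = D / kap0 * (K / √b) * (Real.exp (-a * ‖x - y‖) / ‖x - y‖) := by rw [ha]; ring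
    have h1 := norm_integral_le_of_norm_le
      ((hI1x.integrableOn (s := closedBall (0 : E) 2)).const_mul (D / kap0 * (K / √b))) hbd
    rw [Real.norm_eq_abs] at h1
    refine h1.trans ?_
    rw [integral_const_mul]
    have h2 : ∫ y in closedBall (0 : E) 2, Real.exp (-a * ‖x - y‖) / ‖x - y‖ ≤ A / a ^ 2 :=
      (setIntegral_le_integral hI1x (ae_of_all _ fun y => by positivity)).trans hI1xb
    have h3 : D / kap0 * (K / √b) * (A / a ^ 2) ≤ c := by
      have h4 : a2 ≤ a ^ 2 := by
        have h6 : a ≤ a ^ 2 := by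
          rw [sq]; exact le_mul_of_one_le_left hapos.le (by linarith)
        linarith
      have h5 : D / kap0 * (K / √b) * (A / a ^ 2) = a2 * c / a ^ 2 := by
        rw [ha2]; field_simp
      rw [h5, div_le_iff₀ (by positivity), mul_comm a2 c]
      exact mul_le_mul_of_nonneg_left h4 hc.le
    exact (mul_le_mul_of_nonneg_left h2 (by positivity)).trans h3
  · by_cases hx3 : ‖x‖ ≤ 3
    · -- the main estimate
      have hx3' : x ∈ closedBall (0 : E) 3 := mem_closedBall_zero_iff.mpr hx3
      set m : E → ℝ := fun y =>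
        √(G y).det / kap0 * (32 * δ * p.P2 (qd G y (x - y) + δ)) * f y with hm
      set T : E → ℝ := fun y => -8 * lap G (fun x' => H x' y) x + lam * H x y with hT
      have hTc : Continuous T := by
        exact (continuous_const.mul (df_lap_cont G (H := H) hH x)).add
          (continuous_const.mul (df_slice (H := H) hH x))
      have hTi : IntegrableOn T (closedBall (0 : E) 2) :=
        hTc.continuousOn.integrableOn_compact (isCompact_closedBall _ _)
      have hmi : IntegrableOn m (closedBall (0 : E) 2) := by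
        refine ContinuousOn.integrableOn_compact (isCompact_closedBall _ _) ?_
        refine (((df_det_cont hG).div_const _).mul (continuousOn_const.mul ?_)).mul
          hf.continuous.continuousOn
        refine (df_P2_smooth p).continuousOn.comp ((df_qd_cont hG x).add continuousOn_const) ?_
        intro y hy
        have h := hq0 y hy (x - y)
        exact mem_Ioi.mpr (by linarith)
      have hI2x : Integrable (fun y : E => Real.exp (-a * ‖x - y‖) / ‖x - y‖ ^ 2) :=
        hI2.comp_sub_left x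
      have hI2xb : ∫ y : E, Real.exp (-a * ‖x - y‖) / ‖x - y‖ ^ 2 ≤ A / a := by
        rw [integral_sub_left_eq_self (fun z : E => Real.exp (-a * ‖z‖) / ‖z‖ ^ 2) volume x]
        exact hI2b
      have hbd : ∀ᵐ y ∂(volume.restrict (closedBall (0 : E) 2)), ‖T y - m y‖ ≤
          D / kap0 * (8 * ε + 8 * Cg * b1 * (Real.exp (-a * ‖x - y‖) / ‖x - y‖ ^ 2)) := by
        filter_upwards [ae_restrict_mem measurableSet_closedBall] with y hy
        obtain ⟨g1, g2⟩ := hgeo x hx3' y hy
        obtain ⟨k1, k2, _⟩ := df_kern p hK hμpos hb hδ (norm_nonneg (x - y))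
          (hqb y (hsub23 hy) (x - y)).1
        have hs : 0 < qd G y (x - y) + δ := by
          have := hq0 y hy (x - y); linarith
        have hode := p.ode _ hs
        have hlap := df_lap_kk hG p hδ f hx (hq0 y hy)
        have hTm : T y - m y = √(G y).det / kap0 * f y *
            (-8 * (4 * (qd G y (x - y) + δ) * p.P2 (qd G y (x - y) + δ) +
                6 * p.P1 (qd G y (x - y) + δ) - μ ^ 2 * p.P (qd G y (x - y) + δ)) -
              8 * (p.P1 (qd G y (x - y) + δ) * (lap G (fun x' => qd G y (x' - y)) x - 6) +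
                p.P2 (qd G y (x - y) + δ) *
                (inn G (fun x' => qd G y (x' - y)) (fun x' => qd G y (x' - y)) x -
                  4 * qd G y (x - y)))) := by
          have h0 : T y = -8 * lap G (fun x' => kk G p.P δ x' y * f y) x +
              lam * (kk G p.P δ x y * f y) := rfl
          rw [h0, hlap, hm]
          simp only [kk]
          rw [hμsq]
          ring
        rw [hTm, Real.norm_eq_abs, abs_mul]
        have h2 : |√(G y).det / kap0 * f y| ≤ D / kap0 := by
          rw [abs_mul, abs_of_nonneg (show 0 ≤ √(G y).det / kap0 by positivity)]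
          calc √(G y).det / kap0 * |f y| ≤ D / kap0 * 1 :=
                mul_le_mul (div_le_div_of_nonneg_right (hDle y (hsub23 hy)) hκ.le) (hf1 y)
                  (abs_nonneg _) (by positivity)
            _ = D / kap0 := mul_one _
        refine mul_le_mul h2 ?_ (abs_nonneg _) (by positivity)
        generalize p.P1 (qd G y (x - y) + δ) = t1 at *
        generalize p.P2 (qd G y (x - y) + δ) = t2 at *
        generalize p.P (qd G y (x - y) + δ) = t0 at *
        have e1 : |t1 * (lap G (fun x' => qd G y (x' - y)) x - 6)| ≤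
            Cg * (K / √b ^ 3 * (Real.exp (-a * ‖x - y‖) / ‖x - y‖ ^ 2)) := by
          rw [abs_mul]
          calc |t1| * |lap G (fun x' => qd G y (x' - y)) x - 6| ≤ |t1| * (Cg * ‖x - y‖) :=
                mul_le_mul_of_nonneg_left g2 (abs_nonneg _)
            _ = Cg * (|t1| * ‖x - y‖) := by ring
            _ ≤ _ := mul_le_mul_of_nonneg_left k1 hCg.le
        have e2 : |t2 * (inn G (fun x' => qd G y (x' - y)) (fun x' => qd G y (x' - y)) x -
            4 * qd G y (x - y))| ≤
            Cg * (K / √b ^ 5 * (Real.exp (-a * ‖x - y‖) / ‖x - y‖ ^ 2)) := by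
          rw [abs_mul]
          calc |t2| * |inn G (fun x' => qd G y (x' - y)) (fun x' => qd G y (x' - y)) x -
                4 * qd G y (x - y)| ≤ |t2| * (Cg * ‖x - y‖ ^ 3) :=
                mul_le_mul_of_nonneg_left g1 (abs_nonneg _)
            _ = Cg * (|t2| * ‖x - y‖ ^ 3) := by ring
            _ ≤ _ := mul_le_mul_of_nonneg_left k2 hCg.le
        have e3 : 8 * Cg * b1 * (Real.exp (-a * ‖x - y‖) / ‖x - y‖ ^ 2) =
            8 * (Cg * (K / √b ^ 3 * (Real.exp (-a * ‖x - y‖) / ‖x - y‖ ^ 2)) +
              Cg * (K / √b ^ 5 * (Real.exp (-a * ‖x - y‖) / ‖x - y‖ ^ 2))) := by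
          rw [hb1]; ring
        rw [e3]
        rw [abs_le] at *
        constructor
        · linarith [e1.1, e1.2, e2.1, e2.2, hode.1, hode.2]
        · linarith [e1.1, e1.2, e2.1, e2.2, hode.1, hode.2]
      have hbi : IntegrableOn (fun y => D / kap0 *
          (8 * ε + 8 * Cg * b1 * (Real.exp (-a * ‖x - y‖) / ‖x - y‖ ^ 2)))
          (closedBall (0 : E) 2) := by
        refine Integrable.const_mul ?_ _
        refine Integrable.add ?_ ((hI2x.integrableOn).const_mul _)
        exact integrableOn_const (by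
          exact (isCompact_closedBall (0 : E) 2).measure_lt_top.ne)
      have h1 := norm_integral_le_of_norm_le hbi hbd
      have h2 : ∫ y in closedBall (0 : E) 2, D / kap0 *
          (8 * ε + 8 * Cg * b1 * (Real.exp (-a * ‖x - y‖) / ‖x - y‖ ^ 2)) ≤ c / 2 := by
        have e0 : ∫ _ in closedBall (0 : E) 2, 8 * ε = V2 * (8 * ε) := by
          rw [setIntegral_const, smul_eq_mul]; rfl
        have e4 : ∫ y in closedBall (0 : E) 2,
            8 * Cg * b1 * (Real.exp (-a * ‖x - y‖) / ‖x - y‖ ^ 2) =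
            8 * Cg * b1 * ∫ y in closedBall (0 : E) 2, Real.exp (-a * ‖x - y‖) / ‖x - y‖ ^ 2 :=
          integral_const_mul _ _
        rw [integral_const_mul, integral_add, e0, e4]
        · have h3 : ∫ y in closedBall (0 : E) 2, Real.exp (-a * ‖x - y‖) / ‖x - y‖ ^ 2 ≤ A / a :=
            (setIntegral_le_integral hI2x (ae_of_all _ fun y => by positivity)).trans hI2xb
          have h4 : D / kap0 * (8 * Cg * b1 * (A / a)) ≤ c / 4 := by
            have h5 : D / kap0 * (8 * Cg * b1 * (A / a)) = a1 * (c / 4) / a := by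
              rw [ha1]; field_simp; ring
            rw [h5, div_le_iff₀ hapos, mul_comm a1]
            have : a1 ≤ a := by linarith
            exact mul_le_mul_of_nonneg_left this (by positivity)
          have h6 : D / kap0 * (V2 * (8 * ε)) ≤ c / 4 := by
            have h7 : D / kap0 * (V2 * (8 * ε)) = c / 4 * (V2 / (V2 + 1)) := by
              rw [hε]; field_simp; ring
            rw [h7]
            have h8 : V2 / (V2 + 1) ≤ 1 := by
              rw [div_le_one (by positivity)]; linarith
            exact mul_le_of_le_one_right (by positivity) h8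
          rw [mul_add]
          have h10 : D / kap0 * (8 * Cg * b1 *
              ∫ y in closedBall (0 : E) 2, Real.exp (-a * ‖x - y‖) / ‖x - y‖ ^ 2) ≤
              D / kap0 * (8 * Cg * b1 * (A / a)) :=
            mul_le_mul_of_nonneg_left (mul_le_mul_of_nonneg_left h3 (by positivity))
              (by positivity)
          linarith
        · exact integrableOn_const (by
            exact (isCompact_closedBall (0 : E) 2).measure_lt_top.ne)
        · exact (hI2x.integrableOn).const_mul _
      have h3 : -8 * lap G u x + lam * u x - f x =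
          (∫ y in closedBall (0 : E) 2, (T y - m y)) +
            ((∫ y in closedBall (0 : E) 2, m y) - f x) := by
        rw [integral_sub hTi hmi]
        have h4 : ∫ y in closedBall (0 : E) 2, T y = -8 * lap G u x + lam * u x := by
          have hi1 : IntegrableOn (fun y => lap G (fun x' => H x' y) x) (closedBall (0 : E) 2) :=
            (df_lap_cont G (H := H) hH x).continuousOn.integrableOn_compact
              (isCompact_closedBall _ _)
          have hi2 : IntegrableOn (fun y => H x y) (closedBall (0 : E) 2) :=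
            (df_slice (H := H) hH x).continuousOn.integrableOn_compact
              (isCompact_closedBall _ _)
          rw [hT, integral_add (hi1.const_mul _) (hi2.const_mul _), integral_const_mul,
            integral_const_mul, hu, lap_int hG (H := H) hH hx]
        rw [h4]
        ring
      rw [h3]
      refine (abs_add_le _ _).trans ?_
      have h5 := hδa x
      rw [Real.norm_eq_abs] at h1
      linarith
    · -- outside the support
      have hx3 : 3 < ‖x‖ := not_le.mp hx3
      have hev : u =ᶠ[𝓝 x] fun _ => 0 := by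
        have hopen : IsOpen {z : E | 3 < ‖z‖} := isOpen_lt continuous_const continuous_norm
        filter_upwards [hopen.mem_nhds hx3] with z hz
        exact huzero z hz
      have h1 : lap G u x = lap G (fun _ => 0) x :=
        (lap_congr (G := G) (Filter.EventuallyEq.refl _ _) hev).eq_of_nhds
      have h2 : lap G (fun _ : E => (0 : ℝ)) x = 0 := by
        have hp : ∀ a : Fin 3, pd a (fun _ : E => (0 : ℝ)) = fun _ => 0 := fun a => by
          funext z; exact pd_const
        unfold lap tr hess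
        simp [hp]
      have h3 : f x = 0 := by
        by_contra h
        have := hfs x h
        linarith
      rw [h1, h2, huzero x hx3, h3]
      simpa using hc.le

end YR
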