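import Pool.Agent.Work.MP_71b0e8_gt.Skel.DRF
import Pool.Agent.Work.MP_71b0e8_gt.Skel.Glob2

/-! Module DRG: patching and iteration. -/

open scoped ContDiff Topology
open MeasureTheory Metric Set Filter

noncomputable section

namespace YR

variable {M : Type*} [TopologicalSpace M] {𝒜 : Atl M} (𝒢 : Met 𝒜)

theorem dg_supp {u : E → ℝ} (hs : ∀ x, u x ≠ 0 → ‖x‖ ≤ 3) : tsupport u ⊆ ball 0 4 := by
  have h1 : tsupport u ⊆ closedBall 0 3 := by
    refine closure_minimal (fun x hx => ?_) isClosed_closedBall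
    rw [mem_closedBall_zero_iff]
    exact hs x hx
  exact h1.trans (closedBall_subset_ball (by norm_num))

/-- Laplacian of a function extended by `0` from a chart -/
theorem dg_lap_ext_mem [T2Space M] (i : Fin 𝒜.n) {u : E → ℝ} (hu : ContDiff ℝ ∞ u)
    (hs : tsupport u ⊆ ball 0 4) {p : M} (hp : p ∈ (𝒜.φ i).source) :
    𝒢.lap (𝒜.ext i u) p = YR.lap (𝒢.g i) u (𝒜.φ i p) := by
  have hz : 𝒜.φ i p ∈ ball (0 : E) 4 := Atl.map_mem i hp
  have h1 := 𝒢.lap_chart (U := univ) isOpen_univ ((Atl.sm_ext i hu hs).on univ) i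
    (z := 𝒜.φ i p) ⟨hz, mem_univ _⟩
  rw [(𝒜.φ i).left_inv hp] at h1
  rw [h1]
  have h2 : 𝒜.rd (𝒜.ext i u) i =ᶠ[𝓝 (𝒜.φ i p)] u := by
    filter_upwards [isOpen_ball.mem_nhds hz] with z hz
    exact Atl.rd_ext i u hz
  exact (lap_congr (G := 𝒢.g i) (Filter.EventuallyEq.refl _ _) h2).eq_of_nhds

theorem dg_lap_ext_notMem [T2Space M] (i : Fin 𝒜.n) {u : E → ℝ}
    (hs : tsupport u ⊆ ball 0 4) {p : M} (hp : p ∉ (𝒜.φ i).source) :
    𝒢.lap (𝒜.ext i u) p = 0 := by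
  have h1 : p ∉ tsupport (𝒜.ext i u) := by
    rw [Atl.tsupport_ext i hs]
    rintro ⟨z, hz, rfl⟩
    exact hp (Atl.symm_mem i (hs hz))
  have h2 : EqOn (𝒜.ext i u) (fun _ => 0) (tsupport (𝒜.ext i u))ᶜ := fun q hq =>
    image_eq_zero_of_notMem_tsupport hq
  rw [𝒢.lap_congr (isClosed_tsupport _).isOpen_compl h1 h2]
  exact 𝒢.lap_const 0 p

/-- patching of local parametrices (`Atl.exists_pou`, `param`) -/
theorem patch [T2Space M] [CompactSpace M] : ∃ lam0 : ℝ, 0 < lam0 ∧ ∀ lam : ℝ, lam0 ≤ lam →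
    ∀ f : M → ℝ, 𝒜.Sm f → ∀ m : ℝ, (∀ p, |f p| ≤ m) →
      ∃ κ : M → ℝ, 𝒜.Sm κ ∧ ∀ p, |𝒢.L κ p + lam * κ p - f p| ≤ m / 2 := by
  obtain ⟨F, hF, _, hFs, hF0, hF1⟩ := Atl.exists_pou 𝒜
  obtain ⟨S, hS, hscal, _, _⟩ := 𝒢.exists_curv_bound
  set c : ℝ := 1 / (2 * (𝒜.n + 1) * (1 + S)) with hc
  have hcpos : 0 < c := by rw [hc]; positivity
  choose l hl0 hl using fun i : Fin 𝒜.n => param (𝒢.lm i) hcpos
  refine ⟨1 + ∑ i, l i, ?_, ?_⟩
  · have : 0 ≤ ∑ i, l i := Finset.sum_nonneg fun i _ => (hl0 i).le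
    linarith
  intro lam hlam f hf m hm
  rcases isEmpty_or_nonempty M with hM | ⟨⟨p0⟩⟩
  · exact ⟨fun _ => 0, Atl.Sm.const 0, fun p => (hM.false p).elim⟩
  have hm0 : 0 ≤ m := (abs_nonneg _).trans (hm p0)
  -- bound of the partition functions
  have hFle : ∀ i z, |F i z| ≤ 1 := by
    intro i z
    rw [abs_of_nonneg (hF0 i z)]
    by_cases hz : z ∈ ball (0 : E) 4
    · have h1 := hF1 ((𝒜.φ i).symm z)
      have h2 : 𝒜.ext i (F i) ((𝒜.φ i).symm z) = F i z := Atl.rd_ext i (F i) hz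
      rw [← h2, ← h1]
      refine Finset.single_le_sum (f := fun j => 𝒜.ext j (F j) ((𝒜.φ i).symm z))
        (fun j _ => ?_) (Finset.mem_univ i)
      unfold Atl.ext
      split_ifs
      · exact hF0 _ _
      · exact le_rfl
    · have : z ∉ tsupport (F i) := fun h => hz (ball_subset_ball (by norm_num) (hFs i h))
      rw [image_eq_zero_of_notMem_tsupport this]
      norm_num
  -- local data
  let g : Fin 𝒜.n → E → ℝ := fun i z => F i z * 𝒜.rd f i z / m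
  have hg : ∀ i, ContDiff ℝ ∞ (g i) := by
    intro i
    rw [contDiff_iff_contDiffAt]
    intro z
    by_cases hz : z ∈ ball (0 : E) 4
    · exact ((hF i).contDiffAt.mul ((hf i).contDiffAt (isOpen_ball.mem_nhds hz))).div_const m
    · have hz' : z ∉ tsupport (F i) := fun h => hz (ball_subset_ball (by norm_num) (hFs i h))
      have : g i =ᶠ[𝓝 z] fun _ => 0 := by
        filter_upwards [(isClosed_tsupport (F i)).isOpen_compl.mem_nhds hz'] with y hy
        simp only [g, image_eq_zero_of_notMem_tsupport hy, zero_mul, zero_div]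
      exact contDiffAt_const.congr_of_eventuallyEq this
  have hgs : ∀ i x, g i x ≠ 0 → ‖x‖ ≤ 2 := by
    intro i x hx
    have h1 : F i x ≠ 0 := by
      intro h; apply hx; simp only [g, h, zero_mul, zero_div]
    have h2 := hFs i (subset_tsupport _ h1)
    exact (mem_ball_zero_iff.mp h2).le
  have hg1 : ∀ i x, |g i x| ≤ 1 := by
    intro i x
    have h2 : |𝒜.rd f i x| ≤ m := hm _
    have h3 : |F i x * 𝒜.rd f i x| ≤ m := by
      rw [abs_mul]
      calc |F i x| * |𝒜.rd f i x| ≤ 1 * m :=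
            mul_le_mul (hFle i x) h2 (abs_nonneg _) zero_le_one
        _ = m := one_mul m
    simp only [g]
    rw [abs_div, abs_of_nonneg hm0]
    exact div_le_one_of_le₀ h3 hm0
  have hgm : ∀ i x, m * g i x = F i x * 𝒜.rd f i x := by
    intro i x
    simp only [g]
    by_cases h : m = 0
    · have h2 : |𝒜.rd f i x| ≤ m := hm _
      have h3 : 𝒜.rd f i x = 0 := abs_nonpos_iff.mp (by rw [h] at h2; exact h2)
      rw [h3, h]; simp
    · field_simp
  have hlam' : ∀ i, l i ≤ lam := by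
    intro i
    have := Finset.single_le_sum (f := l) (fun j _ => (hl0 j).le) (Finset.mem_univ i)
    linarith
  choose u hu hus hub huL using fun i => hl i lam (hlam' i) (g i) (hg i) (hgs i) (hg1 i)
  have hut : ∀ i, tsupport (u i) ⊆ ball 0 4 := fun i => dg_supp (hus i)
  have hext : ∀ i, 𝒜.Sm (𝒜.ext i (u i)) := fun i => Atl.sm_ext i (hu i) (hut i)
  have hmext : ∀ i, 𝒜.Sm (fun p => m * 𝒜.ext i (u i) p) := fun i => (Atl.Sm.const m).mul (hext i)
  refine ⟨fun p => ∑ i, m * 𝒜.ext i (u i) p, Atl.Sm.sum fun i _ => hmext i, fun p => ?_⟩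
  have hlapsum : 𝒢.lap (fun p => ∑ i, m * 𝒜.ext i (u i) p) p =
      ∑ i, m * 𝒢.lap (𝒜.ext i (u i)) p := by
    rw [𝒢.lap_sum isOpen_univ (mem_univ p) (fun i _ => (hmext i).on univ)]
    exact Finset.sum_congr rfl fun i _ =>
      𝒢.lap_const_mul isOpen_univ (mem_univ p) ((hext i).on univ) m
  have hfsum : f p = ∑ i, 𝒜.ext i (F i) p * f p := by
    rw [← Finset.sum_mul, hF1 p, one_mul]
  have hterm : ∀ i, |m * (-8 * 𝒢.lap (𝒜.ext i (u i)) p + lam * 𝒜.ext i (u i) p) -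
      𝒜.ext i (F i) p * f p| ≤ m * c := by
    intro i
    by_cases hp : p ∈ (𝒜.φ i).source
    · rw [dg_lap_ext_mem 𝒢 i (hu i) (hut i) hp]
      have e1 : 𝒜.ext i (u i) p = u i (𝒜.φ i p) := by unfold Atl.ext; rw [if_pos hp]
      have e2 : 𝒜.ext i (F i) p = F i (𝒜.φ i p) := by unfold Atl.ext; rw [if_pos hp]
      have e3 : 𝒜.rd f i (𝒜.φ i p) = f p := by unfold Atl.rd; rw [(𝒜.φ i).left_inv hp]
      rw [e1, e2, ← e3, ← hgm i]
      have h1 := huL i (𝒜.φ i p) (Atl.map_mem i hp)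
      rw [show m * (-8 * YR.lap (𝒢.g i) (u i) (𝒜.φ i p) + lam * u i (𝒜.φ i p)) -
          m * g i (𝒜.φ i p) = m * (-8 * YR.lap (𝒢.g i) (u i) (𝒜.φ i p) + lam * u i (𝒜.φ i p) -
          g i (𝒜.φ i p)) by ring, abs_mul, abs_of_nonneg hm0]
      exact mul_le_mul_of_nonneg_left h1 hm0
    · rw [dg_lap_ext_notMem 𝒢 i (hut i) hp]
      have e1 : 𝒜.ext i (u i) p = 0 := by unfold Atl.ext; rw [if_neg hp]
      have e2 : 𝒜.ext i (F i) p = 0 := by unfold Atl.ext; rw [if_neg hp]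
      rw [e1, e2]
      simp only [mul_zero, zero_mul, add_zero, sub_zero, abs_zero]
      positivity
  have hext_le : ∀ i, |m * 𝒜.ext i (u i) p| ≤ m * c := by
    intro i
    rw [abs_mul, abs_of_nonneg hm0]
    refine mul_le_mul_of_nonneg_left ?_ hm0
    unfold Atl.ext
    split_ifs
    · exact hub i _
    · rw [abs_zero]; exact hcpos.le
  have hL : 𝒢.L (fun p => ∑ i, m * 𝒜.ext i (u i) p) p + lam * (∑ i, m * 𝒜.ext i (u i) p) - f p =
      ∑ i, (m * (-8 * 𝒢.lap (𝒜.ext i (u i)) p + lam * 𝒜.ext i (u i) p) -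
        𝒜.ext i (F i) p * f p) + 𝒢.scal p * ∑ i, m * 𝒜.ext i (u i) p := by
    unfold Met.L
    rw [hlapsum]
    conv_lhs => rw [hfsum]
    rw [Finset.sum_sub_distrib, Finset.mul_sum, Finset.mul_sum, Finset.mul_sum]
    have : ∑ i, m * (-8 * 𝒢.lap (𝒜.ext i (u i)) p + lam * 𝒜.ext i (u i) p) =
        ∑ i, -8 * (m * 𝒢.lap (𝒜.ext i (u i)) p) + ∑ i, lam * (m * 𝒜.ext i (u i) p) := by
      rw [← Finset.sum_add_distrib]
      exact Finset.sum_congr rfl fun i _ => by ring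
    rw [this]
    ring
  show |𝒢.L (fun p => ∑ i, m * 𝒜.ext i (u i) p) p + lam * (∑ i, m * 𝒜.ext i (u i) p) - f p| ≤ m / 2
  rw [hL]
  have hn : (Finset.univ : Finset (Fin 𝒜.n)).card = 𝒜.n := by simp
  have b1 : |∑ i, (m * (-8 * 𝒢.lap (𝒜.ext i (u i)) p + lam * 𝒜.ext i (u i) p) -
        𝒜.ext i (F i) p * f p)| ≤ 𝒜.n * (m * c) := by
    refine (Finset.abs_sum_le_sum_abs _ _).trans ?_
    refine (Finset.sum_le_sum fun i _ => hterm i).trans ?_
    rw [Finset.sum_const, hn, nsmul_eq_mul]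
  have b2 : |𝒢.scal p * ∑ i, m * 𝒜.ext i (u i) p| ≤ S * (𝒜.n * (m * c)) := by
    rw [abs_mul]
    refine mul_le_mul (hscal p) ?_ (abs_nonneg _) hS.le
    refine (Finset.abs_sum_le_sum_abs _ _).trans ?_
    refine (Finset.sum_le_sum fun i _ => hext_le i).trans ?_
    rw [Finset.sum_const, hn, nsmul_eq_mul]
  refine (abs_add_le _ _).trans ((add_le_add b1 b2).trans ?_)
  have hn1 : (𝒜.n : ℝ) ≤ 𝒜.n + 1 := by linarith
  calc (𝒜.n : ℝ) * (m * c) + S * (𝒜.n * (m * c)) = 𝒜.n * ((1 + S) * (m * c)) := by ring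
    _ ≤ (𝒜.n + 1) * ((1 + S) * (m * c)) := by
        refine mul_le_mul_of_nonneg_right hn1 ?_
        positivity
    _ = m / 2 := by
        rw [hc]
        have : (𝒜.n : ℝ) + 1 ≠ 0 := by positivity
        have : 1 + S ≠ 0 := by positivity
        field_simp

theorem dg_L_sub (u v : M → ℝ) (hu : 𝒜.Sm u) (hv : 𝒜.Sm v) (p : M) :
    𝒢.L (fun q => u q + v q) p = 𝒢.L u p + 𝒢.L v p := by
  unfold Met.L
  rw [𝒢.lap_add isOpen_univ (mem_univ p) (hu.on univ) (hv.on univ)]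
  ring

/-- iteration of `patch` -/
theorem DR_neg [T2Space M] [CompactSpace M] : ∃ lam0 : ℝ, 0 < lam0 ∧ ∀ lam : ℝ, lam0 ≤ lam →
    DR 𝒢 (-lam) := by
  obtain ⟨lam0, h0, hpatch⟩ := patch 𝒢
  refine ⟨lam0, h0, fun lam hlam f hf ε hε => ?_⟩
  have key : ∀ n : ℕ, ∀ m : ℝ, (∀ p, |f p| ≤ m) → ∃ κ : M → ℝ, 𝒜.Sm κ ∧
      ∀ p, |𝒢.L κ p + lam * κ p - f p| ≤ m / 2 ^ n := by
    intro n
    induction n with
    | zero =>
      intro m hm
      refine ⟨fun _ => 0, Atl.Sm.const 0, fun p => ?_⟩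
      unfold Met.L
      rw [𝒢.lap_const 0 p]
      simpa using hm p
    | succ n ih =>
      intro m hm
      obtain ⟨κ, hκ, hκb⟩ := ih m hm
      have hg : 𝒜.Sm (fun p => f p - (𝒢.L κ p + lam * κ p)) :=
        hf.sub ((𝒢.Sm_L hκ).add ((Atl.Sm.const lam).mul hκ))
      obtain ⟨κ', hκ', hκb'⟩ := hpatch lam hlam _ hg (m / 2 ^ n) fun p => by
        rw [abs_sub_comm]; exact hκb p
      refine ⟨fun p => κ p + κ' p, hκ.add hκ', fun p => ?_⟩
      rw [dg_L_sub 𝒢 κ κ' hκ hκ']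
      have h1 := hκb' p
      rw [show 𝒢.L κ p + 𝒢.L κ' p + lam * (κ p + κ' p) - f p =
        𝒢.L κ' p + lam * κ' p - (f p - (𝒢.L κ p + lam * κ p)) by ring, pow_succ, ← div_div]
      exact h1
  rcases isEmpty_or_nonempty M with hM | hM
  · exact ⟨fun _ => 0, Atl.Sm.const 0, fun p => (hM.false p).elim⟩
  have hcont : Continuous f := hf.continuous
  obtain ⟨m, hm⟩ := (isCompact_range hcont.abs).bddAbove
  have hm' : ∀ p, |f p| ≤ m := fun p => hm (mem_range_self p)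
  have hm0 : 0 ≤ m := (abs_nonneg _).trans (hm' (Classical.arbitrary M))
  obtain ⟨n, hn⟩ := exists_nat_gt (m / ε)
  obtain ⟨κ, hκ, hκb⟩ := key n m hm'
  refine ⟨κ, hκ, fun p => ?_⟩
  rw [show 𝒢.L κ p - -lam * κ p - f p = 𝒢.L κ p + lam * κ p - f p by ring]
  refine (hκb p).trans ?_
  rw [div_le_iff₀ (by positivity)]
  have h2n : (n : ℝ) ≤ 2 ^ n := by
    have := Nat.lt_two_pow_self (n := n)
    exact_mod_cast this.le
  have h3 : m < n * ε := by rwa [div_lt_iff₀ hε] at hn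
  nlinarith

end YR
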