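import Pool.Agent.Work.MP_71b0e8_gt.Defs

/-! Common definitions of PART A. -/

open scoped ContDiff Topology
open MeasureTheory Metric Set Filter

noncomputable section

namespace YR

/-- test functions on `B` -/
def Tst (B : Set E) (φ : E → ℝ) : Prop :=
  ContDiff ℝ ∞ φ ∧ HasCompactSupport φ ∧ tsupport φ ⊆ B

variable {M : Type*} [TopologicalSpace M] {𝒜 : Atl M} (𝒢 : Met 𝒜)

/-- uniform dense range of `L - μ` -/
def DR (μ : ℝ) : Prop := ∀ f : M → ℝ, 𝒜.Sm f → ∀ ε > 0, ∃ κ : M → ℝ, 𝒜.Sm κ ∧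
  ∀ p, |𝒢.L κ p - μ * κ p - f p| ≤ ε

/-- one sided a priori bound for `L - μ` (contains the maximum principle) -/
def UB (μ K : ℝ) : Prop := ∀ κ : M → ℝ, 𝒜.Sm κ → ∀ c, 0 ≤ c →
  (∀ p, 𝒢.L κ p - μ * κ p ≤ c) → ∀ p, κ p ≤ K * c

/-- smooth solution of `T(w) = 0` on `M` -/
def Sol (w : M → ℝ) : Prop :=
  𝒜.Sm w ∧ ∀ i, ∀ x ∈ ball (0 : E) 4, ∀ a b, TT (𝒢.g i) (𝒜.rd w i) a b x = 0

end YR
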