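import Pool.Agent.Work.MP_71b0e8_gt.DefsA
import Pool.Agent.Work.MP_71b0e8_gt.Skel.NearEig
import Pool.Agent.Work.MP_71b0e8_gt.Skel.Osc
import Pool.Agent.Work.MP_71b0e8_gt.Skel.Ineq2
import Pool.Agent.Work.MP_71b0e8_gt.Skel.Int

/-! MP_71b0e8_gt, module Eig. -/

open scoped ContDiff Topology
open MeasureTheory Metric Set Filter

noncomputable section

namespace YR

theorem eig_pow4 {x T : ℝ} (hT : 0 ≤ T) (h : x ^ 4 ≤ T ^ 4) : |x| ≤ T := by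
  have h1 : |x| ^ 4 ≤ T ^ 4 := by
    have : |x| ^ 4 = x ^ 4 := by
      rw [show (4 : ℕ) = 2 * 2 by norm_num, pow_mul, pow_mul, sq_abs]
    rwa [this]
  exact le_of_pow_le_pow_left₀ (by norm_num) hT h1

variable {M : Type*} [TopologicalSpace M] [CompactSpace M] [T2Space M] [ConnectedSpace M]
  [MeasurableSpace M] [BorelSpace M] {𝒜 : Atl M} (𝒢 : Met 𝒜)

/-- (EIG) approximate principal eigenfunction -/
theorem exists_eig (hR : ∀ p, 0 < 𝒢.scal p) (hD : DR 𝒢 0) {ε : ℝ} (hε : 0 < ε) :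
    ∃ (w : M → ℝ) (μ : ℝ), 𝒜.Sm w ∧ (∀ p, 0 < w p) ∧ (∀ p, 0 ≤ 𝒢.L w p) ∧
      ∀ p, |𝒢.L w p / w p - μ| ≤ ε := by
  -- upper bound of the scalar curvature
  obtain ⟨pM, -, hpM⟩ := isCompact_univ.exists_isMaxOn univ_nonempty
    (𝒢.Sm_scal).continuous.continuousOn
  set B : ℝ := 𝒢.scal pM with hB
  have hB0 : 0 < B := hR pM
  have hBle : ∀ p, 𝒢.scal p ≤ B := fun p => hpM (mem_univ p)
  obtain ⟨C, hC⟩ := osc_bound 𝒢
  have hV := 𝒢.V_pos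
  set D : ℝ := 𝒢.S1 ^ 2 / (3 * 𝒢.V) - 𝒢.S2 with hDdef
  set C1 : ℝ := max (24 * (D + (1 / 3) * (B ^ 2 * 𝒢.V))) 0 with hC1
  have hC10 : 0 ≤ C1 := le_max_right _ _
  set C' : ℝ := max C 0 with hC'
  have hC'0 : 0 ≤ C' := le_max_right _ _
  set T : ℝ := (C' * C1) ^ (1 / 4 : ℝ) with hT
  have hT0 : 0 ≤ T := Real.rpow_nonneg (mul_nonneg hC'0 hC10) _
  have hT4 : T ^ 4 = C' * C1 := by
    rw [hT, ← Real.rpow_natCast, ← Real.rpow_mul (mul_nonneg hC'0 hC10)]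
    norm_num
  set c0 : ℝ := Real.exp (-T / 2) with hc0
  have hc00 : 0 < c0 := Real.exp_pos _
  have hK : 0 < 12 / (ε * c0) := div_pos (by norm_num) (mul_pos hε hc00)
  obtain ⟨w, μ, τ, hw, hw0, hw1, ⟨q, hq⟩, hμ, hτ, hτK, hlo, hhi⟩ := exists_near_eig 𝒢 hR hD hK
  -- minimum of w
  obtain ⟨p₀, -, hp₀⟩ := isCompact_univ.exists_isMinOn univ_nonempty hw.continuous.continuousOn
  have hmin : IsLocalMin w p₀ := Filter.Eventually.of_forall fun q => hp₀ (mem_univ q)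
  have hlap : 0 ≤ 𝒢.lap w p₀ := 𝒢.lap_nonneg_of_isLocalMin isOpen_univ (mem_univ _) (hw.on _) hmin
  have hLp₀ : 𝒢.L w p₀ ≤ B * w p₀ := by
    have h1 : 𝒢.scal p₀ * w p₀ ≤ B * w p₀ := mul_le_mul_of_nonneg_right (hBle p₀) (hw0 p₀).le
    unfold Met.L
    linarith
  have hμw : 0 ≤ μ * w p₀ := mul_nonneg hμ (hw0 p₀).le
  have hτB : τ ≤ B * w p₀ := by
    have := hlo p₀
    linarith
  have hμB : μ ≤ B := by
    have h1 : μ * w p₀ ≤ B * w p₀ := by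
      have := hlo p₀
      linarith
    exact le_of_mul_le_mul_right h1 (hw0 p₀)
  have hL0 : ∀ p, 0 ≤ 𝒢.L w p := fun p => by
    have h1 := hlo p
    have h2 : 0 ≤ μ * w p := mul_nonneg hμ (hw0 p).le
    linarith
  have hLle : ∀ p, 𝒢.L w p ≤ 4 * B * w p := fun p => by
    have h1 := hhi p
    have h2 : μ * w p ≤ B * w p := mul_le_mul_of_nonneg_right hμB (hw0 p).le
    have h3 : B * w p₀ ≤ B * w p := mul_le_mul_of_nonneg_left (hp₀ (mem_univ p)) hB0.le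
    linarith
  -- the integral bound
  set f : M → ℝ := fun q => 2 * Real.log (w q) with hf
  have hfs : 𝒜.Sm f := (Atl.Sm.const 2).mul (hw.log hw0)
  have hin := ineq2 𝒢 hR hw hw0 hL0 0
  have hq0 : 0 ≤ ∫ p, 𝒢.q2 f p ∂𝒢.vol := integral_nonneg fun p => 𝒢.q2_nonneg f p
  have hsm : 𝒜.Sm fun p => (𝒢.L w p / (4 * w p) - 0) ^ 2 :=
    (((𝒢.Sm_L hw).div ((Atl.Sm.const 4).mul hw)
      (fun p => (mul_pos four_pos (hw0 p)).ne')).sub (Atl.Sm.const _)).pow 2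
  have herr : ∫ p, (𝒢.L w p / (4 * w p) - 0) ^ 2 ∂𝒢.vol ≤ B ^ 2 * 𝒢.V := by
    have h1 : ∀ p, (𝒢.L w p / (4 * w p) - 0) ^ 2 ≤ B ^ 2 := fun p => by
      rw [sub_zero]
      have h2 : 0 ≤ 𝒢.L w p / (4 * w p) := div_nonneg (hL0 p) (mul_pos four_pos (hw0 p)).le
      have h3 : 𝒢.L w p / (4 * w p) ≤ B := by
        rw [div_le_iff₀ (mul_pos four_pos (hw0 p))]
        have := hLle p
        linarith
      exact pow_le_pow_left₀ h2 h3 2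
    calc ∫ p, (𝒢.L w p / (4 * w p) - 0) ^ 2 ∂𝒢.vol ≤ ∫ _ : M, B ^ 2 * 1 ∂𝒢.vol :=
          integral_mono (𝒢.integrable_sm hsm)
            ((𝒢.integrable_sm (Atl.Sm.const 1)).const_mul _) fun p => by simpa using h1 p
      _ = B ^ 2 * 𝒢.V := by rw [integral_const_mul]; rfl
  have hint : ∫ p, 𝒢.inn f f p ^ 2 ∂𝒢.vol ≤ C1 := by
    refine le_trans ?_ (le_max_left _ _)
    have h2 : (1 / 2) * ∫ p, 𝒢.q2 f p ∂𝒢.vol + (1 / 24) * ∫ p, 𝒢.inn f f p ^ 2 ∂𝒢.vol ≤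
        D + (1 / 3) * ∫ p, (𝒢.L w p / (4 * w p) - 0) ^ 2 ∂𝒢.vol := hin
    linarith
  have hint0 : 0 ≤ ∫ p, 𝒢.inn f f p ^ 2 ∂𝒢.vol := integral_nonneg fun p => sq_nonneg _
  have hlow : ∀ p, c0 ≤ w p := fun p => by
    have h1 : (f p - f q) ^ 4 ≤ T ^ 4 := by
      rw [hT4]
      calc (f p - f q) ^ 4 ≤ C * ∫ p, 𝒢.inn f f p ^ 2 ∂𝒢.vol := hC f hfs p q
        _ ≤ C' * ∫ p, 𝒢.inn f f p ^ 2 ∂𝒢.vol :=
            mul_le_mul_of_nonneg_right (le_max_left _ _) hint0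
        _ ≤ C' * C1 := mul_le_mul_of_nonneg_left hint hC'0
    have h2 := eig_pow4 hT0 h1
    have h3 : f q = 0 := by simp [hf, hq]
    rw [h3, sub_zero] at h2
    have h4 : -T ≤ 2 * Real.log (w p) := (abs_le.1 h2).1
    rw [hc0, ← Real.le_log_iff_exp_le (hw0 p)]
    linarith
  refine ⟨w, μ, hw, hw0, hL0, fun p => ?_⟩
  have h1 : 𝒢.L w p / w p - μ = (𝒢.L w p - μ * w p) / w p := by
    have := (hw0 p).ne'
    field_simp
  rw [h1, abs_of_nonneg (div_nonneg (by linarith [hlo p]) (hw0 p).le),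
    div_le_iff₀ (hw0 p)]
  have h2 : 3 * τ ≤ ε * c0 := by
    have h3 : 4 / (12 / (ε * c0)) = ε * c0 / 3 := by
      rw [div_div_eq_mul_div]; ring
    rw [h3] at hτK
    linarith
  have h4 : ε * c0 ≤ ε * w p := mul_le_mul_of_nonneg_left (hlow p) hε.le
  linarith [hhi p]

end YR
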