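import Pool.Agent.Work.MP_71b0e8_gt.DefsA
import Pool.Agent.Work.MP_71b0e8_gt.Skel.Osc
import Pool.Agent.Work.MP_71b0e8_gt.Skel.Glob0

/-! MP_71b0e8_gt, module Extract. -/

open scoped ContDiff Topology
open MeasureTheory Metric Set Filter

noncomputable section

namespace YR

variable {M : Type*} [TopologicalSpace M] [CompactSpace M] [T2Space M] [ConnectedSpace M]
  [MeasurableSpace M] [BorelSpace M] {𝒜 : Atl M} (𝒢 : Met 𝒜)

/-- (EXTRACT) Arzela-Ascoli -/
theorem extract (v : ℕ → M → ℝ) (hv : ∀ n, 𝒜.Sm (v n)) (h0 : ∀ n p, 0 < v n p)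
    (h1 : ∀ n p, v n p ≤ 1) (hm : ∀ n, ∃ p, v n p = 1) (A : ℝ)
    (hA : ∀ n, ∫ p, 𝒢.inn (v n) (v n) p ^ 2 ∂𝒢.vol ≤ A) :
    ∃ (θ : ℕ → ℕ) (V : M → ℝ), StrictMono θ ∧ Continuous V ∧
      TendstoUniformly (fun n => v (θ n)) V atTop ∧ ∃ p, V p = 1 := by
  obtain ⟨C, hC⟩ := equicont 𝒢
  have hI : ∀ n, 0 ≤ ∫ p, 𝒢.inn (v n) (v n) p ^ 2 ∂𝒢.vol := fun n =>
    integral_nonneg fun p => sq_nonneg _
  set K : ℝ := max C 0 * A with hK
  have hA0 : 0 ≤ A := (hI 0).trans (hA 0)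
  have hK0 : 0 ≤ K := mul_nonneg (le_max_right _ _) hA0
  have hb : ∀ n i, ∀ x ∈ closedBall (0 : E) 2, ∀ y ∈ closedBall (0 : E) 2,
      (𝒜.rd (v n) i x - 𝒜.rd (v n) i y) ^ 4 ≤ K * ‖x - y‖ := by
    intro n i x hx y hy
    have h := hC (v n) (hv n) i x hx y hy
    have h2 : C * ‖x - y‖ * ∫ p, 𝒢.inn (v n) (v n) p ^ 2 ∂𝒢.vol
        ≤ max C 0 * ‖x - y‖ * A := by
      apply mul_le_mul _ (hA n) (hI n)
      · exact mul_nonneg (le_max_right _ _) (norm_nonneg _)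
      · exact mul_le_mul_of_nonneg_right (le_max_left _ _) (norm_nonneg _)
    calc _ ≤ _ := h
      _ ≤ _ := h2
      _ = K * ‖x - y‖ := by rw [hK]; ring
  have hcont : ∀ n, Continuous (v n) := fun n => (hv n).continuous
  have heq : ∀ p : M, ∀ ε > 0, ∀ᶠ q in 𝓝 p, ∀ n, |v n p - v n q| < ε := by
    intro p ε hε
    obtain ⟨i, z, hz, rfl⟩ := Atl.exists_chart (𝒜 := 𝒜) p
    have hz4 : z ∈ ball (0 : E) 4 := ball_subset_ball (by norm_num) hz
    have hsrc := Atl.symm_mem (𝒜 := 𝒜) i hz4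
    have hri := Atl.right_inv (𝒜 := 𝒜) i hz4
    have hc : ContinuousAt (𝒜.φ i) ((𝒜.φ i).symm z) :=
      (𝒜.φ i).continuousAt hsrc
    have hδ : 0 < ε ^ 4 / (K + 1) := by positivity
    have hnear : ∀ᶠ w in 𝓝 z, w ∈ ball z (ε ^ 4 / (K + 1)) ∧ w ∈ ball (0 : E) 2 := by
      refine Filter.Eventually.and (isOpen_ball.mem_nhds (mem_ball_self hδ)) ?_
      exact isOpen_ball.mem_nhds (ball_subset_ball (by norm_num) hz)
    have hev : ∀ᶠ q in 𝓝 ((𝒜.φ i).symm z), 𝒜.φ i q ∈ ball z (ε ^ 4 / (K + 1)) ∧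
        𝒜.φ i q ∈ ball (0 : E) 2 := by
      have : Tendsto (𝒜.φ i) (𝓝 ((𝒜.φ i).symm z)) (𝓝 z) := by
        have := hc.tendsto
        rwa [hri] at this
      exact this.eventually hnear
    filter_upwards [hev, (𝒜.φ i).open_source.mem_nhds hsrc] with q hq hqs n
    have h := hb n i z (ball_subset_closedBall (ball_subset_ball (by norm_num) hz))
      (𝒜.φ i q) (ball_subset_closedBall hq.2)
    have e : 𝒜.rd (v n) i (𝒜.φ i q) = v n q := by
      simp only [Atl.rd, (𝒜.φ i).left_inv hqs]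
    rw [e] at h
    have h3 : (𝒜.rd (v n) i z - v n q) ^ 4 < ε ^ 4 := by
      have hd : ‖z - 𝒜.φ i q‖ < ε ^ 4 / (K + 1) := by
        have := hq.1
        rw [mem_ball, dist_comm, dist_eq_norm] at this
        exact this
      calc _ ≤ K * ‖z - 𝒜.φ i q‖ := h
        _ ≤ K * (ε ^ 4 / (K + 1)) := mul_le_mul_of_nonneg_left hd.le hK0
        _ < (K + 1) * (ε ^ 4 / (K + 1)) := mul_lt_mul_of_pos_right (by linarith) hδ
        _ = ε ^ 4 := by field_simp
    have h4 : |𝒜.rd (v n) i z - v n q| ^ 4 < ε ^ 4 := by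
      rwa [Even.pow_abs (by decide : Even 4)]
    exact lt_of_pow_lt_pow_left₀ 4 hε.le h4
  -- Arzela - Ascoli
  let F : ℕ → BoundedContinuousFunction M ℝ := fun n =>
    BoundedContinuousFunction.mkOfCompact ⟨v n, hcont n⟩
  have hF : ∀ n p, F n p = v n p := fun n p => rfl
  have hcomp : IsCompact (closure (range F)) := by
    refine BoundedContinuousFunction.arzela_ascoli (Icc 0 1) isCompact_Icc (range F) ?_ ?_
    · rintro f x ⟨n, rfl⟩
      exact ⟨(h0 n x).le, h1 n x⟩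
    · intro p
      rw [Metric.equicontinuousAt_iff_right]
      intro ε hε
      filter_upwards [heq p ε hε] with q hq
      rintro ⟨f, n, rfl⟩
      have := hq n
      rw [Real.dist_eq]
      exact this
  obtain ⟨V, -, θ, hθ, hV⟩ := hcomp.tendsto_subseq (x := F) fun n => subset_closure ⟨n, rfl⟩
  have hunif : TendstoUniformly (fun n => v (θ n)) V atTop := by
    have := BoundedContinuousFunction.tendsto_iff_tendstoUniformly.1 hV
    exact this
  refine ⟨θ, V, hθ, V.continuous, hunif, ?_⟩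
  obtain ⟨p, -, hp⟩ := isCompact_univ.exists_isMaxOn (s := (univ : Set M)) univ_nonempty
    V.continuous.continuousOn
  refine ⟨p, le_antisymm ?_ ?_⟩
  · exact le_of_tendsto (hunif.tendsto_at p) (Eventually.of_forall fun n => h1 _ _)
  · refine le_of_forall_pos_le_add fun ε hε => ?_
    obtain ⟨n, hn⟩ := ((Metric.tendstoUniformly_iff.1 hunif) ε hε).exists
    obtain ⟨q, hq⟩ := hm (θ n)
    have h := hn q
    rw [hq, Real.dist_eq, abs_lt] at h
    have : V q ≤ V p := hp (mem_univ q)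
    linarith [h.1]

end YR
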