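import Pool.Agent.Work.MP_71b0e8_gt.Top
import Pool.Agent.Work.MP_71b0e8_gt.Skel.PartA
import Pool.Agent.Work.MP_71b0e8_gt.Skel.DRG
import Pool.Agent.Work.MP_71b0e8_gt.Skel.Step
import Pool.Agent.Work.MP_71b0e8_gt.Skel.B13
import Pool.Agent.Work.MP_71b0e8_gt.Skel.Glob3

/-!
MP_71b0e8_gt : final assembly.
-/

open scoped ContDiff Topology
open MeasureTheory Metric Set

noncomputable section

namespace YR

/-- dense range of `L` when `R > 0`: from `L + λ`, `λ` large, by Neumann steps -/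
theorem DR_zero {M : Type*} [TopologicalSpace M] [T2Space M] [CompactSpace M] [ConnectedSpace M]
    {𝒜 : Atl M} (𝒢 : Met 𝒜) (hR : ∀ p, 0 < 𝒢.scal p) : DR 𝒢 0 := by
  obtain ⟨p₀, -, hp₀⟩ := isCompact_univ.exists_isMinOn univ_nonempty
    (𝒢.Sm_scal.continuous.continuousOn)
  set r := 𝒢.scal p₀ with hr
  have hr0 : 0 < r := hR p₀
  have hRr : ∀ p, r ≤ 𝒢.scal p := fun p => hp₀ (mem_univ p)
  obtain ⟨lam0, hlam0, hD⟩ := DR_neg 𝒢
  have key : ∀ k : ℕ, ∀ lam : ℝ, 0 ≤ lam → lam0 - k * (r / 2) ≤ lam → DR 𝒢 (-lam) := by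
    intro k
    induction k with
    | zero =>
      intro lam _ h
      refine hD lam ?_
      simpa using h
    | succ k ih =>
      intro lam h0 h
      have h1 : DR 𝒢 (-(lam + r / 2)) := by
        refine ih (lam + r / 2) (by positivity) ?_
        push_cast at h
        linarith
      have h2 : UB 𝒢 (-(lam + r / 2)) (1 / (lam + r / 2 + r)) :=
        UB_neg 𝒢 hr0 (by positivity) hRr
      have hden : 0 < lam + r / 2 + r := by positivity
      have h3 := DR_step 𝒢 (δ := r / 2) (by positivity) (by positivity) (by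
        rw [mul_one_div, div_lt_one hden]
        linarith) h2 h1
      have h4 : -(lam + r / 2) + r / 2 = -lam := by ring
      rwa [h4] at h3
  obtain ⟨k, hk⟩ := exists_nat_gt (lam0 / (r / 2))
  have h5 := key k 0 le_rfl (by
    rw [div_lt_iff₀ (by positivity)] at hk
    linarith)
  simpa using h5

theorem partA_of.{u} : PartA.{u} := by
  intro M _ _ _ _ _ _ 𝒜 𝒢 hs hsup
  obtain ⟨w, hw, h0, h1⟩ := partA 𝒢 hs (fun 𝒢' h' => DR_zero 𝒢' h') hsup
  refine ⟨w, hw.1, h0, h1, fun p => ?_⟩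
  obtain ⟨i, z, hz, rfl⟩ := 𝒜.exists_chart p
  have hz4 : z ∈ ball (0 : E) 4 := ball_subset_ball (by norm_num) hz
  exact (𝒢.t2_eq_zero_iff isOpen_univ (hw.1.on univ) i ⟨hz4, mem_univ _⟩).2
    fun a b => hw.2 i z hz4 a b

theorem partB_final.{u} : PartB.{u} :=
  partB_of fun _ _ _ _ _ _ _ _ 𝒢 h => DR_zero 𝒢 h

/-- Q1 : rigidity of `Ỹ` at `1/3` -/
theorem q1.{u} : Q1.{u} := q1_of partA_of partB_final

end YR
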