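import Pool.Agent.Work.MP_71b0e8_gt.Glob2a
import Pool.Agent.Work.MP_71b0e8_gt.Glob2cA

/-! GLOB2, sections c and e. -/

open scoped ContDiff Topology
open MeasureTheory Metric Set Filter

noncomputable section

namespace YR

variable {M : Type*} [TopologicalSpace M] {𝒜 : Atl M} (𝒢 : Met 𝒜) {U V : Set M}
  {u v w f k : M → ℝ} {p : M}

namespace Met

/-! ### the chart at `p` -/

theorem g2c_z (hp : p ∈ U) : 𝒜.φ (𝒜.idx p) p ∈ 𝒜.dom U (𝒜.idx p) := by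
  refine ⟨𝒜.map_mem _ (𝒜.idx_source p), ?_⟩
  rw [(𝒜.φ (𝒜.idx p)).left_inv (𝒜.idx_source p)]
  exact hp

theorem g2c_lm (hU : IsOpen U) (i : Fin 𝒜.n) : LM (𝒜.dom U i) (𝒢.g i) :=
  (𝒢.lm i).mono (𝒜.isOpen_dom hU i) fun _ hz => hz.1

theorem g2c_lm0 (i : Fin 𝒜.n) : LM (ball (0 : E) 4) (𝒢.g i) := 𝒢.lm i

theorem g2c_z0 (p : M) : 𝒜.φ (𝒜.idx p) p ∈ ball (0 : E) 4 := 𝒜.map_mem _ (𝒜.idx_source p)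

theorem g2c_rd (u : M → ℝ) (p : M) : 𝒜.rd u (𝒜.idx p) (𝒜.φ (𝒜.idx p) p) = u p := by
  unfold Atl.rd
  rw [(𝒜.φ (𝒜.idx p)).left_inv (𝒜.idx_source p)]

theorem g2c_diff (hU : IsOpen U) (hp : p ∈ U) (hu : 𝒜.SmOn U u) :
    DifferentiableAt ℝ (𝒜.rd u (𝒜.idx p)) (𝒜.φ (𝒜.idx p) p) :=
  ((hu (𝒜.idx p)).contDiffAt ((𝒜.isOpen_dom hU (𝒜.idx p)).mem_nhds (g2c_z hp))).differentiableAt
    (by simp)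

/-- equality near `z` of functions which agree on `dom U i` -/
theorem g2c_ev (hU : IsOpen U) {i : Fin 𝒜.n} {z : E} (hz : z ∈ 𝒜.dom U i) {F G : E → ℝ}
    (h : ∀ y ∈ 𝒜.dom U i, F y = G y) : F =ᶠ[𝓝 z] G := by
  filter_upwards [(𝒜.isOpen_dom hU i).mem_nhds hz] with y hy using h y hy

theorem g2c_rd_inn (hU : IsOpen U) (hp : p ∈ U) (hu : 𝒜.SmOn U u) (hv : 𝒜.SmOn U v) :
    𝒜.rd (𝒢.inn u v) (𝒜.idx p) =ᶠ[𝓝 (𝒜.φ (𝒜.idx p) p)]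
      YR.inn (𝒢.g (𝒜.idx p)) (𝒜.rd u (𝒜.idx p)) (𝒜.rd v (𝒜.idx p)) :=
  g2c_ev hU (g2c_z hp) fun _ hy => 𝒢.inn_chart hU hu hv _ hy

theorem g2c_rd_lap (hU : IsOpen U) (hp : p ∈ U) (hu : 𝒜.SmOn U u) :
    𝒜.rd (𝒢.lap u) (𝒜.idx p) =ᶠ[𝓝 (𝒜.φ (𝒜.idx p) p)]
      YR.lap (𝒢.g (𝒜.idx p)) (𝒜.rd u (𝒜.idx p)) :=
  g2c_ev hU (g2c_z hp) fun _ hy => 𝒢.lap_chart hU hu _ hy

theorem g2c_rd_rho (hU : IsOpen U) (hp : p ∈ U) (hu : 𝒜.SmOn U u) :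
    𝒜.rd (𝒢.rho u) (𝒜.idx p) =ᶠ[𝓝 (𝒜.φ (𝒜.idx p) p)]
      YR.rho (𝒢.g (𝒜.idx p)) (𝒜.rd u (𝒜.idx p)) :=
  g2c_ev hU (g2c_z hp) fun _ hy => 𝒢.rho_chart hU hu _ hy

theorem g2c_rd_bb (hU : IsOpen U) (hp : p ∈ U) (hu : 𝒜.SmOn U u) (hv : 𝒜.SmOn U v) :
    𝒜.rd (𝒢.bb u v) (𝒜.idx p) =ᶠ[𝓝 (𝒜.φ (𝒜.idx p) p)]
      YR.bb (𝒢.g (𝒜.idx p)) (𝒜.rd u (𝒜.idx p)) (𝒜.rd v (𝒜.idx p)) :=
  g2c_ev hU (g2c_z hp) fun _ hy => 𝒢.bb_chart hU hu hv _ hy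

/-- `ρ(w)` at `p` in the chart `idx p`; no smoothness needed -/
theorem g2c_rho (w : M → ℝ) (p : M) : 𝒢.rho w p =
    YR.rho (𝒢.g (𝒜.idx p)) (𝒜.rd w (𝒜.idx p)) (𝒜.φ (𝒜.idx p) p) := by
  unfold Met.rho YR.rho
  rw [g2c_rd]
  rfl

theorem g2c_hessv (w u v : M → ℝ) (p : M) : 𝒢.hessv w u v p =
    ev (𝒢.g (𝒜.idx p)) (fun a b => YR.hess (𝒢.g (𝒜.idx p)) (𝒜.rd w (𝒜.idx p)) a b
      (𝒜.φ (𝒜.idx p) p)) (𝒜.rd u (𝒜.idx p)) (𝒜.rd v (𝒜.idx p)) (𝒜.φ (𝒜.idx p) p) := rfl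

theorem g2c_inn (u v : M → ℝ) (p : M) : 𝒢.inn u v p =
    YR.inn (𝒢.g (𝒜.idx p)) (𝒜.rd u (𝒜.idx p)) (𝒜.rd v (𝒜.idx p)) (𝒜.φ (𝒜.idx p) p) := rfl

theorem g2c_h2 (u : M → ℝ) (p : M) : 𝒢.h2 u p =
    ip (𝒢.g (𝒜.idx p)) (fun a b => YR.hess (𝒢.g (𝒜.idx p)) (𝒜.rd u (𝒜.idx p)) a b
      (𝒜.φ (𝒜.idx p) p)) (fun a b => YR.hess (𝒢.g (𝒜.idx p)) (𝒜.rd u (𝒜.idx p)) a b
      (𝒜.φ (𝒜.idx p) p)) (𝒜.φ (𝒜.idx p) p) := rfl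

theorem g2c_Sv (u v : M → ℝ) (p : M) : 𝒢.Sv u v p =
    ev (𝒢.g (𝒜.idx p)) (fun a b => sch (𝒢.g (𝒜.idx p)) a b (𝒜.φ (𝒜.idx p) p))
      (𝒜.rd u (𝒜.idx p)) (𝒜.rd v (𝒜.idx p)) (𝒜.φ (𝒜.idx p) p) := by
  rw [g2c_ev_sch (g2c_lm0 𝒢 (𝒜.idx p)) (g2c_z0 p)]
  rfl

theorem g2c_Tv (w u v : M → ℝ) (p : M) : 𝒢.Tv w u v p =
    ev (𝒢.g (𝒜.idx p)) (fun a b => TT (𝒢.g (𝒜.idx p)) (𝒜.rd w (𝒜.idx p)) a b (𝒜.φ (𝒜.idx p) p))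
      (𝒜.rd u (𝒜.idx p)) (𝒜.rd v (𝒜.idx p)) (𝒜.φ (𝒜.idx p) p) := by
  rw [g2c_ev_TT (g2c_lm0 𝒢 (𝒜.idx p)) (g2c_z0 p), g2c_rd, ← g2c_rho]
  rfl

/-! ### GLOB2c : second order rules -/

theorem lap_const (c : ℝ) (p : M) : 𝒢.lap (fun _ => c) p = 0 := by
  have h1 : ∀ (b : Fin 3), pd b (fun _ : E => c) = fun _ => 0 := fun b => by
    funext x
    exact pd_const
  show YR.lap (𝒢.g (𝒜.idx p)) (fun _ => c) (𝒜.φ (𝒜.idx p) p) = 0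
  simp [YR.lap, YR.tr, YR.hess, h1, pd_const]

theorem lap_add (hU : IsOpen U) (hp : p ∈ U) (hu : 𝒜.SmOn U u) (hv : 𝒜.SmOn U v) :
    𝒢.lap (fun q => u q + v q) p = 𝒢.lap u p + 𝒢.lap v p :=
  YR.lap_add (𝒢.g2c_lm hU (𝒜.idx p)) (hu _) (hv _) (g2c_z hp)

theorem lap_const_mul (hU : IsOpen U) (hp : p ∈ U) (hu : 𝒜.SmOn U u) (c : ℝ) :
    𝒢.lap (fun q => c * u q) p = c * 𝒢.lap u p :=
  YR.lap_const_mul (𝒢.g2c_lm hU (𝒜.idx p)) (hu _) (g2c_z hp) c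

theorem lap_sub (hU : IsOpen U) (hp : p ∈ U) (hu : 𝒜.SmOn U u) (hv : 𝒜.SmOn U v) :
    𝒢.lap (fun q => u q - v q) p = 𝒢.lap u p - 𝒢.lap v p := by
  have h1 := 𝒢.lap_add hU hp hu (v := fun q => -1 * v q) ((Atl.SmOn.const (-1)).mul hv)
  rw [𝒢.lap_const_mul hU hp hv (-1)] at h1
  have h2 : (fun q => u q - v q) = fun q => u q + -1 * v q := by
    funext q
    ring
  rw [h2, h1]
  ring

theorem lap_sum (hU : IsOpen U) (hp : p ∈ U) {ι : Type*} {s : Finset ι} {h : ι → M → ℝ}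
    (hh : ∀ i ∈ s, 𝒜.SmOn U (h i)) :
    𝒢.lap (fun q => ∑ i ∈ s, h i q) p = ∑ i ∈ s, 𝒢.lap (h i) p := by
  classical
  induction s using Finset.induction_on with
  | empty => simpa using 𝒢.lap_const 0 p
  | insert a s ha ih =>
    have h1 := 𝒢.lap_add hU hp (hh a (Finset.mem_insert_self a s))
      (Atl.SmOn.sum fun i hi => hh i (Finset.mem_insert_of_mem hi))
    have h2 : (fun q => ∑ i ∈ insert a s, h i q) = fun q => h a q + ∑ i ∈ s, h i q := by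
      funext q
      rw [Finset.sum_insert ha]
    rw [h2, h1, ih fun i hi => hh i (Finset.mem_insert_of_mem hi), Finset.sum_insert ha]

theorem lap_mul (hU : IsOpen U) (hp : p ∈ U) (hu : 𝒜.SmOn U u) (hv : 𝒜.SmOn U v) :
    𝒢.lap (fun q => u q * v q) p = u p * 𝒢.lap v p + v p * 𝒢.lap u p + 2 * 𝒢.inn u v p := by
  have h1 := YR.lap_mul (𝒢.g2c_lm hU (𝒜.idx p)) (hu _) (hv _) (g2c_z hp)
  rw [g2c_rd, g2c_rd] at h1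
  exact h1

theorem lap_comp (hU : IsOpen U) (hp : p ∈ U) (hu : 𝒜.SmOn U u) {F : ℝ → ℝ} {S : Set ℝ}
    (hS : IsOpen S) (hF : ContDiffOn ℝ ∞ F S) (hm : ∀ q ∈ U, u q ∈ S) :
    𝒢.lap (fun q => F (u q)) p =
      deriv F (u p) * 𝒢.lap u p + deriv (deriv F) (u p) * 𝒢.inn u u p := by
  have h1 := YR.lap_comp (𝒢.g2c_lm hU (𝒜.idx p)) hS hF (hu _) (g2c_z hp)
    (fun y hy => hm _ hy.2)
  rw [g2c_rd] at h1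
  exact h1

theorem hessv_symm (hU : IsOpen U) (hp : p ∈ U) (hw : 𝒜.SmOn U w) (u v : M → ℝ) :
    𝒢.hessv w u v p = 𝒢.hessv w v u p :=
  g2c_ev_symm _ _ (fun a b => YR.hess_symm (𝒢.g2c_lm hU (𝒜.idx p)) (hw _) (g2c_z hp) a b) _ _ _

theorem hessv_add (hU : IsOpen U) (hp : p ∈ U) (hw : 𝒜.SmOn U w) (hf : 𝒜.SmOn U f)
    (u v : M → ℝ) :
    𝒢.hessv (fun q => w q + f q) u v p = 𝒢.hessv w u v p + 𝒢.hessv f u v p := by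
  have h1 := fun a b => YR.hess_add (𝒢.g2c_lm hU (𝒜.idx p)) (hw _) (hf _) (g2c_z hp) a b
  have h2 : 𝒢.hessv (fun q => w q + f q) u v p =
      ev (𝒢.g (𝒜.idx p)) (fun a b => YR.hess (𝒢.g (𝒜.idx p))
        (fun y => 𝒜.rd w (𝒜.idx p) y + 𝒜.rd f (𝒜.idx p) y) a b (𝒜.φ (𝒜.idx p) p))
        (𝒜.rd u (𝒜.idx p)) (𝒜.rd v (𝒜.idx p)) (𝒜.φ (𝒜.idx p) p) := rfl
  rw [h2]
  simp only [h1]
  rw [g2c_ev_add]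
  rfl

theorem hessv_const_mul (hU : IsOpen U) (hp : p ∈ U) (hw : 𝒜.SmOn U w) (c : ℝ) (u v : M → ℝ) :
    𝒢.hessv (fun q => c * w q) u v p = c * 𝒢.hessv w u v p := by
  have h1 := fun a b => YR.hess_mul (𝒢.g2c_lm hU (𝒜.idx p)) (u := fun _ => c) contDiffOn_const
    (hw _) (g2c_z hp) a b
  simp only [pd_const, zero_mul, add_zero] at h1
  have h3 : ∀ a b, YR.hess (𝒢.g (𝒜.idx p)) (fun _ => c) a b (𝒜.φ (𝒜.idx p) p) = 0 := by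
    intro a b
    have h2 : ∀ (b : Fin 3), pd b (fun _ : E => c) = fun _ => 0 := fun b => by
      funext x
      exact pd_const
    simp [YR.hess, h2, pd_const]
  simp only [h3, mul_zero, add_zero] at h1
  have h4 : 𝒢.hessv (fun q => c * w q) u v p =
      ev (𝒢.g (𝒜.idx p)) (fun a b => YR.hess (𝒢.g (𝒜.idx p))
        (fun y => c * 𝒜.rd w (𝒜.idx p) y) a b (𝒜.φ (𝒜.idx p) p))
        (𝒜.rd u (𝒜.idx p)) (𝒜.rd v (𝒜.idx p)) (𝒜.φ (𝒜.idx p) p) := rfl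
  rw [h4]
  simp only [h1]
  rw [g2c_ev_smul]
  rfl

theorem hessv_mul (hU : IsOpen U) (hp : p ∈ U) (hw : 𝒜.SmOn U w) (hf : 𝒜.SmOn U f)
    (u v : M → ℝ) : 𝒢.hessv (fun q => w q * f q) u v p =
      w p * 𝒢.hessv f u v p + f p * 𝒢.hessv w u v p +
        𝒢.inn w u p * 𝒢.inn f v p + 𝒢.inn w v p * 𝒢.inn f u p := by
  have h1 := fun a b => YR.hess_mul (𝒢.g2c_lm hU (𝒜.idx p)) (hw _) (hf _) (g2c_z hp) a b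
  have h2 : 𝒢.hessv (fun q => w q * f q) u v p =
      ev (𝒢.g (𝒜.idx p)) (fun a b => YR.hess (𝒢.g (𝒜.idx p))
        (fun y => 𝒜.rd w (𝒜.idx p) y * 𝒜.rd f (𝒜.idx p) y) a b (𝒜.φ (𝒜.idx p) p))
        (𝒜.rd u (𝒜.idx p)) (𝒜.rd v (𝒜.idx p)) (𝒜.φ (𝒜.idx p) p) := rfl
  rw [h2]
  simp only [h1]
  rw [g2c_ev_add, g2c_ev_add, g2c_ev_add, g2c_ev_smul, g2c_ev_smul, g2c_ev_dd]
  have h3 : (fun a b => pd b (𝒜.rd w (𝒜.idx p)) (𝒜.φ (𝒜.idx p) p) *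
      pd a (𝒜.rd f (𝒜.idx p)) (𝒜.φ (𝒜.idx p) p)) = fun a b =>
      pd a (𝒜.rd f (𝒜.idx p)) (𝒜.φ (𝒜.idx p) p) * pd b (𝒜.rd w (𝒜.idx p)) (𝒜.φ (𝒜.idx p) p) := by
    funext a b
    ring
  rw [h3, g2c_ev_dd, g2c_rd, g2c_rd, mul_comm (YR.inn _ (𝒜.rd f _) _ _)]
  rfl

theorem hessv_comp (hU : IsOpen U) (hp : p ∈ U) (hw : 𝒜.SmOn U w) {F : ℝ → ℝ} {S : Set ℝ}
    (hS : IsOpen S) (hF : ContDiffOn ℝ ∞ F S) (hm : ∀ q ∈ U, w q ∈ S) (u v : M → ℝ) :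
    𝒢.hessv (fun q => F (w q)) u v p = deriv F (w p) * 𝒢.hessv w u v p +
      deriv (deriv F) (w p) * (𝒢.inn w u p * 𝒢.inn w v p) := by
  have h1 := fun a b => YR.hess_comp (𝒢.g2c_lm hU (𝒜.idx p)) hS hF (hw _) (g2c_z hp)
    (fun y hy => hm _ hy.2) a b
  have h2 : 𝒢.hessv (fun q => F (w q)) u v p =
      ev (𝒢.g (𝒜.idx p)) (fun a b => YR.hess (𝒢.g (𝒜.idx p))
        (fun y => F (𝒜.rd w (𝒜.idx p) y)) a b (𝒜.φ (𝒜.idx p) p))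
        (𝒜.rd u (𝒜.idx p)) (𝒜.rd v (𝒜.idx p)) (𝒜.φ (𝒜.idx p) p) := rfl
  rw [h2]
  simp only [h1]
  rw [g2c_ev_add, g2c_ev_smul, g2c_ev_smul, g2c_ev_dd, g2c_rd]
  rfl

/-- linearity in the vectors -/
theorem hessv_mul_left (hU : IsOpen U) (hp : p ∈ U) (hu : 𝒜.SmOn U u) (hf : 𝒜.SmOn U f)
    (w v : M → ℝ) : 𝒢.hessv w (fun q => u q * f q) v p =
      u p * 𝒢.hessv w f v p + f p * 𝒢.hessv w u v p := by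
  have h1 := fun a => g2c_grad_mul (𝒢.g (𝒜.idx p)) (g2c_diff hU hp hu) (g2c_diff hU hp hf) a
  rw [g2c_rd, g2c_rd] at h1
  exact g2c_ev_of_grad2 _ (fun a b => YR.hess (𝒢.g (𝒜.idx p)) (𝒜.rd w (𝒜.idx p)) a b (𝒜.φ (𝒜.idx p) p))
    (v := 𝒜.rd v (𝒜.idx p)) _ _ h1

theorem ricv_mul_left (hU : IsOpen U) (hp : p ∈ U) (hu : 𝒜.SmOn U u) (hf : 𝒜.SmOn U f)
    (v : M → ℝ) : 𝒢.ricv (fun q => u q * f q) v p = u p * 𝒢.ricv f v p + f p * 𝒢.ricv u v p := by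
  have h1 := fun a => g2c_grad_mul (𝒢.g (𝒜.idx p)) (g2c_diff hU hp hu) (g2c_diff hU hp hf) a
  rw [g2c_rd, g2c_rd] at h1
  exact g2c_ev_of_grad2 _ (fun a b => YR.ric (𝒢.g (𝒜.idx p)) a b (𝒜.φ (𝒜.idx p) p))
    (v := 𝒜.rd v (𝒜.idx p)) _ _ h1

theorem hessv_comp_left (hU : IsOpen U) (hp : p ∈ U) (hu : 𝒜.SmOn U u) {F : ℝ → ℝ} {F' : ℝ}
    (hF : HasDerivAt F F' (u p)) (w v : M → ℝ) :
    𝒢.hessv w (fun q => F (u q)) v p = F' * 𝒢.hessv w u v p := by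
  rw [← g2c_rd u p] at hF
  exact g2c_ev_of_grad _ (fun a b => YR.hess (𝒢.g (𝒜.idx p)) (𝒜.rd w (𝒜.idx p)) a b (𝒜.φ (𝒜.idx p) p))
    (v := 𝒜.rd v (𝒜.idx p)) _
    fun a => g2c_grad_comp (𝒢.g (𝒜.idx p)) hF (g2c_diff hU hp hu) a

theorem ricv_comp_left (hU : IsOpen U) (hp : p ∈ U) (hu : 𝒜.SmOn U u) {F : ℝ → ℝ} {F' : ℝ}
    (hF : HasDerivAt F F' (u p)) (v : M → ℝ) :
    𝒢.ricv (fun q => F (u q)) v p = F' * 𝒢.ricv u v p := by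
  rw [← g2c_rd u p] at hF
  exact g2c_ev_of_grad _ (fun a b => YR.ric (𝒢.g (𝒜.idx p)) a b (𝒜.φ (𝒜.idx p) p))
    (v := 𝒜.rd v (𝒜.idx p)) _
    fun a => g2c_grad_comp (𝒢.g (𝒜.idx p)) hF (g2c_diff hU hp hu) a

/-- `⟨df, d⟨du,dv⟩⟩ = Hess u(∇f,∇v) + Hess v(∇f,∇u)` -/
theorem inn_inn (hU : IsOpen U) (hp : p ∈ U) (hu : 𝒜.SmOn U u) (hv : 𝒜.SmOn U v) (f : M → ℝ) :
    𝒢.inn f (𝒢.inn u v) p = 𝒢.hessv u f v p + 𝒢.hessv v f u p := by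
  have hG := 𝒢.g2c_lm hU (𝒜.idx p)
  have hz : 𝒜.φ (𝒜.idx p) p ∈ 𝒜.dom U (𝒜.idx p) := g2c_z hp
  rw [𝒢.g2c_hessv u, 𝒢.g2c_hessv v, 𝒢.g2c_inn f]
  rw [inn_eq_grad hG hz, ev_eq_inn hG hz, ev_eq_inn hG hz, ← Finset.sum_add_distrib]
  refine Finset.sum_congr rfl fun a _ => ?_
  rw [pd_congr (𝒢.g2c_rd_inn hU hp hu hv), pd_inn hG (hu _) (hv _) hz, Finset.sum_add_distrib]
  ring

theorem hessv_polar (hU : IsOpen U) (hp : p ∈ U) (hw : 𝒜.SmOn U w) (hu : 𝒜.SmOn U u)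
    (hv : 𝒜.SmOn U v) : 2 * 𝒢.hessv w u v p =
      𝒢.inn u (𝒢.inn w v) p + 𝒢.inn v (𝒢.inn w u) p - 𝒢.inn w (𝒢.inn u v) p := by
  rw [𝒢.inn_inn hU hp hw hv, 𝒢.inn_inn hU hp hw hu, 𝒢.inn_inn hU hp hu hv,
    𝒢.hessv_symm hU hp hv u w, 𝒢.hessv_symm hU hp hw v u, 𝒢.hessv_symm hU hp hu v w]
  ring

theorem bochner (hU : IsOpen U) (hp : p ∈ U) (hu : 𝒜.SmOn U u) :
    𝒢.lap (𝒢.inn u u) p / 2 = 𝒢.h2 u p + 𝒢.inn u (𝒢.lap u) p + 𝒢.ricv u u p := by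
  have h1 := YR.bochner (𝒢.g2c_lm hU (𝒜.idx p)) (hu _) (g2c_z hp)
  have h2 : 𝒢.lap (𝒢.inn u u) p = YR.lap (𝒢.g (𝒜.idx p))
      (YR.inn (𝒢.g (𝒜.idx p)) (𝒜.rd u (𝒜.idx p)) (𝒜.rd u (𝒜.idx p))) (𝒜.φ (𝒜.idx p) p) :=
    (YR.lap_congr (EventuallyEq.refl _ _) (𝒢.g2c_rd_inn hU hp hu hu)).eq_of_nhds
  have h3 : 𝒢.inn u (𝒢.lap u) p = YR.inn (𝒢.g (𝒜.idx p)) (𝒜.rd u (𝒜.idx p))
      (YR.lap (𝒢.g (𝒜.idx p)) (𝒜.rd u (𝒜.idx p))) (𝒜.φ (𝒜.idx p) p) :=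
    (YR.inn_congr (EventuallyEq.refl _ _) (EventuallyEq.refl _ _)
      (𝒢.g2c_rd_lap hU hp hu)).eq_of_nhds
  rw [h2, h3, h1]
  rfl

/-- Kato -/
theorem kato (hU : IsOpen U) (hp : p ∈ U) (hu : 𝒜.SmOn U u) :
    𝒢.inn (𝒢.inn u u) (𝒢.inn u u) p ≤ 4 * 𝒢.h2 u p * 𝒢.inn u u p := by
  have h1 := 𝒢.inn_inn hU hp hu hu (𝒢.inn u u)
  have h2 := 𝒢.hessv_sq_le u (𝒢.inn u u) u p
  have h3 := 𝒢.inn_self_nonneg (𝒢.inn u u) p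
  have h4 := 𝒢.inn_self_nonneg u p
  have h5 := 𝒢.h2_nonneg u p
  generalize 𝒢.inn (𝒢.inn u u) (𝒢.inn u u) p = A at *
  generalize 𝒢.hessv u (𝒢.inn u u) u p = B at *
  generalize 𝒢.inn u u p = C at *
  generalize 𝒢.h2 u p = D at *
  rcases h3.eq_or_lt with h6 | h6
  · rw [← h6]
    positivity
  · have h7 : A * A ≤ A * (4 * D * C) := by nlinarith
    exact le_of_mul_le_mul_left h7 h6

/-- `|T(w)|² = |Hess w|² - (Δw)²/3 + 2 w ⟨Ric⁰, Hess w⟩ + w² |Ric⁰|²` -/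
theorem t2_eq (w : M → ℝ) (p : M) : 𝒢.t2 w p =
    𝒢.h2 w p - 𝒢.lap w p ^ 2 / 3 + 2 * w p * 𝒢.eh w p + w p ^ 2 * 𝒢.e2 p := by
  have h1 := g2c_t2 (𝒢.g2c_lm0 (𝒜.idx p)) (g2c_z0 (𝒜 := 𝒜) p) (𝒜.rd w (𝒜.idx p))
  rw [g2c_rd] at h1
  exact h1

/-- `Q(f) = (Hess f - df ⊗ df / 2)⁰` -/
theorem q2_eq (f : M → ℝ) (p : M) : 𝒢.q2 f p =
    𝒢.e2 p + (𝒢.h2 f p - 𝒢.lap f p ^ 2 / 3) + 𝒢.inn f f p ^ 2 / 6 - 2 * 𝒢.eh f p +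
      (𝒢.ricv f f p - 𝒢.scal p / 3 * 𝒢.inn f f p) -
      (𝒢.hessv f f f p - 𝒢.lap f p * 𝒢.inn f f p / 3) :=
  g2c_q2 (𝒢.g2c_lm0 (𝒜.idx p)) (g2c_z0 p) (𝒜.rd f (𝒜.idx p))

/-! ### GLOB2e : the system `T = 0` and the form `B` -/

theorem rho_add (hU : IsOpen U) (hp : p ∈ U) (hu : 𝒜.SmOn U u) (hv : 𝒜.SmOn U v) :
    𝒢.rho (fun q => u q + v q) p = 𝒢.rho u p + 𝒢.rho v p := by
  unfold Met.rho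
  rw [𝒢.lap_add hU hp hu hv]
  ring

theorem rho_const_mul (hU : IsOpen U) (hp : p ∈ U) (hu : 𝒜.SmOn U u) (c : ℝ) :
    𝒢.rho (fun q => c * u q) p = c * 𝒢.rho u p := by
  unfold Met.rho
  rw [𝒢.lap_const_mul hU hp hu]
  ring

theorem g2c_inn_symm (u v : M → ℝ) (p : M) : 𝒢.inn u v p = 𝒢.inn v u p :=
  YR.inn_symm (𝒢.g2c_lm0 (𝒜.idx p)) (g2c_z0 p)

theorem bb_symm (u v : M → ℝ) (p : M) : 𝒢.bb u v p = 𝒢.bb v u p := by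
  unfold Met.bb
  rw [𝒢.g2c_inn_symm u v]
  ring

theorem bb_add (hU : IsOpen U) (hp : p ∈ U) (hu : 𝒜.SmOn U u) (hv : 𝒜.SmOn U v) (f : M → ℝ) :
    𝒢.bb (fun q => u q + v q) f p = 𝒢.bb u f p + 𝒢.bb v f p := by
  have h1 : 𝒢.inn (fun q => u q + v q) f p = 𝒢.inn u f p + 𝒢.inn v f p :=
    YR.inn_add_left (𝒢.g2c_lm hU (𝒜.idx p)) (g2c_diff hU hp hu) (g2c_diff hU hp hv)
  unfold Met.bb
  rw [𝒢.rho_add hU hp hu hv, h1]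
  ring

theorem bb_const_mul (hU : IsOpen U) (hp : p ∈ U) (hu : 𝒜.SmOn U u) (c : ℝ) (f : M → ℝ) :
    𝒢.bb (fun q => c * u q) f p = c * 𝒢.bb u f p := by
  have h1 : 𝒢.inn (fun q => c * u q) f p = c * 𝒢.inn u f p :=
    YR.inn_comp_left (F := fun t => c * t) (𝒢.g2c_lm hU (𝒜.idx p))
      (by simpa using (hasDerivAt_id _).const_mul c) (g2c_diff hU hp hu)
  unfold Met.bb
  rw [𝒢.rho_const_mul hU hp hu, h1]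
  ring

/-- `dB(u,v) = v (dρ(u) + S∇u) + u (dρ(v) + S∇v) - T(u)∇v - T(v)∇u` -/
theorem inn_bb (hU : IsOpen U) (hp : p ∈ U) (hu : 𝒜.SmOn U u) (hv : 𝒜.SmOn U v) (f : M → ℝ) :
    𝒢.inn f (𝒢.bb u v) p =
      v p * (𝒢.inn f (𝒢.rho u) p + 𝒢.Sv f u p) + u p * (𝒢.inn f (𝒢.rho v) p + 𝒢.Sv f v p) -
        𝒢.Tv u f v p - 𝒢.Tv v f u p := by
  have hG := 𝒢.g2c_lm hU (𝒜.idx p)
  have hz : 𝒜.φ (𝒜.idx p) p ∈ 𝒜.dom U (𝒜.idx p) := g2c_z hp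
  rw [g2c_Sv, g2c_Sv, g2c_Tv, g2c_Tv]
  show YR.inn (𝒢.g (𝒜.idx p)) (𝒜.rd f (𝒜.idx p)) (𝒜.rd (𝒢.bb u v) (𝒜.idx p))
    (𝒜.φ (𝒜.idx p) p) = v p * (YR.inn (𝒢.g (𝒜.idx p)) (𝒜.rd f (𝒜.idx p))
      (𝒜.rd (𝒢.rho u) (𝒜.idx p)) (𝒜.φ (𝒜.idx p) p) + _) +
      u p * (YR.inn (𝒢.g (𝒜.idx p)) (𝒜.rd f (𝒜.idx p))
      (𝒜.rd (𝒢.rho v) (𝒜.idx p)) (𝒜.φ (𝒜.idx p) p) + _) - _ - _
  simp only [inn_eq_grad hG hz, ev_eq_inn hG hz]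
  simp only [pd_congr (𝒢.g2c_rd_bb hU hp hu hv), pd_congr (𝒢.g2c_rd_rho hU hp hu),
    pd_congr (𝒢.g2c_rd_rho hU hp hv), pd_bb hG (hu _) (hv _) hz]
  rw [← Finset.sum_add_distrib, ← Finset.sum_add_distrib, Finset.mul_sum, Finset.mul_sum,
    ← Finset.sum_add_distrib, ← Finset.sum_sub_distrib, ← Finset.sum_sub_distrib]
  refine Finset.sum_congr rfl fun a _ => ?_
  rw [g2c_rd, g2c_rd]
  ring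

/-- `T(u) = 0` at `q` in the chart `i` -/
theorem g2c_TT_zero (hU : IsOpen U) (hu : 𝒜.SmOn U u) (h0 : ∀ q ∈ U, 𝒢.t2 u q = 0) (i : Fin 𝒜.n)
    {y : E} (hy : y ∈ 𝒜.dom U i) (a b : Fin 3) : TT (𝒢.g i) (𝒜.rd u i) a b y = 0 := by
  refine ip_self_eq_zero (𝒢.g2c_lm hU i) hy (fun a b => TT (𝒢.g i) (𝒜.rd u i) a b y) ?_ a b
  rw [← 𝒢.t2_chart hU hu i hy]
  exact h0 _ hy.2

theorem g2c_TT_zero' (h0 : 𝒢.t2 w p = 0) (a b : Fin 3) :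
    TT (𝒢.g (𝒜.idx p)) (𝒜.rd w (𝒜.idx p)) a b (𝒜.φ (𝒜.idx p) p) = 0 :=
  ip_self_eq_zero (𝒢.g2c_lm0 (𝒜.idx p)) (g2c_z0 p)
    (fun a b => TT (𝒢.g (𝒜.idx p)) (𝒜.rd w (𝒜.idx p)) a b (𝒜.φ (𝒜.idx p) p)) h0 a b

/-- `T(u) = 0` on `U` implies `dρ(u) = -S∇u` on `U` -/
theorem inn_rho_of_t2 (hU : IsOpen U) (hp : p ∈ U) (hu : 𝒜.SmOn U u)
    (h0 : ∀ q ∈ U, 𝒢.t2 u q = 0) (f : M → ℝ) : 𝒢.inn f (𝒢.rho u) p = -𝒢.Sv f u p := by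
  have hG := 𝒢.g2c_lm hU (𝒜.idx p)
  have hz : 𝒜.φ (𝒜.idx p) p ∈ 𝒜.dom U (𝒜.idx p) := g2c_z hp
  rw [g2c_Sv]
  show YR.inn (𝒢.g (𝒜.idx p)) (𝒜.rd f (𝒜.idx p)) (𝒜.rd (𝒢.rho u) (𝒜.idx p))
    (𝒜.φ (𝒜.idx p) p) = _
  rw [inn_eq_grad hG hz, ev_eq_inn hG hz, ← Finset.sum_neg_distrib]
  refine Finset.sum_congr rfl fun a _ => ?_
  rw [pd_congr (𝒢.g2c_rd_rho hU hp hu), g2c_pd_rho hG (hu _) hz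
    fun y hy => 𝒢.g2c_TT_zero hU hu h0 _ hy]
  ring

/-- `T(w)(∇u,∇v) = 0` -/
theorem g2c_Tv_zero (h0 : 𝒢.t2 w p = 0) (u v : M → ℝ) : 𝒢.Tv w u v p = 0 := by
  rw [g2c_Tv]
  exact g2c_ev_zero _ (𝒢.g2c_TT_zero' h0) _ _ _

/-- `T(u) = 0` at `p` implies `Hess u = -u S + ρ(u) g` at `p` -/
theorem hessv_of_t2 (h0 : 𝒢.t2 w p = 0) (u v : M → ℝ) :
    𝒢.hessv w u v p = -(w p * 𝒢.Sv u v p) + 𝒢.rho w p * 𝒢.inn u v p := by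
  have h1 := 𝒢.g2c_Tv_zero h0 u v
  unfold Tv at h1
  linarith

theorem t2_add_eq_zero (hU : IsOpen U) (hp : p ∈ U) (hu : 𝒜.SmOn U u) (hv : 𝒜.SmOn U v)
    (h1 : 𝒢.t2 u p = 0) (h2 : 𝒢.t2 v p = 0) : 𝒢.t2 (fun q => u q + v q) p = 0 := by
  have h3 := fun a b => YR.TT_add (𝒢.g2c_lm hU (𝒜.idx p)) (hu _) (hv _) (g2c_z hp) a b
  have h4 : 𝒢.t2 (fun q => u q + v q) p = ip (𝒢.g (𝒜.idx p))
      (fun a b => TT (𝒢.g (𝒜.idx p)) (fun y => 𝒜.rd u (𝒜.idx p) y + 𝒜.rd v (𝒜.idx p) y) a b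
        (𝒜.φ (𝒜.idx p) p))
      (fun a b => TT (𝒢.g (𝒜.idx p)) (fun y => 𝒜.rd u (𝒜.idx p) y + 𝒜.rd v (𝒜.idx p) y) a b
        (𝒜.φ (𝒜.idx p) p)) (𝒜.φ (𝒜.idx p) p) := rfl
  rw [h4]
  simp only [h3, 𝒢.g2c_TT_zero' h1, 𝒢.g2c_TT_zero' h2]
  simp [ip]

theorem t2_const_mul (hU : IsOpen U) (hp : p ∈ U) (hu : 𝒜.SmOn U u) (c : ℝ) :
    𝒢.t2 (fun q => c * u q) p = c ^ 2 * 𝒢.t2 u p := by
  have h3 := fun a b => YR.TT_const_mul (𝒢.g2c_lm hU (𝒜.idx p)) (hu _) (g2c_z hp) c a b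
  have h4 : 𝒢.t2 (fun q => c * u q) p = ip (𝒢.g (𝒜.idx p))
      (fun a b => TT (𝒢.g (𝒜.idx p)) (fun y => c * 𝒜.rd u (𝒜.idx p) y) a b (𝒜.φ (𝒜.idx p) p))
      (fun a b => TT (𝒢.g (𝒜.idx p)) (fun y => c * 𝒜.rd u (𝒜.idx p) y) a b (𝒜.φ (𝒜.idx p) p))
      (𝒜.φ (𝒜.idx p) p) := rfl
  rw [h4]
  simp only [h3, g2c_ip_smul_left, g2c_ip_smul_right]
  rw [← mul_assoc, ← sq]
  rfl

/-- `B(u,v)` is constant if `T(u) = T(v) = 0` -/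
theorem inn_bb_eq_zero (hU : IsOpen U) (hp : p ∈ U) (hu : 𝒜.SmOn U u) (hv : 𝒜.SmOn U v)
    (h1 : ∀ q ∈ U, 𝒢.t2 u q = 0) (h2 : ∀ q ∈ U, 𝒢.t2 v q = 0) (f : M → ℝ) :
    𝒢.inn f (𝒢.bb u v) p = 0 := by
  rw [𝒢.inn_bb hU hp hu hv, 𝒢.inn_rho_of_t2 hU hp hu h1, 𝒢.inn_rho_of_t2 hU hp hv h2,
    𝒢.g2c_Tv_zero (h1 p hp), 𝒢.g2c_Tv_zero (h2 p hp)]
  ring

end Met

end YR
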