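import Pool.Agent.Work.MP_71b0e8_gt.Skel.Glob2
import Pool.Agent.Work.MP_71b0e8_gt.Skel.Int

/-!
GLOB3c : `⟨T(w), Hess u⟩`.
-/

open scoped ContDiff Topology
open MeasureTheory Metric Set Filter

noncomputable section

namespace YR

/-! ### algebra of `ip`, `ev` -/

theorem glob3c_ip_comb {G : E → Mat} {x : E} (h k m n : Fin 3 → Fin 3 → ℝ) (c d : ℝ) :
    ip G (fun a b => h a b + c * k a b - d * m a b) n x =
      ip G h n x + c * ip G k n x - d * ip G m n x := by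
  simp only [ip, Finset.mul_sum, ← Finset.sum_add_distrib, ← Finset.sum_sub_distrib]
  refine Finset.sum_congr rfl fun a _ => Finset.sum_congr rfl fun b _ =>
    Finset.sum_congr rfl fun c _ => Finset.sum_congr rfl fun d _ => ?_
  ring

theorem glob3c_ip_add_sq {G : E → Mat} {x : E} (h k : Fin 3 → Fin 3 → ℝ) :
    ip G (fun a b => h a b + k a b) (fun a b => h a b + k a b) x =
      ip G h h x + ip G h k x + ip G k h x + ip G k k x := by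
  simp only [ip, ← Finset.sum_add_distrib]
  refine Finset.sum_congr rfl fun a _ => Finset.sum_congr rfl fun b _ =>
    Finset.sum_congr rfl fun c _ => Finset.sum_congr rfl fun d _ => ?_
  ring

theorem glob3c_ev_add {G : E → Mat} {x : E} (h : Fin 3 → Fin 3 → ℝ) {u v w : E → ℝ}
    (hu : DifferentiableAt ℝ u x) (hv : DifferentiableAt ℝ v x) :
    ev G h (fun y => u y + v y) w x = ev G h u w x + ev G h v w x := by
  have h1 : ∀ a, grad G (fun y => u y + v y) a x = grad G u a x + grad G v a x := by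
    intro a
    simp only [grad, pd_add hu hv, mul_add, Finset.sum_add_distrib]
  simp only [ev, h1, ← Finset.sum_add_distrib]
  refine Finset.sum_congr rfl fun a _ => Finset.sum_congr rfl fun b _ => ?_
  ring

/-- `T(w) = Hess w + w Ric⁰ - (Δw/3) g` -/
theorem glob3c_TT {G : E → Mat} {x : E} (w : E → ℝ) (a b : Fin 3) :
    TT G w a b x = hess G w a b x + w x * ric0 G a b x - lap G w x / 3 * G x a b := by
  simp only [TT, sch, rho, ric0]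
  ring

variable {M : Type*} [TopologicalSpace M] {𝒜 : Atl M} {U V : Set M}
  {u v w f k : M → ℝ} {p : M}

namespace Met

variable (𝒢 : Met 𝒜)

/-- `⟨T(w), Hess u⟩` -/
def th (w u : M → ℝ) : M → ℝ := 𝒜.glob fun i z =>
  YR.ip (𝒢.g i) (fun a b => YR.TT (𝒢.g i) (𝒜.rd w i) a b z)
    (fun a b => YR.hess (𝒢.g i) (𝒜.rd u i) a b z) z

include 𝒢 in
theorem glob3c_germ (i j : Fin 𝒜.n) (hU : IsOpen U) (w : M → ℝ) {z : E}
    (hz : z ∈ 𝒜.dom U i) (hj : (𝒜.φ i).symm z ∈ (𝒜.φ j).source) :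
    𝒜.rd w i =ᶠ[𝓝 z] fun y => 𝒜.rd w j (𝒜.tr i j y) := by
  have hc := 𝒢.cc i j hU
  have hzV : z ∈ {z ∈ ball (0 : E) 4 | (𝒜.φ i).symm z ∈ (𝒜.φ j).source ∩ U} :=
    ⟨hz.1, hj, hz.2⟩
  filter_upwards [hc.lm.op.mem_nhds hzV] with y hy
  exact (Atl.rd_tr i j hy.2.1 w).symm

theorem th_chart (hU : IsOpen U) (hw : 𝒜.SmOn U w) (hu : 𝒜.SmOn U u) (i : Fin 𝒜.n) {z : E}
    (hz : z ∈ 𝒜.dom U i) : 𝒢.th w u ((𝒜.φ i).symm z) =
      YR.ip (𝒢.g i) (fun a b => YR.TT (𝒢.g i) (𝒜.rd w i) a b z)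
        (fun a b => YR.hess (𝒢.g i) (𝒜.rd u i) a b z) z := by
  unfold th
  refine Atl.glob_eq (F := fun i z => YR.ip (𝒢.g i)
    (fun a b => YR.TT (𝒢.g i) (𝒜.rd w i) a b z)
    (fun a b => YR.hess (𝒢.g i) (𝒜.rd u i) a b z) z) i hz.1 fun j hj => ?_
  have hc := 𝒢.cc i j hU
  have hzV : z ∈ {z ∈ ball (0 : E) 4 | (𝒜.φ i).symm z ∈ (𝒜.φ j).source ∩ U} :=
    ⟨hz.1, hj, hz.2⟩
  have h1 := hc.TT (hw j) hzV
  have h2 := hc.hess (hu j) hzV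
  have h3 := hc.ip hzV h1 h2
  have e1 : (fun a b => YR.TT (𝒢.g i) (𝒜.rd w i) a b z) =
      fun a b => YR.TT (𝒢.g i) (fun y => 𝒜.rd w j (𝒜.tr i j y)) a b z := by
    funext a b
    exact (YR.TT_congr (Filter.EventuallyEq.refl _ _) (𝒢.glob3c_germ i j hU w hz hj) a b).eq_of_nhds
  have e2 : (fun a b => YR.hess (𝒢.g i) (𝒜.rd u i) a b z) =
      fun a b => YR.hess (𝒢.g i) (fun y => 𝒜.rd u j (𝒜.tr i j y)) a b z := by
    funext a b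
    exact (YR.hess_congr (Filter.EventuallyEq.refl _ _)
      (𝒢.glob3c_germ i j hU u hz hj) a b).eq_of_nhds
  show YR.ip (𝒢.g i) (fun a b => YR.TT (𝒢.g i) (𝒜.rd w i) a b z)
    (fun a b => YR.hess (𝒢.g i) (𝒜.rd u i) a b z) z = _
  rw [e1, e2]
  exact h3

theorem SmOn_th (hU : IsOpen U) (hw : 𝒜.SmOn U w) (hu : 𝒜.SmOn U u) : 𝒜.SmOn U (𝒢.th w u) := by
  intro i
  have hV : IsOpen (𝒜.dom U i) := Atl.isOpen_dom hU i
  have hG : LM (𝒜.dom U i) (𝒢.g i) := (𝒢.lm i).mono hV fun z hz => hz.1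
  have h1 := ip_smooth hG (h := fun a b => YR.TT (𝒢.g i) (𝒜.rd w i) a b)
    (k := fun a b => YR.hess (𝒢.g i) (𝒜.rd u i) a b) (fun a b => TT_smooth hG (hw i) a b)
    (fun a b => hess_smooth hG (hu i) a b)
  refine h1.congr fun z hz => ?_
  exact 𝒢.th_chart hU hw hu i hz

theorem Sm_th (hw : 𝒜.Sm w) (hu : 𝒜.Sm u) : 𝒜.Sm (𝒢.th w u) :=
  Atl.smOn_univ.1 (𝒢.SmOn_th isOpen_univ (hw.on univ) (hu.on univ))

/-- `⟨Hess w, Hess u⟩` -/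
def glob3cHH (w u : M → ℝ) : M → ℝ := 𝒜.glob fun i z =>
  YR.ip (𝒢.g i) (fun a b => YR.hess (𝒢.g i) (𝒜.rd w i) a b z)
    (fun a b => YR.hess (𝒢.g i) (𝒜.rd u i) a b z) z

theorem glob3c_mem (p : M) : 𝒜.φ (𝒜.idx p) p ∈ ball (0 : E) 4 :=
  Atl.map_mem _ (Atl.idx_source p)

theorem glob3c_rd (𝒜 : Atl M) (w : M → ℝ) (p : M) : 𝒜.rd w (𝒜.idx p) (𝒜.φ (𝒜.idx p) p) = w p := by
  unfold Atl.rd
  rw [(𝒜.φ (𝒜.idx p)).left_inv (Atl.idx_source p)]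

/-- `⟨T(w), Hess u⟩ = ⟨Hess w, Hess u⟩ + w ⟨Ric⁰, Hess u⟩ - Δw Δu / 3` -/
theorem glob3c_th (w u : M → ℝ) (p : M) :
    𝒢.th w u p = 𝒢.glob3cHH w u p + w p * 𝒢.eh u p - 𝒢.lap w p * 𝒢.lap u p / 3 := by
  have hG := 𝒢.lm (𝒜.idx p)
  have hz : 𝒜.φ (𝒜.idx p) p ∈ ball (0 : E) 4 := glob3c_mem p
  have hw := glob3c_rd 𝒜 w p
  simp only [th, glob3cHH, eh, lap, Atl.glob]
  simp only [glob3c_TT]
  rw [glob3c_ip_comb, hw, YR.ip_symm hG hz (fun a b => 𝒢.g (𝒜.idx p) (𝒜.φ (𝒜.idx p) p) a b),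
    YR.ip_metric hG hz]
  simp only [YR.lap]
  ring

theorem glob3c_HH_self (w : M → ℝ) (p : M) : 𝒢.glob3cHH w w p = 𝒢.h2 w p := rfl

/-- `⟨T(w), Hess w⟩ = |T(w)|² - w ⟨T(w), Ric⁰⟩`, and `⟨T(w),Ric⁰⟩ = eh w + w e2` -/
theorem th_self (w : M → ℝ) (p : M) :
    𝒢.th w w p = 𝒢.t2 w p - w p * (𝒢.eh w p + w p * 𝒢.e2 p) := by
  rw [glob3c_th, t2_eq, glob3c_HH_self]
  ring

theorem th_eq (w u : M → ℝ) (p : M) : |𝒢.th w u p| ≤ √(𝒢.t2 w p) * √(𝒢.h2 u p) := by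
  have hG := 𝒢.lm (𝒜.idx p)
  have hz : 𝒜.φ (𝒜.idx p) p ∈ ball (0 : E) 4 := glob3c_mem p
  rw [← Real.sqrt_mul (𝒢.t2_nonneg w p)]
  refine Real.abs_le_sqrt ?_
  simp only [th, t2, h2, Atl.glob]
  exact YR.ip_sq_le hG hz _ _

theorem glob3c_diff (hw : 𝒜.Sm w) (p : M) :
    DifferentiableAt ℝ (𝒜.rd w (𝒜.idx p)) (𝒜.φ (𝒜.idx p) p) :=
  ((hw (𝒜.idx p)).contDiffAt (isOpen_ball.mem_nhds (glob3c_mem p))).differentiableAt (by simp)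

theorem glob3c_h2_add (hw : 𝒜.Sm w) (hu : 𝒜.Sm u) (p : M) :
    𝒢.h2 (fun q => w q + u q) p = 𝒢.h2 w p + 2 * 𝒢.glob3cHH w u p + 𝒢.h2 u p := by
  have hG := 𝒢.lm (𝒜.idx p)
  have hz : 𝒜.φ (𝒜.idx p) p ∈ ball (0 : E) 4 := glob3c_mem p
  have h1 : ∀ a b, YR.hess (𝒢.g (𝒜.idx p)) (𝒜.rd (fun q => w q + u q) (𝒜.idx p)) a b
      (𝒜.φ (𝒜.idx p) p) = YR.hess (𝒢.g (𝒜.idx p)) (𝒜.rd w (𝒜.idx p)) a b (𝒜.φ (𝒜.idx p) p) +
        YR.hess (𝒢.g (𝒜.idx p)) (𝒜.rd u (𝒜.idx p)) a b (𝒜.φ (𝒜.idx p) p) :=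
    fun a b => YR.hess_add hG (hw _) (hu _) hz a b
  simp only [h2, glob3cHH, Atl.glob, h1]
  rw [glob3c_ip_add_sq, YR.ip_symm hG hz
    (fun a b => YR.hess (𝒢.g (𝒜.idx p)) (𝒜.rd u (𝒜.idx p)) a b (𝒜.φ (𝒜.idx p) p))
    (fun a b => YR.hess (𝒢.g (𝒜.idx p)) (𝒜.rd w (𝒜.idx p)) a b (𝒜.φ (𝒜.idx p) p))]
  ring

theorem glob3c_ricv_add (hw : 𝒜.Sm w) (hu : 𝒜.Sm u) (v : M → ℝ) (p : M) :
    𝒢.ricv (fun q => w q + u q) v p = 𝒢.ricv w v p + 𝒢.ricv u v p := by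
  have h1 : 𝒜.rd (fun q => w q + u q) (𝒜.idx p) =
      fun y => 𝒜.rd w (𝒜.idx p) y + 𝒜.rd u (𝒜.idx p) y := rfl
  simp only [ricv, Atl.glob, h1]
  exact glob3c_ev_add _ (glob3c_diff hw p) (glob3c_diff hu p)

/-- polarized Bochner formula -/
theorem glob3c_bochner (hw : 𝒜.Sm w) (hu : 𝒜.Sm u) (p : M) :
    𝒢.lap (𝒢.inn w u) p = 2 * 𝒢.glob3cHH w u p + 𝒢.inn w (𝒢.lap u) p +
      𝒢.inn u (𝒢.lap w) p + 2 * 𝒢.ricv w u p := by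
  have hp : p ∈ (univ : Set M) := mem_univ p
  have hO : IsOpen (univ : Set M) := isOpen_univ
  have hwu : 𝒜.Sm (fun q => w q + u q) := hw.add hu
  have b1 := 𝒢.bochner hO hp (hw.on univ)
  have b2 := 𝒢.bochner hO hp (hu.on univ)
  have b3 := 𝒢.bochner hO hp (hwu.on univ)
  have e1 : 𝒢.inn (fun q => w q + u q) (fun q => w q + u q) =
      fun q => (𝒢.inn w w q + 2 * 𝒢.inn w u q) + 𝒢.inn u u q := by
    funext q
    rw [𝒢.inn_add hO (mem_univ q) (hw.on univ) (hu.on univ),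
      𝒢.inn_symm w, 𝒢.inn_symm u,
      𝒢.inn_add hO (mem_univ q) (hw.on univ) (hu.on univ),
      𝒢.inn_add hO (mem_univ q) (hw.on univ) (hu.on univ), 𝒢.inn_symm u w]
    ring
  have e2 : 𝒢.lap (fun q => w q + u q) = fun q => 𝒢.lap w q + 𝒢.lap u q := by
    funext q
    exact 𝒢.lap_add hO (mem_univ q) (hw.on univ) (hu.on univ)
  have s1 := 𝒢.Sm_inn hw hw
  have s2 := 𝒢.Sm_inn hw hu
  have s3 := 𝒢.Sm_inn hu hu
  have s2' : 𝒜.Sm (fun q => 2 * 𝒢.inn w u q) := (Atl.Sm.const 2).mul s2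
  have l1 := 𝒢.Sm_lap hw
  have l2 := 𝒢.Sm_lap hu
  rw [e1, 𝒢.lap_add hO hp ((s1.add s2').on univ) (s3.on univ),
    𝒢.lap_add hO hp (s1.on univ) (s2'.on univ), 𝒢.lap_const_mul hO hp (s2.on univ), e2,
    𝒢.glob3c_h2_add hw hu, 𝒢.glob3c_ricv_add hw hu, 𝒢.ricv_symm w (fun q => w q + u q),
    𝒢.ricv_symm u (fun q => w q + u q), 𝒢.glob3c_ricv_add hw hu, 𝒢.glob3c_ricv_add hw hu,
    𝒢.ricv_symm u w, 𝒢.inn_add hO hp (hw.on univ) (hu.on univ),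
    𝒢.inn_symm w (fun q => 𝒢.lap w q + 𝒢.lap u q), 𝒢.inn_symm u (fun q => 𝒢.lap w q + 𝒢.lap u q),
    𝒢.inn_add hO hp (l1.on univ) (l2.on univ), 𝒢.inn_add hO hp (l1.on univ) (l2.on univ),
    𝒢.inn_symm (𝒢.lap w) w, 𝒢.inn_symm (𝒢.lap u) w, 𝒢.inn_symm (𝒢.lap w) u,
    𝒢.inn_symm (𝒢.lap u) u] at b3
  linarith

section

variable [T2Space M] [CompactSpace M] [MeasurableSpace M] [BorelSpace M]

/-- integrable with integral zero -/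
def Glob3cZ (F : M → ℝ) : Prop := Integrable F 𝒢.vol ∧ ∫ p, F p ∂𝒢.vol = 0

variable {𝒢}

omit [T2Space M] [CompactSpace M] [BorelSpace M] in
theorem Glob3cZ.add {F K : M → ℝ} (hF : 𝒢.Glob3cZ F) (hK : 𝒢.Glob3cZ K) :
    𝒢.Glob3cZ fun p => F p + K p :=
  ⟨hF.1.add hK.1, by rw [integral_add hF.1 hK.1, hF.2, hK.2, add_zero]⟩

omit [T2Space M] [CompactSpace M] [BorelSpace M] in
theorem Glob3cZ.smul {F : M → ℝ} (hF : 𝒢.Glob3cZ F) (c : ℝ) : 𝒢.Glob3cZ fun p => c * F p :=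
  ⟨hF.1.const_mul c, by rw [integral_const_mul, hF.2, mul_zero]⟩

variable (𝒢)

theorem glob3c_D (hu : 𝒜.Sm u) (hv : 𝒜.Sm v) :
    𝒢.Glob3cZ fun p => 𝒢.inn u v p + u p * 𝒢.lap v p := by
  have i1 := 𝒢.integrable_sm (𝒢.Sm_inn hu hv)
  have i2 := 𝒢.integrable_sm (hu.mul (𝒢.Sm_lap hv))
  refine ⟨i1.add i2, ?_⟩
  rw [integral_add i1 i2, 𝒢.integral_inn hu hv]
  ring

theorem glob3c_K (hf : 𝒜.Sm f) (hu : 𝒜.Sm u) :
    𝒢.Glob3cZ fun p => f p * 𝒢.eh u p + (f p * 𝒢.inn 𝒢.scal u p / 6 +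
      (𝒢.ricv u f p - 𝒢.scal p / 3 * 𝒢.inn u f p)) := by
  have i1 := 𝒢.integrable_sm (hf.mul (𝒢.Sm_eh hu))
  have s1 : 𝒜.Sm fun p => f p * 𝒢.inn 𝒢.scal u p / 6 := by
    have := (hf.mul (𝒢.Sm_inn 𝒢.Sm_scal hu)).mul (Atl.Sm.const (1 / 6))
    simpa [div_eq_mul_inv] using this
  have s2 : 𝒜.Sm fun p => 𝒢.scal p / 3 * 𝒢.inn u f p := by
    have := (𝒢.Sm_scal.mul (Atl.Sm.const (1 / 3))).mul (𝒢.Sm_inn hu hf)
    simpa [div_eq_mul_inv] using this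
  have i2 := 𝒢.integrable_sm (s1.add ((𝒢.Sm_ricv hu hf).sub s2))
  refine ⟨i1.add i2, ?_⟩
  rw [integral_add i1 i2, 𝒢.integral_eh hf hu]
  ring

/-- `div T(w) = 2 (dρ(w) + S dw)` -/
theorem integral_th (hf : 𝒜.Sm f) (hw : 𝒜.Sm w) (hu : 𝒜.Sm u) :
    ∫ p, f p * 𝒢.th w u p ∂𝒢.vol = -∫ p, (𝒢.Tv w f u p +
      2 * f p * (𝒢.inn (𝒢.rho w) u p + 𝒢.Sv w u p)) ∂𝒢.vol := by
  have lw := 𝒢.Sm_lap hw
  have lu := 𝒢.Sm_lap hu
  have hR : 𝒜.Sm 𝒢.scal := 𝒢.Sm_scal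
  have z := ((((((𝒢.glob3c_D hf (𝒢.Sm_inn hw hu)).smul (1 / 2)).add
    ((𝒢.glob3c_D (hf.mul lu) hw).smul (-1 / 2))).add
    ((𝒢.glob3c_D (𝒢.Sm_inn hw hf) hu).smul (1 / 2))).add
    ((𝒢.glob3c_D (hf.mul lw) hu).smul (1 / 6))).add
    ((𝒢.glob3c_D (𝒢.Sm_inn hf hu) hw).smul (-1 / 2))).add
    (𝒢.glob3c_K (hf.mul hw) hu)
  have i1 := 𝒢.integrable_sm (hf.mul (𝒢.Sm_th hw hu))
  have hO : IsOpen (univ : Set M) := isOpen_univ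
  have s1 : 𝒜.Sm (𝒢.Tv w f u) := by
    have t1 := 𝒢.Sm_hessv hw hf hu
    have t2 := hw.mul ((𝒢.Sm_ricv hf hu).sub
      ((hR.mul (Atl.Sm.const (1 / 4))).mul (𝒢.Sm_inn hf hu)))
    have t3 := (𝒢.Sm_rho hw).mul (𝒢.Sm_inn hf hu)
    have t4 := (t1.add t2).sub t3
    have e : 𝒢.Tv w f u = fun p => 𝒢.hessv w f u p + w p * (𝒢.ricv f u p -
        𝒢.scal p * (1 / 4) * 𝒢.inn f u p) - 𝒢.rho w p * 𝒢.inn f u p := by
      funext p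
      simp only [Tv, Sv]
      ring
    rw [e]
    exact t4
  have s2 : 𝒜.Sm fun p => 2 * f p * (𝒢.inn (𝒢.rho w) u p + 𝒢.Sv w u p) := by
    have t1 := (𝒢.Sm_inn (𝒢.Sm_rho hw) hu).add ((𝒢.Sm_ricv hw hu).sub
      ((hR.mul (Atl.Sm.const (1 / 4))).mul (𝒢.Sm_inn hw hu)))
    have t2 := ((Atl.Sm.const 2).mul hf).mul t1
    have e : (fun p => 2 * f p * (𝒢.inn (𝒢.rho w) u p + 𝒢.Sv w u p)) = fun p =>
        2 * f p * (𝒢.inn (𝒢.rho w) u p + (𝒢.ricv w u p - 𝒢.scal p * (1 / 4) * 𝒢.inn w u p)) := by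
      funext p
      simp only [Sv]
      ring
    rw [e]
    exact t2
  have i2 := 𝒢.integrable_sm (s1.add s2)
  have h0 : ∫ p, (f p * 𝒢.th w u p + (𝒢.Tv w f u p +
      2 * f p * (𝒢.inn (𝒢.rho w) u p + 𝒢.Sv w u p))) ∂𝒢.vol = 0 := by
    rw [← z.2]
    refine integral_congr_ae (Eventually.of_forall fun p => ?_)
    have hp : p ∈ (univ : Set M) := mem_univ p
    have hw' := hw.on univ
    have hu' := hu.on univ
    have hf' := hf.on univ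
    have a1 := 𝒢.inn_inn hO hp hw' hu' f
    have a2 := 𝒢.inn_inn hO hp hw' hf' u
    have a3 := 𝒢.inn_inn hO hp hf' hu' w
    have a4 := 𝒢.inn_mul (f := w) hO hp hf' (lu.on univ)
    have a5 := 𝒢.inn_mul (f := u) hO hp hf' (lw.on univ)
    have a6 := 𝒢.inn_mul (f := u) hO hp hf' hw'
    have a7 := 𝒢.ricv_mul_left hO hp hf' hw' u
    have a8 : 𝒢.inn (𝒢.rho w) u p = (𝒢.inn (𝒢.lap w) u p +
        (𝒢.scal p * 𝒢.inn w u p + w p * 𝒢.inn 𝒢.scal u p) / 4) / 3 := by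
      have e : 𝒢.rho w = fun q => (1 / 3) * (𝒢.lap w q + (1 / 4) * (𝒢.scal q * w q)) := by
        funext q
        simp only [rho]
        ring
      have t1 : 𝒜.Sm fun q => 𝒢.scal q * w q := hR.mul hw
      have t2 : 𝒜.Sm fun q => (1 / 4) * (𝒢.scal q * w q) := (Atl.Sm.const (1 / 4)).mul t1
      have t3 : 𝒜.Sm fun q => 𝒢.lap w q + (1 / 4) * (𝒢.scal q * w q) := lw.add t2
      rw [e, 𝒢.inn_const_mul hO hp (t3.on univ), 𝒢.inn_add hO hp (lw.on univ) (t2.on univ),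
        𝒢.inn_const_mul hO hp (t1.on univ), 𝒢.inn_mul hO hp (hR.on univ) hw']
      ring
    have a9 := 𝒢.glob3c_bochner hw hu p
    have a10 := 𝒢.glob3c_th w u p
    have c1 := 𝒢.hessv_symm hO hp hw' u f
    have c2 := 𝒢.hessv_symm hO hp hu' w f
    have c3 := 𝒢.hessv_symm hO hp hf' w u
    have a11 : 𝒢.rho w p = (𝒢.lap w p + 𝒢.scal p / 4 * w p) / 3 := rfl
    beta_reduce
    rw [𝒢.inn_symm (𝒢.inn w f) u, 𝒢.inn_symm (𝒢.inn f u) w, 𝒢.inn_symm u (fun q => f q * w q),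
      𝒢.ricv_symm u (fun q => f q * w q), a1, a2, a3, a4, a5, a6, a7, a8, a9, a10, c1, c2, c3,
      𝒢.inn_symm w (𝒢.lap u), 𝒢.inn_symm u (𝒢.lap w), 𝒢.inn_symm w f]
    simp only [Tv, Sv]
    rw [a11]
    ring
  have h1 := integral_add i1 i2
  have h2 : ∫ p, f p * 𝒢.th w u p ∂𝒢.vol + ∫ p, (𝒢.Tv w f u p +
      2 * f p * (𝒢.inn (𝒢.rho w) u p + 𝒢.Sv w u p)) ∂𝒢.vol = 0 := by
    rw [← h1]
    exact h0
  linarith

theorem integral_bochner' (hf : 𝒜.Sm f) (hu : 𝒜.Sm u) :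
    ∫ p, f p * (𝒢.h2 u p - 𝒢.lap u p ^ 2 + 𝒢.ricv u u p) ∂𝒢.vol =
      -∫ p, (𝒢.hessv u u f p - 𝒢.lap u p * 𝒢.inn u f p) ∂𝒢.vol := by
  rw [𝒢.integral_bochner hf hu, ← integral_neg]
  refine integral_congr_ae (Eventually.of_forall fun p => ?_)
  have h1 := 𝒢.inn_inn isOpen_univ (mem_univ p) (hu.on univ) (hu.on univ) f
  have h2 := 𝒢.hessv_symm isOpen_univ (mem_univ p) (hu.on univ) f u
  show 𝒢.lap u p * 𝒢.inn f u p - 𝒢.inn f (𝒢.inn u u) p / 2 =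
    -(𝒢.hessv u u f p - 𝒢.lap u p * 𝒢.inn u f p)
  rw [h1, h2, 𝒢.inn_symm u f]
  ring

end

end Met

end YR
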