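import Pool.Agent.Work.MP_71b0e8_gt.DefsA
import Pool.Agent.Work.MP_71b0e8_gt.Skel.Ident1
import Pool.Agent.Work.MP_71b0e8_gt.Skel.Glob2
import Pool.Agent.Work.MP_71b0e8_gt.Skel.Int

/-! MP_71b0e8_gt, module Ineq2. -/

open scoped ContDiff Topology
open MeasureTheory Metric Set Filter

noncomputable section

namespace YR

variable {M : Type*} [TopologicalSpace M] [CompactSpace M] [T2Space M] [ConnectedSpace M]
  [MeasurableSpace M] [BorelSpace M] {𝒜 : Atl M} (𝒢 : Met 𝒜)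

/-- (INEQ2) consequence for `f = 2 log w`, `w > 0`, `L w ≥ 0` -/
theorem ineq2 (hR : ∀ p, 0 < 𝒢.scal p) {w : M → ℝ} (hw : 𝒜.Sm w) (hw0 : ∀ p, 0 < w p)
    (hL : ∀ p, 0 ≤ 𝒢.L w p) (c : ℝ) :
    (1 / 2) * ∫ p, 𝒢.q2 (fun q => 2 * Real.log (w q)) p ∂𝒢.vol
      + (1 / 24) * ∫ p, 𝒢.inn (fun q => 2 * Real.log (w q))
          (fun q => 2 * Real.log (w q)) p ^ 2 ∂𝒢.vol
      ≤ 𝒢.S1 ^ 2 / (3 * 𝒢.V) - 𝒢.S2
        + (1 / 3) * ∫ p, (𝒢.L w p / (4 * w p) - c) ^ 2 ∂𝒢.vol := by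
  have : Nonempty M := inferInstance
  set f : M → ℝ := fun q => 2 * Real.log (w q) with hf
  have hfS : 𝒜.Sm f := (Atl.Sm.const 2).mul (hw.log hw0)
  have hwU := hw.on univ
  -- derivative formulas of `F x = 2 log x`
  have hF1 : ∀ x : ℝ, 0 < x → HasDerivAt (fun y => 2 * Real.log y) (2 / x) x := by
    intro x hx
    have := (Real.hasDerivAt_log hx.ne').const_mul 2
    rw [div_eq_mul_inv]
    exact this
  have hFd : ∀ x : ℝ, 0 < x → deriv (fun y => 2 * Real.log y) x = 2 / x := fun x hx =>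
    (hF1 x hx).deriv
  have hF2 : ∀ x : ℝ, 0 < x → deriv (deriv (fun y => 2 * Real.log y)) x = -2 / x ^ 2 := by
    intro x hx
    have h1 : deriv (fun y => 2 * Real.log y) =ᶠ[𝓝 x] fun y => 2 * y⁻¹ := by
      filter_upwards [lt_mem_nhds hx] with y hy
      rw [hFd y hy, div_eq_mul_inv]
    rw [h1.deriv_eq]
    have h2 : HasDerivAt (fun y : ℝ => 2 * y⁻¹) (2 * -(x ^ 2)⁻¹) x :=
      (hasDerivAt_inv hx.ne').const_mul 2
    rw [h2.deriv, div_eq_mul_inv]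
    ring
  -- pointwise formulas
  have hinn : ∀ p, 𝒢.inn f f p = 4 * 𝒢.inn w w p / w p ^ 2 := by
    intro p
    have h1 := 𝒢.inn_comp (F := fun y => 2 * Real.log y) (f := f) isOpen_univ (mem_univ p) hwU
      (hF1 _ (hw0 p))
    have h2 := 𝒢.inn_comp (F := fun y => 2 * Real.log y) (f := w) isOpen_univ (mem_univ p) hwU
      (hF1 _ (hw0 p))
    have e1 : 𝒢.inn f f p = 𝒢.inn (fun q => 2 * Real.log (w q)) f p := rfl
    have e2 : 𝒢.inn f w p = 𝒢.inn (fun q => 2 * Real.log (w q)) w p := rfl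
    rw [e1, h1, 𝒢.inn_symm w f p, e2, h2]
    have := (hw0 p).ne'
    field_simp
    ring
  have hlap : ∀ p, 𝒢.lap f p = 2 * 𝒢.lap w p / w p - 2 * 𝒢.inn w w p / w p ^ 2 := by
    intro p
    have hcd : ContDiffOn ℝ ∞ (fun y => 2 * Real.log y) (Ioi (0 : ℝ)) := by
      refine ContDiffOn.mul contDiffOn_const (Real.contDiffOn_log.mono ?_)
      intro x hx
      have hx' : (0 : ℝ) < x := hx
      rw [mem_compl_iff, mem_singleton_iff]
      exact hx'.ne'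
    have hm : ∀ q ∈ (univ : Set M), w q ∈ Ioi (0 : ℝ) := fun q _ => mem_Ioi.2 (hw0 q)
    have h1 := 𝒢.lap_comp (F := fun y => 2 * Real.log y) (S := Ioi 0) isOpen_univ (mem_univ p)
      hwU isOpen_Ioi hcd hm
    have h2 : 𝒢.lap f p = 𝒢.lap (fun q => 2 * Real.log (w q)) p := rfl
    rw [h2, h1, hFd _ (hw0 p), hF2 _ (hw0 p)]
    have := (hw0 p).ne'
    field_simp
    ring
  set τ : M → ℝ := fun p => 𝒢.L w p / (4 * w p) with hτ
  set P : M → ℝ := 𝒢.inn f f with hP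
  have hy : ∀ p, 𝒢.scal p / 4 - 𝒢.lap f p = τ p + P p / 2 := by
    intro p
    simp only [hτ]
    rw [hlap, hinn]
    unfold Met.L
    have := (hw0 p).ne'
    field_simp
    ring
  have hPS : 𝒜.Sm P := 𝒢.Sm_inn hfS hfS
  have hτS : 𝒜.Sm τ := (𝒢.Sm_L hw).div ((Atl.Sm.const 4).mul hw) fun p =>
    mul_ne_zero (by norm_num) (hw0 p).ne'
  have hσS : 𝒜.Sm 𝒢.scal := 𝒢.Sm_scal
  have hP0 : ∀ p, 0 ≤ P p := fun p => 𝒢.inn_self_nonneg f p
  have hτ0 : ∀ p, 0 ≤ τ p := fun p => div_nonneg (hL p) (by have := hw0 p; positivity)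
  have iτ := 𝒢.integrable_sm hτS
  have iP := 𝒢.integrable_sm hPS
  have iττ := 𝒢.integrable_sm (hτS.pow 2)
  have iPP := 𝒢.integrable_sm (hPS.pow 2)
  have iτP := 𝒢.integrable_sm (hτS.mul hPS)
  have iσP := 𝒢.integrable_sm (hσS.mul hPS)
  have hid := ident1 𝒢 hfS
  have e1 : ∫ p, (𝒢.scal p / 4 - 𝒢.lap f p) ^ 2 ∂𝒢.vol =
      ∫ p, τ p ^ 2 ∂𝒢.vol + ∫ p, τ p * P p ∂𝒢.vol + 1 / 4 * ∫ p, P p ^ 2 ∂𝒢.vol := by
    have i1 : Integrable (fun p => τ p ^ 2 + τ p * P p) 𝒢.vol := iττ.add iτP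
    have i2 : Integrable (fun p => 1 / 4 * P p ^ 2) 𝒢.vol := iPP.const_mul _
    calc ∫ p, (𝒢.scal p / 4 - 𝒢.lap f p) ^ 2 ∂𝒢.vol =
        ∫ p, ((τ p ^ 2 + τ p * P p) + 1 / 4 * P p ^ 2) ∂𝒢.vol := by
          refine integral_congr_ae (ae_of_all _ fun p => ?_)
          simp only [hy]
          ring
      _ = _ := by rw [integral_add i1 i2, integral_add iττ iτP, integral_const_mul]
  have e2 : ∫ p, (𝒢.scal p / 4 - 𝒢.lap f p) ∂𝒢.vol =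
      ∫ p, τ p ∂𝒢.vol + 1 / 2 * ∫ p, P p ∂𝒢.vol := by
    have i2 : Integrable (fun p => 1 / 2 * P p) 𝒢.vol := iP.const_mul _
    calc ∫ p, (𝒢.scal p / 4 - 𝒢.lap f p) ∂𝒢.vol = ∫ p, (τ p + 1 / 2 * P p) ∂𝒢.vol := by
          refine integral_congr_ae (ae_of_all _ fun p => ?_)
          simp only [hy]
          ring
      _ = _ := by rw [integral_add iτ i2, integral_const_mul]
  have e3 : ∫ p, (𝒢.scal p / 16 + 5 / 12 * (𝒢.scal p / 4 - 𝒢.lap f p)) * P p ∂𝒢.vol =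
      1 / 16 * ∫ p, 𝒢.scal p * P p ∂𝒢.vol + 5 / 12 * ∫ p, τ p * P p ∂𝒢.vol +
        5 / 24 * ∫ p, P p ^ 2 ∂𝒢.vol := by
    have i1 : Integrable (fun p => 1 / 16 * (𝒢.scal p * P p)) 𝒢.vol := iσP.const_mul _
    have i2 : Integrable (fun p => 5 / 12 * (τ p * P p)) 𝒢.vol := iτP.const_mul _
    have i3 : Integrable (fun p => 5 / 24 * P p ^ 2) 𝒢.vol := iPP.const_mul _
    have i4 : Integrable (fun p => 1 / 16 * (𝒢.scal p * P p) + 5 / 12 * (τ p * P p)) 𝒢.vol :=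
      i1.add i2
    calc ∫ p, (𝒢.scal p / 16 + 5 / 12 * (𝒢.scal p / 4 - 𝒢.lap f p)) * P p ∂𝒢.vol =
        ∫ p, ((1 / 16 * (𝒢.scal p * P p) + 5 / 12 * (τ p * P p)) + 5 / 24 * P p ^ 2) ∂𝒢.vol := by
          refine integral_congr_ae (ae_of_all _ fun p => ?_)
          simp only [hy]
          ring
      _ = _ := by
          rw [integral_add i4 i3, integral_add i1 i2, integral_const_mul, integral_const_mul,
            integral_const_mul]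
  have e4 : ∫ p, (τ p - c) ^ 2 ∂𝒢.vol =
      ∫ p, τ p ^ 2 ∂𝒢.vol - 2 * c * ∫ p, τ p ∂𝒢.vol + c ^ 2 * 𝒢.V := by
    have hV : c ^ 2 * 𝒢.V = ∫ p : M, c ^ 2 ∂𝒢.vol := by
      unfold Met.V
      rw [← integral_const_mul]
      simp only [mul_one]
    have ic : Integrable (fun _ : M => c ^ 2) 𝒢.vol := integrable_const _
    have i1 : Integrable (fun p => 2 * c * τ p) 𝒢.vol := iτ.const_mul _
    have i2 : Integrable (fun p => τ p ^ 2 - 2 * c * τ p) 𝒢.vol := iττ.sub i1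
    calc ∫ p, (τ p - c) ^ 2 ∂𝒢.vol = ∫ p, ((τ p ^ 2 - 2 * c * τ p) + c ^ 2) ∂𝒢.vol := by
          refine integral_congr_ae (ae_of_all _ fun p => ?_)
          simp only
          ring
      _ = _ := by rw [integral_add i2 ic, integral_sub iττ i1, integral_const_mul, hV]
  rw [e1, e2, e3] at hid
  rw [hid, e4]
  have hV := 𝒢.V_pos
  have n1 : 0 ≤ ∫ p, τ p ∂𝒢.vol := integral_nonneg hτ0
  have n2 : 0 ≤ ∫ p, P p ∂𝒢.vol := integral_nonneg hP0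
  have n3 : 0 ≤ ∫ p, τ p * P p ∂𝒢.vol := integral_nonneg fun p => mul_nonneg (hτ0 p) (hP0 p)
  have n4 : 0 ≤ ∫ p, 𝒢.scal p * P p ∂𝒢.vol :=
    integral_nonneg fun p => mul_nonneg (hR p).le (hP0 p)
  set A := ∫ p, τ p ∂𝒢.vol
  set B := ∫ p, P p ∂𝒢.vol
  set AB := ∫ p, τ p * P p ∂𝒢.vol
  set SB := ∫ p, 𝒢.scal p * P p ∂𝒢.vol
  set A2 := ∫ p, τ p ^ 2 ∂𝒢.vol
  set B2 := ∫ p, P p ^ 2 ∂𝒢.vol
  have hB2 : ∫ p, 𝒢.inn f f p ^ 2 ∂𝒢.vol = B2 := rfl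
  have key : 0 ≤ (A + 1 / 2 * B) ^ 2 / 𝒢.V + c ^ 2 * 𝒢.V - 2 * c * A := by
    have h1 : A ^ 2 / 𝒢.V ≤ (A + 1 / 2 * B) ^ 2 / 𝒢.V := by
      apply div_le_div_of_nonneg_right _ hV.le
      nlinarith
    have h2 : 0 ≤ A ^ 2 / 𝒢.V + c ^ 2 * 𝒢.V - 2 * c * A := by
      have : A ^ 2 / 𝒢.V + c ^ 2 * 𝒢.V - 2 * c * A = (A - c * 𝒢.V) ^ 2 / 𝒢.V := by
        field_simp
        ring
      rw [this]
      positivity
    linarith
  try rw [hB2]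
  linarith

end YR
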