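import Pool.Agent.Work.MP_71b0e8_gt.Skel.Loc8
import Pool.Agent.Work.MP_71b0e8_gt.Skel.Conf

/-!
INT1: the Riemannian measure.
-/

open scoped ContDiff Topology
open MeasureTheory Metric Set Filter

noncomputable section

namespace YR

section pre

variable {M : Type*} [TopologicalSpace M] [MeasurableSpace M] [BorelSpace M]

/-! ### push forward by the inverse of a chart -/

theorem i1_emb (φ : OpenPartialHomeomorph M E) :
    MeasurableEmbedding (fun z : φ.target => φ.symm z) :=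
  (φ.symm.isOpenEmbedding_restrict).measurableEmbedding

omit [MeasurableSpace M] [BorelSpace M] in
theorem i1_map_val (φ : OpenPartialHomeomorph M E) {ν : Measure E}
    (hν : ν.restrict φ.target = ν) :
    Measure.map (Subtype.val : φ.target → E) (Measure.comap Subtype.val ν) = ν := by
  rw [map_comap_subtype_coe φ.open_target.measurableSet, hν]

theorem i1_aem (φ : OpenPartialHomeomorph M E) {ν : Measure E}
    (hν : ν.restrict φ.target = ν) : AEMeasurable φ.symm ν := by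
  have := φ.continuousOn_symm.aemeasurable (μ := ν) φ.open_target.measurableSet
  rwa [hν] at this

theorem i1_map (φ : OpenPartialHomeomorph M E) {ν : Measure E}
    (hν : ν.restrict φ.target = ν) : Measure.map φ.symm ν =
      Measure.map (fun z : φ.target => φ.symm z) (Measure.comap Subtype.val ν) := by
  have h1 := i1_map_val φ hν
  have h2 : AEMeasurable φ.symm
      (Measure.map (Subtype.val : φ.target → E) (Measure.comap Subtype.val ν)) := by
    rw [h1]; exact i1_aem φ hν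
  conv_lhs => rw [← h1]
  exact AEMeasurable.map_map_of_aemeasurable h2 measurable_subtype_coe.aemeasurable

theorem i1_integral (φ : OpenPartialHomeomorph M E) {ν : Measure E}
    (hν : ν.restrict φ.target = ν) (g : M → ℝ) :
    ∫ p, g p ∂(Measure.map φ.symm ν) = ∫ z, g (φ.symm z) ∂ν := by
  rw [i1_map φ hν, (i1_emb φ).integral_map]
  conv_rhs => rw [← i1_map_val φ hν]
  rw [(MeasurableEmbedding.subtype_coe φ.open_target.measurableSet).integral_map]

theorem i1_integrable (φ : OpenPartialHomeomorph M E) {ν : Measure E}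
    (hν : ν.restrict φ.target = ν) (g : M → ℝ) :
    Integrable g (Measure.map φ.symm ν) ↔ Integrable (fun z => g (φ.symm z)) ν := by
  rw [i1_map φ hν, (i1_emb φ).integrable_map_iff]
  conv_rhs => rw [← i1_map_val φ hν]
  rw [(MeasurableEmbedding.subtype_coe φ.open_target.measurableSet).integrable_map_iff]
  rfl

theorem i1_meas_pre (φ : OpenPartialHomeomorph M E) {A : Set M} (hA : MeasurableSet A) :
    MeasurableSet (φ.target ∩ φ.symm ⁻¹' A) := by
  have h1 := (MeasurableEmbedding.subtype_coe φ.open_target.measurableSet).measurableSet_image.2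
    ((i1_emb φ).measurable hA)
  have h2 : (Subtype.val : φ.target → E) '' ((fun z : φ.target => φ.symm z) ⁻¹' A) =
      φ.target ∩ φ.symm ⁻¹' A := by
    ext z
    constructor
    · rintro ⟨y, hy, rfl⟩
      exact ⟨y.2, hy⟩
    · rintro ⟨h3, h4⟩
      exact ⟨⟨z, h3⟩, h4, rfl⟩
  rwa [h2] at h1

/-- the measure with density `ρ` in the chart `φ` -/
def den (φ : OpenPartialHomeomorph M E) (ρ : E → ℝ) : Measure M :=
  Measure.map φ.symm ((volume.restrict φ.target).withDensity fun z => ENNReal.ofReal (ρ z))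

omit [MeasurableSpace M] [BorelSpace M] in
theorem i1_nu (φ : OpenPartialHomeomorph M E) {S : Set E}
    (h : S ⊆ φ.target) (ρ : E → ℝ) :
    ((volume.restrict S).withDensity fun z => ENNReal.ofReal (ρ z)).restrict φ.target =
      (volume.restrict S).withDensity fun z => ENNReal.ofReal (ρ z) := by
  rw [restrict_withDensity φ.open_target.measurableSet,
    Measure.restrict_restrict φ.open_target.measurableSet, inter_eq_right.2 h]

theorem map_den_apply (φ : OpenPartialHomeomorph M E) (ρ : E → ℝ) {S : Set E}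
    (hS : MeasurableSet S) (h : S ⊆ φ.target) {A : Set M} (hA : MeasurableSet A) :
    Measure.map φ.symm ((volume.restrict S).withDensity fun z => ENNReal.ofReal (ρ z)) A =
      ∫⁻ z in S ∩ φ.symm ⁻¹' A, ENNReal.ofReal (ρ z) := by
  rw [Measure.map_apply_of_aemeasurable (i1_aem φ (i1_nu φ h ρ)) hA, withDensity_apply',
    Measure.restrict_restrict' hS, inter_comm]

theorem den_apply (φ : OpenPartialHomeomorph M E) (ρ : E → ℝ) {A : Set M}
    (hA : MeasurableSet A) :
    den φ ρ A = ∫⁻ z in φ.target ∩ φ.symm ⁻¹' A, ENNReal.ofReal (ρ z) :=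
  map_den_apply φ ρ φ.open_target.measurableSet subset_rfl hA

/-- change of variables -/
theorem den_restrict (φ ψ : OpenPartialHomeomorph M E) (ρ σ : E → ℝ) (τ' : E → E →L[ℝ] E)
    (hd : ∀ z ∈ φ.target ∩ φ.symm ⁻¹' ψ.source,
      HasFDerivAt (fun z => ψ (φ.symm z)) (τ' z) z)
    (hρ : ∀ z ∈ φ.target ∩ φ.symm ⁻¹' ψ.source, ρ z = |(τ' z).det| * σ (ψ (φ.symm z))) :
    (den φ ρ).restrict ψ.source = (den ψ σ).restrict φ.source := by
  ext A hA
  rw [Measure.restrict_apply hA, Measure.restrict_apply hA,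
    den_apply φ ρ (hA.inter ψ.open_source.measurableSet),
    den_apply ψ σ (hA.inter φ.open_source.measurableSet)]
  have hS : φ.target ∩ φ.symm ⁻¹' (A ∩ ψ.source) ⊆ φ.target ∩ φ.symm ⁻¹' ψ.source :=
    fun z hz => ⟨hz.1, hz.2.2⟩
  have himg : (fun z => ψ (φ.symm z)) '' (φ.target ∩ φ.symm ⁻¹' (A ∩ ψ.source)) =
      ψ.target ∩ ψ.symm ⁻¹' (A ∩ φ.source) := by
    ext y
    constructor
    · rintro ⟨z, ⟨h1, h2, h3⟩, rfl⟩
      refine ⟨ψ.map_source h3, ?_, ?_⟩
      · show ψ.symm (ψ (φ.symm z)) ∈ A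
        rw [ψ.left_inv h3]
        exact h2
      · show ψ.symm (ψ (φ.symm z)) ∈ φ.source
        rw [ψ.left_inv h3]
        exact φ.map_target h1
    · rintro ⟨h1, h2, h3⟩
      refine ⟨φ (ψ.symm y), ⟨φ.map_source h3, ?_, ?_⟩, ?_⟩
      · show φ.symm (φ (ψ.symm y)) ∈ A
        rw [φ.left_inv h3]
        exact h2
      · show φ.symm (φ (ψ.symm y)) ∈ ψ.source
        rw [φ.left_inv h3]
        exact ψ.map_target h1
      · simp only
        rw [φ.left_inv h3, ψ.right_inv h1]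
  rw [← himg]
  have hm := i1_meas_pre φ (hA.inter ψ.open_source.measurableSet)
  have hinj : InjOn (fun z => ψ (φ.symm z)) (φ.target ∩ φ.symm ⁻¹' (A ∩ ψ.source)) := by
    intro y hy z hz h
    have h1 : φ.symm y = φ.symm z := ψ.injOn hy.2.2 hz.2.2 h
    exact φ.symm.injOn hy.1 hz.1 h1
  rw [lintegral_image_eq_lintegral_abs_det_fderiv_mul volume hm
    (fun z hz => (hd z (hS hz)).hasFDerivWithinAt) hinj]
  refine setLIntegral_congr_fun hm fun z hz => ?_
  rw [hρ z (hS hz), ENNReal.ofReal_mul (abs_nonneg _)]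

theorem den_restrict_self (φ : OpenPartialHomeomorph M E) (ρ : E → ℝ) :
    (den φ ρ).restrict φ.source = den φ ρ := by
  ext A hA
  rw [Measure.restrict_apply hA, den_apply φ ρ (hA.inter φ.open_source.measurableSet),
    den_apply φ ρ hA]
  congr 2
  ext z
  exact ⟨fun hz => ⟨hz.1, hz.2.1⟩, fun hz => ⟨hz.1, hz.2, φ.map_target hz.1⟩⟩

theorem den_integral (φ : OpenPartialHomeomorph M E) (ρ : E → ℝ)
    (hρ : AEMeasurable ρ (volume.restrict φ.target)) (h0 : ∀ z ∈ φ.target, 0 ≤ ρ z) (g : M → ℝ) :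
    ∫ p, g p ∂(den φ ρ) = ∫ z in φ.target, g (φ.symm z) * ρ z := by
  rw [den, i1_integral φ (i1_nu φ subset_rfl ρ),
    integral_withDensity_eq_integral_toReal_smul₀ hρ.ennreal_ofReal
      (Eventually.of_forall fun _ => ENNReal.ofReal_lt_top)]
  refine setIntegral_congr_fun φ.open_target.measurableSet fun z hz => ?_
  simp only [ENNReal.toReal_ofReal (h0 z hz), smul_eq_mul]
  ring

theorem den_integrable (φ : OpenPartialHomeomorph M E) (ρ : E → ℝ)
    (hρ : AEMeasurable ρ (volume.restrict φ.target)) (h0 : ∀ z ∈ φ.target, 0 ≤ ρ z) (g : M → ℝ) :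
    Integrable g (den φ ρ) ↔ IntegrableOn (fun z => g (φ.symm z) * ρ z) φ.target := by
  rw [den, i1_integrable φ (i1_nu φ subset_rfl ρ),
    integrable_withDensity_iff_integrable_smul₀' hρ.ennreal_ofReal
      (Eventually.of_forall fun _ => ENNReal.ofReal_lt_top)]
  refine integrableOn_congr_fun (fun z hz => ?_) φ.open_target.measurableSet
  simp only [ENNReal.toReal_ofReal (h0 z hz), smul_eq_mul]
  ring

end pre

section det

/-- the Jacobi matrix -/
def i1jac (τ : E → E) (z : E) : Mat := Matrix.of fun c a => (fderiv ℝ τ z (be a)) c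

theorem det_i1jac (τ : E → E) (z : E) : (i1jac τ z).det = (fderiv ℝ τ z).det := by
  have : i1jac τ z = LinearMap.toMatrix (EuclideanSpace.basisFun (Fin 3) ℝ).toBasis
      (EuclideanSpace.basisFun (Fin 3) ℝ).toBasis (fderiv ℝ τ z : E →ₗ[ℝ] E) := by
    ext a b
    rw [LinearMap.toMatrix_apply]
    simp [i1jac, be]
  rw [this, LinearMap.det_toMatrix]

end det

variable {M : Type*} [TopologicalSpace M] [T2Space M] [CompactSpace M] [MeasurableSpace M]
  [BorelSpace M] {𝒜 : Atl M} (𝒢 : Met 𝒜) {U V : Set M} {u v w f k : M → ℝ}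

omit [T2Space M] [CompactSpace M] [MeasurableSpace M] [BorelSpace M] in
theorem i1_rho_change (i j : Fin 𝒜.n) {z : E} (hz : z ∈ ball (0 : E) 4)
    (hj : (𝒜.φ i).symm z ∈ (𝒜.φ j).source) :
    √(𝒢.g i z).det = |(fderiv ℝ (𝒜.tr i j) z).det| * √(𝒢.g j (𝒜.tr i j z)).det := by
  have h1 : 𝒢.g i z = (i1jac (𝒜.tr i j) z).transpose * 𝒢.g j (𝒜.tr i j z) *
      i1jac (𝒜.tr i j) z := by
    ext a b
    rw [𝒢.compat i j z hz hj a b, Matrix.mul_apply, Finset.sum_comm]
    refine Finset.sum_congr rfl fun d _ => ?_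
    rw [Matrix.mul_apply, Finset.sum_mul]
    refine Finset.sum_congr rfl fun c _ => ?_
    simp only [i1jac, Matrix.transpose_apply, Matrix.of_apply]
    ring
  rw [h1, Matrix.det_mul, Matrix.det_mul, Matrix.det_transpose, det_i1jac]
  have h2 : (fderiv ℝ (𝒜.tr i j) z).det * (𝒢.g j (𝒜.tr i j z)).det *
      (fderiv ℝ (𝒜.tr i j) z).det =
      (fderiv ℝ (𝒜.tr i j) z).det ^ 2 * (𝒢.g j (𝒜.tr i j z)).det := by ring
  rw [h2, Real.sqrt_mul (sq_nonneg _), Real.sqrt_sq_eq_abs]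

omit [T2Space M] [CompactSpace M] [MeasurableSpace M] [BorelSpace M] in
theorem i1_tr_deriv (i j : Fin 𝒜.n) {z : E} (hz : z ∈ ball (0 : E) 4)
    (hj : (𝒜.φ i).symm z ∈ (𝒜.φ j).source) :
    HasFDerivAt (fun z => 𝒜.φ j ((𝒜.φ i).symm z)) (fderiv ℝ (𝒜.tr i j) z) z := by
  have ho : IsOpen {z ∈ ball (0 : E) 4 | (𝒜.φ i).symm z ∈ (𝒜.φ j).source} := by
    have := (𝒜.φ i).symm.isOpen_inter_preimage (𝒜.φ j).open_source
    have h2 : (𝒜.φ i).symm.source = ball (0 : E) 4 := 𝒜.target_eq i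
    rw [h2] at this
    exact this
  have h := (𝒜.smooth i j).contDiffAt (ho.mem_nhds ⟨hz, hj⟩)
  exact (h.differentiableAt (by simp)).hasFDerivAt

omit [T2Space M] [CompactSpace M] [MeasurableSpace M] [BorelSpace M] in
theorem i1_det_cont (i : Fin 𝒜.n) : ContinuousOn (fun z => √(𝒢.g i z).det) (ball (0 : E) 4) := by
  refine ContinuousOn.sqrt ?_
  have h : ContinuousOn (𝒢.g i) (ball (0 : E) 4) :=
    continuousOn_pi.2 fun a => continuousOn_pi.2 fun b => ((𝒢.lm i).smooth a b).continuousOn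
  exact (continuous_id.matrix_det).comp_continuousOn h

omit [T2Space M] [CompactSpace M] [MeasurableSpace M] [BorelSpace M] in
theorem i1_det_pos (i : Fin 𝒜.n) {z : E} (hz : z ∈ ball (0 : E) 4) : 0 < √(𝒢.g i z).det :=
  Real.sqrt_pos.2 ((𝒢.lm i).pos z hz).det_pos

omit [T2Space M] [CompactSpace M] [MeasurableSpace M] [BorelSpace M] in
theorem i1_aem_det (i : Fin 𝒜.n) :
    AEMeasurable (fun z => √(𝒢.g i z).det) (volume.restrict (𝒜.φ i).target) := by
  rw [𝒜.target_eq i]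
  exact (i1_det_cont 𝒢 i).aemeasurable measurableSet_ball

omit [T2Space M] [CompactSpace M] in
/-- the part with chart index `i` -/
theorem i1_meas_idx (i : Fin 𝒜.n) : MeasurableSet {p : M | 𝒜.idx p = i} := by
  classical
  have hG : ∀ j, MeasurableSet {p : M | j ∈ 𝒜.good p} := by
    intro j
    have h1 : {p : M | j ∈ 𝒜.good p} = (𝒜.φ j).source ∩ (𝒜.φ j) ⁻¹' ball (0 : E) 1 := by
      ext p
      simp [Atl.good]
    rw [h1]
    exact ((𝒜.φ j).isOpen_inter_preimage isOpen_ball).measurableSet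
  have h2 : {p : M | 𝒜.idx p = i} =
      {p : M | i ∈ 𝒜.good p} ∩ ⋂ j : {j : Fin 𝒜.n // j < i}, {p : M | j.1 ∈ 𝒜.good p}ᶜ := by
    ext p
    simp only [Set.mem_ofPred_eq, mem_inter_iff, mem_iInter, mem_compl_iff, Subtype.forall]
    constructor
    · rintro h
      refine ⟨?_, fun j hj hjg => ?_⟩
      · rw [← h]
        exact Finset.min'_mem _ _
      · have := Finset.min'_le _ j hjg
        have h3 : 𝒜.idx p ≤ j := this
        rw [h] at h3
        exact absurd hj (not_lt.2 h3)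
    · rintro ⟨h1, h3⟩
      refine le_antisymm (Finset.min'_le _ i h1) ?_
      by_contra hlt
      rw [not_le] at hlt
      exact h3 _ hlt (Finset.min'_mem _ _)
  rw [h2]
  exact (hG i).inter (MeasurableSet.iInter fun j => (hG _).compl)

/-- the measure in the chart `i` -/
def i1m (i : Fin 𝒜.n) : Measure M := den (𝒜.φ i) fun z => √(𝒢.g i z).det

omit [T2Space M] [CompactSpace M] in
theorem i1m_restrict (i j : Fin 𝒜.n) :
    (i1m 𝒢 i).restrict (𝒜.φ j).source = (i1m 𝒢 j).restrict (𝒜.φ i).source := by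
  refine den_restrict _ _ _ _ (fun z => fderiv ℝ (𝒜.tr i j) z) (fun z hz => ?_) fun z hz => ?_
  · rw [𝒜.target_eq i] at hz
    exact i1_tr_deriv i j hz.1 hz.2
  · rw [𝒜.target_eq i] at hz
    exact i1_rho_change 𝒢 i j hz.1 hz.2

omit [T2Space M] [CompactSpace M] [MeasurableSpace M] [BorelSpace M] in
theorem i1_idx_source (p : M) : p ∈ (𝒜.φ (𝒜.idx p)).source := by
  classical
  have h := Finset.min'_mem _ (𝒜.good_nonempty p)
  have h2 : 𝒜.idx p ∈ 𝒜.good p := h
  simp only [Atl.good, Finset.mem_filter, Finset.mem_univ, true_and] at h2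
  exact h2.1

omit [T2Space M] [CompactSpace M] [MeasurableSpace M] [BorelSpace M] in
theorem i1_idx_ball (p : M) : 𝒜.φ (𝒜.idx p) p ∈ ball (0 : E) 1 := by
  classical
  have h := Finset.min'_mem _ (𝒜.good_nonempty p)
  have h2 : 𝒜.idx p ∈ 𝒜.good p := h
  simp only [Atl.good, Finset.mem_filter, Finset.mem_univ, true_and] at h2
  exact h2.2

omit [T2Space M] [CompactSpace M] in
theorem i1_vol : 𝒢.vol = Measure.sum fun i : Fin 𝒜.n => (i1m 𝒢 i).restrict {p | 𝒜.idx p = i} := by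
  unfold Met.vol
  congr 1
  funext i
  have hS : {z ∈ ball (0 : E) 4 | 𝒜.idx ((𝒜.φ i).symm z) = i} =
      (𝒜.φ i).target ∩ (𝒜.φ i).symm ⁻¹' {p | 𝒜.idx p = i} := by
    rw [𝒜.target_eq i]; rfl
  have hm : MeasurableSet {z ∈ ball (0 : E) 4 | 𝒜.idx ((𝒜.φ i).symm z) = i} := by
    rw [hS]; exact i1_meas_pre _ (i1_meas_idx i)
  ext A hA
  rw [map_den_apply (𝒜.φ i) (fun z => √(𝒢.g i z).det) hm
    (by rw [hS]; exact inter_subset_left) hA, Measure.restrict_apply hA, i1m,
    den_apply _ _ (hA.inter (i1_meas_idx i)), hS]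
  congr 2
  ext z
  exact ⟨fun hz => ⟨hz.1.1, hz.2, hz.1.2⟩, fun hz => ⟨⟨hz.1, hz.2.2⟩, hz.2.1⟩⟩

omit [T2Space M] [CompactSpace M] in
/-- decomposition of a measure along the index -/
theorem i1_decomp (μ : Measure M) :
    μ = Measure.sum fun i : Fin 𝒜.n => μ.restrict {p | 𝒜.idx p = i} := by
  have h1 : (⋃ i : Fin 𝒜.n, {p : M | 𝒜.idx p = i}) = univ := by
    ext p; simp
  have h2 : Pairwise (Function.onFun Disjoint fun i : Fin 𝒜.n => {p : M | 𝒜.idx p = i}) := by
    intro i j hij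
    rw [Function.onFun, Set.disjoint_left]
    intro p hp hp'
    exact hij (hp.symm.trans hp')
  rw [← Measure.restrict_iUnion h2 fun i => i1_meas_idx i, h1, Measure.restrict_univ]

namespace Met

/-- the measure in the chart `i` is `√det g dz` (change of variables, `CC.sqrt_det`) -/
theorem vol_chart (i : Fin 𝒜.n) : 𝒢.vol.restrict (𝒜.φ i).source =
    Measure.map (𝒜.φ i).symm ((volume.restrict (ball 0 4)).withDensity
      fun z => ENNReal.ofReal (√(𝒢.g i z).det)) := by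
  have h0 : Measure.map (𝒜.φ i).symm ((volume.restrict (ball 0 4)).withDensity
      fun z => ENNReal.ofReal (√(𝒢.g i z).det)) = i1m 𝒢 i := by
    unfold i1m den
    rw [𝒜.target_eq i]
  rw [h0, i1_vol, Measure.restrict_sum _ (𝒜.φ i).open_source.measurableSet]
  rw [i1_decomp (𝒜 := 𝒜) (i1m 𝒢 i)]
  congr 1
  funext j
  have hj : {p : M | 𝒜.idx p = j} ⊆ (𝒜.φ j).source := by
    intro p hp
    rw [← (show 𝒜.idx p = j from hp)]
    exact i1_idx_source p
  have h1 : (i1m 𝒢 i).restrict {p : M | 𝒜.idx p = j} =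
      ((i1m 𝒢 i).restrict (𝒜.φ j).source).restrict {p : M | 𝒜.idx p = j} := by
    rw [Measure.restrict_restrict (i1_meas_idx j), inter_eq_left.2 hj]
  rw [h1, i1m_restrict, Measure.restrict_comm (i1_meas_idx j)]

theorem vol_unique (μ : Measure M) (h : ∀ i, μ.restrict (𝒜.φ i).source =
    Measure.map (𝒜.φ i).symm ((volume.restrict (ball 0 4)).withDensity
      fun z => ENNReal.ofReal (√(𝒢.g i z).det))) : μ = 𝒢.vol := by
  rw [i1_decomp (𝒜 := 𝒜) μ, i1_decomp (𝒜 := 𝒜) 𝒢.vol]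
  congr 1
  funext j
  have hj : {p : M | 𝒜.idx p = j} ⊆ (𝒜.φ j).source := by
    intro p hp
    rw [← (show 𝒜.idx p = j from hp)]
    exact i1_idx_source p
  have h1 : ∀ ν : Measure M, ν.restrict {p : M | 𝒜.idx p = j} =
      (ν.restrict (𝒜.φ j).source).restrict {p : M | 𝒜.idx p = j} := by
    intro ν
    rw [Measure.restrict_restrict (i1_meas_idx j), inter_eq_left.2 hj]
  rw [h1 μ, h1 𝒢.vol, h j, 𝒢.vol_chart j]

omit [T2Space M] [CompactSpace M] in
theorem vol_restrict_i1m [T2Space M] [CompactSpace M] (i : Fin 𝒜.n) :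
    𝒢.vol.restrict (𝒜.φ i).source = i1m 𝒢 i := by
  rw [𝒢.vol_chart i]
  unfold i1m den
  rw [𝒜.target_eq i]

/-- integral of a function supported in a chart -/
theorem integral_chart (i : Fin 𝒜.n) {f : M → ℝ} (hf : ∀ p, p ∉ (𝒜.φ i).source → f p = 0) :
    ∫ p, f p ∂𝒢.vol = ∫ z in ball (0 : E) 4, 𝒜.rd f i z * √(𝒢.g i z).det := by
  rw [← setIntegral_eq_integral_of_forall_compl_eq_zero hf, 𝒢.vol_restrict_i1m i, i1m,
    den_integral _ _ (i1_aem_det 𝒢 i) (fun z _ => Real.sqrt_nonneg _), 𝒜.target_eq i]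
  rfl

theorem integrable_chart (i : Fin 𝒜.n) {f : M → ℝ} (hf : ∀ p, p ∉ (𝒜.φ i).source → f p = 0) :
    Integrable f 𝒢.vol ↔
      IntegrableOn (fun z => 𝒜.rd f i z * √(𝒢.g i z).det) (ball (0 : E) 4) := by
  have h1 : IntegrableOn f (𝒜.φ i).source 𝒢.vol ↔ Integrable f 𝒢.vol := by
    refine integrableOn_iff_integrable_of_support_subset fun p hp => ?_
    by_contra hc
    exact hp (hf p hc)
  rw [← h1, IntegrableOn, 𝒢.vol_restrict_i1m i, i1m,
    den_integrable _ _ (i1_aem_det 𝒢 i) (fun z _ => Real.sqrt_nonneg _), 𝒜.target_eq i]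
  rfl

theorem vol_apply_chart (i : Fin 𝒜.n) {A : Set M} (hA : MeasurableSet A)
    (h : A ⊆ (𝒜.φ i).source) : 𝒢.vol A =
      ∫⁻ z in ball (0 : E) 4 ∩ (𝒜.φ i).symm ⁻¹' A, ENNReal.ofReal (√(𝒢.g i z).det) := by
  have h1 : 𝒢.vol A = 𝒢.vol.restrict (𝒜.φ i).source A := by
    rw [Measure.restrict_apply hA, inter_eq_left.2 h]
  rw [h1, 𝒢.vol_restrict_i1m i, i1m, den_apply _ _ hA, 𝒜.target_eq i]

omit [T2Space M] [CompactSpace M] [MeasurableSpace M] [BorelSpace M] in
theorem lint_lt_top (i : Fin 𝒜.n) {K : Set E} (hK : IsCompact K) (hK4 : K ⊆ ball 0 4) :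
    ∫⁻ z in K, ENNReal.ofReal (√(𝒢.g i z).det) < ⊤ :=
  (((i1_det_cont 𝒢 i).mono hK4).integrableOn_compact hK).lintegral_lt_top

instance instFinVol : IsFiniteMeasure 𝒢.vol := by
  constructor
  have h1 : (univ : Set M) ⊆ ⋃ i : Fin 𝒜.n, (𝒜.φ i).source ∩ (𝒜.φ i) ⁻¹' ball (0 : E) 1 := by
    intro p _
    exact mem_iUnion.2 ⟨𝒜.idx p, i1_idx_source p, i1_idx_ball p⟩
  refine lt_of_le_of_lt (measure_mono h1) ?_
  refine lt_of_le_of_lt (measure_iUnion_le _) ?_
  rw [tsum_fintype]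
  refine ENNReal.sum_lt_top.2 fun i _ => ?_
  rw [𝒢.vol_apply_chart i ((𝒜.φ i).isOpen_inter_preimage isOpen_ball).measurableSet
    inter_subset_left]
  refine lt_of_le_of_lt (lintegral_mono_set ?_)
    (𝒢.lint_lt_top i (isCompact_closedBall (0 : E) 1)
      (closedBall_subset_ball (by norm_num)))
  rintro z ⟨h2, h3, h4⟩
  rw [mem_preimage, (𝒜.φ i).right_inv (by rw [𝒜.target_eq i]; exact h2)] at h4
  exact ball_subset_closedBall h4

instance instPosVol : 𝒢.vol.IsOpenPosMeasure := by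
  constructor
  rintro W hW ⟨p, hp⟩ h0
  set i := 𝒜.idx p with hi
  have hps : p ∈ (𝒜.φ i).source := i1_idx_source p
  have h1 : 𝒢.vol (W ∩ (𝒜.φ i).source) = 0 := measure_mono_null inter_subset_left h0
  rw [𝒢.vol_apply_chart i (hW.inter (𝒜.φ i).open_source).measurableSet inter_subset_right] at h1
  have ho : IsOpen (ball (0 : E) 4 ∩ (𝒜.φ i).symm ⁻¹' (W ∩ (𝒜.φ i).source)) := by
    have := (𝒜.φ i).symm.isOpen_inter_preimage (hW.inter (𝒜.φ i).open_source)
    have h2 : (𝒜.φ i).symm.source = ball (0 : E) 4 := 𝒜.target_eq i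
    rwa [h2] at this
  have hne : (ball (0 : E) 4 ∩ (𝒜.φ i).symm ⁻¹' (W ∩ (𝒜.φ i).source)).Nonempty := by
    refine ⟨𝒜.φ i p, ?_, ?_⟩
    · have := (𝒜.φ i).map_source hps
      rwa [𝒜.target_eq i] at this
    · rw [mem_preimage, (𝒜.φ i).left_inv hps]
      exact ⟨hp, hps⟩
  have haem : AEMeasurable (fun z => ENNReal.ofReal (√(𝒢.g i z).det))
      (volume.restrict (ball (0 : E) 4 ∩ (𝒜.φ i).symm ⁻¹' (W ∩ (𝒜.φ i).source))) :=
    (((i1_det_cont 𝒢 i).mono inter_subset_left).aemeasurable ho.measurableSet).ennreal_ofReal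
  rw [lintegral_eq_zero_iff' haem] at h1
  have h3 : ∀ᵐ z ∂(volume.restrict
      (ball (0 : E) 4 ∩ (𝒜.φ i).symm ⁻¹' (W ∩ (𝒜.φ i).source))), False := by
    filter_upwards [h1, ae_restrict_mem ho.measurableSet] with z hz hz2
    have h4 := i1_det_pos 𝒢 i hz2.1
    rw [Pi.zero_apply, ENNReal.ofReal_eq_zero] at hz
    exact absurd h4 (not_lt.2 hz)
  rw [ae_iff] at h3
  simp only [not_false_eq_true, Set.ofPred_true, Measure.restrict_apply_univ] at h3
  exact (ho.measure_pos volume hne).ne' h3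

instance instNoAtomsVol : NullSingletonClass 𝒢.vol := by
  constructor
  intro p
  set i := 𝒜.idx p with hi
  have hps : p ∈ (𝒜.φ i).source := i1_idx_source p
  rw [𝒢.vol_apply_chart i (measurableSet_singleton p) (singleton_subset_iff.2 hps)]
  have h1 : ball (0 : E) 4 ∩ (𝒜.φ i).symm ⁻¹' {p} ⊆ {𝒜.φ i p} := by
    rintro z ⟨h2, h3⟩
    rw [mem_preimage, mem_singleton_iff] at h3
    rw [mem_singleton_iff, ← h3, (𝒜.φ i).right_inv (by rw [𝒜.target_eq i]; exact h2)]
  have h2 : (volume : Measure E).restrict (ball (0 : E) 4 ∩ (𝒜.φ i).symm ⁻¹' {p}) = 0 := by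
    rw [Measure.restrict_eq_zero]
    exact measure_mono_null h1 (measure_singleton _)
  rw [h2, lintegral_zero_measure]

omit [T2Space M] [CompactSpace M] [MeasurableSpace M] [BorelSpace M] in
theorem symm_mem_source (i : Fin 𝒜.n) {z : E} (hz : z ∈ ball (0 : E) 4) :
    (𝒜.φ i).symm z ∈ (𝒜.φ i).source :=
  (𝒜.φ i).map_target (by rw [𝒜.target_eq i]; exact hz)

open Classical in
theorem integrableOn_rd (i : Fin 𝒜.n) {f : M → ℝ} (hf : Integrable f 𝒢.vol) :
    IntegrableOn (fun z => 𝒜.rd f i z * √(𝒢.g i z).det) (ball (0 : E) 4) ∧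
      ∫ z in ball (0 : E) 4, 𝒜.rd f i z * √(𝒢.g i z).det =
        ∫ p, (𝒜.φ i).source.indicator f p ∂𝒢.vol := by
  have h1 : ∀ p, p ∉ (𝒜.φ i).source → (𝒜.φ i).source.indicator f p = 0 :=
    fun p hp => indicator_of_notMem hp f
  have h2 : Integrable ((𝒜.φ i).source.indicator f) 𝒢.vol :=
    hf.indicator (𝒜.φ i).open_source.measurableSet
  have h3 : ∀ z ∈ ball (0 : E) 4, 𝒜.rd ((𝒜.φ i).source.indicator f) i z *
      √(𝒢.g i z).det = 𝒜.rd f i z * √(𝒢.g i z).det := by
    intro z hz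
    have : 𝒜.rd ((𝒜.φ i).source.indicator f) i z = 𝒜.rd f i z :=
      indicator_of_mem (symm_mem_source i hz) f
    rw [this]
  constructor
  · have h4 := (𝒢.integrable_chart i h1).1 h2
    exact h4.congr_fun h3 measurableSet_ball
  · rw [𝒢.integral_chart i h1]
    exact (setIntegral_congr_fun measurableSet_ball h3).symm

/-- integral over a compact part of a chart is bounded by the integral over `M` -/
theorem chart_integral_le (i : Fin 𝒜.n) {K : Set E} (hK : IsCompact K) (hK4 : K ⊆ ball 0 4) :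
    ∃ C : ℝ, 0 < C ∧ ∀ f : M → ℝ, Integrable f 𝒢.vol → (∀ p, 0 ≤ f p) →
      IntegrableOn (𝒜.rd f i) K ∧ ∫ z in K, 𝒜.rd f i z ≤ C * ∫ p, f p ∂𝒢.vol := by
  classical
  rcases K.eq_empty_or_nonempty with hKe | hKn
  · refine ⟨1, one_pos, fun f hf h0 => ?_⟩
    subst hKe
    refine ⟨integrableOn_empty, ?_⟩
    rw [setIntegral_empty, one_mul]
    exact integral_nonneg h0
  have hc := (i1_det_cont 𝒢 i).mono hK4
  obtain ⟨z0, hz0, hmin⟩ := hK.exists_isMinOn hKn hc
  set m := √(𝒢.g i z0).det with hm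
  have hmp : 0 < m := i1_det_pos 𝒢 i (hK4 hz0)
  refine ⟨m⁻¹, inv_pos.2 hmp, fun f hf h0 => ?_⟩
  obtain ⟨h1, h2⟩ := 𝒢.integrableOn_rd i hf
  have h3 : IntegrableOn (fun z => 𝒜.rd f i z * √(𝒢.g i z).det) K := h1.mono_set hK4
  have h4 : IntegrableOn (𝒜.rd f i) K := by
    have h5 := h3.mul_continuousOn (hc.inv₀ fun z hz => (i1_det_pos 𝒢 i (hK4 hz)).ne') hK
    refine h5.congr_fun (fun z hz => ?_) hK.measurableSet
    show 𝒜.rd f i z * √(𝒢.g i z).det * (√(𝒢.g i z).det)⁻¹ = 𝒜.rd f i z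
    rw [mul_assoc, mul_inv_cancel₀ (i1_det_pos 𝒢 i (hK4 hz)).ne', mul_one]
  refine ⟨h4, ?_⟩
  have h6 : ∫ z in K, 𝒜.rd f i z ≤ ∫ z in K, m⁻¹ * (𝒜.rd f i z * √(𝒢.g i z).det) := by
    refine setIntegral_mono_on h4 (h3.const_mul _) hK.measurableSet fun z hz => ?_
    have h7 : m ≤ √(𝒢.g i z).det := hmin hz
    have h8 : 0 ≤ 𝒜.rd f i z := h0 _
    rw [mul_left_comm]
    refine le_mul_of_one_le_right h8 ?_
    rw [← inv_mul_cancel₀ hmp.ne']
    exact mul_le_mul_of_nonneg_left h7 (inv_pos.2 hmp).le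
  refine h6.trans ?_
  rw [integral_const_mul]
  refine mul_le_mul_of_nonneg_left ?_ (inv_pos.2 hmp).le
  have h9 : ∫ z in K, 𝒜.rd f i z * √(𝒢.g i z).det ≤
      ∫ z in ball (0 : E) 4, 𝒜.rd f i z * √(𝒢.g i z).det := by
    refine setIntegral_mono_set h1 ?_ (LE.le.eventuallyLE hK4)
    filter_upwards with z
    exact mul_nonneg (h0 _) (Real.sqrt_nonneg _)
  refine h9.trans ?_
  rw [h2]
  refine integral_mono (hf.indicator (𝒜.φ i).open_source.measurableSet) hf fun p => ?_
  exact indicator_le_self' (fun _ _ => h0 p) p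

/-- and conversely -/
theorem integral_le_charts : ∃ C : ℝ, 0 < C ∧ ∀ f : M → ℝ, Integrable f 𝒢.vol → (∀ p, 0 ≤ f p) →
    ∫ p, f p ∂𝒢.vol ≤ C * ∑ i, ∫ z in ball (0 : E) 1, 𝒜.rd f i z := by
  classical
  have hb : ∀ i : Fin 𝒜.n, ∃ B : ℝ, 0 ≤ B ∧ ∀ z ∈ closedBall (0 : E) 1, √(𝒢.g i z).det ≤ B := by
    intro i
    have hc := (i1_det_cont 𝒢 i).mono (closedBall_subset_ball (by norm_num : (1 : ℝ) < 4))
    obtain ⟨B, hB⟩ := ((isCompact_closedBall (0 : E) 1).image_of_continuousOn hc).bddAbove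
    exact ⟨max B 0, le_max_right _ _, fun z hz => (hB (mem_image_of_mem _ hz)).trans
      (le_max_left _ _)⟩
  choose B hB0 hB using hb
  have hBs : ∀ i, B i ≤ 1 + ∑ j, B j := fun i => by
    have := Finset.single_le_sum (fun j _ => hB0 j) (Finset.mem_univ i)
    linarith
  have hCpos : 0 < 1 + ∑ j, B j := by
    have := Finset.sum_nonneg fun (j : Fin 𝒜.n) (_ : j ∈ Finset.univ) => hB0 j
    linarith
  refine ⟨1 + ∑ j, B j, hCpos, fun f hf h0 => ?_⟩
  have h1 : ∀ p, f p = ∑ i : Fin 𝒜.n, {p : M | 𝒜.idx p = i}.indicator f p := by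
    intro p
    rw [Finset.sum_eq_single (𝒜.idx p)]
    · rw [indicator_of_mem]; rfl
    · intro i _ hi
      exact indicator_of_notMem (fun h => hi h.symm) f
    · intro h; exact absurd (Finset.mem_univ _) h
  have h2 : ∫ p, f p ∂𝒢.vol = ∑ i : Fin 𝒜.n, ∫ p, {p : M | 𝒜.idx p = i}.indicator f p ∂𝒢.vol := by
    rw [← integral_finsetSum _ fun i _ => hf.indicator (i1_meas_idx i)]
    exact integral_congr_ae (Eventually.of_forall h1)
  rw [h2, Finset.mul_sum]
  refine Finset.sum_le_sum fun i _ => ?_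
  have h3 : ∀ p, p ∉ (𝒜.φ i).source → {p : M | 𝒜.idx p = i}.indicator f p = 0 := by
    intro p hp
    refine indicator_of_notMem (fun h => hp ?_) f
    rw [← (show 𝒜.idx p = i from h)]
    exact i1_idx_source p
  have hint : Integrable ({p : M | 𝒜.idx p = i}.indicator f) 𝒢.vol := hf.indicator (i1_meas_idx i)
  obtain ⟨C', _, hC'⟩ := 𝒢.chart_integral_le i (isCompact_closedBall (0 : E) 1)
    (closedBall_subset_ball (by norm_num))
  have h4 : IntegrableOn (𝒜.rd f i) (ball (0 : E) 1) :=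
    (hC' f hf h0).1.mono_set ball_subset_closedBall
  rw [𝒢.integral_chart i h3, ← integral_const_mul]
  have h5 : ∫ z in ball (0 : E) 1, (1 + ∑ j, B j) * 𝒜.rd f i z =
      ∫ z in ball (0 : E) 4, (ball (0 : E) 1).indicator
        (fun z => (1 + ∑ j, B j) * 𝒜.rd f i z) z := by
    rw [integral_indicator measurableSet_ball, Measure.restrict_restrict measurableSet_ball,
      inter_eq_left.2 (ball_subset_ball (by norm_num : (1 : ℝ) ≤ 4))]
  rw [h5]
  refine setIntegral_mono_on ((𝒢.integrable_chart i h3).1 hint) ?_ measurableSet_ball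
    fun z hz => ?_
  · have h6 : IntegrableOn (fun z => (1 + ∑ j, B j) * 𝒜.rd f i z) (ball (0 : E) 1) :=
      h4.const_mul _
    exact ((integrable_indicator_iff measurableSet_ball).2 h6).integrableOn
  · by_cases hi : 𝒜.idx ((𝒜.φ i).symm z) = i
    · have hz1 : z ∈ ball (0 : E) 1 := by
        have h7 := i1_idx_ball (𝒜 := 𝒜) ((𝒜.φ i).symm z)
        rw [hi, (𝒜.φ i).right_inv (by rw [𝒜.target_eq i]; exact hz)] at h7
        exact h7
      rw [indicator_of_mem hz1]
      have h8 : 𝒜.rd ({p : M | 𝒜.idx p = i}.indicator f) i z = 𝒜.rd f i z :=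
        indicator_of_mem (show (𝒜.φ i).symm z ∈ {p : M | 𝒜.idx p = i} from hi) f
      rw [h8, mul_comm]
      exact mul_le_mul_of_nonneg_right ((hB i z (ball_subset_closedBall hz1)).trans (hBs i))
        (h0 _)
    · have h8 : 𝒜.rd ({p : M | 𝒜.idx p = i}.indicator f) i z = 0 :=
        indicator_of_notMem (show (𝒜.φ i).symm z ∉ {p : M | 𝒜.idx p = i} from hi) f
      rw [h8, zero_mul]
      exact indicator_nonneg (fun y _ => mul_nonneg hCpos.le (h0 _)) z

theorem integrable_of_continuous {f : M → ℝ} (hf : Continuous f) : Integrable f 𝒢.vol :=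
  hf.integrable_of_hasCompactSupport (HasCompactSupport.of_compactSpace f)

theorem integrable_sm (hu : 𝒜.Sm u) : Integrable u 𝒢.vol :=
  𝒢.integrable_of_continuous hu.continuous

theorem integral_pos [Nonempty M] {f : M → ℝ} (hf : Continuous f) (h0 : ∀ p, 0 < f p) :
    0 < ∫ p, f p ∂𝒢.vol := by
  obtain ⟨x⟩ := ‹Nonempty M›
  exact hf.integral_pos_of_hasCompactSupport_nonneg_nonzero
    (HasCompactSupport.of_compactSpace f) (fun p => (h0 p).le) (h0 x).ne'

theorem V_pos [Nonempty M] : 0 < 𝒢.V :=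
  𝒢.integral_pos continuous_const fun _ => one_pos

theorem eq_zero_of_integral_eq_zero {f : M → ℝ} (hf : Continuous f) (h0 : ∀ p, 0 ≤ f p)
    (h : ∫ p, f p ∂𝒢.vol = 0) : ∀ p, f p = 0 := by
  intro p
  by_contra hp
  have := hf.integral_pos_of_hasCompactSupport_nonneg_nonzero (μ := 𝒢.vol)
    (HasCompactSupport.of_compactSpace f) h0 hp
  exact this.ne' h

end Met

end YR
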