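import Pool.Agent.Work.MP_71b0e8_gt.Skel.Int1
import Pool.Agent.Work.MP_71b0e8_gt.Skel.Glob2

/-!
INT2: integration by parts (partition of unity, `div_grad`, `div_ric0_grad`).
-/

open scoped ContDiff Topology
open MeasureTheory Metric Set Filter

noncomputable section

namespace YR

/-! ### local statements -/

theorem int2_contDiff {K : Set E} (hK : IsCompact K) (hK4 : K ⊆ ball 0 4) {X : E → ℝ}
    (hX : ContDiffOn ℝ ∞ X (ball 0 4)) (h0 : ∀ y, y ∉ K → X y = 0) : ContDiff ℝ ∞ X := by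
  rw [contDiff_iff_contDiffAt]
  intro y
  by_cases hy : y ∈ ball (0 : E) 4
  · exact hX.contDiffAt (isOpen_ball.mem_nhds hy)
  · have hyK : y ∈ Kᶜ := fun h => hy (hK4 h)
    have : X =ᶠ[𝓝 y] fun _ => (0 : ℝ) := by
      filter_upwards [hK.isClosed.isOpen_compl.mem_nhds hyK] with z hz using h0 z hz
    exact contDiffAt_const.congr_of_eventuallyEq this

theorem int2_cs {K : Set E} (hK : IsCompact K) {X : E → ℝ}
    (h0 : ∀ y, y ∉ K → X y = 0) : HasCompactSupport X :=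
  HasCompactSupport.intro hK h0

theorem int2_pd_integrable {a : Fin 3} {X : E → ℝ} (hX : ContDiff ℝ ∞ X)
    (hc : HasCompactSupport X) : Integrable (pd a X) := by
  have h1 : Continuous (pd a X) := by
    unfold pd
    exact (hX.continuous_fderiv (by simp)).clm_apply continuous_const
  have h2 : HasCompactSupport (pd a X) := by
    unfold pd
    exact hc.fderiv_apply ℝ (be a)
  exact h1.integrable_of_hasCompactSupport h2

theorem int2_pd_integral {a : Fin 3} {X : E → ℝ} (hX : ContDiff ℝ ∞ X)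
    (hc : HasCompactSupport X) : ∫ y, pd a X y = 0 := by
  have h := integral_mul_fderiv_eq_neg_fderiv_mul_of_integrable (μ := (volume : Measure E))
    (f := fun _ : E => (1 : ℝ)) (g := X) (v := be a) (by simp)
    (by
      have h1 := int2_pd_integrable (a := a) hX hc
      simp only [one_mul]
      exact h1)
    (by simpa using hX.continuous.integrable_of_hasCompactSupport hc)
    (fun x _ => differentiableAt_const _) (fun x _ => (hX.differentiable (by simp)).differentiableAt)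
  simpa [pd] using h

theorem int2_div {K : Set E} (hK : IsCompact K) (hK4 : K ⊆ ball 0 4) {X : Fin 3 → E → ℝ}
    (hX : ∀ a, ContDiffOn ℝ ∞ (X a) (ball 0 4)) (h0 : ∀ a y, y ∉ K → X a y = 0) :
    ∫ z in ball (0 : E) 4, ∑ a, pd a (X a) z = 0 := by
  have hs : ∀ a, ContDiff ℝ ∞ (X a) := fun a => int2_contDiff hK hK4 (hX a) (h0 a)
  have hc : ∀ a, HasCompactSupport (X a) := fun a => int2_cs hK (h0 a)
  rw [setIntegral_eq_integral_of_forall_compl_eq_zero]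
  · rw [integral_finsetSum _ fun a _ => int2_pd_integrable (hs a) (hc a)]
    exact Finset.sum_eq_zero fun a _ => int2_pd_integral (hs a) (hc a)
  · intro z hz
    refine Finset.sum_eq_zero fun a _ => ?_
    have hzK : z ∈ Kᶜ := fun h => hz (hK4 h)
    have : X a =ᶠ[𝓝 z] fun _ => (0 : ℝ) := by
      filter_upwards [hK.isClosed.isOpen_compl.mem_nhds hzK] with y hy using h0 a y hy
    rw [pd_congr this, pd_const]

/-- integration by parts in a chart -/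
theorem int2_chart {G : E → Mat} {F U D : E → ℝ} (hF : ContDiff ℝ ∞ F)
    (hc : HasCompactSupport F) (hs : tsupport F ⊆ ball 0 4) (hU : ContDiffOn ℝ ∞ U (ball 0 4))
    {Y : Fin 3 → E → ℝ} (hY : ∀ a, ContDiffOn ℝ ∞ (Y a) (ball 0 4))
    (hD : ∀ z ∈ ball (0 : E) 4, ∑ a, pd a (Y a) z = √(G z).det * D z) :
    ∫ z in ball (0 : E) 4, (∑ a, pd a (fun y => F y * U y) z * Y a z +
      (F z * U z) * (√(G z).det * D z)) = 0 := by
  have hFU : ContDiffOn ℝ ∞ (fun y => F y * U y) (ball 0 4) := hF.contDiffOn.mul hU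
  rw [← int2_div hc hs (X := fun a y => (F y * U y) * Y a y) (fun a => hFU.mul (hY a))
    (fun a y hy => by
      have : F y = 0 := image_eq_zero_of_notMem_tsupport hy
      simp [this])]
  refine setIntegral_congr_fun measurableSet_ball fun z hz => ?_
  have hd1 : DifferentiableAt ℝ (fun y => F y * U y) z :=
    (hFU.contDiffAt (isOpen_ball.mem_nhds hz)).differentiableAt (by simp)
  have hd2 : ∀ a, DifferentiableAt ℝ (Y a) z := fun a =>
    ((hY a).contDiffAt (isOpen_ball.mem_nhds hz)).differentiableAt (by simp)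
  rw [← hD z hz, Finset.mul_sum, ← Finset.sum_add_distrib]
  refine Finset.sum_congr rfl fun a _ => ?_
  rw [pd_mul hd1 (hd2 a)]

/-- linearity in the first vector -/
theorem int2_ev_sum {G : E → Mat} {ι : Type*} (s : Finset ι) (h : Fin 3 → Fin 3 → ℝ)
    {u : ι → E → ℝ} {v : E → ℝ} {x : E} (hu : ∀ i ∈ s, DifferentiableAt ℝ (u i) x) :
    ev G h (fun y => ∑ i ∈ s, u i y) v x = ∑ i ∈ s, ev G h (u i) v x := by
  have h1 : ∀ a, grad G (fun y => ∑ i ∈ s, u i y) a x = ∑ i ∈ s, grad G (u i) a x := by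
    intro a
    unfold grad
    simp only [pd_sum hu, Finset.mul_sum]
    rw [Finset.sum_comm]
  unfold ev
  simp only [h1, Finset.mul_sum, Finset.sum_mul]
  rw [Finset.sum_comm (s := s)]
  exact Finset.sum_congr rfl fun a _ => Finset.sum_comm

theorem int2_ric0 {U : Set E} {G : E → Mat} (hG : LM U G) (W v : E → ℝ) {z : E} (hz : z ∈ U) :
    ev G (fun a b => ric G a b z) W v z - scal G z / 3 * inn G W v z =
      ∑ a, pd a W z * ∑ b, ∑ c, gi G z a b * (ric0 G b c z * grad G v c z) := by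
  have h1 : inn G W v z = ∑ a, pd a W z * ∑ b, ∑ c, gi G z a b * (G z b c * grad G v c z) := by
    have h2 : ∀ a, ∑ b, ∑ c, gi G z a b * (G z b c * grad G v c z) = grad G v a z := by
      intro a
      rw [Finset.sum_comm]
      have h3 : ∀ c, ∑ b, gi G z a b * (G z b c * grad G v c z) =
          (if a = c then 1 else 0) * grad G v c z := by
        intro c
        rw [← gi_mul hG hz a c, Finset.sum_mul]
        exact Finset.sum_congr rfl fun b _ => by ring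
      simp only [h3]
      simp
    simp only [h2]
    unfold inn grad
    refine Finset.sum_congr rfl fun a _ => ?_
    rw [Finset.mul_sum]
    exact Finset.sum_congr rfl fun b _ => by ring
  have h4 : ev G (fun a b => ric G a b z) W v z =
      ∑ a, pd a W z * ∑ b, ∑ c, gi G z a b * (ric G b c z * grad G v c z) := by
    have h5 : ∀ b, grad G W b z = ∑ a, gi G z a b * pd a W z := by
      intro b
      unfold grad
      exact Finset.sum_congr rfl fun a _ => by rw [gi_symm hG hz b a]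
    unfold ev
    simp only [h5, Fin.sum_univ_three]
    ring
  rw [h1, h4]
  unfold ric0
  simp only [Fin.sum_univ_three]
  ring

set_option linter.unusedSectionVars false

variable {M : Type*} [TopologicalSpace M] [T2Space M] [CompactSpace M] [MeasurableSpace M]
  [BorelSpace M] {𝒜 : Atl M} (𝒢 : Met 𝒜) {U V : Set M} {u v w f k : M → ℝ}

namespace Met

/-- integration by parts for a family of densities `Y` and a cut off in the chart `i` -/
theorem int2_glob (i : Fin 𝒜.n) {F : E → ℝ} (hF : ContDiff ℝ ∞ F)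
    (hc : HasCompactSupport F) (hs : tsupport F ⊆ ball 0 4) (hf : 𝒜.Sm f)
    {Y : Fin 3 → E → ℝ} (hY : ∀ a, ContDiffOn ℝ ∞ (Y a) (ball 0 4)) {D : E → ℝ}
    (hD : ∀ z ∈ ball (0 : E) 4, ∑ a, pd a (Y a) z = √(𝒢.g i z).det * D z) {h : M → ℝ}
    (h0 : ∀ p, p ∉ (𝒜.φ i).source → h p = 0)
    (h1 : ∀ z ∈ ball (0 : E) 4, √(𝒢.g i z).det * h ((𝒜.φ i).symm z) =
      ∑ a, pd a (𝒜.rd (fun p => 𝒜.ext i F p * f p) i) z * Y a z +
      √(𝒢.g i z).det * (𝒜.rd (fun p => 𝒜.ext i F p * f p) i z * D z)) :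
    ∫ p, h p ∂𝒢.vol = 0 := by
  have hrd : ∀ z ∈ ball (0 : E) 4, 𝒜.rd (fun p => 𝒜.ext i F p * f p) i z =
      F z * 𝒜.rd f i z := by
    intro z hz
    have := Atl.rd_ext (𝒜 := 𝒜) i F hz
    unfold Atl.rd at *
    simp only [this]
  rw [𝒢.integral_chart i h0, ← int2_chart (G := 𝒢.g i) hF hc hs (hf i) hY hD]
  refine setIntegral_congr_fun measurableSet_ball fun z hz => ?_
  have e1 : 𝒜.rd h i z * √(𝒢.g i z).det = √(𝒢.g i z).det * h ((𝒜.φ i).symm z) := by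
    unfold Atl.rd
    ring
  show 𝒜.rd h i z * √(𝒢.g i z).det = _
  rw [e1, h1 z hz]
  have e2 : ∀ a, pd a (𝒜.rd (fun p => 𝒜.ext i F p * f p) i) z =
      pd a (fun y => F y * 𝒜.rd f i y) z := by
    intro a
    refine pd_congr ?_
    filter_upwards [isOpen_ball.mem_nhds hz] with y hy using hrd y hy
  simp only [e2, hrd z hz]
  ring

/-- a cut off function is zero near points outside of the chart -/
theorem int2_nhd (i : Fin 𝒜.n) {F : E → ℝ} (hs : tsupport F ⊆ ball 0 4) {p : M}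
    (hp : p ∉ (𝒜.φ i).source) : ∃ U : Set M, IsOpen U ∧ p ∈ U ∧
      EqOn (fun q => 𝒜.ext i F q * f q) (fun _ => 0) U := by
  refine ⟨(tsupport (𝒜.ext i F))ᶜ, (isClosed_tsupport _).isOpen_compl, ?_, ?_⟩
  · intro h
    rw [Atl.tsupport_ext i hs] at h
    obtain ⟨z, hz, rfl⟩ := h
    exact hp (Atl.symm_mem i (hs hz))
  · intro q hq
    have : 𝒜.ext i F q = 0 := image_eq_zero_of_notMem_tsupport hq
    simp [this]

theorem int2_ext_zero (i : Fin 𝒜.n) {F : E → ℝ} {p : M}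
    (hp : p ∉ (𝒜.φ i).source) : 𝒜.ext i F p = 0 := by
  unfold Atl.ext
  rw [if_neg hp]

theorem int2_ricv_zero (v : M → ℝ) (p : M) : 𝒢.ricv (fun _ => 0) v p = 0 := by
  have h := 𝒢.ricv_mul_left (U := univ) (p := p) isOpen_univ (mem_univ _)
    ((Atl.Sm.const (𝒜 := 𝒜) 0).on univ) ((Atl.Sm.const (𝒜 := 𝒜) 0).on univ) v
  simpa using h

theorem int2_ricv_sum {ι : Type*} {s : Finset ι} {h : ι → M → ℝ}
    (hh : ∀ i ∈ s, 𝒜.Sm (h i)) (hv : 𝒜.Sm v) (p : M) :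
    𝒢.ricv (fun q => ∑ i ∈ s, h i q) v p = ∑ i ∈ s, 𝒢.ricv (h i) v p := by
  obtain ⟨j, z, hz, rfl⟩ := Atl.exists_chart (𝒜 := 𝒜) p
  have hz4 : z ∈ ball (0 : E) 4 := ball_subset_ball (by norm_num) hz
  have hd : z ∈ 𝒜.dom univ j := ⟨hz4, mem_univ _⟩
  rw [𝒢.ricv_chart isOpen_univ ((Atl.Sm.sum hh).on univ) (hv.on univ) j hd]
  rw [Finset.sum_congr rfl fun i hi =>
    𝒢.ricv_chart isOpen_univ ((hh i hi).on univ) (hv.on univ) j hd]
  exact int2_ev_sum s _ fun i hi =>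
    ((hh i hi j).contDiffAt (isOpen_ball.mem_nhds hz4)).differentiableAt (by simp)

/-- `integral_inn` for a function with a cut off -/
theorem int2_inn_cut (i : Fin 𝒜.n) {F : E → ℝ} (hF : ContDiff ℝ ∞ F)
    (hc : HasCompactSupport F) (hs : tsupport F ⊆ ball 0 4) (hf : 𝒜.Sm f) (hv : 𝒜.Sm v) :
    ∫ p, (𝒢.inn (fun q => 𝒜.ext i F q * f q) v p +
      𝒜.ext i F p * f p * 𝒢.lap v p) ∂𝒢.vol = 0 := by
  have hG := 𝒢.lm i
  have hw : 𝒜.Sm (fun q => 𝒜.ext i F q * f q) := (Atl.sm_ext i hF hs).mul hf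
  refine 𝒢.int2_glob i hF hc hs hf (Y := fun a y => √(𝒢.g i y).det * grad (𝒢.g i) (𝒜.rd v i) a y)
    ?_ (D := YR.lap (𝒢.g i) (𝒜.rd v i)) ?_ ?_ ?_
  · intro a
    refine ContDiffOn.mul ((det_smooth hG).sqrt fun x hx => (det_pos hG hx).ne') ?_
    unfold grad
    exact ContDiffOn.sum fun b _ => (gi_smooth hG a b).mul (pd_smooth isOpen_ball (hv i))
  · intro z hz
    exact div_grad hG (hv i) hz
  · intro p hp
    obtain ⟨U, hU, hpU, hE⟩ := int2_nhd (𝒜 := 𝒜) (f := f) i hs hp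
    rw [𝒢.inn_congr hU hpU hE (eqOn_refl v U), 𝒢.inn_const, int2_ext_zero i hp]
    simp
  · intro z hz
    have hd : z ∈ 𝒜.dom univ i := ⟨hz, mem_univ _⟩
    rw [𝒢.inn_chart isOpen_univ (hw.on univ) (hv.on univ) i hd,
      𝒢.lap_chart isOpen_univ (hv.on univ) i hd]
    have e : 𝒜.rd (fun p => 𝒜.ext i F p * f p) i z =
      𝒜.ext i F ((𝒜.φ i).symm z) * f ((𝒜.φ i).symm z) := rfl
    rw [← e]
    unfold YR.inn grad
    simp only [Finset.mul_sum, mul_add]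
    congr 1
    · refine Finset.sum_congr rfl fun a _ => Finset.sum_congr rfl fun b _ => ?_
      ring

theorem integral_inn (hu : 𝒜.Sm u) (hv : 𝒜.Sm v) :
    ∫ p, 𝒢.inn u v p ∂𝒢.vol = -∫ p, u p * 𝒢.lap v p ∂𝒢.vol := by
  obtain ⟨F, hF, hc, hs, -, h1⟩ := 𝒜.exists_pou
  have hs4 : ∀ i, tsupport (F i) ⊆ ball 0 4 := fun i =>
    (hs i).trans (ball_subset_ball (by norm_num))
  have hχ : ∀ i, 𝒜.Sm (𝒜.ext i (F i)) := fun i => Atl.sm_ext i (hF i) (hs4 i)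
  have hw : ∀ i ∈ Finset.univ, 𝒜.Sm (fun q => 𝒜.ext i (F i) q * u q) := fun i _ =>
    (hχ i).mul hu
  have hsum : (fun q => ∑ i, 𝒜.ext i (F i) q * u q) = u := by
    funext q
    rw [← Finset.sum_mul, h1, one_mul]
  have h2 : ∀ p, 𝒢.inn u v p + u p * 𝒢.lap v p =
      ∑ i, (𝒢.inn (fun q => 𝒜.ext i (F i) q * u q) v p +
        𝒜.ext i (F i) p * u p * 𝒢.lap v p) := by
    intro p
    rw [Finset.sum_add_distrib, ← Finset.sum_mul, ← Finset.sum_mul, h1, one_mul,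
      ← 𝒢.inn_sum isOpen_univ (mem_univ p) (fun i hi => (hw i hi).on univ), hsum]
  have h3 : ∫ p, (𝒢.inn u v p + u p * 𝒢.lap v p) ∂𝒢.vol = 0 := by
    simp only [h2]
    rw [integral_finsetSum]
    · exact Finset.sum_eq_zero fun i _ => 𝒢.int2_inn_cut i (hF i) (hc i) (hs4 i) hu hv
    · intro i _
      exact 𝒢.integrable_sm ((𝒢.Sm_inn ((hχ i).mul hu) hv).add
        (((hχ i).mul hu).mul (𝒢.Sm_lap hv)))
  rw [integral_add (𝒢.integrable_sm (𝒢.Sm_inn hu hv))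
    (𝒢.integrable_sm (hu.mul (𝒢.Sm_lap hv)))] at h3
  linarith

theorem integral_lap (hu : 𝒜.Sm u) : ∫ p, 𝒢.lap u p ∂𝒢.vol = 0 := by
  have h := 𝒢.integral_inn (Atl.Sm.const (𝒜 := 𝒜) 1) hu
  simp only [𝒢.inn_const, one_mul, integral_zero] at h
  linarith

theorem integral_mul_inn (hf : 𝒜.Sm f) (hu : 𝒜.Sm u) (hv : 𝒜.Sm v) :
    ∫ p, f p * 𝒢.inn u v p ∂𝒢.vol =
      -∫ p, u p * (f p * 𝒢.lap v p + 𝒢.inn f v p) ∂𝒢.vol := by
  have h := 𝒢.integral_inn (hf.mul hu) hv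
  have h1 : ∀ p, 𝒢.inn (fun q => f q * u q) v p = f p * 𝒢.inn u v p + u p * 𝒢.inn f v p :=
    fun p => 𝒢.inn_mul isOpen_univ (mem_univ p) (hf.on univ) (hu.on univ)
  simp only [h1] at h
  rw [integral_add (𝒢.integrable_sm (hf.mul (𝒢.Sm_inn hu hv)))
    (𝒢.integrable_sm (hu.mul (𝒢.Sm_inn hf hv)))] at h
  have h2 : ∫ p, u p * (f p * 𝒢.lap v p + 𝒢.inn f v p) ∂𝒢.vol =
      ∫ p, f p * u p * 𝒢.lap v p ∂𝒢.vol + ∫ p, u p * 𝒢.inn f v p ∂𝒢.vol := by
    rw [← integral_add (𝒢.integrable_sm ((hf.mul hu).mul (𝒢.Sm_lap hv)))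
      (𝒢.integrable_sm (hu.mul (𝒢.Sm_inn hf hv)))]
    refine integral_congr_ae (Filter.Eventually.of_forall fun p => ?_)
    ring
  rw [h2]
  linarith

theorem integral_lap_symm (hu : 𝒜.Sm u) (hv : 𝒜.Sm v) :
    ∫ p, u p * 𝒢.lap v p ∂𝒢.vol = ∫ p, v p * 𝒢.lap u p ∂𝒢.vol := by
  have h1 := 𝒢.integral_inn hu hv
  have h2 := 𝒢.integral_inn hv hu
  have h3 : ∀ p, 𝒢.inn v u p = 𝒢.inn u v p := fun p => 𝒢.inn_symm v u p
  simp only [h3] at h2
  linarith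

theorem integral_L_symm (hu : 𝒜.Sm u) (hv : 𝒜.Sm v) :
    ∫ p, u p * 𝒢.L v p ∂𝒢.vol = ∫ p, v p * 𝒢.L u p ∂𝒢.vol := by
  have h := 𝒢.integral_lap_symm hu hv
  have h1 : ∀ u v : M → ℝ, 𝒜.Sm u → 𝒜.Sm v → ∫ p, u p * 𝒢.L v p ∂𝒢.vol =
      -8 * ∫ p, u p * 𝒢.lap v p ∂𝒢.vol + ∫ p, 𝒢.scal p * (u p * v p) ∂𝒢.vol := by
    intro u v hu hv
    rw [← integral_const_mul, ← integral_add
      ((𝒢.integrable_sm (hu.mul (𝒢.Sm_lap hv))).const_mul _)
      (𝒢.integrable_sm (𝒢.Sm_scal.mul (hu.mul hv)))]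
    refine integral_congr_ae (Filter.Eventually.of_forall fun p => ?_)
    simp only [L]
    ring
  rw [h1 u v hu hv, h1 v u hv hu, h]
  congr 1
  refine integral_congr_ae (Filter.Eventually.of_forall fun p => ?_)
  ring

/-- Bochner with a cut off -/
theorem integral_bochner (hf : 𝒜.Sm f) (hu : 𝒜.Sm u) :
    ∫ p, f p * (𝒢.h2 u p - 𝒢.lap u p ^ 2 + 𝒢.ricv u u p) ∂𝒢.vol =
      ∫ p, (𝒢.lap u p * 𝒢.inn f u p - 𝒢.inn f (𝒢.inn u u) p / 2) ∂𝒢.vol := by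
  have hl := 𝒢.Sm_lap hu
  have hi := 𝒢.Sm_inn hu hu
  have h1 := 𝒢.integral_inn hf hi
  have h2 := 𝒢.integral_mul_inn hf hl hu
  have e1 : ∀ p, f p * (𝒢.h2 u p - 𝒢.lap u p ^ 2 + 𝒢.ricv u u p) =
      1 / 2 * (f p * 𝒢.lap (𝒢.inn u u) p) - (f p * 𝒢.inn (𝒢.lap u) u p +
        𝒢.lap u p * (f p * 𝒢.lap u p + 𝒢.inn f u p)) + 𝒢.lap u p * 𝒢.inn f u p := by
    intro p
    have := 𝒢.bochner isOpen_univ (mem_univ p) (hu.on univ)
    have h3 : 𝒢.inn u (𝒢.lap u) p = 𝒢.inn (𝒢.lap u) u p := 𝒢.inn_symm _ _ p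
    rw [h3] at this
    have h4 : 𝒢.h2 u p = 𝒢.lap (𝒢.inn u u) p / 2 - 𝒢.inn (𝒢.lap u) u p - 𝒢.ricv u u p := by
      linarith
    rw [h4]
    ring
  have i1 : Integrable (fun p => 1 / 2 * (f p * 𝒢.lap (𝒢.inn u u) p)) 𝒢.vol :=
    (𝒢.integrable_sm (hf.mul (𝒢.Sm_lap hi))).const_mul _
  have i2 : Integrable (fun p => f p * 𝒢.inn (𝒢.lap u) u p) 𝒢.vol :=
    𝒢.integrable_sm (hf.mul (𝒢.Sm_inn hl hu))
  have i3 : Integrable (fun p => 𝒢.lap u p * (f p * 𝒢.lap u p + 𝒢.inn f u p)) 𝒢.vol :=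
    𝒢.integrable_sm (hl.mul ((hf.mul hl).add (𝒢.Sm_inn hf hu)))
  have i4 : Integrable (fun p => 𝒢.lap u p * 𝒢.inn f u p) 𝒢.vol :=
    𝒢.integrable_sm (hl.mul (𝒢.Sm_inn hf hu))
  have i5 : Integrable (fun p => 𝒢.inn f (𝒢.inn u u) p / 2) 𝒢.vol :=
    (𝒢.integrable_sm (𝒢.Sm_inn hf hi)).div_const _
  have i23 : Integrable (fun p => f p * 𝒢.inn (𝒢.lap u) u p +
      𝒢.lap u p * (f p * 𝒢.lap u p + 𝒢.inn f u p)) 𝒢.vol := i2.add i3
  have i123 : Integrable (fun p => 1 / 2 * (f p * 𝒢.lap (𝒢.inn u u) p) -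
      (f p * 𝒢.inn (𝒢.lap u) u p + 𝒢.lap u p * (f p * 𝒢.lap u p + 𝒢.inn f u p))) 𝒢.vol :=
    i1.sub i23
  simp only [e1]
  rw [integral_add i123 i4, integral_sub i1 i23, integral_add i2 i3,
    integral_sub i4 i5, integral_const_mul, integral_div]
  linarith

/-- `integral_eh` for a function with a cut off -/
theorem int2_eh_cut (i : Fin 𝒜.n) {F : E → ℝ} (hF : ContDiff ℝ ∞ F)
    (hc : HasCompactSupport F) (hs : tsupport F ⊆ ball 0 4) (hf : 𝒜.Sm f) (hv : 𝒜.Sm v) :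
    ∫ p, (𝒢.ricv (fun q => 𝒜.ext i F q * f q) v p -
        𝒢.scal p / 3 * 𝒢.inn (fun q => 𝒜.ext i F q * f q) v p +
      𝒜.ext i F p * f p * (𝒢.inn 𝒢.scal v p / 6 + 𝒢.eh v p)) ∂𝒢.vol = 0 := by
  have hG := 𝒢.lm i
  have hw : 𝒜.Sm (fun q => 𝒜.ext i F q * f q) := (Atl.sm_ext i hF hs).mul hf
  refine 𝒢.int2_glob i hF hc hs hf (Y := fun a y => √(𝒢.g i y).det * ∑ b, ∑ c,
    gi (𝒢.g i) y a b * (ric0 (𝒢.g i) b c y * grad (𝒢.g i) (𝒜.rd v i) c y))
    ?_ (D := fun z => YR.inn (𝒢.g i) (YR.scal (𝒢.g i)) (𝒜.rd v i) z / 6 +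
        ip (𝒢.g i) (fun a b => ric0 (𝒢.g i) a b z)
          (fun a b => YR.hess (𝒢.g i) (𝒜.rd v i) a b z) z) ?_ ?_ ?_
  · intro a
    refine ContDiffOn.mul ((det_smooth hG).sqrt fun x hx => (det_pos hG hx).ne') ?_
    refine ContDiffOn.sum fun b _ => ContDiffOn.sum fun c _ => (gi_smooth hG a b).mul
      ((ric0_smooth hG b c).mul ?_)
    unfold grad
    exact ContDiffOn.sum fun b _ => (gi_smooth hG _ b).mul (pd_smooth isOpen_ball (hv i))
  · intro z hz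
    exact div_ric0_grad hG (hv i) hz
  · intro p hp
    obtain ⟨U, hU, hpU, hE⟩ := int2_nhd (𝒜 := 𝒜) (f := f) i hs hp
    rw [𝒢.inn_congr hU hpU hE (eqOn_refl v U), 𝒢.inn_const, int2_ext_zero i hp,
      𝒢.ricv_congr hU hpU hE (eqOn_refl v U), 𝒢.int2_ricv_zero]
    simp
  · intro z hz
    have hd : z ∈ 𝒜.dom univ i := ⟨hz, mem_univ _⟩
    rw [𝒢.inn_chart isOpen_univ (hw.on univ) (hv.on univ) i hd,
      𝒢.inn_chart isOpen_univ (𝒢.Sm_scal.on univ) (hv.on univ) i hd,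
      𝒢.ricv_chart isOpen_univ (hw.on univ) (hv.on univ) i hd,
      𝒢.eh_chart isOpen_univ (hv.on univ) i hd, 𝒢.scal_chart i hz]
    have e : 𝒜.rd (fun p => 𝒜.ext i F p * f p) i z =
      𝒜.ext i F ((𝒜.φ i).symm z) * f ((𝒜.φ i).symm z) := rfl
    rw [← e]
    have e2 : YR.inn (𝒢.g i) (𝒜.rd 𝒢.scal i) (𝒜.rd v i) z =
        YR.inn (𝒢.g i) (YR.scal (𝒢.g i)) (𝒜.rd v i) z := by
      have h5 : 𝒜.rd 𝒢.scal i =ᶠ[𝓝 z] YR.scal (𝒢.g i) := by
        filter_upwards [isOpen_ball.mem_nhds hz] with y hy using 𝒢.scal_chart i hy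
      exact (YR.inn_congr (Filter.EventuallyEq.refl _ _) h5
        (Filter.EventuallyEq.refl _ _)).eq_of_nhds
    rw [e2]
    set W := 𝒜.rd (fun p => 𝒜.ext i F p * f p) i
    set G := 𝒢.g i
    set v' := 𝒜.rd v i
    have e3 : YR.ev G (fun a b => YR.ric G a b z) W v' z - YR.scal G z / 3 * YR.inn G W v' z =
        ∑ a, pd a W z * ∑ b, ∑ c, gi G z a b * (ric0 G b c z * grad G v' c z) :=
      int2_ric0 hG W v' hz
    have e4 : ∑ a, pd a W z * (√(G z).det * ∑ b, ∑ c, gi G z a b *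
        (ric0 G b c z * grad G v' c z)) = √(G z).det * ∑ a, pd a W z * ∑ b, ∑ c, gi G z a b *
          (ric0 G b c z * grad G v' c z) := by
      rw [Finset.mul_sum]
      exact Finset.sum_congr rfl fun a _ => by ring
    rw [e4, ← e3]
    ring

/-- `∫ f ⟨Ric⁰, Hess u⟩`, from `div Ric⁰ = dR/6` -/
theorem integral_eh (hf : 𝒜.Sm f) (hu : 𝒜.Sm u) :
    ∫ p, f p * 𝒢.eh u p ∂𝒢.vol = -∫ p, (f p * 𝒢.inn 𝒢.scal u p / 6 +
      (𝒢.ricv u f p - 𝒢.scal p / 3 * 𝒢.inn u f p)) ∂𝒢.vol := by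
  obtain ⟨F, hF, hc, hs, -, h1⟩ := 𝒜.exists_pou
  have hs4 : ∀ i, tsupport (F i) ⊆ ball 0 4 := fun i =>
    (hs i).trans (ball_subset_ball (by norm_num))
  have hχ : ∀ i, 𝒜.Sm (𝒜.ext i (F i)) := fun i => Atl.sm_ext i (hF i) (hs4 i)
  have hw : ∀ i ∈ Finset.univ, 𝒜.Sm (fun q => 𝒜.ext i (F i) q * f q) := fun i _ =>
    (hχ i).mul hf
  have hsum : (fun q => ∑ i, 𝒜.ext i (F i) q * f q) = f := by
    funext q
    rw [← Finset.sum_mul, h1, one_mul]
  have hS := 𝒢.Sm_scal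
  have h2 : ∀ p, f p * 𝒢.eh u p + (f p * 𝒢.inn 𝒢.scal u p / 6 +
      (𝒢.ricv u f p - 𝒢.scal p / 3 * 𝒢.inn u f p)) =
      ∑ i, (𝒢.ricv (fun q => 𝒜.ext i (F i) q * f q) u p -
        𝒢.scal p / 3 * 𝒢.inn (fun q => 𝒜.ext i (F i) q * f q) u p +
      𝒜.ext i (F i) p * f p * (𝒢.inn 𝒢.scal u p / 6 + 𝒢.eh u p)) := by
    intro p
    rw [Finset.sum_add_distrib, Finset.sum_sub_distrib, ← Finset.mul_sum, ← Finset.sum_mul,
      ← Finset.sum_mul, h1, one_mul,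
      ← 𝒢.inn_sum isOpen_univ (mem_univ p) (fun i hi => (hw i hi).on univ),
      ← 𝒢.int2_ricv_sum hw hu, hsum, 𝒢.ricv_symm u f p, 𝒢.inn_symm u f p]
    ring
  have h3 : ∫ p, (f p * 𝒢.eh u p + (f p * 𝒢.inn 𝒢.scal u p / 6 +
      (𝒢.ricv u f p - 𝒢.scal p / 3 * 𝒢.inn u f p))) ∂𝒢.vol = 0 := by
    simp only [h2]
    rw [integral_finsetSum]
    · exact Finset.sum_eq_zero fun i _ => 𝒢.int2_eh_cut i (hF i) (hc i) (hs4 i) hf hu
    · intro i _
      have hw1 := (hχ i).mul hf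
      exact 𝒢.integrable_sm (((𝒢.Sm_ricv hw1 hu).sub
        ((hS.div (Atl.Sm.const 3) (fun _ => by norm_num)).mul (𝒢.Sm_inn hw1 hu))).add
        (hw1.mul (((𝒢.Sm_inn hS hu).div (Atl.Sm.const 6) (fun _ => by norm_num)).add
          (𝒢.Sm_eh hu))))
  rw [integral_add (𝒢.integrable_sm (hf.mul (𝒢.Sm_eh hu)))
    (𝒢.integrable_sm (((hf.mul (𝒢.Sm_inn hS hu)).div (Atl.Sm.const 6)
      (fun _ => by norm_num)).add ((𝒢.Sm_ricv hu hf).sub
        ((hS.div (Atl.Sm.const 3) (fun _ => by norm_num)).mul (𝒢.Sm_inn hu hf)))))] at h3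
  linarith

end Met

end YR
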