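import Pool.Agent.Work.MP_71b0e8_gt.Skel.Int2
import Pool.Agent.Work.MP_71b0e8_gt.Skel.Conf

/-!
INT3: the measure and the integrals of the conformal metric.
-/

open scoped ContDiff Topology ENNReal
open MeasureTheory Metric Set Filter

noncomputable section

namespace YR

namespace Int3aux

/-- density of an image measure -/
theorem map_withDensity {α β : Type*} [MeasurableSpace α] [MeasurableSpace β] {ν : Measure α}
    [SFinite ν] {g : α → β} {f : β → ℝ≥0∞} (hg : AEMeasurable g ν) (hf : Measurable f) :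
    (Measure.map g ν).withDensity f = Measure.map g (ν.withDensity fun x => f (g x)) := by
  ext s hs
  have hg' : AEMeasurable g (ν.withDensity fun x => f (g x)) :=
    hg.mono_ac (withDensity_absolutelyContinuous _ _)
  rw [withDensity_apply _ hs, Measure.map_apply_of_aemeasurable hg' hs, withDensity_apply' _ _,
    ← lintegral_indicator hs, lintegral_map' (hf.indicator hs).aemeasurable hg,
    ← lintegral_indicator₀ (hg.nullMeasurableSet_preimage hs)]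
  rfl

end Int3aux

variable {M : Type*} [TopologicalSpace M] [T2Space M] [CompactSpace M] [MeasurableSpace M]
  [BorelSpace M] {𝒜 : Atl M} (𝒢 : Met 𝒜) {U V : Set M} {u v w f k : M → ℝ}

namespace Met

/-! ### INT3 : the conformal metric -/

theorem vol_conf (hw : 𝒜.Sm w) (hpos : ∀ p, 0 < w p) : (𝒢.conf w hw hpos).vol =
    𝒢.vol.withDensity fun p => ENNReal.ofReal ((w p)⁻¹ ^ 3) := by
  have hcw : Continuous w := hw.continuous
  have hmf : Measurable fun p => ENNReal.ofReal ((w p)⁻¹ ^ 3) := by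
    have : Continuous fun p => (w p)⁻¹ ^ 3 := (hcw.inv₀ fun p => (hpos p).ne').pow 3
    exact this.measurable.ennreal_ofReal
  symm
  refine vol_unique (𝒢.conf w hw hpos) _ fun i => ?_
  have hs : MeasurableSet (𝒜.φ i).source := (𝒜.φ i).open_source.measurableSet
  rw [restrict_withDensity hs, 𝒢.vol_chart i]
  have hsymm : AEMeasurable (𝒜.φ i).symm ((volume.restrict (ball (0 : E) 4)).withDensity
      fun z => ENNReal.ofReal (√(𝒢.g i z).det)) := by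
    have : AEMeasurable (𝒜.φ i).symm (volume.restrict (ball (0 : E) 4)) := by
      have h := (𝒜.φ i).continuousOn_symm
      rw [𝒜.target_eq i] at h
      exact h.aemeasurable isOpen_ball.measurableSet
    exact this.mono_ac (withDensity_absolutelyContinuous _ _)
  rw [Int3aux.map_withDensity hsymm hmf]
  congr 1
  have hdet : AEMeasurable (fun z => ENNReal.ofReal (√(𝒢.g i z).det))
      (volume.restrict (ball (0 : E) 4)) := by
    have h1 : ContinuousOn (fun z => √(𝒢.g i z).det) (ball (0 : E) 4) :=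
      (det_smooth (𝒢.lm i)).continuousOn.sqrt
    exact (h1.aemeasurable isOpen_ball.measurableSet).ennreal_ofReal
  have hw2 : AEMeasurable (fun z => ENNReal.ofReal ((w ((𝒜.φ i).symm z))⁻¹ ^ 3))
      (volume.restrict (ball (0 : E) 4)) := by
    have h := (𝒜.φ i).continuousOn_symm
    rw [𝒜.target_eq i] at h
    exact hmf.comp_aemeasurable (h.aemeasurable isOpen_ball.measurableSet)
  rw [← withDensity_mul₀ hdet hw2]
  congr 1
  funext z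
  simp only [Pi.mul_apply]
  rw [← ENNReal.ofReal_mul (Real.sqrt_nonneg _)]
  congr 1
  have h1 : ((𝒢.conf w hw hpos).g i z).det = (((w ((𝒜.φ i).symm z))⁻¹ ^ 3) ^ 2) *
      (𝒢.g i z).det := by
    change (cf (𝒢.g i) (𝒜.rd w i) z).det = _
    rw [cf, Matrix.det_smul, Fintype.card_fin]
    simp only [Atl.rd]
    ring
  have h2 : 0 ≤ (w ((𝒜.φ i).symm z))⁻¹ ^ 3 := by
    have := hpos ((𝒜.φ i).symm z)
    positivity
  rw [h1, Real.sqrt_mul (sq_nonneg _), Real.sqrt_sq h2, mul_comm]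

theorem integral_conf (hw : 𝒜.Sm w) (hpos : ∀ p, 0 < w p) (f : M → ℝ) :
    ∫ p, f p ∂(𝒢.conf w hw hpos).vol = ∫ p, f p * (w p)⁻¹ ^ 3 ∂𝒢.vol := by
  have hcw : Continuous w := hw.continuous
  have hmf : Measurable fun p => ENNReal.ofReal ((w p)⁻¹ ^ 3) := by
    have : Continuous fun p => (w p)⁻¹ ^ 3 := (hcw.inv₀ fun p => (hpos p).ne').pow 3
    exact this.measurable.ennreal_ofReal
  rw [vol_conf, integral_withDensity_eq_integral_toReal_smul hmf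
    (Eventually.of_forall fun _ => ENNReal.ofReal_lt_top)]
  refine integral_congr_ae (Eventually.of_forall fun p => ?_)
  have h2 : 0 ≤ (w p)⁻¹ ^ 3 := by
    have := hpos p
    positivity
  simp only [smul_eq_mul, ENNReal.toReal_ofReal h2]
  ring

theorem V_conf (hw : 𝒜.Sm w) (hpos : ∀ p, 0 < w p) :
    (𝒢.conf w hw hpos).V = ∫ p, (w p)⁻¹ ^ 3 ∂𝒢.vol := by
  rw [V, integral_conf]
  simp only [one_mul]

theorem S1_conf (hw : 𝒜.Sm w) (hpos : ∀ p, 0 < w p) :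
    (𝒢.conf w hw hpos).S1 = ∫ p, 3 / 2 * 𝒢.bb w w p * (w p)⁻¹ ^ 3 ∂𝒢.vol := by
  rw [S1, integral_conf]
  refine integral_congr_ae (Eventually.of_forall fun p => ?_)
  simp only [scal_conf]
  ring

theorem S2_conf (hw : 𝒜.Sm w) (hpos : ∀ p, 0 < w p) : (𝒢.conf w hw hpos).S2 =
    ∫ p, (3 / 4 * 𝒢.bb w w p ^ 2 * (w p)⁻¹ ^ 3 - 𝒢.t2 w p / w p / 2) ∂𝒢.vol := by
  rw [S2, integral_conf]
  refine integral_congr_ae (Eventually.of_forall fun p => ?_)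
  have hp := (hpos p).ne'
  simp only [sig2_conf]
  field_simp

/-- `S₁ = (1/4) ∫ W L W`, `W = w^{-1/2}` -/
theorem S1_conf_L (hw : 𝒜.Sm w) (hpos : ∀ p, 0 < w p) : (𝒢.conf w hw hpos).S1 =
    1 / 4 * ∫ p, w p ^ (-1 / 2 : ℝ) * 𝒢.L (fun q => w q ^ (-1 / 2 : ℝ)) p ∂𝒢.vol := by
  rw [S1, integral_conf, ← integral_const_mul]
  refine integral_congr_ae (Eventually.of_forall fun p => ?_)
  simp only [scal_conf_L]
  have h : w p ^ (5 / 2 : ℝ) * (w p)⁻¹ ^ 3 = w p ^ (-1 / 2 : ℝ) := by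
    rw [← Real.rpow_natCast, ← Real.rpow_neg_one, ← Real.rpow_mul (hpos p).le,
      ← Real.rpow_add (hpos p)]
    norm_num
  rw [← h]
  ring

omit [T2Space M] [CompactSpace M] [MeasurableSpace M] [BorelSpace M] in
/-- `∇` of a constant -/
theorem int3_ricv_const (u : M → ℝ) (c : ℝ) (p : M) : 𝒢.ricv u (fun _ => c) p = 0 := by
  have h : ∀ i z b, YR.grad (𝒢.g i) (𝒜.rd (fun _ : M => c) i) b z = 0 := by
    intro i z b
    unfold grad
    refine Finset.sum_eq_zero fun a _ => ?_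
    have : pd a (𝒜.rd (fun _ : M => c) i) z = 0 := pd_const
    rw [this, mul_zero]
  unfold ricv Atl.glob YR.ev
  simp only [h, mul_zero, Finset.sum_const_zero]

omit [T2Space M] [CompactSpace M] [MeasurableSpace M] [BorelSpace M] in
theorem int3_inn_inv (hw : 𝒜.Sm w) (hpos : ∀ p, 0 < w p) (f : M → ℝ) (p : M) :
    𝒢.inn (fun q => (w q)⁻¹) f p = -((w p)⁻¹ ^ 2) * 𝒢.inn w f p := by
  have h := 𝒢.inn_comp (f := f) isOpen_univ (mem_univ p) (hw.on univ)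
    (hasDerivAt_inv (hpos p).ne')
  rw [h, inv_pow]

omit [T2Space M] [CompactSpace M] [MeasurableSpace M] [BorelSpace M] in
theorem int3_inn_inv2 (hw : 𝒜.Sm w) (hpos : ∀ p, 0 < w p) (f : M → ℝ) (p : M) :
    𝒢.inn (fun q => (w q)⁻¹ ^ 2) f p = -(2 * (w p)⁻¹ ^ 3) * 𝒢.inn w f p := by
  have h := 𝒢.inn_comp (F := fun t => t⁻¹ ^ 2) (f := f) isOpen_univ (mem_univ p) (hw.on univ)
    ((hasDerivAt_inv (hpos p).ne').pow 2)
  rw [h, show 2 - 1 = 1 from rfl, pow_one, ← inv_pow]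
  push_cast
  ring

omit [T2Space M] [CompactSpace M] [MeasurableSpace M] [BorelSpace M] in
theorem int3_sm_inv (hw : 𝒜.Sm w) (hpos : ∀ p, 0 < w p) : 𝒜.Sm fun q => (w q)⁻¹ := by
  have := Atl.Sm.div (Atl.Sm.const (𝒜 := 𝒜) 1) hw fun p => (hpos p).ne'
  simpa only [one_div] using this

/-- the identity (I7): first order formula for `∫ σ₂` -/
theorem S2_conf_J (hw : 𝒜.Sm w) (hpos : ∀ p, 0 < w p) : (𝒢.conf w hw hpos).S2 =
    ∫ p, (w p * 𝒢.sig2 p - 𝒢.inn w w p * 𝒢.lap w p / w p ^ 2 / 4 +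
      𝒢.inn w w p ^ 2 / w p ^ 3 / 4 + 𝒢.ricv w w p / w p / 2 -
        𝒢.scal p * 𝒢.inn w w p / w p / 4) ∂𝒢.vol := by
  have hwi : 𝒜.Sm fun q => (w q)⁻¹ := int3_sm_inv hw hpos
  have hwi2 : 𝒜.Sm fun q => (w q)⁻¹ ^ 2 := hwi.pow 2
  have hN : 𝒜.Sm (𝒢.inn w w) := 𝒢.Sm_inn hw hw
  have cw : Continuous w := hw.continuous
  have cwi : Continuous fun q => (w q)⁻¹ := hwi.continuous
  have cN : Continuous (𝒢.inn w w) := hN.continuous
  have cL : Continuous (𝒢.lap w) := (𝒢.Sm_lap hw).continuous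
  have cR : Continuous 𝒢.scal := 𝒢.Sm_scal.continuous
  have cH : Continuous (𝒢.h2 w) := (𝒢.Sm_h2 hw).continuous
  have cT : Continuous (𝒢.t2 w) := (𝒢.Sm_t2 hw).continuous
  have cRc : Continuous (𝒢.ricv w w) := (𝒢.Sm_ricv hw hw).continuous
  have ce : Continuous (𝒢.eh w) := (𝒢.Sm_eh hw).continuous
  have cs2 : Continuous 𝒢.sig2 := 𝒢.Sm_sig2.continuous
  have cK : Continuous (𝒢.inn w (𝒢.inn w w)) := (𝒢.Sm_inn hw hN).continuous
  have cRw : Continuous (𝒢.inn 𝒢.scal w) := (𝒢.Sm_inn 𝒢.Sm_scal hw).continuous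
  have int : ∀ {f : M → ℝ}, Continuous f → Integrable f 𝒢.vol := fun hf =>
    𝒢.integrable_of_continuous hf
  -- the four identities
  have h1 : ∫ p, 𝒢.eh w p ∂𝒢.vol = -∫ p, 𝒢.inn 𝒢.scal w p / 6 ∂𝒢.vol := by
    have h := 𝒢.integral_eh (Atl.Sm.const (𝒜 := 𝒜) 1) hw
    simp only [one_mul, int3_ricv_const, 𝒢.inn_symm w (fun _ => 1), inn_const, mul_zero, sub_zero,
      add_zero] at h
    exact h
  have h2 : ∫ p, 𝒢.inn 𝒢.scal w p ∂𝒢.vol = -∫ p, 𝒢.scal p * 𝒢.lap w p ∂𝒢.vol :=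
    𝒢.integral_inn 𝒢.Sm_scal hw
  have h3 : ∫ p, (w p)⁻¹ * (𝒢.h2 w p - 𝒢.lap w p ^ 2 + 𝒢.ricv w w p) ∂𝒢.vol =
      ∫ p, (-(𝒢.lap w p * ((w p)⁻¹ ^ 2 * 𝒢.inn w w p)) +
        (w p)⁻¹ ^ 2 * 𝒢.inn w (𝒢.inn w w) p / 2) ∂𝒢.vol := by
    rw [𝒢.integral_bochner hwi hw]
    refine integral_congr_ae (Eventually.of_forall fun p => ?_)
    simp only [𝒢.int3_inn_inv hw hpos]
    ring
  have h4 : ∫ p, (w p)⁻¹ ^ 2 * 𝒢.inn w (𝒢.inn w w) p ∂𝒢.vol =
      -∫ p, 𝒢.inn w w p * ((w p)⁻¹ ^ 2 * 𝒢.lap w p - 2 * (w p)⁻¹ ^ 3 * 𝒢.inn w w p) ∂𝒢.vol := by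
    have h := 𝒢.integral_mul_inn hwi2 hN hw
    rw [show (∫ p, (w p)⁻¹ ^ 2 * 𝒢.inn w (𝒢.inn w w) p ∂𝒢.vol) =
      ∫ p, (w p)⁻¹ ^ 2 * 𝒢.inn (𝒢.inn w w) w p ∂𝒢.vol from
        integral_congr_ae (Eventually.of_forall fun p => by
          simp only [𝒢.inn_symm w (𝒢.inn w w) p]), h]
    congr 1
    refine integral_congr_ae (Eventually.of_forall fun p => ?_)
    simp only [𝒢.int3_inn_inv2 hw hpos]
    ring
  -- continuity of the five pieces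
  have c1 : Continuous fun p => (w p)⁻¹ * (𝒢.h2 w p - 𝒢.lap w p ^ 2 + 𝒢.ricv w w p) := by fun_prop
  have c2 : Continuous fun p => 𝒢.scal p * 𝒢.lap w p := by fun_prop
  have c4 : Continuous fun p => 𝒢.lap w p * ((w p)⁻¹ ^ 2 * 𝒢.inn w w p) := by fun_prop
  have c5 : Continuous fun p => (w p)⁻¹ ^ 3 * 𝒢.inn w w p ^ 2 := by fun_prop
  have cK' : Continuous fun p => (w p)⁻¹ ^ 2 * 𝒢.inn w (𝒢.inn w w) p := by fun_prop
  have g1 : ∫ p, 𝒢.eh w p ∂𝒢.vol = (∫ p, 𝒢.scal p * 𝒢.lap w p ∂𝒢.vol) / 6 := by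
    rw [h1, integral_div, h2]
    ring
  have g3 : ∫ p, (w p)⁻¹ * (𝒢.h2 w p - 𝒢.lap w p ^ 2 + 𝒢.ricv w w p) ∂𝒢.vol =
      -(∫ p, 𝒢.lap w p * ((w p)⁻¹ ^ 2 * 𝒢.inn w w p) ∂𝒢.vol) +
        (∫ p, (w p)⁻¹ ^ 2 * 𝒢.inn w (𝒢.inn w w) p ∂𝒢.vol) / 2 := by
    rw [h3, integral_add (int c4.fun_neg) ((int cK').div_const 2), integral_neg, integral_div]
  have g4 : ∫ p, (w p)⁻¹ ^ 2 * 𝒢.inn w (𝒢.inn w w) p ∂𝒢.vol =
      -(∫ p, 𝒢.lap w p * ((w p)⁻¹ ^ 2 * 𝒢.inn w w p) ∂𝒢.vol) +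
        2 * (∫ p, (w p)⁻¹ ^ 3 * 𝒢.inn w w p ^ 2 ∂𝒢.vol) := by
    rw [h4, ← integral_const_mul, ← integral_neg, ← integral_neg,
      ← integral_add (int c4.fun_neg) ((int c5).const_mul 2)]
    refine integral_congr_ae (Eventually.of_forall fun p => ?_)
    simp only
    ring
  have cY : Continuous fun p => w p * 𝒢.sig2 p - 𝒢.inn w w p * 𝒢.lap w p * (w p)⁻¹ ^ 2 / 4 +
      𝒢.inn w w p ^ 2 * (w p)⁻¹ ^ 3 / 4 + 𝒢.ricv w w p * (w p)⁻¹ / 2 -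
        𝒢.scal p * 𝒢.inn w w p * (w p)⁻¹ / 4 := by fun_prop
  have cD : Continuous fun p => -(1 / 2) * ((w p)⁻¹ * (𝒢.h2 w p - 𝒢.lap w p ^ 2 + 𝒢.ricv w w p)) +
      1 / 6 * (𝒢.scal p * 𝒢.lap w p) - 𝒢.eh w p -
      3 / 4 * (𝒢.lap w p * ((w p)⁻¹ ^ 2 * 𝒢.inn w w p)) +
      1 / 2 * ((w p)⁻¹ ^ 3 * 𝒢.inn w w p ^ 2) := by fun_prop
  have hD : ∫ p, (-(1 / 2) * ((w p)⁻¹ * (𝒢.h2 w p - 𝒢.lap w p ^ 2 + 𝒢.ricv w w p)) +
      1 / 6 * (𝒢.scal p * 𝒢.lap w p) - 𝒢.eh w p -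
      3 / 4 * (𝒢.lap w p * ((w p)⁻¹ ^ 2 * 𝒢.inn w w p)) +
      1 / 2 * ((w p)⁻¹ ^ 3 * 𝒢.inn w w p ^ 2)) ∂𝒢.vol = 0 := by
    rw [integral_add (int (by fun_prop)) (int (by fun_prop)),
      integral_sub (int (by fun_prop)) (int (by fun_prop)),
      integral_sub (int (by fun_prop)) (int (by fun_prop)),
      integral_add (int (by fun_prop)) (int (by fun_prop))]
    simp only [integral_const_mul]
    rw [g1, g3, g4]
    ring
  have hY : (∫ p, (w p * 𝒢.sig2 p - 𝒢.inn w w p * 𝒢.lap w p / w p ^ 2 / 4 +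
      𝒢.inn w w p ^ 2 / w p ^ 3 / 4 + 𝒢.ricv w w p / w p / 2 -
        𝒢.scal p * 𝒢.inn w w p / w p / 4) ∂𝒢.vol) =
      (∫ p, (w p * 𝒢.sig2 p - 𝒢.inn w w p * 𝒢.lap w p * (w p)⁻¹ ^ 2 / 4 +
      𝒢.inn w w p ^ 2 * (w p)⁻¹ ^ 3 / 4 + 𝒢.ricv w w p * (w p)⁻¹ / 2 -
        𝒢.scal p * 𝒢.inn w w p * (w p)⁻¹ / 4) ∂𝒢.vol) := by
    refine integral_congr_ae (Eventually.of_forall fun p => ?_)
    simp only [div_eq_mul_inv, inv_pow]
  rw [S2_conf, hY, ← add_zero (∫ p, (w p * 𝒢.sig2 p - _ + _ + _ - _) ∂𝒢.vol), ← hD,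
    ← integral_add (int cY) (int cD)]
  refine integral_congr_ae (Eventually.of_forall fun p => ?_)
  have hp := (hpos p).ne'
  simp only [𝒢.t2_eq w p, 𝒢.sig2_eq p, bb, rho]
  field_simp
  ring

end Met

end YR
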