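import Pool.Agent.Work.MP_71b0e8_gt.Statement

/-!
LINK1 : the atlas adapted to the preferred charts of a compact manifold.
-/

open scoped ContDiff Manifold Topology
open MeasureTheory Metric Set

noncomputable section

namespace YR

variable {M : Type*} [TopologicalSpace M] [ChartedSpace E M] [IsManifold (𝓡 3) ∞ M]

/-- an atlas whose charts are `A ∘ chartAt x_i`, `A` a homothety, restricted -/
structure Adapted (𝒜 : Atl M) where
  x : Fin 𝒜.n → M
  c : Fin 𝒜.n → E
  r : Fin 𝒜.n → ℝ
  r_pos : ∀ i, 0 < r i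
  sub : ∀ i, ball (c i) (4 * r i) ⊆ (chartAt E (x i)).target
  symm_eq : ∀ i, ∀ z ∈ ball (0 : E) 4, (𝒜.φ i).symm z = (chartAt E (x i)).symm (c i + r i • z)
  source_eq : ∀ i, (𝒜.φ i).source =
    {p ∈ (chartAt E (x i)).source | chartAt E (x i) p ∈ ball (c i) (4 * r i)}
  eq : ∀ i, ∀ p ∈ (𝒜.φ i).source, c i + r i • 𝒜.φ i p = chartAt E (x i) p

namespace Link1

theorem mem_ball_iff {c z : E} {r : ℝ} (hr : 0 < r) :
    c + r • z ∈ ball c (4 * r) ↔ z ∈ ball (0 : E) 4 := by
  rw [mem_ball, mem_ball, dist_zero_right, dist_eq_norm, add_sub_cancel_left, norm_smul,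
    Real.norm_of_nonneg hr.le, mul_comm]
  exact mul_lt_mul_iff_left₀ hr

/-- the rescaled and restricted chart -/
def resc (e : OpenPartialHomeomorph M E) (c : E) (r : ℝ) (hr : 0 < r)
    (h : ball c (4 * r) ⊆ e.target) : OpenPartialHomeomorph M E where
  toFun p := r⁻¹ • (e p - c)
  invFun z := e.symm (c + r • z)
  source := {p ∈ e.source | e p ∈ ball c (4 * r)}
  target := ball 0 4
  map_source' p hp := by
    have h1 : c + r • (r⁻¹ • (e p - c)) = e p := by
      rw [smul_inv_smul₀ hr.ne', add_sub_cancel]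
    rw [← mem_ball_iff (c := c) hr, h1]
    exact hp.2
  map_target' z hz := by
    have h1 : c + r • z ∈ ball c (4 * r) := (mem_ball_iff hr).2 hz
    refine ⟨e.map_target (h h1), ?_⟩
    rw [e.right_inv (h h1)]
    exact h1
  left_inv' p hp := by
    have h1 : c + r • (r⁻¹ • (e p - c)) = e p := by
      rw [smul_inv_smul₀ hr.ne', add_sub_cancel]
    rw [h1, e.left_inv hp.1]
  right_inv' z hz := by
    have h1 : c + r • z ∈ ball c (4 * r) := (mem_ball_iff hr).2 hz
    rw [e.right_inv (h h1), add_sub_cancel_left, inv_smul_smul₀ hr.ne']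
  open_source := e.isOpen_inter_preimage isOpen_ball
  open_target := isOpen_ball
  continuousOn_toFun := by
    have h1 : ContinuousOn e {p ∈ e.source | e p ∈ ball c (4 * r)} :=
      e.continuousOn.mono fun p hp => hp.1
    exact (h1.sub continuousOn_const).const_smul (r⁻¹ : ℝ)
  continuousOn_invFun := by
    refine e.continuousOn_symm.comp (by fun_prop) fun z hz => h ((mem_ball_iff hr).2 hz)

omit [IsManifold (𝓡 3) ∞ M] in
theorem exists_ball (p : M) : ∃ r : ℝ, 0 < r ∧ ball (chartAt E p p) (4 * r) ⊆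
    (chartAt E p).target := by
  obtain ⟨ε, hε, h⟩ := Metric.isOpen_iff.1 (chartAt E p).open_target (chartAt E p p)
    (mem_chart_target E p)
  exact ⟨ε / 4, by positivity, by convert h using 2; ring⟩

theorem contDiffOn_chart (x y : M) : ContDiffOn ℝ ∞
    (fun z => chartAt E y ((chartAt E x).symm z))
    {z ∈ (chartAt E x).target | (chartAt E x).symm z ∈ (chartAt E y).source} := by
  rw [← contMDiffOn_iff_contDiffOn]
  have h1 : ContMDiffOn (𝓡 3) (𝓡 3) ∞ (chartAt E y) (chartAt E y).source := contMDiffOn_chart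
  have h2 : ContMDiffOn (𝓡 3) (𝓡 3) ∞ (chartAt E x).symm (chartAt E x).target :=
    contMDiffOn_chart_symm
  exact h1.comp (h2.mono fun z hz => hz.1) fun z hz => hz.2

end Link1

open Link1

theorem exists_atl [CompactSpace M] : ∃ 𝒜 : Atl M, Nonempty (Adapted 𝒜) := by
  classical
  choose r hr hsub using fun p : M => exists_ball p
  let Φ : M → OpenPartialHomeomorph M E := fun p =>
    resc (chartAt E p) (chartAt E p p) (r p) (hr p) (hsub p)
  let V : M → Set M := fun p => (Φ p).source ∩ Φ p ⁻¹' ball 0 1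
  have hV : ∀ p, IsOpen (V p) := fun p => (Φ p).isOpen_inter_preimage isOpen_ball
  have hpV : ∀ p, p ∈ V p := by
    intro p
    refine ⟨⟨mem_chart_source E p, mem_ball_self (by have := hr p; positivity)⟩, ?_⟩
    change (r p)⁻¹ • (chartAt E p p - chartAt E p p) ∈ ball (0 : E) 1
    rw [sub_self, smul_zero]
    exact mem_ball_self one_pos
  obtain ⟨t, ht⟩ := isCompact_univ.elim_finite_subcover V hV
    fun p _ => mem_iUnion.2 ⟨p, hpV p⟩
  let x : Fin t.card → M := fun i => (t.equivFin.symm i : M)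
  refine ⟨{ n := t.card
            φ := fun i => Φ (x i)
            target_eq := fun i => rfl
            cover := ?_
            smooth := ?_ }, ⟨{
            x := x
            c := fun i => chartAt E (x i) (x i)
            r := fun i => r (x i)
            r_pos := fun i => hr _
            sub := fun i => hsub _
            symm_eq := fun i z _ => rfl
            source_eq := fun i => rfl
            eq := ?_ }⟩⟩
  · intro p
    obtain ⟨q, hq⟩ := mem_iUnion.1 (ht (mem_univ p))
    obtain ⟨hqt, hq⟩ := mem_iUnion.1 hq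
    refine ⟨t.equivFin ⟨q, hqt⟩, ?_⟩
    have h1 : x (t.equivFin ⟨q, hqt⟩) = q := by simp [x]
    rw [h1]
    exact hq
  · intro i j
    have h1 := contDiffOn_chart (x i) (x j)
    have h2 : ContDiffOn ℝ ∞ (fun z : E => chartAt E (x i) (x i) + r (x i) • z) univ := by
      fun_prop
    have h3 : ContDiffOn ℝ ∞ (fun z : E => chartAt E (x j) ((chartAt E (x i)).symm
        (chartAt E (x i) (x i) + r (x i) • z)))
        {z ∈ ball (0 : E) 4 | (Φ (x i)).symm z ∈ (Φ (x j)).source} := by
      refine h1.comp (h2.mono (subset_univ _)) fun z hz => ?_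
      exact ⟨hsub _ ((mem_ball_iff (hr _)).2 hz.1), hz.2.1⟩
    exact (h3.sub contDiffOn_const).const_smul _
  · intro i p hp
    change chartAt E (x i) (x i) + r (x i) • ((r (x i))⁻¹ •
      (chartAt E (x i) p - chartAt E (x i) (x i))) = _
    rw [smul_inv_smul₀ (hr _).ne', add_sub_cancel]

variable {𝒜 : Atl M} (had : Adapted 𝒜)

include had

theorem sm_iff_contMDiff {u : M → ℝ} : 𝒜.Sm u ↔ ContMDiff (𝓡 3) 𝓘(ℝ, ℝ) ∞ u := by
  constructor
  · intro h p
    obtain ⟨i, hi, hi2⟩ := 𝒜.cover p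
    have hi4 : 𝒜.φ i p ∈ ball (0 : E) 4 := ball_subset_ball (by norm_num) hi2
    -- the chart is smooth at `p`
    have h1 : ContMDiffAt (𝓡 3) (𝓡 3) ∞ (chartAt E (had.x i)) p := by
      have h2 : ContMDiffOn (𝓡 3) (𝓡 3) ∞ (chartAt E (had.x i)) (chartAt E (had.x i)).source :=
        contMDiffOn_chart
      refine h2.contMDiffAt ((chartAt E (had.x i)).open_source.mem_nhds ?_)
      rw [had.source_eq i] at hi
      exact hi.1
    have hc : ContMDiff (𝓡 3) (𝓡 3) ∞ (fun z : E => (had.r i)⁻¹ • (z - had.c i)) := by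
      rw [contMDiff_iff_contDiff]
      fun_prop
    have h3 : ContMDiffAt (𝓡 3) (𝓡 3) ∞ (fun q => (had.r i)⁻¹ •
        (chartAt E (had.x i) q - had.c i)) p := hc.contMDiffAt.comp p h1
    have heq : ∀ q ∈ (𝒜.φ i).source, 𝒜.φ i q = (had.r i)⁻¹ •
        (chartAt E (had.x i) q - had.c i) := by
      intro q hq
      rw [← had.eq i q hq, add_sub_cancel_left, inv_smul_smul₀ (had.r_pos i).ne']
    have hnhds : (𝒜.φ i).source ∈ 𝓝 p := (𝒜.φ i).open_source.mem_nhds hi
    have h4 : ContMDiffAt (𝓡 3) (𝓡 3) ∞ (𝒜.φ i) p :=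
      h3.congr_of_eventuallyEq (Filter.eventually_of_mem hnhds heq)
    have h5 : ContMDiffAt (𝓡 3) 𝓘(ℝ, ℝ) ∞ (𝒜.rd u i) (𝒜.φ i p) := by
      have := (h i).contDiffAt (isOpen_ball.mem_nhds hi4)
      exact this.contMDiffAt
    have h6 := h5.comp p h4
    refine h6.congr_of_eventuallyEq (Filter.eventually_of_mem hnhds fun q hq => ?_)
    simp only [Function.comp_apply, Atl.rd]
    rw [(𝒜.φ i).left_inv hq]
  · intro h i
    rw [← contMDiffOn_iff_contDiffOn]
    have h2 : ContMDiffOn (𝓡 3) (𝓡 3) ∞ (chartAt E (had.x i)).symm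
        (chartAt E (had.x i)).target := contMDiffOn_chart_symm
    have hc : ContMDiff (𝓡 3) (𝓡 3) ∞ (fun z : E => had.c i + had.r i • z) := by
      rw [contMDiff_iff_contDiff]
      fun_prop
    have h3 : ContMDiffOn (𝓡 3) (𝓡 3) ∞ (fun z => (chartAt E (had.x i)).symm
        (had.c i + had.r i • z)) (ball 0 4) :=
      h2.comp hc.contMDiffOn fun z hz => had.sub i ((mem_ball_iff (had.r_pos i)).2 hz)
    have h4 : ContMDiffOn (𝓡 3) (𝓡 3) ∞ (𝒜.φ i).symm (ball 0 4) :=
      h3.congr fun z hz => had.symm_eq i z hz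
    exact h.comp_contMDiffOn h4

end YR
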