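import Pool.Agent.Work.MP_71b0e8_gt.Link4
import Pool.Agent.Work.MP_71b0e8_gt.Skel.Inv

/-!
LINK2: the matrix of a smooth Riemannian metric in a smooth chart is smooth, scalar curvature and
`σ₂` do not depend on the chart.
-/

open scoped ContDiff Manifold Topology
open MeasureTheory Metric Set Bundle

noncomputable section

namespace YR

variable {M : Type*} [TopologicalSpace M] [ChartedSpace E M] [IsManifold (𝓡 3) ∞ M]

theorem Link2.cvec_smooth {φ : OpenPartialHomeomorph M E} (hφ : SCh φ) (a : Fin 3) {z : E}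
    (hz : z ∈ φ.target) :
    ContMDiffAt (𝓡 3) ((𝓡 3).prod (𝓡 3)) ∞
      (fun m => TotalSpace.mk' E (E := fun x : M => TangentSpace (𝓡 3) x)
        (φ.symm m) (cvec φ m a)) z := by
  have h1 : ContMDiffOn (𝓡 3).tangent (𝓡 3).tangent ∞
      (tangentMapWithin (𝓡 3) (𝓡 3) φ.symm φ.target)
        (TotalSpace.proj ⁻¹' φ.target) :=
    hφ.symm.contMDiffOn_tangentMapWithin (by simp) φ.open_target.uniqueMDiffOn
  have h2 : ContMDiffAt (𝓡 3) (𝓡 3).tangent ∞
      (fun m : E => (⟨m, be a⟩ : TangentBundle (𝓡 3) E)) z := by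
    rw [← contMDiffWithinAt_univ]
    exact contMDiffWithinAt_vectorSpace_iff_contDiffWithinAt.2 contDiffWithinAt_const
  have h3 := (h1.contMDiffAt (x := (⟨z, be a⟩ : TangentBundle (𝓡 3) E))
    (((FiberBundle.continuous_proj E (TangentSpace (𝓡 3) : E → Type)).isOpen_preimage _
      φ.open_target).mem_nhds hz)).comp z h2
  refine h3.congr_of_eventuallyEq ?_
  filter_upwards [φ.open_target.mem_nhds hz] with m hm
  simp only [Function.comp, tangentMapWithin]
  rw [mfderivWithin_of_isOpen φ.open_target hm]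
  rfl

/-- the entries of the matrix of a smooth metric are smooth -/
theorem Link2.gmat_smooth (g : RMet M) {φ : OpenPartialHomeomorph M E} (hφ : SCh φ)
    (a b : Fin 3) : ContDiffOn ℝ ∞ (fun z => gmat g φ z a b) φ.target := by
  rw [← contMDiffOn_iff_contDiffOn]
  intro z hz
  have hs : ContMDiffAt (𝓡 3) (𝓡 3) ∞ φ.symm z :=
    hφ.symm.contMDiffAt (φ.open_target.mem_nhds hz)
  have h1 : ContMDiffAt (𝓡 3) ((𝓡 3).prod 𝓘(ℝ, ℝ)) ∞
      (fun m => TotalSpace.mk' ℝ (E := Bundle.Trivial M ℝ) (φ.symm m)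
        (g.inner (φ.symm m) (cvec φ m a) (cvec φ m b))) z := by
    apply ContMDiffAt.clm_bundle_apply₂ (F₁ := E) (F₂ := E)
    · exact g.contMDiff.contMDiffAt.comp z hs
    · exact Link2.cvec_smooth hφ a hz
    · exact Link2.cvec_smooth hφ b hz
  simp only [contMDiffAt_totalSpace] at h1
  exact h1.2.contMDiffWithinAt

theorem Link2.lin_aux {D F : E →L[ℝ] E} (h : ∀ v, F (D v) = v) {x : Fin 3 → ℝ}
    (h0 : ∑ a, x a • D (be a) = 0) : x = 0 := by
  have h5 : D (∑ a, x a • be a) = 0 := by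
    rw [map_sum]
    simp only [map_smul]
    exact h0
  have h6 := h (∑ a, x a • be a)
  rw [h5, map_zero] at h6
  funext k
  have h7 := congrArg (fun v : E => v k) h6
  simp [be, Finset.sum_apply, Pi.single_apply] at h7
  simpa using h7.symm

theorem Link2.cvec_lin {φ : OpenPartialHomeomorph M E} (hφ : SCh φ) {z : E} (hz : z ∈ φ.target)
    {x : Fin 3 → ℝ} (h : ∑ a, x a • (cvec φ z a : E) = 0) : x = 0 := by
  -- compose with the differential of `φ`
  have hs : MDifferentiableAt (𝓡 3) (𝓡 3) φ.symm z :=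
    (hφ.symm.contMDiffAt (φ.open_target.mem_nhds hz)).mdifferentiableAt (by simp)
  have hf : MDifferentiableAt (𝓡 3) (𝓡 3) φ (φ.symm z) :=
    (hφ.fwd.contMDiffAt (φ.open_source.mem_nhds (φ.map_target hz))).mdifferentiableAt (by simp)
  have h1 := mfderiv_comp z hf hs
  have h2 : (φ ∘ φ.symm) =ᶠ[𝓝 z] id := by
    filter_upwards [φ.open_target.mem_nhds hz] with y hy
    exact φ.right_inv hy
  have h3 := h2.mfderiv_eq (I := 𝓡 3) (I' := 𝓡 3)
  rw [mfderiv_id] at h3
  rw [h3] at h1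
  have h4 : ∀ v : E, (mfderiv (𝓡 3) (𝓡 3) φ (φ.symm z) : E →L[ℝ] E)
      ((mfderiv (𝓡 3) (𝓡 3) φ.symm z : E →L[ℝ] E) v) = v := fun v => by
    have := congrArg (fun L : E →L[ℝ] E => L v) h1
    exact this.symm
  exact Link2.lin_aux (D := (mfderiv (𝓡 3) (𝓡 3) φ.symm z : E →L[ℝ] E)) h4 h

theorem Link2.gmat_symm (g : RMet M) (φ : OpenPartialHomeomorph M E) (z : E) (a b : Fin 3) :
    gmat g φ z a b = gmat g φ z b a := by
  simp only [gmat, Matrix.of_apply]
  exact g.symm _ _ _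

theorem Link2.gmat_lm (g : RMet M) {φ : OpenPartialHomeomorph M E} (hφ : SCh φ) :
    LM φ.target (gmat g φ) where
  op := φ.open_target
  smooth := Link2.gmat_smooth g hφ
  symm x _ a b := Link2.gmat_symm g φ x a b
  pos z hz := by
    refine Matrix.PosDef.of_dotProduct_mulVec_pos ?_ fun x hx => ?_
    · ext a b
      simp only [Matrix.conjTranspose_apply, star_trivial]
      exact Link2.gmat_symm g φ z b a
    · have h1 : star x ⬝ᵥ (gmat g φ z).mulVec x =
          g.inner (φ.symm z) (∑ a, x a • (cvec φ z a : E) : E)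
            (∑ a, x a • (cvec φ z a : E) : E) := by
        have h2 : ∀ (B : E →L[ℝ] E →L[ℝ] ℝ) (v : Fin 3 → E),
            B (∑ c, x c • v c) (∑ d, x d • v d) = ∑ c, x c * ∑ d, B (v c) (v d) * x d := by
          intro B v
          simp only [map_sum, map_smul, _root_.sum_apply, _root_.smul_apply, smul_eq_mul,
            Finset.mul_sum]
          rw [Finset.sum_comm]
          refine Finset.sum_congr rfl fun c _ => Finset.sum_congr rfl fun d _ => ?_
          ring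
        refine Eq.trans ?_ (h2 (g.inner (φ.symm z)) _).symm
        simp only [dotProduct, Matrix.mulVec, Pi.star_apply, star_trivial, gmat, Matrix.of_apply]
        rfl
      rw [h1]
      refine g.pos _ _ fun h0 => hx (Link2.cvec_lin hφ hz h0)

/-- coordinate changes between smooth charts are isometries -/
theorem Link2.cc (g : RMet M) {φ ψ : OpenPartialHomeomorph M E} (hφ : SCh φ) (hψ : SCh ψ) :
    CC (cdm φ ψ) (gmat g φ) ψ.target (gmat g ψ) (cch φ ψ) where
  lm := (Link2.gmat_lm g hφ).mono (isOpen_cdm φ ψ) inter_subset_left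
  lm' := Link2.gmat_lm g hψ
  maps z hz := (cch_mem hz).1
  smooth := cch_smooth hφ hψ
  pull z hz a b := by
    rw [gmat_change g hφ hψ hz]
    simp only [Matrix.mul_apply, Matrix.transpose_apply, jac, Matrix.of_apply, Finset.sum_mul]
    rw [Finset.sum_comm]
    refine Finset.sum_congr rfl fun c _ => Finset.sum_congr rfl fun d _ => ?_
    ring

variable {𝒜 : Atl M} (had : Adapted 𝒜)

omit [IsManifold (𝓡 3) ∞ M] in
theorem Link2.cch_eq (p : M) :
    cch (chartAt E p) (𝒜.φ (𝒜.idx p)) (chartAt E p p) = 𝒜.φ (𝒜.idx p) p := by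
  unfold cch
  rw [(chartAt E p).left_inv (mem_chart_source E p)]

include had

theorem exists_met (g : RMet M) : ∃ 𝒢 : Met 𝒜, ∀ i, 𝒢.g i = gmat g (𝒜.φ i) := by
  refine ⟨⟨fun i => gmat g (𝒜.φ i), fun i => ?_, fun i j z hz hj a b => ?_⟩, fun i => rfl⟩
  · have := Link2.gmat_lm g (sch_atl had i)
    rwa [𝒜.target_eq i] at this
  · have hz' : z ∈ cdm (𝒜.φ i) (𝒜.φ j) := ⟨by rw [𝒜.target_eq i]; exact hz, hj⟩
    exact (Link2.cc g (sch_atl had i) (sch_atl had j)).pull z hz' a b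

/-- the chart at `p` and the chart `idx p` -/
theorem Link2.mem (p : M) : chartAt E p p ∈ cdm (chartAt E p) (𝒜.φ (𝒜.idx p)) := by
  refine ⟨mem_chart_target E p, ?_⟩
  show (chartAt E p).symm (chartAt E p p) ∈ (𝒜.φ (𝒜.idx p)).source
  rw [(chartAt E p).left_inv (mem_chart_source E p)]
  exact 𝒜.idx_source p

theorem scalR_eq (g : RMet M) (𝒢 : Met 𝒜) (h : ∀ i, 𝒢.g i = gmat g (𝒜.φ i)) (p : M) :
    scalR g p = 𝒢.scal p := by
  show scal (gmat g (chartAt E p)) (chartAt E p p) = scal (𝒢.g (𝒜.idx p)) (𝒜.φ (𝒜.idx p) p)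
  rw [(Link2.cc g (sch_chart p) (sch_atl had (𝒜.idx p))).scal (Link2.mem had p),
    Link2.cch_eq p, h]

theorem sigma2_eq (g : RMet M) (𝒢 : Met 𝒜) (h : ∀ i, 𝒢.g i = gmat g (𝒜.φ i)) (p : M) :
    sigma2 g p = 𝒢.sig2 p := by
  show sig2 (gmat g (chartAt E p)) (chartAt E p p) = sig2 (𝒢.g (𝒜.idx p)) (𝒜.φ (𝒜.idx p) p)
  rw [(Link2.cc g (sch_chart p) (sch_atl had (𝒜.idx p))).sig2 (Link2.mem had p),
    Link2.cch_eq p, h]

/-- `|Ric⁰| = 0` and `R = 6` imply curvature one -/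
theorem curvOne_of (g : RMet M) (𝒢 : Met 𝒜) (h : ∀ i, 𝒢.g i = gmat g (𝒜.φ i))
    (h1 : ∀ p, 𝒢.e2 p = 0) (h2 : ∀ p, 𝒢.scal p = 6) : CurvOne g := by
  intro p k l a b
  have hcc := Link2.cc g (sch_chart p) (sch_atl had (𝒜.idx p))
  have hm := Link2.mem had p
  have hlm := Link2.gmat_lm g (sch_atl had (𝒜.idx p))
  have hz : 𝒜.φ (𝒜.idx p) p ∈ (𝒜.φ (𝒜.idx p)).target :=
    (𝒜.φ (𝒜.idx p)).map_source (𝒜.idx_source p)
  have h3 : ∀ a b, ric0 (gmat g (𝒜.φ (𝒜.idx p))) a b (𝒜.φ (𝒜.idx p) p) = 0 := by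
    have h4 : ip (𝒢.g (𝒜.idx p)) (fun a b => ric0 (𝒢.g (𝒜.idx p)) a b (𝒜.φ (𝒜.idx p) p))
      (fun a b => ric0 (𝒢.g (𝒜.idx p)) a b (𝒜.φ (𝒜.idx p) p)) (𝒜.φ (𝒜.idx p) p) = 0 := h1 p
    rw [h] at h4
    exact ip_self_eq_zero hlm hz _ h4
  have h5 : ∀ a b, ric0 (gmat g (chartAt E p)) a b (chartAt E p p) = 0 := by
    intro a b
    refine (hcc.ric0 hm a b).trans ?_
    refine Finset.sum_eq_zero fun c _ => Finset.sum_eq_zero fun d _ => ?_
    have h6 : ric0 (gmat g (𝒜.φ (𝒜.idx p))) c d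
        (cch (chartAt E p) (𝒜.φ (𝒜.idx p)) (chartAt E p p)) = 0 := by
      rw [Link2.cch_eq p, h3]
    simp only [h6, mul_zero]
  have h7 : scal (gmat g (chartAt E p)) (chartAt E p p) = 6 := by
    rw [← h2 p, ← scalR_eq had g 𝒢 h p]
    rfl
  have h8 : ∀ a b, ric (gmat g (chartAt E p)) a b (chartAt E p p) =
      2 * 1 * gmat g (chartAt E p) (chartAt E p p) a b := by
    intro a b
    have := h5 a b
    unfold ric0 at this
    rw [h7] at this
    linarith
  have h9 := riem_of_ric (Link2.gmat_lm g (sch_chart p)) (mem_chart_target E p) 1 h8 k l a b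
  rw [h9, one_mul]

end YR
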