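import Pool.Agent.Work.MP_71b0e8_gt.Link1

/-! LINK3 : conformal metrics -/

open scoped ContDiff Manifold Topology
open MeasureTheory Metric Set

noncomputable section

namespace YR

variable {M : Type*} [TopologicalSpace M] [ChartedSpace E M] [IsManifold (𝓡 3) ∞ M]
variable {𝒜 : Atl M} (had : Adapted 𝒜)

omit [ChartedSpace E M] [IsManifold (𝓡 3) ∞ M] in
theorem met_ext3 {𝒢 ℋ : Met 𝒜} (h : ∀ i, 𝒢.g i = ℋ.g i) : 𝒢 = ℋ := by
  cases 𝒢; cases ℋ
  simp only [Met.mk.injEq]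
  exact funext h

/-- the metric `e^{-2u} g` -/
def scaleMet (g : RMet M) (u : M → ℝ) (hu : ContMDiff (𝓡 3) 𝓘(ℝ, ℝ) ∞ u) : RMet M where
  inner p := Real.exp (-2 * u p) • g.inner p
  symm p v w := by
    simp only [smul_apply, g.symm p v w]
  pos p v hv := by
    simp only [smul_apply, smul_eq_mul]
    exact mul_pos (Real.exp_pos _) (g.pos p v hv)
  isVonNBounded p := by
    have hc : (0 : ℝ) < Real.exp (u p) := Real.exp_pos _
    have hb := (g.isVonNBounded p).image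
      ((Real.exp (u p)) • ContinuousLinearMap.id ℝ (TangentSpace (𝓡 3) p))
    refine hb.subset fun v hv => ?_
    refine ⟨(Real.exp (u p))⁻¹ • v, ?_, ?_⟩
    · have hv' : Real.exp (-2 * u p) * g.inner p v v < 1 := hv
      have h1 : Real.exp (-2 * u p) = (Real.exp (u p))⁻¹ * (Real.exp (u p))⁻¹ := by
        rw [← Real.exp_neg, ← Real.exp_add]
        congr 1
        ring
      show g.inner p ((Real.exp (u p))⁻¹ • v) ((Real.exp (u p))⁻¹ • v) < 1
      rw [map_smul, map_smul]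
      show (Real.exp (u p))⁻¹ * ((Real.exp (u p))⁻¹ * g.inner p v v) < 1
      rw [← mul_assoc, ← h1]
      exact hv'
    · show Real.exp (u p) • ((Real.exp (u p))⁻¹ • v) = v
      rw [smul_smul, mul_inv_cancel₀ hc.ne', one_smul]
  contMDiff := by
    have hf : ContMDiff (𝓡 3) 𝓘(ℝ, ℝ) ∞ (fun p => Real.exp (-2 * u p)) :=
      (Real.contDiff_exp.contMDiff (n := ∞)).comp
        ((contDiff_const.mul contDiff_id).contMDiff.comp hu)
    exact ContMDiff.smul_section hf g.contMDiff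

include had

theorem conf_of_confTo (g₀ g : RMet M) (𝒢₀ 𝒢 : Met 𝒜) (h₀ : ∀ i, 𝒢₀.g i = gmat g₀ (𝒜.φ i))
    (h : ∀ i, 𝒢.g i = gmat g (𝒜.φ i)) (hc : ConfTo g₀ g) :
    ∃ (w : M → ℝ) (hw : 𝒜.Sm w) (hp : ∀ p, 0 < w p), 𝒢 = 𝒢₀.conf w hw hp := by
  obtain ⟨u, hu, hug⟩ := hc
  have hus : 𝒜.Sm u := (sm_iff_contMDiff had).2 hu
  refine ⟨fun p => Real.exp (u p), fun i => (hus i).exp, fun p => Real.exp_pos _, ?_⟩
  refine met_ext3 fun i => ?_
  rw [h i]
  show gmat g (𝒜.φ i) = cf (𝒢₀.g i) (𝒜.rd (fun p => Real.exp (u p)) i)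
  rw [h₀ i]
  funext z
  ext a b
  simp only [gmat, cf, Matrix.of_apply, Matrix.smul_apply, smul_eq_mul, hug, Atl.rd]
  congr 1
  rw [← Real.exp_neg, ← Real.exp_nat_mul]
  congr 1
  push_cast
  ring

theorem confTo_of_conf (g₀ : RMet M) (𝒢₀ : Met 𝒜) (h₀ : ∀ i, 𝒢₀.g i = gmat g₀ (𝒜.φ i))
    (w : M → ℝ) (hw : 𝒜.Sm w) (hp : ∀ p, 0 < w p) :
    ∃ g : RMet M, ConfTo g₀ g ∧ ∀ i, (𝒢₀.conf w hw hp).g i = gmat g (𝒜.φ i) := by
  have hu : ContMDiff (𝓡 3) 𝓘(ℝ, ℝ) ∞ (fun p => Real.log (w p)) := by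
    refine (sm_iff_contMDiff had).1 fun i => ?_
    exact (hw i).log fun z _ => (hp _).ne'
  refine ⟨scaleMet g₀ _ hu, ⟨_, hu, fun p X Y => ?_⟩, fun i => ?_⟩
  · simp only [scaleMet, smul_apply, smul_eq_mul]
  · show cf (𝒢₀.g i) (𝒜.rd w i) = _
    rw [h₀ i]
    funext z
    ext a b
    simp only [gmat, cf, Matrix.of_apply, Matrix.smul_apply, smul_eq_mul, Atl.rd, scaleMet,
      smul_apply]
    congr 1
    rw [show -2 * Real.log (w ((𝒜.φ i).symm z)) = ((2 : ℕ) : ℝ) * (-Real.log (w ((𝒜.φ i).symm z)))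
      by push_cast; ring, Real.exp_nat_mul, Real.exp_neg, Real.exp_log (hp _)]

end YR
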