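import Pool.Agent.Work.MP_71b0e8_gt.Link1
import Pool.Agent.Work.MP_71b0e8_gt.Skel.Int

/-!
LINK4: the Riemannian measure of a Mathlib metric.
-/

open scoped ContDiff Manifold Topology
open MeasureTheory Metric Set Filter

noncomputable section

namespace YR

variable {M : Type*} [TopologicalSpace M] [ChartedSpace E M] [IsManifold (𝓡 3) ∞ M]

/-- smooth chart -/
structure SCh (φ : OpenPartialHomeomorph M E) : Prop where
  symm : ContMDiffOn (𝓡 3) (𝓡 3) ∞ φ.symm φ.target
  fwd : ContMDiffOn (𝓡 3) (𝓡 3) ∞ φ φ.source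

theorem inner_cast (g : RMet M) {p q : M} (h : p = q) (v w : E) :
    g.inner p (v : TangentSpace (𝓡 3) p) (w : TangentSpace (𝓡 3) p) =
      g.inner q (v : TangentSpace (𝓡 3) q) (w : TangentSpace (𝓡 3) q) := by
  subst h; rfl

/-- coordinate change -/
def cch (φ ψ : OpenPartialHomeomorph M E) (z : E) : E := ψ (φ.symm z)

/-- domain of the coordinate change -/
def cdm (φ ψ : OpenPartialHomeomorph M E) : Set E := φ.target ∩ φ.symm ⁻¹' ψ.source

omit [ChartedSpace E M] [IsManifold (𝓡 3) ∞ M] in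
theorem isOpen_cdm (φ ψ : OpenPartialHomeomorph M E) : IsOpen (cdm φ ψ) :=
  φ.symm.isOpen_inter_preimage ψ.open_source

omit [IsManifold (𝓡 3) ∞ M] in
theorem cch_smooth {φ ψ : OpenPartialHomeomorph M E} (hφ : SCh φ) (hψ : SCh ψ) :
    ContDiffOn ℝ ∞ (cch φ ψ) (cdm φ ψ) := by
  have h : ContMDiffOn (𝓡 3) (𝓡 3) ∞ (fun z => ψ (φ.symm z)) (cdm φ ψ) :=
    hψ.fwd.comp (hφ.symm.mono inter_subset_left) fun z hz => hz.2
  exact contMDiffOn_iff_contDiffOn.1 h

omit [IsManifold (𝓡 3) ∞ M] in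
theorem cch_deriv {φ ψ : OpenPartialHomeomorph M E} (hφ : SCh φ) (hψ : SCh ψ) {z : E}
    (hz : z ∈ cdm φ ψ) : HasFDerivAt (cch φ ψ) (fderiv ℝ (cch φ ψ) z) z := by
  have h := (cch_smooth hφ hψ).contDiffAt ((isOpen_cdm φ ψ).mem_nhds hz)
  exact (h.differentiableAt (by simp)).hasFDerivAt

omit [ChartedSpace E M] [IsManifold (𝓡 3) ∞ M] in
theorem cch_mem {φ ψ : OpenPartialHomeomorph M E} {z : E} (hz : z ∈ cdm φ ψ) :
    cch φ ψ z ∈ cdm ψ φ := by
  refine ⟨ψ.map_source hz.2, ?_⟩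
  show ψ.symm (ψ (φ.symm z)) ∈ φ.source
  rw [ψ.left_inv hz.2]
  exact φ.map_target hz.1

omit [ChartedSpace E M] [IsManifold (𝓡 3) ∞ M] in
theorem symm_cch {φ ψ : OpenPartialHomeomorph M E} {z : E} (hz : z ∈ cdm φ ψ) :
    ψ.symm (cch φ ψ z) = φ.symm z := ψ.left_inv hz.2

omit [ChartedSpace E M] [IsManifold (𝓡 3) ∞ M] in
theorem cch_cch {φ ψ : OpenPartialHomeomorph M E} {z : E} (hz : z ∈ cdm φ ψ) :
    cch ψ φ (cch φ ψ z) = z := by
  show φ (ψ.symm (cch φ ψ z)) = z
  rw [symm_cch hz]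
  exact φ.right_inv hz.1

theorem be_expand (v : E) : v = ∑ c, v c • be c := by
  ext k
  simp [be, Finset.sum_apply, Pi.single_apply]

theorem comp_expand {L K D : E →L[ℝ] E} (h : L = K.comp D) (a : Fin 3) :
    L (be a) = ∑ c, (D (be a)) c • K (be c) := by
  rw [h, ContinuousLinearMap.comp_apply]
  conv_lhs => rw [be_expand (D (be a))]
  rw [map_sum]
  exact Finset.sum_congr rfl fun c _ => map_smul _ _ _

theorem cvec_change {φ ψ : OpenPartialHomeomorph M E} (hφ : SCh φ) (hψ : SCh ψ) {z : E}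
    (hz : z ∈ cdm φ ψ) (a : Fin 3) :
    (cvec φ z a : E) = ∑ c, (fderiv ℝ (cch φ ψ) z (be a)) c • (cvec ψ (cch φ ψ z) c : E) := by
  have e1 : φ.symm =ᶠ[𝓝 z] ψ.symm ∘ cch φ ψ := by
    filter_upwards [(isOpen_cdm φ ψ).mem_nhds hz] with y hy
    exact (symm_cch hy).symm
  have d1 : MDifferentiableAt (𝓡 3) (𝓡 3) (cch φ ψ) z :=
    (cch_deriv hφ hψ hz).differentiableAt.mdifferentiableAt
  have d2 : MDifferentiableAt (𝓡 3) (𝓡 3) ψ.symm (cch φ ψ z) :=
    ((hψ.symm.contMDiffAt (ψ.open_target.mem_nhds (cch_mem hz).1)).mdifferentiableAt (by simp))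
  have e3 := e1.mfderiv_eq (I := 𝓡 3) (I' := 𝓡 3)
  have e4 := mfderiv_comp z d2 d1
  rw [mfderiv_eq_fderiv] at e4
  exact comp_expand (L := (mfderiv (𝓡 3) (𝓡 3) φ.symm z : E →L[ℝ] E))
    (K := (mfderiv (𝓡 3) (𝓡 3) ψ.symm (cch φ ψ z) : E →L[ℝ] E)) (D := fderiv ℝ (cch φ ψ) z)
    (e3.trans e4) a

/-- the Jacobi matrix of the coordinate change -/
def jac (τ : E → E) (z : E) : Mat := Matrix.of fun c a => (fderiv ℝ τ z (be a)) c

theorem gmat_change (g : RMet M) {φ ψ : OpenPartialHomeomorph M E} (hφ : SCh φ) (hψ : SCh ψ)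
    {z : E} (hz : z ∈ cdm φ ψ) :
    gmat g φ z = (jac (cch φ ψ) z).transpose * gmat g ψ (cch φ ψ z) * jac (cch φ ψ) z := by
  ext a b
  have h1 : gmat g φ z a b = g.inner (ψ.symm (cch φ ψ z)) (cvec φ z a : E) (cvec φ z b : E) :=
    inner_cast g (symm_cch hz).symm _ _
  rw [h1, cvec_change hφ hψ hz a, cvec_change hφ hψ hz b]
  have h2 : ∀ (B : E →L[ℝ] E →L[ℝ] ℝ) (x y : Fin 3 → ℝ) (v : Fin 3 → E),
      B (∑ c, x c • v c) (∑ d, y d • v d) = ∑ d, (∑ c, x c * B (v c) (v d)) * y d := by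
    intro B x y v
    simp only [map_sum, map_smul, _root_.sum_apply,
      _root_.smul_apply, smul_eq_mul, Finset.sum_mul]
    refine Finset.sum_congr rfl fun d _ => ?_
    rw [Finset.mul_sum]
    exact Finset.sum_congr rfl fun c _ => by ring
  refine (h2 (g.inner (ψ.symm (cch φ ψ z))) _ _ _).trans ?_
  rw [Matrix.mul_apply]
  refine Finset.sum_congr rfl fun d _ => ?_
  rw [Matrix.mul_apply]
  rfl

theorem det_jac (τ : E → E) (z : E) : (jac τ z).det = (fderiv ℝ τ z).det := by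
  have : jac τ z = LinearMap.toMatrix (EuclideanSpace.basisFun (Fin 3) ℝ).toBasis
      (EuclideanSpace.basisFun (Fin 3) ℝ).toBasis (fderiv ℝ τ z : E →ₗ[ℝ] E) := by
    ext a b
    rw [LinearMap.toMatrix_apply]
    simp [jac, be]
  rw [this, LinearMap.det_toMatrix]

theorem sqrt_det_change (g : RMet M) {φ ψ : OpenPartialHomeomorph M E} (hφ : SCh φ)
    (hψ : SCh ψ) {z : E} (hz : z ∈ cdm φ ψ) :
    √(gmat g φ z).det = |(fderiv ℝ (cch φ ψ) z).det| * √(gmat g ψ (cch φ ψ z)).det := by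
  rw [gmat_change g hφ hψ hz, Matrix.det_mul, Matrix.det_mul, Matrix.det_transpose, det_jac]
  have : (fderiv ℝ (cch φ ψ) z).det * (gmat g ψ (cch φ ψ z)).det *
      (fderiv ℝ (cch φ ψ) z).det =
      (fderiv ℝ (cch φ ψ) z).det ^ 2 * (gmat g ψ (cch φ ψ z)).det := by ring
  rw [this, Real.sqrt_mul (sq_nonneg _), Real.sqrt_sq_eq_abs]

/-! ### measures -/

section meas

variable [MeasurableSpace M] [BorelSpace M]

/-- the measure `√det g dz` of the chart -/
def volIn (g : RMet M) (φ : OpenPartialHomeomorph M E) : Measure M :=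
  Measure.map φ.symm ((volume.restrict φ.target).withDensity
    fun z => ENNReal.ofReal (√(gmat g φ z).det))

omit [ChartedSpace E M] [IsManifold (𝓡 3) ∞ M] in
theorem meas_pre (φ : OpenPartialHomeomorph M E) {A : Set M} (hA : MeasurableSet A) :
    MeasurableSet (φ.target ∩ φ.symm ⁻¹' A) := by
  rcases isEmpty_or_nonempty M with h | h
  · have : φ.target ∩ φ.symm ⁻¹' A = ∅ := by
      ext z
      exact ⟨fun _ => (h.false (φ.symm z)).elim, fun h => h.elim⟩
    rw [this]
    exact MeasurableSet.empty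
  · obtain ⟨p0⟩ := h
    classical
    have h1 : Measurable (φ.target.piecewise φ.symm fun _ => p0) :=
      φ.continuousOn_symm.measurable_piecewise continuousOn_const φ.open_target.measurableSet
    have h2 : φ.target ∩ φ.symm ⁻¹' A =
        φ.target ∩ (φ.target.piecewise φ.symm fun _ => p0) ⁻¹' A := by
      ext z
      constructor
      · rintro ⟨h3, h4⟩
        refine ⟨h3, ?_⟩
        rw [mem_preimage, Set.piecewise_eq_of_mem _ _ _ h3]
        exact h4
      · rintro ⟨h3, h4⟩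
        refine ⟨h3, ?_⟩
        rw [mem_preimage, Set.piecewise_eq_of_mem _ _ _ h3] at h4
        exact h4
    rw [h2]
    exact φ.open_target.measurableSet.inter (h1 hA)

theorem volIn_apply (g : RMet M) (φ : OpenPartialHomeomorph M E) {A : Set M}
    (hA : MeasurableSet A) :
    volIn g φ A = ∫⁻ z in φ.target ∩ φ.symm ⁻¹' A, ENNReal.ofReal (√(gmat g φ z).det) := by
  have h1 : AEMeasurable φ.symm (volume.restrict φ.target) :=
    φ.continuousOn_symm.aemeasurable φ.open_target.measurableSet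
  have h2 : AEMeasurable φ.symm ((volume.restrict φ.target).withDensity
      fun z => ENNReal.ofReal (√(gmat g φ z).det)) :=
    h1.mono_ac (withDensity_absolutelyContinuous _ _)
  rw [volIn, Measure.map_apply_of_aemeasurable h2 hA, withDensity_apply',
    Measure.restrict_restrict' φ.open_target.measurableSet, inter_comm]

theorem volIn_inter (g : RMet M) {φ ψ : OpenPartialHomeomorph M E} (hφ : SCh φ) (hψ : SCh ψ)
    {A : Set M} (hA : MeasurableSet A) :
    volIn g φ (A ∩ ψ.source) = volIn g ψ (A ∩ φ.source) := by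
  rw [volIn_apply g φ (hA.inter ψ.open_source.measurableSet),
    volIn_apply g ψ (hA.inter φ.open_source.measurableSet)]
  have hS : φ.target ∩ φ.symm ⁻¹' (A ∩ ψ.source) ⊆ cdm φ ψ := fun z hz => ⟨hz.1, hz.2.2⟩
  have himg : cch φ ψ '' (φ.target ∩ φ.symm ⁻¹' (A ∩ ψ.source)) =
      ψ.target ∩ ψ.symm ⁻¹' (A ∩ φ.source) := by
    ext y
    constructor
    · rintro ⟨z, hz, rfl⟩
      refine ⟨(cch_mem (hS hz)).1, ?_, (cch_mem (hS hz)).2⟩
      rw [symm_cch (hS hz)]
      exact hz.2.1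
    · rintro ⟨h1, h2, h3⟩
      have hy : y ∈ cdm ψ φ := ⟨h1, h3⟩
      refine ⟨cch ψ φ y, ⟨(cch_mem hy).1, ?_, (cch_mem hy).2⟩, cch_cch hy⟩
      rw [symm_cch hy]
      exact h2
  rw [← himg]
  have hm := meas_pre φ (hA.inter ψ.open_source.measurableSet)
  rw [lintegral_image_eq_lintegral_abs_det_fderiv_mul volume hm
    (f' := fun z => fderiv ℝ (cch φ ψ) z)
    (fun z hz => (cch_deriv hφ hψ (hS hz)).hasFDerivWithinAt)
    (fun y hy z hz h => by
      have h1 := congrArg (cch ψ φ) h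
      rwa [cch_cch (hS hy), cch_cch (hS hz)] at h1)]
  refine setLIntegral_congr_fun hm fun z hz => ?_
  rw [sqrt_det_change g hφ hψ (hS hz), ENNReal.ofReal_mul (abs_nonneg _)]

theorem volIn_restrict (g : RMet M) {φ ψ : OpenPartialHomeomorph M E} (hφ : SCh φ)
    (hψ : SCh ψ) : (volIn g φ).restrict ψ.source = (volIn g ψ).restrict φ.source := by
  ext A hA
  rw [Measure.restrict_apply hA, Measure.restrict_apply hA, volIn_inter g hφ hψ hA]

theorem volIn_restrict_self (g : RMet M) (φ : OpenPartialHomeomorph M E) {U : Set M}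
    (hU : IsOpen U) (h : φ.source ⊆ U) : (volIn g φ).restrict U = volIn g φ := by
  ext A hA
  rw [Measure.restrict_apply hA, volIn_apply g φ (hA.inter hU.measurableSet),
    volIn_apply g φ hA]
  congr 2
  ext z
  exact ⟨fun hz => ⟨hz.1, hz.2.1⟩, fun hz => ⟨hz.1, hz.2, h (φ.map_target hz.1)⟩⟩

end meas

theorem sch_chart (x : M) : SCh (chartAt E x) where
  symm := contMDiffOn_chart_symm
  fwd := contMDiffOn_chart

variable {𝒜 : Atl M} (had : Adapted 𝒜)

include had

theorem sch_atl (i : Fin 𝒜.n) : SCh (𝒜.φ i) where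
  symm := by
    rw [𝒜.target_eq i]
    have h1 : ContMDiff (𝓡 3) (𝓡 3) ∞ fun z : E => had.c i + had.r i • z := by
      rw [contMDiff_iff_contDiff]
      fun_prop
    have h2 : ContMDiffOn (𝓡 3) (𝓡 3) ∞
        ((chartAt E (had.x i)).symm ∘ fun z : E => had.c i + had.r i • z) (ball 0 4) := by
      refine contMDiffOn_chart_symm.comp h1.contMDiffOn fun z hz => had.sub i ?_
      rw [mem_ball_zero_iff] at hz
      rw [mem_ball, dist_eq_norm, add_sub_cancel_left, norm_smul, Real.norm_of_nonneg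
        (had.r_pos i).le, mul_comm]
      exact mul_lt_mul_of_pos_right hz (had.r_pos i)
    exact h2.congr fun z hz => had.symm_eq i z hz
  fwd := by
    have h1 : ContMDiff (𝓡 3) (𝓡 3) ∞ fun z : E => (had.r i)⁻¹ • (z - had.c i) := by
      rw [contMDiff_iff_contDiff]
      fun_prop
    have hs : (𝒜.φ i).source ⊆ (chartAt E (had.x i)).source := by
      rw [had.source_eq i]
      exact fun p hp => hp.1
    have h2 : ContMDiffOn (𝓡 3) (𝓡 3) ∞
        ((fun z : E => (had.r i)⁻¹ • (z - had.c i)) ∘ (chartAt E (had.x i)))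
          (𝒜.φ i).source :=
      h1.comp_contMDiffOn (contMDiffOn_chart.mono hs)
    refine h2.congr fun p hp => ?_
    simp only [Function.comp_apply]
    rw [← had.eq i p hp, add_sub_cancel_left, smul_smul, inv_mul_cancel₀ (had.r_pos i).ne',
      one_smul]

theorem vol_of_isVol [T2Space M] [CompactSpace M] [MeasurableSpace M] [BorelSpace M]
    (g : RMet M) (𝒢 : Met 𝒜) (h : ∀ i, 𝒢.g i = gmat g (𝒜.φ i)) (μ : Measure M) (hμ : IsVol g μ) :
    μ = 𝒢.vol := by
  refine 𝒢.vol_unique μ fun i => ?_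
  have hs : (𝒜.φ i).source ⊆ (chartAt E (had.x i)).source := by
    rw [had.source_eq i]
    exact fun p hp => hp.1
  have h1 : μ.restrict (𝒜.φ i).source =
      (μ.restrict (chartAt E (had.x i)).source).restrict (𝒜.φ i).source := by
    rw [Measure.restrict_restrict (𝒜.φ i).open_source.measurableSet,
      inter_eq_left.2 hs]
  rw [h1, hμ (had.x i), h i]
  have h2 := volIn_restrict g (sch_chart (had.x i)) (sch_atl had i)
  rw [volIn_restrict_self g (𝒜.φ i) (chartAt E (had.x i)).open_source hs] at h2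
  rw [volIn, volIn, 𝒜.target_eq i] at h2
  exact h2

theorem isVol_vol [T2Space M] [CompactSpace M] [MeasurableSpace M] [BorelSpace M]
    (g : RMet M) (𝒢 : Met 𝒜) (h : ∀ i, 𝒢.g i = gmat g (𝒜.φ i)) : IsVol g 𝒢.vol := by
  intro x
  show 𝒢.vol.restrict (chartAt E x).source = volIn g (chartAt E x)
  have hcov : (chartAt E x).source = ⋃ i, (chartAt E x).source ∩ (𝒜.φ i).source := by
    ext p
    simp only [mem_iUnion, mem_inter_iff]
    refine ⟨fun hp => ?_, fun ⟨i, hi⟩ => hi.1⟩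
    obtain ⟨i, hi, _⟩ := 𝒜.cover p
    exact ⟨i, hp, hi⟩
  have hself := volIn_restrict_self g (chartAt E x) (chartAt E x).open_source subset_rfl
  rw [← hself]
  rw [hcov, Measure.restrict_iUnion_congr]
  intro i
  have h1 : 𝒢.vol.restrict ((chartAt E x).source ∩ (𝒜.φ i).source) =
      (volIn g (𝒜.φ i)).restrict (chartAt E x).source := by
    rw [← Measure.restrict_restrict (chartAt E x).open_source.measurableSet, 𝒢.vol_chart i,
      h i, volIn, 𝒜.target_eq i]
  rw [h1, volIn_restrict g (sch_atl had i) (sch_chart x),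
    ← Measure.restrict_restrict' (𝒜.φ i).open_source.measurableSet]
  rw [Measure.restrict_comm (chartAt E x).open_source.measurableSet, hself]

end YR
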