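import Pool.Agent.Work.MP_71b0e8_gt.Skel.Link

/-!
# MP_71b0e8_gt : LINK5, assembly (`q1_of_mainInternal'`)

Final assembly: replace the import of `Skel.Link` by the imports of `Link1, Link2, Link3, Link4`,
copy `def MainInternal` from `Skel/Link.lean` in front of `Efun_eq_EE`, and rename
`q1_of_mainInternal'` to `q1_of_mainInternal` (nothing else is used).
-/

open scoped ContDiff Manifold Topology
open MeasureTheory Metric Set

noncomputable section

namespace YR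

theorem Efun_eq_EE {M : Type*} [TopologicalSpace M] [ChartedSpace E M] [IsManifold (𝓡 3) ∞ M]
    {𝒜 : Atl M} (had : Adapted 𝒜) [MeasurableSpace M]
    (g : RMet M) (𝒢 : Met 𝒜) (h : ∀ i, 𝒢.g i = gmat g (𝒜.φ i)) :
    Efun g 𝒢.vol = 𝒢.EE := by
  have h1 : 𝒢.vol.real univ = 𝒢.V := by
    unfold Met.V
    rw [integral_const, smul_eq_mul, mul_one]
  have h2 : (∫ p, sigma2 g p ∂𝒢.vol) = 𝒢.S2 := by
    unfold Met.S2
    exact integral_congr_ae (Filter.Eventually.of_forall fun p => sigma2_eq had g 𝒢 h p)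
  have h3 : (∫ p, sigma1 g p ∂𝒢.vol) = 𝒢.S1 := by
    unfold Met.S1
    refine integral_congr_ae (Filter.Eventually.of_forall fun p => ?_)
    simp only [sigma1, scalR_eq had g 𝒢 h p]
  unfold Efun Met.EE
  rw [h1, h2, h3]

theorem q1_of_mainInternal'.{u} (H : MainInternal.{u}) : Q1.{u} := by
  intro M _ _ _ _ _ _ _ _ g₀ hpos hY
  obtain ⟨𝒜, ⟨had⟩⟩ := exists_atl (M := M)
  obtain ⟨𝒢₀, h₀⟩ := exists_met had g₀
  have hs : ∀ p, 0 < 𝒢₀.scal p := fun p => by
    have := hpos p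
    unfold sigma1 at this
    rw [scalR_eq had g₀ 𝒢₀ h₀ p] at this
    linarith
  obtain ⟨Θ, hΘ, hp, hfin⟩ := H M 𝒜 𝒢₀ hs (by
    intro ε hε
    unfold Ytilde at hY
    set S := {e | ∃ (g : RMet M) (μ : Measure M), ConfTo g₀ g ∧ (∀ p, 0 < sigma1 g p) ∧
      IsVol g μ ∧ e = Efun g μ} with hS
    have hne : S.Nonempty := by
      rw [Set.nonempty_iff_ne_empty]
      intro h0
      rw [h0, Real.sSup_empty] at hY
      norm_num at hY
    have hlt : 1 / 3 - ε < sSup S := by rw [hY]; linarith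
    obtain ⟨e, ⟨g, μ, hc, hg, hμ, rfl⟩, he⟩ := exists_lt_of_lt_csSup hne hlt
    obtain ⟨𝒢, h⟩ := exists_met had g
    obtain ⟨w, hw, hwp, hconf⟩ := conf_of_confTo had g₀ g 𝒢₀ 𝒢 h₀ h hc
    have hv : μ = 𝒢.vol := vol_of_isVol had g 𝒢 h μ hμ
    subst hv
    rw [Efun_eq_EE had g 𝒢 h] at he
    refine ⟨w, hw, hwp, fun p => ?_, ?_⟩
    · rw [← hconf]
      have := hg p
      unfold sigma1 at this
      rw [scalR_eq had g 𝒢 h p] at this
      linarith
    · rw [← hconf]; exact he)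
  obtain ⟨g, hc, hg⟩ := confTo_of_conf had g₀ 𝒢₀ h₀ Θ hΘ hp
  exact ⟨g, hc, curvOne_of had g _ hg (fun p => (hfin p).1) fun p => (hfin p).2⟩

end YR
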