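import Pool.Agent.Work.MP_71b0e8_gt.Loc4a

/-! the contracted Ricci identity and the Bochner formula -/

open scoped ContDiff Topology
open MeasureTheory Metric Set Filter

noncomputable section

namespace YR

open Loc4aux

section

variable {U : Set E} {G : E → Mat} (hG : LM U G) {u v w f : E → ℝ} {x : E}

include hG

theorem Loc4aux.chrD (hx : x ∈ U) (k a b : Fin 3) : DifferentiableAt ℝ (chr G k a b) x :=
  dAt hG.op (chr_smooth hG k a b) hx

theorem Loc4aux.GD (hx : x ∈ U) (a b : Fin 3) : DifferentiableAt ℝ (fun y => G y a b) x :=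
  dAt hG.op (hG.smooth a b) hx

theorem Loc4aux.pdchr_symm (hx : x ∈ U) (c k a b : Fin 3) :
    pd c (chr G k a b) x = pd c (chr G k b a) x := by
  apply pd_congr
  filter_upwards [hG.op.mem_nhds hx] with y hy
  exact chr_symm hG hy k a b

theorem Loc4aux.ric_eq (hx : x ∈ U) (a b : Fin 3) :
    ric G a b x = ∑ k, riem G k a k b x := by
  unfold ric riem
  refine Finset.sum_congr rfl fun k _ => ?_
  rw [pdchr_symm hG hx k k a b, pdchr_symm hG hx b k a k]
  congr 1
  refine Finset.sum_congr rfl fun m _ => ?_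
  rw [chr_symm hG hx m a b, chr_symm hG hx m a k]

theorem Loc4aux.pdpdG (hx : x ∈ U) (a b k l : Fin 3) :
    pd a (pd b (fun y => G y k l)) x = ∑ m,
      (pd a (chr G m b k) x * G x m l + chr G m b k x * pd a (fun y => G y m l) x +
        (pd a (chr G m b l) x * G x k m + chr G m b l x * pd a (fun y => G y k m) x)) := by
  have h1 : pd b (fun y => G y k l) =ᶠ[𝓝 x] fun y => ∑ m,
      (chr G m b k y * G y m l + chr G m b l y * G y k m) := by
    filter_upwards [hG.op.mem_nhds hx] with y hy
    exact pd_G hG hy b k l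
  have d1 : ∀ m k l, DifferentiableAt ℝ (fun y => chr G m b k y * G y m l) x := fun m k l =>
    (chrD hG hx m b k).fun_mul (GD hG hx m l)
  have d2 : ∀ m k l, DifferentiableAt ℝ (fun y => chr G m b l y * G y k m) x := fun m k l =>
    (chrD hG hx m b l).fun_mul (GD hG hx k m)
  rw [pd_congr h1, pd_sum fun m _ => (d1 m k l).fun_add (d2 m k l)]
  refine Finset.sum_congr rfl fun m _ => ?_
  rw [pd_add (d1 m k l) (d2 m k l), pd_mul (chrD hG hx m b k) (GD hG hx m l),
    pd_mul (chrD hG hx m b l) (GD hG hx k m)]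

/-- antisymmetry of the lowered Riemann tensor in the first pair -/
theorem Loc4aux.low_anti (hx : x ∈ U) (k l a b : Fin 3) :
    ∑ m, G x k m * riem G m l a b x = -∑ m, G x l m * riem G m k a b x := by
  have e1 := pdpdG hG hx a b k l
  have e2 := pdpdG hG hx b a k l
  rw [pd_comm hG.op (hG.smooth k l) hx] at e1
  rw [e1] at e2
  simp only [pd_G hG hx] at e2
  unfold riem
  simp only [Fin.sum_univ_three] at e2 ⊢
  rw [hG.symm x hx l 0, hG.symm x hx l 1, hG.symm x hx l 2]
  linear_combination e2

theorem Loc4aux.riem_raise (hx : x ∈ U) (k l a b : Fin 3) :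
    riem G k l a b x = ∑ m, gi G x k m * ∑ n, G x m n * riem G n l a b x := by
  have h : ∀ n, ∑ m, gi G x k m * G x m n = if k = n then 1 else 0 := fun n => gi_mul hG hx k n
  calc riem G k l a b x = ∑ n, (if k = n then 1 else 0) * riem G n l a b x := by simp
    _ = ∑ n, (∑ m, gi G x k m * G x m n) * riem G n l a b x := by simp only [h]
    _ = _ := by
      simp only [Fin.sum_univ_three]
      ring

/-- the contraction `-g^{ac} R^m_{acb} = g^{ma} Ric_{ab}` -/
theorem Loc4aux.contr (hx : x ∈ U) (m b : Fin 3) :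
    ∑ a, ∑ c, gi G x a c * riem G m a c b x = -∑ a, gi G x m a * ric G a b x := by
  calc ∑ a, ∑ c, gi G x a c * riem G m a c b x
      = ∑ n, gi G x m n * ∑ c, ∑ a, gi G x c a * ∑ k, G x n k * riem G k a c b x := by
        simp only [Loc4aux.riem_raise hG hx m]
        simp only [Finset.mul_sum]
        rw [Finset.sum_comm]
        have : ∀ c, ∑ a, ∑ n, ∑ k, gi G x a c * (gi G x m n * (G x n k * riem G k a c b x)) =
            ∑ n, ∑ a, ∑ k, gi G x m n * (gi G x c a * (G x n k * riem G k a c b x)) := by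
          intro c
          rw [Finset.sum_comm]
          refine Finset.sum_congr rfl fun n _ => Finset.sum_congr rfl fun a _ =>
            Finset.sum_congr rfl fun k _ => ?_
          rw [gi_symm hG hx a c]
          ring
        simp only [this]
        rw [Finset.sum_comm]
    _ = ∑ n, gi G x m n * ∑ c, -riem G c n c b x := by
        refine Finset.sum_congr rfl fun n _ => ?_
        congr 1
        refine Finset.sum_congr rfl fun c _ => ?_
        rw [Loc4aux.riem_raise hG hx c n c b, ← Finset.sum_neg_distrib]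
        refine Finset.sum_congr rfl fun a _ => ?_
        rw [low_anti hG hx n a c b]
        ring
    _ = _ := by
        rw [← Finset.sum_neg_distrib]
        refine Finset.sum_congr rfl fun n _ => ?_
        rw [Loc4aux.ric_eq hG hx, Finset.sum_neg_distrib]
        ring

theorem Loc4aux.pd_hess (hu : ContDiffOn ℝ ∞ u U) (hx : x ∈ U) (a b c : Fin 3) :
    pd c (hess G u a b) x = pd c (pd a (pd b u)) x -
      ∑ k, (pd c (chr G k a b) x * pd k u x + chr G k a b x * pd c (pd k u) x) := by
  have h1 : ∀ k, DifferentiableAt ℝ (pd k u) x := fun k => dAt hG.op (pd_smooth hG.op hu) hx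
  have h2 : DifferentiableAt ℝ (pd a (pd b u)) x :=
    dAt hG.op (pd_smooth hG.op (pd_smooth hG.op hu)) hx
  have h3 : ∀ k, DifferentiableAt ℝ (fun y => chr G k a b y * pd k u y) x := fun k =>
    (chrD hG hx k a b).fun_mul (h1 k)
  have h4 : pd c (fun y => ∑ k, chr G k a b y * pd k u y) x =
      ∑ k, (pd c (chr G k a b) x * pd k u x + chr G k a b x * pd c (pd k u) x) := by
    rw [pd_sum fun k _ => h3 k]
    exact Finset.sum_congr rfl fun k _ => pd_mul (chrD hG hx k a b) (h1 k)
  rw [← h4]
  exact pd_sub h2 (DifferentiableAt.fun_sum fun k _ => h3 k)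

/-- Ricci identity -/
theorem Loc4aux.ricci_id (hu : ContDiffOn ℝ ∞ u U) (hx : x ∈ U) (a b c : Fin 3) :
    (pd c (hess G u a b) x -
        ∑ k, (chr G k c a x * hess G u k b x + chr G k c b x * hess G u a k x)) =
      (pd b (hess G u a c) x -
        ∑ k, (chr G k b a x * hess G u k c x + chr G k b c x * hess G u a k x)) -
      ∑ m, riem G m a c b x * pd m u x := by
  have h3 : pd c (pd a (pd b u)) x = pd b (pd a (pd c u)) x := by
    rw [pd_comm hG.op (pd_smooth hG.op hu) hx, pd_comm (a := b) hG.op (pd_smooth hG.op hu) hx]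
    apply pd_congr
    filter_upwards [hG.op.mem_nhds hx] with y hy
    exact pd_comm hG.op hu hy
  have h2 : ∀ i j, pd i (pd j u) x = pd j (pd i u) x := fun i j => pd_comm hG.op hu hx
  rw [pd_hess hG hu hx a b c, pd_hess hG hu hx a c b, h3]
  simp only [hess, riem, Fin.sum_univ_three]
  rw [pdchr_symm hG hx c 0 b a, pdchr_symm hG hx c 1 b a, pdchr_symm hG hx c 2 b a,
    pdchr_symm hG hx b 0 c a, pdchr_symm hG hx b 1 c a, pdchr_symm hG hx b 2 c a,
    h2 c 0, h2 c 1, h2 c 2, h2 b 0, h2 b 1, h2 b 2,
    chr_symm hG hx 0 b c, chr_symm hG hx 1 b c, chr_symm hG hx 2 b c,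
    chr_symm hG hx 0 b a, chr_symm hG hx 1 b a, chr_symm hG hx 2 b a,
    chr_symm hG hx 0 c a, chr_symm hG hx 1 c a, chr_symm hG hx 2 c a,
    chr_symm hG hx 0 0 b, chr_symm hG hx 0 1 b, chr_symm hG hx 0 2 b,
    chr_symm hG hx 1 0 b, chr_symm hG hx 1 1 b, chr_symm hG hx 1 2 b,
    chr_symm hG hx 2 0 b, chr_symm hG hx 2 1 b, chr_symm hG hx 2 2 b,
    chr_symm hG hx 0 0 c, chr_symm hG hx 0 1 c, chr_symm hG hx 0 2 c,
    chr_symm hG hx 1 0 c, chr_symm hG hx 1 1 c, chr_symm hG hx 1 2 c,
    chr_symm hG hx 2 0 c, chr_symm hG hx 2 1 c, chr_symm hG hx 2 2 c]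
  ring

/-- Ricci identity, contracted: `∇^a ∇_a ∇_b u = ∇_b Δu + Ric_{ab} ∇^a u` -/
theorem div_hess (hu : ContDiffOn ℝ ∞ u U) (hx : x ∈ U) (b : Fin 3) :
    ∑ a, ∑ c, gi G x a c * (pd c (hess G u a b) x -
        ∑ k, (chr G k c a x * hess G u k b x + chr G k c b x * hess G u a k x)) =
      pd b (lap G u) x + ∑ a, ric G a b x * grad G u a x := by
  have hg : ∀ i j, DifferentiableAt ℝ (fun y => gi G y i j) x := fun i j =>
    dAt hG.op (gi_smooth hG i j) hx
  have hh : ∀ i j, DifferentiableAt ℝ (hess G u i j) x := fun i j =>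
    dAt hG.op (hess_smooth hG hu i j) hx
  have h1 : pd b (lap G u) x = ∑ a, ∑ c, gi G x a c * (pd b (hess G u a c) x -
      ∑ k, (chr G k b a x * hess G u k c x + chr G k b c x * hess G u a k x)) := by
    have e : pd b (lap G u) x = ∑ a, ∑ c, (pd b (fun y => gi G y a c) x * hess G u a c x +
        gi G x a c * pd b (hess G u a c) x) := by
      have : lap G u = fun y => ∑ a, ∑ c, gi G y a c * hess G u a c y := rfl
      rw [this, pd_sum fun a _ => DifferentiableAt.fun_sum fun c _ => (hg a c).fun_mul (hh a c)]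
      refine Finset.sum_congr rfl fun a _ => ?_
      rw [pd_sum fun c _ => (hg a c).fun_mul (hh a c)]
      exact Finset.sum_congr rfl fun c _ => pd_mul (hg a c) (hh a c)
    rw [e]
    simp only [pd_gi hG hx, Fin.sum_univ_three]
    ring
  have h2 : ∑ a, ric G a b x * grad G u a x =
      -∑ a, ∑ c, gi G x a c * ∑ m, riem G m a c b x * pd m u x := by
    have e : ∑ a, ∑ c, gi G x a c * ∑ m, riem G m a c b x * pd m u x =
        ∑ m, (∑ a, ∑ c, gi G x a c * riem G m a c b x) * pd m u x := by
      simp only [Fin.sum_univ_three]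
      ring
    rw [e]
    simp only [Loc4aux.contr hG hx]
    simp only [grad, Fin.sum_univ_three]
    rw [gi_symm hG hx 1 0, gi_symm hG hx 2 0, gi_symm hG hx 2 1]
    ring
  rw [h1, h2, ← sub_eq_add_neg, ← Finset.sum_sub_distrib]
  refine Finset.sum_congr rfl fun a _ => ?_
  rw [← Finset.sum_sub_distrib]
  refine Finset.sum_congr rfl fun c _ => ?_
  rw [Loc4aux.ricci_id hG hu hx a b c]
  ring

theorem Loc4aux.pd_grad (hu : ContDiffOn ℝ ∞ u U) (hx : x ∈ U) (a b : Fin 3) :
    pd a (grad G u b) x = ∑ m, gi G x b m * hess G u a m x - ∑ k, chr G b a k x * grad G u k x := by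
  have hg : ∀ i j, DifferentiableAt ℝ (fun y => gi G y i j) x := fun i j =>
    dAt hG.op (gi_smooth hG i j) hx
  have hpu : ∀ a, DifferentiableAt ℝ (pd a u) x := fun a => dAt hG.op (pd_smooth hG.op hu) hx
  have e : pd a (grad G u b) x = ∑ m, (pd a (fun y => gi G y b m) x * pd m u x +
      gi G x b m * pd a (pd m u) x) := by
    have : grad G u b = fun y => ∑ m, gi G y b m * pd m u y := rfl
    rw [this, pd_sum fun m _ => (hg b m).fun_mul (hpu m)]
    exact Finset.sum_congr rfl fun m _ => pd_mul (hg b m) (hpu m)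
  rw [e]
  simp only [pd_gi hG hx, hess, grad, Fin.sum_univ_three]
  ring

theorem bochner (hu : ContDiffOn ℝ ∞ u U) (hx : x ∈ U) :
    lap G (inn G u u) x / 2 =
      ip G (fun a b => hess G u a b x) (fun a b => hess G u a b x) x + inn G u (lap G u) x +
        ev G (fun a b => ric G a b x) u u x := by
  have hh : ∀ i j, DifferentiableAt ℝ (hess G u i j) x := fun i j =>
    dAt hG.op (hess_smooth hG hu i j) hx
  have hgr : ∀ b, DifferentiableAt ℝ (grad G u b) x := fun b =>
    dAt hG.op (ContDiffOn.sum fun m _ => (gi_smooth hG b m).mul (pd_smooth hG.op hu)) hx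
  have h1 : ∀ c, pd c (inn G u u) =ᶠ[𝓝 x] fun y => 2 * ∑ b, hess G u c b y * grad G u b y := by
    intro c
    filter_upwards [hG.op.mem_nhds hx] with y hy
    rw [pd_inn hG hu hu hy c, Finset.sum_add_distrib]
    ring
  have h2 : ∀ a c, pd a (pd c (inn G u u)) x = 2 * ∑ b, (pd a (hess G u c b) x * grad G u b x +
      hess G u c b x * pd a (grad G u b) x) := by
    intro a c
    rw [pd_congr (h1 c), pd_mul (f := fun _ => (2 : ℝ)) (by fun_prop)
      (DifferentiableAt.fun_sum fun b _ => (hh c b).fun_mul (hgr b)), pd_const,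
      pd_sum fun b _ => (hh c b).fun_mul (hgr b)]
    rw [zero_mul, zero_add]
    congr 1
    exact Finset.sum_congr rfl fun b _ => pd_mul (hh c b) (hgr b)
  have h3 : lap G (inn G u u) x / 2 = ∑ b, (∑ a, ∑ c, gi G x a c * (pd c (hess G u a b) x -
        ∑ k, (chr G k c a x * hess G u k b x + chr G k c b x * hess G u a k x))) * grad G u b x +
      ∑ a, ∑ c, gi G x a c * ∑ b, ∑ m, gi G x b m * hess G u a b x * hess G u c m x := by
    have e : lap G (inn G u u) x = ∑ c, ∑ a, gi G x c a * (pd c (pd a (inn G u u)) x -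
        ∑ k, chr G k c a x * pd k (inn G u u) x) := rfl
    rw [e]
    have e2 : ∀ k, pd k (inn G u u) x = 2 * ∑ b, hess G u k b x * grad G u b x := fun k =>
      (h1 k).self_of_nhds
    simp only [h2, e2, Loc4aux.pd_grad hG hu hx]
    have e3 : ∀ c a, gi G x c a = gi G x a c := gi_symm hG hx
    rw [Finset.sum_comm]
    have e4 : ∀ a c, gi G x c a * (2 * ∑ b, (pd c (hess G u a b) x * grad G u b x +
        hess G u a b x * (∑ m, gi G x b m * hess G u c m x - ∑ k, chr G b c k x * grad G u k x)) -
        ∑ k, chr G k c a x * (2 * ∑ b, hess G u k b x * grad G u b x)) / 2 =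
        ∑ b, (gi G x a c * (pd c (hess G u a b) x - ∑ k, (chr G k c a x * hess G u k b x +
          chr G k c b x * hess G u a k x))) * grad G u b x +
        gi G x a c * ∑ b, ∑ m, gi G x b m * hess G u a b x * hess G u c m x := by
      intro a c
      rw [e3 c a]
      simp only [Fin.sum_univ_three]
      ring
    calc (∑ a, ∑ c, gi G x c a * (2 * ∑ b, (pd c (hess G u a b) x * grad G u b x +
        hess G u a b x * (∑ m, gi G x b m * hess G u c m x - ∑ k, chr G b c k x * grad G u k x)) -
        ∑ k, chr G k c a x * (2 * ∑ b, hess G u k b x * grad G u b x))) / 2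
        = ∑ a, ∑ c, (gi G x c a * (2 * ∑ b, (pd c (hess G u a b) x * grad G u b x +
        hess G u a b x * (∑ m, gi G x b m * hess G u c m x - ∑ k, chr G b c k x * grad G u k x)) -
        ∑ k, chr G k c a x * (2 * ∑ b, hess G u k b x * grad G u b x)) / 2) := by
          rw [Finset.sum_div]
          exact Finset.sum_congr rfl fun a _ => Finset.sum_div _ _ _
      _ = ∑ a, ∑ c, (∑ b, (gi G x a c * (pd c (hess G u a b) x - ∑ k, (chr G k c a x *
          hess G u k b x + chr G k c b x * hess G u a k x))) * grad G u b x +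
        gi G x a c * ∑ b, ∑ m, gi G x b m * hess G u a b x * hess G u c m x) :=
          Finset.sum_congr rfl fun a _ => Finset.sum_congr rfl fun c _ => e4 a c
      _ = _ := by
          simp only [Finset.sum_add_distrib (f := fun c => ∑ b, (gi G x _ c *
            (pd c (hess G u _ b) x - ∑ k, (chr G k c _ x *
              hess G u k b x + chr G k c b x * hess G u _ k x))) * grad G u b x)]
          rw [Finset.sum_add_distrib]
          congr 1
          simp only [Finset.sum_mul]
          rw [Finset.sum_comm (s := Finset.univ) (t := Finset.univ)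
            (f := fun (b : Fin 3) (a : Fin 3) => ∑ c, (gi G x a c * (pd c (hess G u a b) x -
              ∑ k, (chr G k c a x * hess G u k b x + chr G k c b x * hess G u a k x))) *
                grad G u b x)]
          exact Finset.sum_congr rfl fun a _ => Finset.sum_comm
  have h4 := fun b => div_hess hG hu hx b
  rw [h3]
  simp only [h4]
  have h5 : ∑ b, (pd b (lap G u) x + ∑ a, ric G a b x * grad G u a x) * grad G u b x =
      inn G u (lap G u) x + ev G (fun a b => ric G a b x) u u x := by
    rw [inn_eq_grad hG hx]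
    simp only [ev, Fin.sum_univ_three]
    ring
  have h6 : ∑ a, ∑ c, gi G x a c * ∑ b, ∑ m, gi G x b m * hess G u a b x * hess G u c m x =
      ip G (fun a b => hess G u a b x) (fun a b => hess G u a b x) x := by
    unfold ip
    refine Finset.sum_congr rfl fun a _ => ?_
    rw [Finset.sum_comm]
    refine Finset.sum_congr rfl fun c _ => ?_
    rw [Finset.mul_sum]
    refine Finset.sum_congr rfl fun b _ => ?_
    rw [Finset.mul_sum]
    exact Finset.sum_congr rfl fun m _ => by ring
  rw [h5, h6]
  ring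

end

end YR
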