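import Pool.Agent.Work.MP_71b0e8_gt.Skel.Loc4
import Pool.Agent.Work.MP_71b0e8_gt.Loc5Alg

/-! The contracted Bianchi identity. -/

open scoped ContDiff Topology
open MeasureTheory Metric Set Filter

noncomputable section

namespace YR

namespace Loc5b

open Loc5Alg

theorem dAt {f : E → ℝ} {U : Set E} (hU : IsOpen U) (hf : ContDiffOn ℝ ∞ f U) {x : E}
    (hx : x ∈ U) : DifferentiableAt ℝ f x :=
  (hf.contDiffAt (hU.mem_nhds hx)).differentiableAt (by simp)

section

variable {U : Set E} {G : E → Mat} (hG : LM U G) {x : E}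

/-- the symbols at a point -/
def Ga (G : E → Mat) (x : E) : T3 := fun k a l => chr G k a l x

def Da (G : E → Mat) (x : E) : T4 := fun e k a l => pd e (chr G k a l) x

def DDa (G : E → Mat) (x : E) : T5 := fun e a k b l => pd e (pd a (chr G k b l)) x

def Ra (G : E → Mat) (x : E) : T4 := fun k l a b => riem G k l a b x

def dRa (G : E → Mat) (x : E) : T5 := fun e k l a b => pd e (riem G k l a b) x

theorem Ra_eq (G : E → Mat) (x : E) (k l a b : Fin 3) :
    Ra G x k l a b = Rm (Ga G x) (Da G x) k l a b := rfl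

theorem Ra_anti (G : E → Mat) (x : E) (k l a b : Fin 3) : Ra G x k l a b = - Ra G x k l b a := by
  unfold Ra riem
  rw [neg_add, ← Finset.sum_neg_distrib]
  congr 1
  · ring
  · exact Finset.sum_congr rfl fun m _ => by ring

theorem dRa_anti (G : E → Mat) (x : E) (e k l a b : Fin 3) :
    dRa G x e k l a b = - dRa G x e k l b a := by
  unfold dRa
  rw [← pd_neg]
  congr 1
  funext y
  exact Ra_anti G y k l a b

include hG

theorem riem_smooth (k l a b : Fin 3) : ContDiffOn ℝ ∞ (riem G k l a b) U := by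
  unfold riem
  refine ContDiffOn.add (ContDiffOn.sub ?_ ?_) ?_
  · exact pd_smooth hG.op (chr_smooth hG _ _ _)
  · exact pd_smooth hG.op (chr_smooth hG _ _ _)
  · refine ContDiffOn.sum fun m _ => ContDiffOn.sub ?_ ?_
    · exact (chr_smooth hG _ _ _).mul (chr_smooth hG _ _ _)
    · exact (chr_smooth hG _ _ _).mul (chr_smooth hG _ _ _)

theorem dRa_eq (hx : x ∈ U) (e k l a b : Fin 3) :
    dRa G x e k l a b = dRm (Ga G x) (Da G x) (DDa G x) e k l a b := by
  have hc : ∀ k a b, DifferentiableAt ℝ (chr G k a b) x := fun k a b =>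
    dAt hG.op (chr_smooth hG k a b) hx
  have hpc : ∀ c k a b, DifferentiableAt ℝ (pd c (chr G k a b)) x := fun c k a b =>
    dAt hG.op (pd_smooth hG.op (chr_smooth hG k a b)) hx
  unfold dRa
  have h1 : riem G k l a b = fun y => (pd a (chr G k b l) y - pd b (chr G k a l) y) +
      ∑ m, (chr G k a m y * chr G m b l y - chr G k b m y * chr G m a l y) := rfl
  rw [h1, pd_add ((hpc _ _ _ _).fun_sub (hpc _ _ _ _))
    (DifferentiableAt.fun_sum fun m _ =>
      ((hc _ _ _).fun_mul (hc _ _ _)).fun_sub ((hc _ _ _).fun_mul (hc _ _ _))),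
    pd_sub (hpc _ _ _ _) (hpc _ _ _ _),
    pd_sum fun m _ => ((hc _ _ _).fun_mul (hc _ _ _)).fun_sub ((hc _ _ _).fun_mul (hc _ _ _))]
  unfold dRm DDa Ga Da
  congr 1
  refine Finset.sum_congr rfl fun m _ => ?_
  rw [pd_sub ((hc _ _ _).fun_mul (hc _ _ _)) ((hc _ _ _).fun_mul (hc _ _ _)),
    pd_mul (hc _ _ _) (hc _ _ _), pd_mul (hc _ _ _) (hc _ _ _)]

theorem nR_cyc' (hx : x ∈ U) (k l a b e : Fin 3) :
    nR (Ga G x) (Ra G x) (dRa G x) e k l a b + nR (Ga G x) (Ra G x) (dRa G x) a k l b e +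
      nR (Ga G x) (Ra G x) (dRa G x) b k l e a = 0 := by
  refine nR_cyc _ _ _ (fun k a b => chr_symm hG hx k a b) (Ra_anti G x) k l a b e ?_
  have := bianchi2 (Ga G x) (Da G x) (DDa G x)
    (fun e a k b l => pd_comm hG.op (chr_smooth hG k b l) hx) k l a b e
  rw [dRa_eq hG hx, dRa_eq hG hx, dRa_eq hG hx]
  exact this

theorem anti' (hx : x ∈ U) (k l a b : Fin 3) :
    ∑ m, Ra G x k m a b * gi G x m l + ∑ m, Ra G x l m a b * gi G x m k = 0 := by
  have hc : ∀ k a b, DifferentiableAt ℝ (chr G k a b) x := fun k a b =>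
    dAt hG.op (chr_smooth hG k a b) hx
  have hg : ∀ a b, DifferentiableAt ℝ (fun y => gi G y a b) x := fun a b =>
    dAt hG.op (gi_smooth hG a b) hx
  have key : ∀ a b : Fin 3, pd a (pd b (fun y => gi G y k l)) x =
      -∑ m, ((pd a (chr G k b m) x * gi G x m l + chr G k b m x *
          -∑ j, (chr G m a j x * gi G x j l + chr G l a j x * gi G x m j)) +
        (pd a (chr G l b m) x * gi G x k m + chr G l b m x *
          -∑ j, (chr G k a j x * gi G x j m + chr G m a j x * gi G x k j))) := by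
    intro a b
    have h1 : pd b (fun y => gi G y k l) =ᶠ[𝓝 x] fun y =>
        -∑ m, (chr G k b m y * gi G y m l + chr G l b m y * gi G y k m) := by
      filter_upwards [hG.op.mem_nhds hx] with y hy using pd_gi hG hy b k l
    rw [pd_congr h1, pd_neg, pd_sum fun m _ =>
      ((hc _ _ _).fun_mul (hg _ _)).fun_add ((hc _ _ _).fun_mul (hg _ _))]
    congr 1
    refine Finset.sum_congr rfl fun m _ => ?_
    rw [pd_add ((hc _ _ _).fun_mul (hg _ _)) ((hc _ _ _).fun_mul (hg _ _)),
      pd_mul (hc _ _ _) (hg _ _),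
      pd_mul (hc _ _ _) (hg _ _), pd_gi hG hx a m l, pd_gi hG hx a k m]
  have h2 := pd_comm (a := a) (b := b) hG.op (gi_smooth hG k l) hx
  rw [key a b, key b a] at h2
  exact anti (Ga G x) (Da G x) (gi G x) (gi_symm hG hx) k l a b h2

theorem ric_eq (hx : x ∈ U) (l b : Fin 3) : ric G l b x = ∑ k, riem G k l k b x := by
  unfold ric riem
  refine Finset.sum_congr rfl fun k _ => ?_
  have h1 : ∀ (c k a b : Fin 3), pd c (chr G k a b) x = pd c (chr G k b a) x := fun c k a b =>
    pd_congr (by filter_upwards [hG.op.mem_nhds hx] with y hy using chr_symm hG hy k a b)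
  rw [h1 k k l b, h1 b k l k]
  congr 1
  refine Finset.sum_congr rfl fun m _ => ?_
  rw [chr_symm hG hx m l b, chr_symm hG hx m l k]

theorem hW (hx : x ∈ U) (k b : Fin 3) :
    ∑ l, ∑ e, gi G x l e * Ra G x k l b e = ∑ m, gi G x k m * ∑ j, Ra G x j m j b :=
  traceW (Ra G x) (gi G x) (gi_symm hG hx) (Ra_anti G x) (anti' hG hx) k b

theorem hdW (hx : x ∈ U) (c k b : Fin 3) :
    ∑ l, ∑ e, ((-∑ m, (Ga G x l c m * gi G x m e + Ga G x e c m * gi G x l m)) * Ra G x k l b e +
        gi G x l e * dRa G x c k l b e) =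
      ∑ m, ((-∑ j, (Ga G x k c j * gi G x j m + Ga G x m c j * gi G x k j)) *
        (∑ j, Ra G x j m j b) + gi G x k m * ∑ j, dRa G x c j m j b) := by
  have hg : ∀ a b, DifferentiableAt ℝ (fun y => gi G y a b) x := fun a b =>
    dAt hG.op (gi_smooth hG a b) hx
  have hr : ∀ k l a b, DifferentiableAt ℝ (riem G k l a b) x := fun k l a b =>
    dAt hG.op (riem_smooth hG k l a b) hx
  have h1 : pd c (fun y => ∑ l, ∑ e, gi G y l e * riem G k l b e y) x =
      pd c (fun y => ∑ m, gi G y k m * ∑ j, riem G j m j b y) x :=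
    pd_congr (by filter_upwards [hG.op.mem_nhds hx] with y hy using hW hG hy k b)
  rw [pd_sum fun l _ => DifferentiableAt.fun_sum fun e _ => (hg _ _).fun_mul (hr _ _ _ _),
    pd_sum fun m _ => (hg _ _).fun_mul (DifferentiableAt.fun_sum fun j _ => hr _ _ _ _)] at h1
  have h2 : ∀ l, pd c (fun y => ∑ e, gi G y l e * riem G k l b e y) x =
      ∑ e, ((-∑ m, (Ga G x l c m * gi G x m e + Ga G x e c m * gi G x l m)) * Ra G x k l b e +
        gi G x l e * dRa G x c k l b e) := by
    intro l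
    rw [pd_sum fun e _ => (hg _ _).fun_mul (hr _ _ _ _)]
    refine Finset.sum_congr rfl fun e _ => ?_
    rw [pd_mul (hg _ _) (hr _ _ _ _), pd_gi hG hx c l e]
    rfl
  have h3 : ∀ m, pd c (fun y => gi G y k m * ∑ j, riem G j m j b y) x =
      ((-∑ j, (Ga G x k c j * gi G x j m + Ga G x m c j * gi G x k j)) *
        (∑ j, Ra G x j m j b) + gi G x k m * ∑ j, dRa G x c j m j b) := by
    intro m
    rw [pd_mul (hg _ _) (DifferentiableAt.fun_sum fun j _ => hr _ _ _ _), pd_gi hG hx c k m,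
      pd_sum fun j _ => hr _ _ _ _]
    rfl
  simp_rw [h2, h3] at h1
  exact h1

end

end Loc5b

open Loc5Alg Loc5b

section

variable {U : Set E} {G : E → Mat} (hG : LM U G) {x : E}

include hG

theorem bianchi (hx : x ∈ U) (b : Fin 3) :
    ∑ a, ∑ c, gi G x a c * (pd c (ric G a b) x -
        ∑ k, (chr G k c a x * ric G k b x + chr G k c b x * ric G a k x)) =
      pd b (scal G) x / 2 := by
  have hg : ∀ a b, DifferentiableAt ℝ (fun y => gi G y a b) x := fun a b =>
    dAt hG.op (gi_smooth hG a b) hx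
  have hr : ∀ k l a b, DifferentiableAt ℝ (riem G k l a b) x := fun k l a b =>
    dAt hG.op (riem_smooth hG k l a b) hx
  have hric : ∀ a b, DifferentiableAt ℝ (ric G a b) x := fun a b =>
    dAt hG.op (ric_smooth hG a b) hx
  have hdr : ∀ e l b, pd e (ric G l b) x = ∑ k, dRa G x e k l k b := by
    intro e l b
    have h1 : pd e (ric G l b) x = pd e (fun y => ∑ k, riem G k l k b y) x :=
      pd_congr (by filter_upwards [hG.op.mem_nhds hx] with y hy using ric_eq hG hy l b)
    rw [h1, pd_sum fun k _ => hr _ _ _ _]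
    rfl
  have hsc : pd b (scal G) x = ∑ l, ∑ e,
      ((-∑ m, (Ga G x l b m * gi G x m e + Ga G x e b m * gi G x l m)) * (∑ k, Ra G x k l k e) +
        gi G x l e * ∑ k, dRa G x b k l k e) := by
    have h1 : scal G = fun y => ∑ l, ∑ e, gi G y l e * ric G l e y := rfl
    rw [h1, pd_sum fun l _ => DifferentiableAt.fun_sum fun e _ => (hg _ _).fun_mul (hric _ _)]
    refine Finset.sum_congr rfl fun l _ => ?_
    rw [pd_sum fun e _ => (hg _ _).fun_mul (hric _ _)]
    refine Finset.sum_congr rfl fun e _ => ?_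
    rw [pd_mul (hg _ _) (hric _ _), pd_gi hG hx b l e, hdr, ric_eq hG hx]
    rfl
  have hmain := contracted (Ga G x) (Ra G x) (dRa G x) (gi G x) (Ra_anti G x) (dRa_anti G x)
    (gi_symm hG hx) (nR_cyc' hG hx) (hW hG hx) (hdW hG hx) b
  rw [← hsc] at hmain
  have hlhs : ∑ a, ∑ c, gi G x a c * (pd c (ric G a b) x -
        ∑ k, (chr G k c a x * ric G k b x + chr G k c b x * ric G a k x)) =
      ∑ a, ∑ c, gi G x a c * nRic (Ga G x) (fun l b => ∑ k, Ra G x k l k b)
        (fun e l b => ∑ k, dRa G x e k l k b) c a b := by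
    refine Finset.sum_congr rfl fun a _ => Finset.sum_congr rfl fun c _ => ?_
    congr 1
    unfold nRic
    rw [hdr]
    congr 1
    refine Finset.sum_congr rfl fun k _ => ?_
    rw [ric_eq hG hx, ric_eq hG hx]
    rfl
  rw [hlhs]
  linarith

end

end YR
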