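import Pool.Agent.Work.MP_71b0e8_gt.DefsA
import Pool.Agent.Work.MP_71b0e8_gt.Skel.Glob2

/-! MP_71b0e8_gt, module MaxP. -/

open scoped ContDiff Topology
open MeasureTheory Metric Set Filter

noncomputable section

namespace YR

variable {M : Type*} [TopologicalSpace M] [CompactSpace M] [T2Space M] [ConnectedSpace M]
  {𝒜 : Atl M} (𝒢 : Met 𝒜)

/-- (MAXP) -/
theorem lap_nonpos_of_max {u : M → ℝ} (hu : 𝒜.Sm u) {p : M} (hp : ∀ q, u q ≤ u p) :
    𝒢.lap u p ≤ 0 :=
  𝒢.lap_nonpos_of_isLocalMax isOpen_univ (mem_univ p) (hu.on univ)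
    (Filter.Eventually.of_forall hp)

/-- (MAXP) -/
theorem UB_neg {r lam : ℝ} (hr : 0 < r) (hlam : 0 ≤ lam) (hR : ∀ p, r ≤ 𝒢.scal p) :
    UB 𝒢 (-lam) (1 / (lam + r)) := by
  intro κ hκ c hc hle p
  obtain ⟨p0, -, hp0⟩ := isCompact_univ.exists_isMaxOn (univ_nonempty (α := M))
    hκ.continuous.continuousOn
  have hmax : ∀ q, κ q ≤ κ p0 := fun q => hp0 (mem_univ q)
  have hlr : 0 < lam + r := by positivity
  rw [div_mul_eq_mul_div, one_mul]
  rcases le_or_gt (κ p0) 0 with h0 | h0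
  · exact (hmax p).trans (h0.trans (by positivity))
  · refine (hmax p).trans ?_
    rw [le_div_iff₀ hlr]
    have h1 := lap_nonpos_of_max 𝒢 hκ hmax
    have h2 := hle p0
    unfold Met.L at h2
    have h3 := mul_le_mul_of_nonneg_right (hR p0) h0.le
    linarith

end YR
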