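import Pool.Agent.Work.MP_71b0e8_gt.DefsA
import Pool.Agent.Work.MP_71b0e8_gt.Skel.Int
import Pool.Agent.Work.MP_71b0e8_gt.Skel.Ineq2
import Pool.Agent.Work.MP_71b0e8_gt.Skel.Apriori
import Pool.Agent.Work.MP_71b0e8_gt.Skel.Eig
import Pool.Agent.Work.MP_71b0e8_gt.Skel.Extract
import Pool.Agent.Work.MP_71b0e8_gt.Skel.TestLim
import Pool.Agent.Work.MP_71b0e8_gt.Skel.Reg
import Pool.Agent.Work.MP_71b0e8_gt.Skel.Scale

/-! MP_71b0e8_gt, module PartA. -/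

open scoped ContDiff Topology
open MeasureTheory Metric Set Filter

noncomputable section

namespace YR

section local_lemmas

/-- `‖du‖² ≤ (∑ g_aa) ⟨du,du⟩` -/
theorem pa_fderiv_sq_le {U : Set E} {G : E → Mat} (hG : LM U G) {u : E → ℝ} {x : E} (hx : x ∈ U) :
    ‖fderiv ℝ u x‖ ^ 2 ≤ (∑ a, G x a a) * inn G u u x := by
  have h1 : ‖fderiv ℝ u x‖ ≤ √(∑ a, pd a u x ^ 2) := by
    refine ContinuousLinearMap.opNorm_le_bound _ (Real.sqrt_nonneg _) fun v => ?_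
    rw [fderiv_eq_sum, Real.norm_eq_abs, EuclideanSpace.norm_eq, ← Real.sqrt_mul (by positivity)]
    rw [← Real.sqrt_sq_eq_abs]
    refine Real.sqrt_le_sqrt ?_
    have := Finset.sum_mul_sq_le_sq_mul_sq Finset.univ (fun a => v a) (fun a => pd a u x)
    calc (∑ a, v a * pd a u x) ^ 2 ≤ (∑ a, v a ^ 2) * ∑ a, pd a u x ^ 2 := this
      _ = (∑ a, pd a u x ^ 2) * ∑ a, ‖v a‖ ^ 2 := by
          rw [mul_comm]; simp [Real.norm_eq_abs, sq_abs]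
  have h2 : ‖fderiv ℝ u x‖ ^ 2 ≤ ∑ a, pd a u x ^ 2 := by
    calc ‖fderiv ℝ u x‖ ^ 2 ≤ (√(∑ a, pd a u x ^ 2)) ^ 2 := by gcongr
      _ = _ := Real.sq_sqrt (by positivity)
  refine h2.trans ?_
  rw [Finset.sum_mul]
  exact Finset.sum_le_sum fun a _ => pd_sq_le hG hx a

theorem pa_pow_four_sub {a b : ℝ} (ha : 0 ≤ a) (ha1 : a ≤ 1) (hb : 0 ≤ b) (hb1 : b ≤ 1) :
    |a ^ 4 - b ^ 4| ≤ 4 * |a - b| := by
  have h : a ^ 4 - b ^ 4 = (a ^ 3 + a ^ 2 * b + a * b ^ 2 + b ^ 3) * (a - b) := by ring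
  rw [h, abs_mul]
  refine mul_le_mul_of_nonneg_right ?_ (abs_nonneg _)
  rw [abs_of_nonneg (by positivity)]
  have h1 : a ^ 3 ≤ 1 := pow_le_one₀ ha ha1
  have h2 : a ^ 2 * b ≤ 1 := mul_le_one₀ (pow_le_one₀ ha ha1) hb hb1
  have h3 : a * b ^ 2 ≤ 1 := mul_le_one₀ ha1 (by positivity) (pow_le_one₀ hb hb1)
  have h4 : b ^ 3 ≤ 1 := pow_le_one₀ hb hb1
  linarith

theorem pa_real {V S1 S2 δ K : ℝ} (hV : 0 < V) (hδ : 0 < δ) (hδ6 : δ ≤ 1 / 6)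
    (hE : 1 / 3 - δ < V * S2 / S1 ^ 2) (hle : S2 ≤ K) :
    0 < S2 ∧ S1 ^ 2 / (3 * V) - S2 ≤ 6 * δ * K := by
  have hS1 : S1 ≠ 0 := by
    intro h
    rw [h] at hE
    simp only [ne_eq, OfNat.ofNat_ne_zero, not_false_eq_true, zero_pow, div_zero] at hE
    linarith
  have hS1sq : 0 < S1 ^ 2 := by positivity
  have hE' : (1 / 3 - δ) * S1 ^ 2 < V * S2 := by
    rwa [lt_div_iff₀ hS1sq] at hE
  have hS2 : 0 < S2 := by
    have h1 : 0 < V * S2 := lt_of_le_of_lt (by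
      refine mul_nonneg ?_ hS1sq.le
      linarith) hE'
    exact (mul_pos_iff_of_pos_left hV).1 h1
  refine ⟨hS2, ?_⟩
  have h1 : S1 ^ 2 / (3 * V) ≤ (1 + 6 * δ) * S2 := by
    rw [div_le_iff₀ (by positivity)]
    have h2 : S1 ^ 2 ≤ (1 + 6 * δ) * (3 * ((1 / 3 - δ) * S1 ^ 2)) := by
      have : 0 ≤ ((1 + 6 * δ) * (1 - 3 * δ) - 1) * S1 ^ 2 := by
        refine mul_nonneg ?_ hS1sq.le
        nlinarith
      nlinarith
    have h3 : (1 + 6 * δ) * (3 * ((1 / 3 - δ) * S1 ^ 2)) ≤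
        (1 + 6 * δ) * (3 * (V * S2)) := by gcongr
    linarith [h2, h3]
  have h4 : 6 * δ * S2 ≤ 6 * δ * K := by gcongr
  linarith

theorem pa_real2 {x δ V : ℝ} (hδ : 0 < δ) (hV : 0 < V) (hx : |x| ≤ √(δ / (V + 1))) :
    (x / 4) ^ 2 ≤ δ / (V + 1) := by
  have h4 : x ^ 2 ≤ δ / (V + 1) := by
    rw [← Real.sq_sqrt (by positivity : 0 ≤ δ / (V + 1)), ← sq_abs]
    gcongr
  have h5 : 0 ≤ x ^ 2 := sq_nonneg _
  nlinarith

theorem pa_real3 {a b D δ K : ℝ} (hδ : 0 < δ) (ha : 0 ≤ a) (hb : 0 ≤ b) (hD : D ≤ 6 * δ * K) {e : ℝ}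
    (he : e ≤ δ) (h : (1 / 2) * a + (1 / 24) * b ≤ D + (1 / 3) * e) :
    b ≤ 24 * (6 * K + 1) * δ ∧ a ≤ 24 * (6 * K + 1) * δ := by
  have h1 : 24 * (6 * K + 1) * δ = 24 * (6 * δ * K) + 24 * δ := by ring
  rw [h1]
  constructor <;> linarith

end local_lemmas

variable {M : Type*} [TopologicalSpace M] [CompactSpace M] [T2Space M] [ConnectedSpace M]
  [MeasurableSpace M] [BorelSpace M] {𝒜 : Atl M} (𝒢 : Met 𝒜)

theorem pa_conf_congr {w w' : M → ℝ} (h : w = w') (hw : 𝒜.Sm w) (hp : ∀ p, 0 < w p)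
    (hw' : 𝒜.Sm w') (hp' : ∀ p, 0 < w' p) : 𝒢.conf w hw hp = 𝒢.conf w' hw' hp' := by
  subst h; rfl

/-- step 1: normalisation -/
theorem pa_normalise (hsup : ∀ δ > 0, ∃ (w : M → ℝ) (hw : 𝒜.Sm w) (hp : ∀ p, 0 < w p),
      (∀ p, 0 < (𝒢.conf w hw hp).scal p) ∧ 1 / 3 - δ < (𝒢.conf w hw hp).EE)
    {δ : ℝ} (hδ : 0 < δ) :
    ∃ (v : M → ℝ) (_ : 𝒜.Sm v) (hw : 𝒜.Sm fun p => v p ^ 4) (hp : ∀ p, 0 < v p ^ 4),
      (∀ p, 0 < v p) ∧ (∀ p, v p ≤ 1) ∧ (∃ p, v p = 1) ∧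
      (∀ p, 0 < (𝒢.conf (fun p => v p ^ 4) hw hp).scal p) ∧
      1 / 3 - δ < (𝒢.conf (fun p => v p ^ 4) hw hp).EE := by
  obtain ⟨w, hw, hp, hs, hE⟩ := hsup δ hδ
  obtain ⟨p₀, -, hp₀⟩ := isCompact_univ.exists_isMaxOn univ_nonempty hw.continuous.continuousOn
  set c : ℝ := (w p₀)⁻¹ with hc
  have hc0 : 0 < c := inv_pos.2 (hp p₀)
  have hcw : 𝒜.Sm fun p => c * w p := (Atl.Sm.const c).mul hw
  have hcp : ∀ p, 0 < c * w p := fun p => mul_pos hc0 (hp p)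
  have hv : 𝒜.Sm fun p => (c * w p) ^ (1 / 4 : ℝ) := hcw.rpow hcp _
  have h4 : (fun p => ((c * w p) ^ (1 / 4 : ℝ)) ^ 4) = fun p => c * w p := by
    funext p
    rw [← Real.rpow_natCast, ← Real.rpow_mul (hcp p).le]
    norm_num
  have hw4 : 𝒜.Sm fun p => ((c * w p) ^ (1 / 4 : ℝ)) ^ 4 := by rw [h4]; exact hcw
  have hp4 : ∀ p, 0 < ((c * w p) ^ (1 / 4 : ℝ)) ^ 4 := fun p => by
    have := Real.rpow_pos_of_pos (hcp p) (1 / 4 : ℝ)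
    positivity
  have key : 𝒢.conf (fun p => ((c * w p) ^ (1 / 4 : ℝ)) ^ 4) hw4 hp4 =
      𝒢.conf (fun p => c * w p) hcw hcp := pa_conf_congr 𝒢 h4 _ _ _ _
  refine ⟨fun p => (c * w p) ^ (1 / 4 : ℝ), hv, hw4, hp4, fun p => Real.rpow_pos_of_pos (hcp p) _,
    fun p => ?_, ⟨p₀, ?_⟩, ?_, ?_⟩
  · refine Real.rpow_le_one (hcp p).le ?_ (by norm_num)
    have : w p ≤ w p₀ := hp₀ (mem_univ p)
    rw [hc, inv_mul_le_iff₀ (hp p₀)]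
    linarith
  · show (c * w p₀) ^ (1 / 4 : ℝ) = 1
    rw [hc, inv_mul_cancel₀ (hp p₀).ne', Real.one_rpow]
  · intro p
    rw [key, scal_smul 𝒢 hw hp hc0]
    exact mul_pos (by positivity) (hs p)
  · rw [key, EE_smul 𝒢 hw hp hc0]
    exact hE

/-- step 2: the functions `f` -/
theorem pa_step (hR : ∀ p, 0 < 𝒢.scal p) (hD : ∀ 𝒢' : Met 𝒜, (∀ p, 0 < 𝒢'.scal p) → DR 𝒢' 0)
    (hsup : ∀ δ > 0, ∃ (w : M → ℝ) (hw : 𝒜.Sm w) (hp : ∀ p, 0 < w p),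
      (∀ p, 0 < (𝒢.conf w hw hp).scal p) ∧ 1 / 3 - δ < (𝒢.conf w hw hp).EE) :
    ∃ A : ℝ, ∀ δ : ℝ, 0 < δ → δ ≤ 1 / 6 →
      ∃ (v f : M → ℝ) (hw : 𝒜.Sm fun p => v p ^ 4) (hp : ∀ p, 0 < v p ^ 4),
        𝒜.Sm v ∧ 𝒜.Sm f ∧ (∀ p, 0 < v p) ∧ (∀ p, v p ≤ 1) ∧ (∃ p, v p = 1) ∧
        ∫ p, 𝒢.inn v v p ^ 2 ∂𝒢.vol ≤ A ∧
        ∫ p, (𝒢.conf (fun p => v p ^ 4) hw hp).inn f f p ^ 2
          ∂(𝒢.conf (fun p => v p ^ 4) hw hp).vol ≤ A * δ ∧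
        ∫ p, (𝒢.conf (fun p => v p ^ 4) hw hp).q2 f p
          ∂(𝒢.conf (fun p => v p ^ 4) hw hp).vol ≤ A * δ := by
  obtain ⟨C, hC0, hC⟩ := apriori 𝒢 hR
  have hV := 𝒢.V_pos
  refine ⟨24 * (6 * (C * 𝒢.V) + 1), fun δ hδ hδ6 => ?_⟩
  obtain ⟨v, hv, hw, hp, hv0, hv1, hvm, hs, hE⟩ := pa_normalise 𝒢 hsup hδ
  set 𝒢' := 𝒢.conf (fun p => v p ^ 4) hw hp with h𝒢'
  have hap := hC v hv hv0 hw hp hs
  have hv4 : ∫ p, v p ^ 4 ∂𝒢.vol ≤ 𝒢.V := by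
    unfold Met.V
    refine integral_mono (𝒢.integrable_sm hw) (𝒢.integrable_sm (Atl.Sm.const 1)) fun p => ?_
    exact pow_le_one₀ (hv0 p).le (hv1 p)
  have hinn0 : 0 ≤ ∫ p, 𝒢.inn v v p ^ 2 ∂𝒢.vol := integral_nonneg fun p => sq_nonneg _
  have hCV : C * ∫ p, v p ^ 4 ∂𝒢.vol ≤ C * 𝒢.V := mul_le_mul_of_nonneg_left hv4 hC0
  have hV' := 𝒢'.V_pos
  obtain ⟨hS2, hDle⟩ := pa_real (K := C * 𝒢.V) hV' hδ hδ6 hE (by linarith)
  -- approximate eigenfunction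
  have hε : 0 < √(δ / (𝒢'.V + 1)) := Real.sqrt_pos.2 (div_pos hδ (by linarith))
  obtain ⟨w, μ, hws, hw0, hwL, hwμ⟩ := exists_eig 𝒢' hs (hD 𝒢' hs) hε
  have hin := ineq2 𝒢' hs hws hw0 hwL (μ / 4)
  set f : M → ℝ := fun q => 2 * Real.log (w q) with hf
  have hfs : 𝒜.Sm f := (Atl.Sm.const 2).mul (hws.log hw0)
  have herr : ∫ p, (𝒢'.L w p / (4 * w p) - μ / 4) ^ 2 ∂𝒢'.vol ≤ δ := by
    have h1 : ∀ p, (𝒢'.L w p / (4 * w p) - μ / 4) ^ 2 ≤ δ / (𝒢'.V + 1) := fun p => by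
      have h2 : 𝒢'.L w p / (4 * w p) - μ / 4 = (𝒢'.L w p / w p - μ) / 4 := by
        have := (hw0 p).ne'
        field_simp
      rw [h2]
      exact pa_real2 hδ hV' (hwμ p)
    have hsm : 𝒜.Sm fun p => (𝒢'.L w p / (4 * w p) - μ / 4) ^ 2 :=
      (((𝒢'.Sm_L hws).div ((Atl.Sm.const 4).mul hws)
        (fun p => (mul_pos four_pos (hw0 p)).ne')).sub (Atl.Sm.const _)).pow 2
    calc ∫ p, (𝒢'.L w p / (4 * w p) - μ / 4) ^ 2 ∂𝒢'.vol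
        ≤ ∫ _ : M, δ / (𝒢'.V + 1) * 1 ∂𝒢'.vol :=
          integral_mono (𝒢'.integrable_sm hsm)
            ((𝒢'.integrable_sm (Atl.Sm.const 1)).const_mul _) fun p => by simpa using h1 p
      _ = δ / (𝒢'.V + 1) * 𝒢'.V := by rw [integral_const_mul]; rfl
      _ ≤ δ := by
          rw [div_mul_eq_mul_div, div_le_iff₀ (by linarith)]
          have := mul_pos hδ hV'
          linarith
  have hq0 : 0 ≤ ∫ p, 𝒢'.q2 f p ∂𝒢'.vol := integral_nonneg fun p => 𝒢'.q2_nonneg f p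
  have hi0 : 0 ≤ ∫ p, 𝒢'.inn f f p ^ 2 ∂𝒢'.vol := integral_nonneg fun p => sq_nonneg _
  have hAV : 0 ≤ C * 𝒢.V := mul_nonneg hC0 hV.le
  obtain ⟨hr1, hr2⟩ := pa_real3 hδ hq0 hi0 hDle herr hin
  refine ⟨v, f, hw, hp, hv, hfs, hv0, hv1, hvm, ?_, hr1, hr2⟩
  linarith

theorem pa_gradient (i : Fin 𝒜.n) {r : ℝ} (hr : r < 4) : ∃ C : ℝ, 0 ≤ C ∧ ∀ v : M → ℝ,
    𝒜.Sm v → (∀ p, 0 < v p) → (∀ p, v p ≤ 1) →
    ∫ x in ball (0 : E) r, ‖fderiv ℝ (𝒜.rd (fun p => v p ^ 4) i) x‖ ^ 4 ≤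
      C * ∫ p, 𝒢.inn v v p ^ 2 ∂𝒢.vol := by
  have hK : IsCompact (closedBall (0 : E) r) := isCompact_closedBall _ _
  have hK4 : closedBall (0 : E) r ⊆ ball 0 4 := closedBall_subset_ball hr
  obtain ⟨C, hC0, hC⟩ := 𝒢.chart_integral_le i hK hK4
  -- bound of the metric
  have hcont : ContinuousOn (fun x => ∑ a, 𝒢.g i x a a) (closedBall (0 : E) r) := by
    refine continuousOn_finsetSum _ fun a _ => ?_
    exact (((𝒢.lm i).smooth a a).continuousOn).mono hK4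
  obtain ⟨B, hB⟩ := hK.exists_bound_of_continuousOn hcont
  set B' := max B 0 with hB'
  have hB'0 : 0 ≤ B' := le_max_right _ _
  refine ⟨256 * B' ^ 2 * C, by positivity, fun v hv h0 h1 => ?_⟩
  have hsq : 𝒜.Sm fun p => 𝒢.inn v v p ^ 2 := (𝒢.Sm_inn hv hv).pow 2
  obtain ⟨hint, hle⟩ := hC (fun p => 𝒢.inn v v p ^ 2) (𝒢.integrable_sm hsq) fun p => sq_nonneg _
  have hpt : ∀ x ∈ closedBall (0 : E) r, ‖fderiv ℝ (𝒜.rd (fun p => v p ^ 4) i) x‖ ^ 4 ≤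
      256 * B' ^ 2 * 𝒜.rd (fun p => 𝒢.inn v v p ^ 2) i x := by
    intro x hx
    have hx4 := hK4 hx
    have hvd : DifferentiableAt ℝ (𝒜.rd v i) x :=
      ((hv i).contDiffAt (isOpen_ball.mem_nhds hx4)).differentiableAt (by simp)
    have hd : fderiv ℝ (𝒜.rd (fun p => v p ^ 4) i) x =
        (4 * 𝒜.rd v i x ^ 3) • fderiv ℝ (𝒜.rd v i) x := by
      have : 𝒜.rd (fun p => v p ^ 4) i = fun x => 𝒜.rd v i x ^ 4 := rfl
      rw [this]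
      have h := (hvd.hasFDerivAt.pow 4).fderiv
      simpa using h
    have hn : ‖fderiv ℝ (𝒜.rd (fun p => v p ^ 4) i) x‖ ≤ 4 * ‖fderiv ℝ (𝒜.rd v i) x‖ := by
      rw [hd, norm_smul]
      refine mul_le_mul_of_nonneg_right ?_ (norm_nonneg _)
      rw [Real.norm_eq_abs, abs_mul, abs_pow]
      have h2 : |𝒜.rd v i x| ≤ 1 := by
        show |v ((𝒜.φ i).symm x)| ≤ 1
        rw [abs_of_pos (h0 _)]
        exact h1 _
      have h3 : |𝒜.rd v i x| ^ 3 ≤ 1 := pow_le_one₀ (abs_nonneg _) h2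
      rw [abs_of_pos (by norm_num : (0 : ℝ) < 4)]
      linarith
    have hfd := pa_fderiv_sq_le (𝒢.lm i) (u := 𝒜.rd v i) hx4
    have hinn : 𝒜.rd (fun p => 𝒢.inn v v p ^ 2) i x =
        YR.inn (𝒢.g i) (𝒜.rd v i) (𝒜.rd v i) x ^ 2 := by
      show 𝒢.inn v v ((𝒜.φ i).symm x) ^ 2 = _
      rw [𝒢.inn_chart isOpen_univ (hv.on univ) (hv.on univ) i ⟨hx4, mem_univ _⟩]
    have hi0 : 0 ≤ YR.inn (𝒢.g i) (𝒜.rd v i) (𝒜.rd v i) x := inn_self_nonneg (𝒢.lm i) hx4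
    have hBx : ∑ a, 𝒢.g i x a a ≤ B' := (le_abs_self _).trans ((hB x hx).trans (le_max_left _ _))
    have h4 : ‖fderiv ℝ (𝒜.rd v i) x‖ ^ 2 ≤ B' * YR.inn (𝒢.g i) (𝒜.rd v i) (𝒜.rd v i) x :=
      hfd.trans (mul_le_mul_of_nonneg_right hBx hi0)
    calc ‖fderiv ℝ (𝒜.rd (fun p => v p ^ 4) i) x‖ ^ 4 ≤ (4 * ‖fderiv ℝ (𝒜.rd v i) x‖) ^ 4 := by
          gcongr
      _ = 256 * (‖fderiv ℝ (𝒜.rd v i) x‖ ^ 2) ^ 2 := by ring
      _ ≤ 256 * (B' * YR.inn (𝒢.g i) (𝒜.rd v i) (𝒜.rd v i) x) ^ 2 := by gcongr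
      _ = 256 * B' ^ 2 * 𝒜.rd (fun p => 𝒢.inn v v p ^ 2) i x := by rw [hinn]; ring
  calc ∫ x in ball (0 : E) r, ‖fderiv ℝ (𝒜.rd (fun p => v p ^ 4) i) x‖ ^ 4
      ≤ ∫ x in ball (0 : E) r, 256 * B' ^ 2 * 𝒜.rd (fun p => 𝒢.inn v v p ^ 2) i x := by
        refine integral_mono_of_nonneg (Filter.Eventually.of_forall fun x => by positivity)
          ((hint.mono_set ball_subset_closedBall).const_mul _) ?_
        filter_upwards [ae_restrict_mem measurableSet_ball] with x hx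
        exact hpt x (ball_subset_closedBall hx)
    _ = 256 * B' ^ 2 * ∫ x in ball (0 : E) r, 𝒜.rd (fun p => 𝒢.inn v v p ^ 2) i x := by
        rw [integral_const_mul]
    _ ≤ 256 * B' ^ 2 * ∫ x in closedBall (0 : E) r, 𝒜.rd (fun p => 𝒢.inn v v p ^ 2) i x := by
        refine mul_le_mul_of_nonneg_left ?_ (by positivity)
        refine setIntegral_mono_set hint ?_ (Filter.Eventually.of_forall ball_subset_closedBall)
        exact Filter.Eventually.of_forall fun x => sq_nonneg _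
    _ ≤ 256 * B' ^ 2 * (C * ∫ p, 𝒢.inn v v p ^ 2 ∂𝒢.vol) := by gcongr
    _ = _ := by ring

/-- (PARTA) -/
theorem partA (hR : ∀ p, 0 < 𝒢.scal p) (hD : ∀ 𝒢' : Met 𝒜, (∀ p, 0 < 𝒢'.scal p) → DR 𝒢' 0)
    (hsup : ∀ δ > 0, ∃ (w : M → ℝ) (hw : 𝒜.Sm w) (hp : ∀ p, 0 < w p),
      (∀ p, 0 < (𝒢.conf w hw hp).scal p) ∧ 1 / 3 - δ < (𝒢.conf w hw hp).EE) :
    ∃ w : M → ℝ, Sol 𝒢 w ∧ (∀ p, 0 ≤ w p) ∧ ∃ p, w p ≠ 0 := by
  obtain ⟨A, hA⟩ := pa_step 𝒢 hR hD hsup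
  set δ : ℕ → ℝ := fun n => 1 / ((n : ℝ) + 6) with hδ
  have hδ0 : ∀ n, 0 < δ n := fun n => by simp only [hδ]; positivity
  have hδ6 : ∀ n, δ n ≤ 1 / 6 := fun n => by
    simp only [hδ]
    exact one_div_le_one_div_of_le (by norm_num) (by linarith [Nat.cast_nonneg (α := ℝ) n])
  have hδt : Tendsto δ atTop (𝓝 0) := by
    have h1 : Tendsto (fun n : ℕ => (n : ℝ) + 6) atTop atTop :=
      tendsto_atTop_add_const_right _ _ tendsto_natCast_atTop_atTop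
    have h2 : δ = (fun n : ℕ => (n : ℝ) + 6)⁻¹ := by
      funext n
      simp [hδ]
    rw [h2]
    exact h1.inv_tendsto_atTop
  choose v f hw hp hv hf hv0 hv1 hvm hAv hAi hAq using fun n => hA (δ n) (hδ0 n) (hδ6 n)
  have hAδ : Tendsto (fun n => A * δ n) atTop (𝓝 0) := by simpa using hδt.const_mul A
  obtain ⟨θ, V, hθ, hV, hlim, p₁, hp₁⟩ := extract 𝒢 v hv hv0 hv1 hvm A hAv
  have hlimp : ∀ p, Tendsto (fun n => v (θ n) p) atTop (𝓝 (V p)) := fun p =>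
    hlim.tendsto_at p
  have hV0 : ∀ p, 0 ≤ V p := fun p => ge_of_tendsto' (hlimp p) fun n => (hv0 _ p).le
  have hV1 : ∀ p, V p ≤ 1 := fun p => le_of_tendsto' (hlimp p) fun n => hv1 _ p
  have hi : Tendsto (fun n => ∫ p, (𝒢.conf (fun p => v (θ n) p ^ 4) (hw (θ n)) (hp (θ n))).inn
      (f (θ n)) (f (θ n)) p ^ 2
      ∂(𝒢.conf (fun p => v (θ n) p ^ 4) (hw (θ n)) (hp (θ n))).vol) atTop (𝓝 0) :=
    squeeze_zero (fun n => integral_nonneg fun p => sq_nonneg _) (fun n => hAi (θ n))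
      (hAδ.comp hθ.tendsto_atTop)
  have hq : Tendsto (fun n => ∫ p, (𝒢.conf (fun p => v (θ n) p ^ 4) (hw (θ n)) (hp (θ n))).q2
      (f (θ n)) p ∂(𝒢.conf (fun p => v (θ n) p ^ 4) (hw (θ n)) (hp (θ n))).vol) atTop (𝓝 0) :=
    squeeze_zero (fun n => integral_nonneg fun p => Met.q2_nonneg _ _ _) (fun n => hAq (θ n))
      (hAδ.comp hθ.tendsto_atTop)
  have key : ∀ (i : Fin 𝒜.n) (r : ℝ), 0 < r → r < 4 →
      ContDiffOn ℝ ∞ (𝒜.rd (fun p => V p ^ 4) i) (ball 0 r) ∧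
      ∀ x ∈ ball (0 : E) r, ∀ a b, TT (𝒢.g i) (𝒜.rd (fun p => V p ^ 4) i) a b x = 0 := by
    intro i r hr0 hr
    obtain ⟨ε, hε, hT⟩ := test_limit 𝒢 (fun n => v (θ n)) (fun n => f (θ n)) (fun n => hv (θ n))
      (fun n => hv0 (θ n)) (fun n => hv1 (θ n)) (fun n => hf (θ n)) (fun n => hw (θ n))
      (fun n => hp (θ n)) A (fun n => hAv (θ n)) hi hq i hr
    obtain ⟨C, hC0, hC⟩ := pa_gradient 𝒢 i hr
    refine reg (𝒢.lm i) hr0 (closedBall_subset_ball hr)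
      (fun n => 𝒜.rd (fun p => v (θ n) p ^ 4) i) (fun n => hw (θ n) i)
      (𝒜.rd (fun p => V p ^ 4) i) ?_ (C * A) ?_ ε hε hT
    · rw [Metric.tendstoUniformlyOn_iff]
      intro e he
      have := (Metric.tendstoUniformly_iff.1 hlim) (e / 4) (by positivity)
      filter_upwards [this] with n hn x _
      have h1 := hn ((𝒜.φ i).symm x)
      rw [Real.dist_eq] at h1 ⊢
      calc |𝒜.rd (fun p => V p ^ 4) i x - 𝒜.rd (fun p => v (θ n) p ^ 4) i x|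
          ≤ 4 * |V ((𝒜.φ i).symm x) - v (θ n) ((𝒜.φ i).symm x)| :=
            pa_pow_four_sub (hV0 _) (hV1 _) (hv0 _ _).le (hv1 _ _)
        _ < e := by linarith
    · intro n
      exact (hC (v (θ n)) (hv _) (hv0 _) (hv1 _)).trans (mul_le_mul_of_nonneg_left (hAv _) hC0)
  refine ⟨fun p => V p ^ 4, ⟨fun i => ?_, fun i x hx a b => ?_⟩, fun p => by
    have := hV0 p
    positivity, p₁, by show V p₁ ^ 4 ≠ 0; rw [hp₁]; norm_num⟩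
  · intro x hx
    have hx' : ‖x‖ < 4 := by simpa using hx
    have hr : ‖x‖ < (‖x‖ + 4) / 2 := by linarith
    have h := (key i ((‖x‖ + 4) / 2) (by positivity) (by linarith)).1
    have hmem : x ∈ ball (0 : E) ((‖x‖ + 4) / 2) := by simpa using hr
    exact (h.contDiffAt (isOpen_ball.mem_nhds hmem)).contDiffWithinAt
  · have hx' : ‖x‖ < 4 := by simpa using hx
    have hr : ‖x‖ < (‖x‖ + 4) / 2 := by linarith
    have hmem : x ∈ ball (0 : E) ((‖x‖ + 4) / 2) := by simpa using hr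
    exact (key i ((‖x‖ + 4) / 2) (by positivity) (by linarith)).2 x hmem a b

end YR
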