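import Pool.Agent.Work.MP_71b0e8_gt.DefsA
import Pool.Agent.Work.MP_71b0e8_gt.Skel.RegAbs
import Pool.Agent.Work.MP_71b0e8_gt.Skel.Loc

/-! MP_71b0e8_gt, module Reg. -/

open scoped ContDiff Topology
open MeasureTheory Metric Set Filter

noncomputable section

namespace YR

theorem reg_mul {U B : Set E} (hU : IsOpen U) (hBU : B ⊆ U) {f φ : E → ℝ}
    (hf : ContDiffOn ℝ ∞ f U) (hφ : Tst B φ) : Tst B (fun x => f x * φ x) := by
  obtain ⟨h1, h2, h3⟩ := hφ
  refine ⟨?_, h2.mul_left, ?_⟩
  · rw [contDiff_iff_contDiffAt]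
    intro y
    by_cases hy : y ∈ U
    · exact (hf.contDiffAt (hU.mem_nhds hy)).mul h1.contDiffAt
    · have hy2 : y ∉ tsupport φ := fun h => hy (hBU (h3 h))
      have h4 : (fun x => f x * φ x) =ᶠ[𝓝 y] fun _ => (0 : ℝ) := by
        filter_upwards [(isClosed_tsupport φ).isOpen_compl.mem_nhds hy2] with z hz
        have h5 : φ z = 0 := image_eq_zero_of_notMem_tsupport hz
        rw [h5, mul_zero]
      exact contDiffAt_const.congr_of_eventuallyEq h4
  · exact (tsupport_mul_subset_right (f := f) (g := φ)).trans h3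

theorem reg_pd {B : Set E} {φ : E → ℝ} (a : Fin 3) (hφ : Tst B φ) : Tst B (pd a φ) := by
  obtain ⟨h1, h2, h3⟩ := hφ
  refine ⟨?_, ?_, ?_⟩
  · unfold pd
    exact (h1.fderiv_right (m := ∞) (by simp)).clm_apply contDiff_const
  · unfold pd
    exact h2.fderiv_apply ℝ (be a)
  · unfold pd
    exact (tsupport_fderiv_apply_subset ℝ (be a)).trans h3

theorem reg_bd {B : Set E} {φ : E → ℝ} (hφ : Tst B φ) :
    ∃ K, (∀ x, |φ x| ≤ K) ∧ (∀ x, ‖fderiv ℝ φ x‖ ≤ K) := by
  obtain ⟨h1, h2, h3⟩ := hφ
  obtain ⟨C1, hC1⟩ := h2.exists_bound_of_continuous h1.continuous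
  obtain ⟨C2, hC2⟩ := (h2.fderiv (𝕜 := ℝ)).exists_bound_of_continuous
    (h1.continuous_fderiv (by simp))
  exact ⟨max C1 C2, fun x => (hC1 x).trans (le_max_left _ _),
    fun x => (hC2 x).trans (le_max_right _ _)⟩

theorem reg_int {B : Set E} {φ : E → ℝ} (hφ : Tst B φ) : Integrable φ :=
  hφ.1.continuous.integrable_of_hasCompactSupport hφ.2.1

theorem reg_pd_integral {B : Set E} {φ : E → ℝ} (a : Fin 3) (hφ : Tst B φ) :
    ∫ y, pd a φ y = 0 := by
  have h := integral_mul_fderiv_eq_neg_fderiv_mul_of_integrable (μ := (volume : Measure E))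
    (f := fun _ : E => (1 : ℝ)) (g := φ) (v := be a) (by simp)
    (by
      have h1 := reg_int (reg_pd a hφ)
      simp only [one_mul]
      exact h1)
    (by simpa using reg_int hφ)
    (fun x _ => differentiableAt_const _) (fun x _ => (hφ.1.differentiable (by simp)).differentiableAt)
  simpa [pd] using h

theorem reg_ibp {U B : Set E} (hU : IsOpen U) (hBU : B ⊆ U) {T φ : E → ℝ} (c : Fin 3)
    (hT : ContDiffOn ℝ ∞ T U) (hφ : Tst B φ) :
    ∫ x, pd c T x * φ x = -∫ x, T x * pd c φ x := by
  have h1 := reg_pd_integral c (reg_mul hU hBU hT hφ)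
  have h2 : ∀ x, pd c (fun x => T x * φ x) x = pd c T x * φ x + T x * pd c φ x := by
    intro x
    by_cases hx : x ∈ U
    · exact pd_mul ((hT.contDiffAt (hU.mem_nhds hx)).differentiableAt (by simp))
        ((hφ.1.differentiable (by simp)).differentiableAt)
    · have hy2 : x ∉ tsupport φ := fun h => hx (hBU (hφ.2.2 h))
      have h5 : φ =ᶠ[𝓝 x] fun _ => (0 : ℝ) := by
        filter_upwards [(isClosed_tsupport φ).isOpen_compl.mem_nhds hy2] with z hz
        exact image_eq_zero_of_notMem_tsupport hz
      have h4 : (fun x => T x * φ x) =ᶠ[𝓝 x] fun _ => (0 : ℝ) := by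
        filter_upwards [h5] with z hz
        rw [hz, mul_zero]
      rw [pd_congr h4, pd_congr h5, pd_const, h5.eq_of_nhds]
      ring
  simp only [h2] at h1
  rw [integral_add (reg_int (reg_mul hU hBU (pd_smooth hU hT) hφ))
    (reg_int (reg_mul hU hBU hT (reg_pd c hφ)))] at h1
  linarith

theorem reg_sch_smooth {U : Set E} {G : E → Mat} (hG : LM U G) (a b : Fin 3) :
    ContDiffOn ℝ ∞ (sch G a b) U := by
  unfold sch
  exact (ric_smooth hG a b).sub (((scal_smooth hG).div_const 4).mul (hG.smooth a b))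

/-- (REG) weak limits of almost solutions of `T(w) = 0` are smooth solutions -/
theorem reg {U : Set E} {G : E → Mat} (hG : LM U G) {x0 : E} {r : ℝ} (hr : 0 < r)
    (hU : closedBall x0 r ⊆ U) (w : ℕ → E → ℝ) (hw : ∀ n, ContDiffOn ℝ ∞ (w n) U) (W : E → ℝ)
    (hlim : TendstoUniformlyOn w W atTop (closedBall x0 r)) (A : ℝ)
    (hA : ∀ n, ∫ x in ball x0 r, ‖fderiv ℝ (w n) x‖ ^ 4 ≤ A)
    (ε : ℕ → ℝ) (hε : Tendsto ε atTop (𝓝 0))
    (hT : ∀ n φ, Tst (ball x0 r) φ → ∀ K, (∀ x, |φ x| ≤ K) → (∀ x, ‖fderiv ℝ φ x‖ ≤ K) →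
      ∀ a b, |∫ x, TT G (w n) a b x * φ x| ≤ ε n * K) :
    ContDiffOn ℝ ∞ W (ball x0 r) ∧ ∀ x ∈ ball x0 r, ∀ a b, TT G W a b x = 0 := by
  have hBU : ball x0 r ⊆ U := ball_subset_closedBall.trans hU
  have hlimT : ∀ φ, Tst (ball x0 r) φ → ∀ a b,
      Tendsto (fun n => ∫ x, TT G (w n) a b x * φ x) atTop (𝓝 0) := by
    intro φ hφ a b
    obtain ⟨K, hK1, hK2⟩ := reg_bd hφ
    have h1 : Tendsto (fun n => ε n * K) atTop (𝓝 0) := by
      simpa using hε.mul_const K
    exact squeeze_zero_norm (fun n => hT n φ hφ K hK1 hK2 a b) h1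
  obtain ⟨hW, P, hP, hsys⟩ := regabs (x0 := x0) (r := r) (chr G) (sch G) (fun a b x => G x a b)
    (fun b c x => ∑ d, sch G b d x * gi G x d c)
    (fun k a b => (chr_smooth hG k a b).mono hU) (fun a b => (reg_sch_smooth hG a b).mono hU)
    (fun a b => (hG.smooth a b).mono hU)
    (fun a b => ContDiffOn.mono (ContDiffOn.sum fun d _ =>
      (reg_sch_smooth hG a d).mul (gi_smooth hG d b)) hU)
    (fun x hx => (hG.pos x (hU hx)).diag_pos)
    w (fun n => rho G (w n)) (fun n => (hw n).mono hBU)
    (fun n => (rho_smooth hG (hw n)).mono hBU) W (hlim.mono ball_subset_closedBall) A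
    (fun n => by
      have h1 : ContinuousOn (fun x => ‖fderiv ℝ (w n) x‖ ^ 4) U :=
        (((hw n).continuousOn_fderiv_of_isOpen hG.op (by simp)).norm).pow 4
      exact ((h1.mono hU).integrableOn_compact (isCompact_closedBall x0 r)).mono_set
        ball_subset_closedBall)
    hA ε hε
    (fun n φ hφ K hK1 hK2 a b => hT n φ hφ K hK1 hK2 a b)
    (by
      intro φ hφ b
      have hψ : ∀ a c, Tst (ball x0 r) (fun x => gi G x a c * φ x) := fun a c =>
        reg_mul hG.op hBU (gi_smooth hG a c) hφ
      have hχ : ∀ a c k d e, Tst (ball x0 r) (fun x => chr G k d e x * (gi G x a c * φ x)) :=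
        fun a c k d e => reg_mul hG.op hBU (chr_smooth hG k d e) (hψ a c)
      have key : ∀ n, ∫ x, (pd b (rho G (w n)) x +
          ∑ c, (∑ d, sch G b d x * gi G x d c) * pd c (w n) x) * φ x =
          (1 / 2) * ∑ a, ∑ c, (-(∫ x, TT G (w n) a b x * pd c (fun x => gi G x a c * φ x) x) -
            ∑ k, ((∫ x, TT G (w n) k b x * (chr G k c a x * (gi G x a c * φ x))) +
              ∫ x, TT G (w n) a k x * (chr G k c b x * (gi G x a c * φ x)))) := by
        intro n
        have hTs : ∀ a b, ContDiffOn ℝ ∞ (TT G (w n) a b) U := fun a b => TT_smooth hG (hw n) a b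
        have i1 : ∀ a c, Integrable (fun x => pd c (TT G (w n) a b) x * (gi G x a c * φ x)) :=
          fun a c => reg_int (reg_mul hG.op hBU (pd_smooth hG.op (hTs a b)) (hψ a c))
        have i2 : ∀ a c k, Integrable (fun x => TT G (w n) k b x *
            (chr G k c a x * (gi G x a c * φ x))) :=
          fun a c k => reg_int (reg_mul hG.op hBU (hTs k b) (hχ a c k c a))
        have i3 : ∀ a c k, Integrable (fun x => TT G (w n) a k x *
            (chr G k c b x * (gi G x a c * φ x))) :=
          fun a c k => reg_int (reg_mul hG.op hBU (hTs a k) (hχ a c k c b))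
        have i23 : ∀ a c k, Integrable (fun x => TT G (w n) k b x *
            (chr G k c a x * (gi G x a c * φ x)) + TT G (w n) a k x *
            (chr G k c b x * (gi G x a c * φ x))) := fun a c k => (i2 a c k).add (i3 a c k)
        have i4 : ∀ a c, Integrable (fun x => ∑ k, (TT G (w n) k b x *
            (chr G k c a x * (gi G x a c * φ x)) + TT G (w n) a k x *
            (chr G k c b x * (gi G x a c * φ x)))) :=
          fun a c => integrable_finsetSum _ fun k _ => i23 a c k
        have e1 : ∀ a c, -(∫ x, TT G (w n) a b x * pd c (fun x => gi G x a c * φ x) x) -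
            ∑ k, ((∫ x, TT G (w n) k b x * (chr G k c a x * (gi G x a c * φ x))) +
              ∫ x, TT G (w n) a k x * (chr G k c b x * (gi G x a c * φ x))) =
            ∫ x, (pd c (TT G (w n) a b) x * (gi G x a c * φ x) - ∑ k, (TT G (w n) k b x *
            (chr G k c a x * (gi G x a c * φ x)) + TT G (w n) a k x *
            (chr G k c b x * (gi G x a c * φ x)))) := by
          intro a c
          rw [integral_sub (i1 a c) (i4 a c), integral_finsetSum _ fun k _ =>
            i23 a c k, ← reg_ibp hG.op hBU c (hTs a b) (hψ a c)]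
          congr 1
          exact Finset.sum_congr rfl fun k _ => (integral_add (i2 a c k) (i3 a c k)).symm
        have i5 : ∀ a c, Integrable (fun x => pd c (TT G (w n) a b) x * (gi G x a c * φ x) -
            ∑ k, (TT G (w n) k b x * (chr G k c a x * (gi G x a c * φ x)) + TT G (w n) a k x *
            (chr G k c b x * (gi G x a c * φ x)))) := fun a c => (i1 a c).sub (i4 a c)
        simp only [e1]
        rw [show (∑ a, ∑ c, ∫ x, (pd c (TT G (w n) a b) x * (gi G x a c * φ x) -
            ∑ k, (TT G (w n) k b x * (chr G k c a x * (gi G x a c * φ x)) + TT G (w n) a k x *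
            (chr G k c b x * (gi G x a c * φ x))))) = ∫ x, ∑ a, ∑ c,
              (pd c (TT G (w n) a b) x * (gi G x a c * φ x) -
            ∑ k, (TT G (w n) k b x * (chr G k c a x * (gi G x a c * φ x)) + TT G (w n) a k x *
            (chr G k c b x * (gi G x a c * φ x)))) by
          rw [integral_finsetSum _ fun a _ => integrable_finsetSum _ fun c _ => i5 a c]
          exact Finset.sum_congr rfl fun a _ =>
            (integral_finsetSum _ fun c _ => i5 a c).symm]
        rw [← integral_const_mul]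
        refine integral_congr_ae (Eventually.of_forall fun x => ?_)
        by_cases hx : x ∈ U
        · have h1 := div_TT hG (hw n) hx b
          simp only [grad] at h1
          simp only [Fin.sum_univ_three] at h1 ⊢
          linear_combination (-φ x / 2) * h1
        · have h0 : φ x = 0 := by
            apply image_eq_zero_of_notMem_tsupport
            exact fun h => hx (hBU (hφ.2.2 h))
          simp only [h0, mul_zero, add_zero, Finset.sum_const_zero, sub_zero]
      have lim : Tendsto (fun n => (1 / 2 : ℝ) * ∑ a, ∑ c,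
          (-(∫ x, TT G (w n) a b x * pd c (fun x => gi G x a c * φ x) x) -
            ∑ k, ((∫ x, TT G (w n) k b x * (chr G k c a x * (gi G x a c * φ x))) +
              ∫ x, TT G (w n) a k x * (chr G k c b x * (gi G x a c * φ x))))) atTop
          (𝓝 ((1 / 2 : ℝ) * ∑ _a : Fin 3, ∑ _c : Fin 3, (-0 - ∑ _k : Fin 3, (0 + 0)))) := by
        refine Tendsto.const_mul _ (tendsto_finsetSum _ fun a _ => tendsto_finsetSum _ fun c _ =>
          Tendsto.sub (Tendsto.neg (hlimT _ (reg_pd c (hψ a c)) a b))
            (tendsto_finsetSum _ fun k _ => Tendsto.add (hlimT _ (hχ a c k c a) k b)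
              (hlimT _ (hχ a c k c b) a k)))
      simp only [key]
      simpa using lim)
  refine ⟨hW, fun x hx a b => ?_⟩
  have hxU : x ∈ U := hBU hx
  obtain ⟨h1, -⟩ := hsys x hx
  have h2 : ∀ a b, hess G W a b x = - (W x * sch G a b x) + P x * G x a b := by
    intro a b
    unfold hess
    rw [h1 a b]
    ring
  have h3 : lap G W x = - (W x * (scal G x / 4)) + P x * 3 := by
    have t := tr_metric hG hxU
    have e : lap G W x = - (W x * (scal G x - scal G x / 4 *
        tr G (fun a b => G x a b) x)) + P x * tr G (fun a b => G x a b) x := by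
      unfold lap
      simp only [h2]
      unfold sch
      have hsc : scal G x = tr G (fun a b => ric G a b x) x := rfl
      rw [hsc]
      unfold tr
      simp only [Fin.sum_univ_three]
      ring
    rw [e, t]
    ring
  unfold TT
  rw [h2 a b]
  unfold rho
  rw [h3]
  ring

end YR
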