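import Pool.Agent.Work.MP_71b0e8_gt.DefsA
import Pool.Agent.Work.MP_71b0e8_gt.Skel.Weak1
import Pool.Agent.Work.MP_71b0e8_gt.Skel.Weak2
import Pool.Agent.Work.MP_71b0e8_gt.Skel.Loc0

/-! MP_71b0e8_gt, module RegAbs. -/

open scoped ContDiff Topology
open MeasureTheory Metric Set Filter

noncomputable section

namespace YR

/-! ### test functions -/

theorem ra_zero {B : Set E} {φ : E → ℝ} (h : Tst B φ) {x : E} (hx : x ∉ B) : φ x = 0 :=
  image_eq_zero_of_notMem_tsupport fun h' => hx (h.2.2 h')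

theorem ra_mono {B B' : Set E} {φ : E → ℝ} (h : Tst B φ) (hs : B ⊆ B') : Tst B' φ :=
  ⟨h.1, h.2.1, h.2.2.trans hs⟩

theorem ra_mul {B : Set E} (hB : IsOpen B) {c φ : E → ℝ} (hc : ContDiffOn ℝ ∞ c B)
    (h : Tst B φ) : Tst B (fun x => c x * φ x) := by
  have hsub : tsupport (fun x => c x * φ x) ⊆ tsupport φ :=
    tsupport_mul_subset_right (f := c) (g := φ)
  refine ⟨?_, h.2.1.mul_left (f := c), hsub.trans h.2.2⟩
  rw [contDiff_iff_contDiffAt]
  intro x
  by_cases hx : x ∈ tsupport φ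
  · exact (hc.contDiffAt (hB.mem_nhds (h.2.2 hx))).mul h.1.contDiffAt
  · have h1 : φ =ᶠ[𝓝 x] fun _ => 0 := notMem_tsupport_iff_eventuallyEq.1 hx
    have h2 : (fun x => c x * φ x) =ᶠ[𝓝 x] fun _ => 0 := by
      filter_upwards [h1] with y hy
      simp [hy]
    exact contDiffAt_const.congr_of_eventuallyEq h2

theorem ra_pd {B : Set E} {φ : E → ℝ} (h : Tst B φ) (a : Fin 3) : Tst B (pd a φ) := by
  refine ⟨?_, h.2.1.fderiv_apply (𝕜 := ℝ) (be a), ?_⟩
  · have : ContDiff ℝ ∞ (fderiv ℝ φ) := h.1.fderiv_right (by simp)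
    exact this.clm_apply contDiff_const
  · exact (tsupport_fderiv_apply_subset ℝ (be a)).trans h.2.2

theorem ra_cont {B : Set E} (hB : IsOpen B) {u φ : E → ℝ} (hu : ContinuousOn u B)
    (h : Tst B φ) : Continuous (fun x => u x * φ x) := by
  rw [continuous_iff_continuousAt]
  intro x
  by_cases hx : x ∈ tsupport φ
  · exact (hu.continuousAt (hB.mem_nhds (h.2.2 hx))).mul h.1.continuous.continuousAt
  · have h1 : φ =ᶠ[𝓝 x] fun _ => 0 := notMem_tsupport_iff_eventuallyEq.1 hx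
    have h2 : (fun x => u x * φ x) =ᶠ[𝓝 x] fun _ => 0 := by
      filter_upwards [h1] with y hy
      simp [hy]
    exact continuousAt_const.congr h2.symm

theorem ra_int {B : Set E} (hB : IsOpen B) {u φ : E → ℝ} (hu : ContinuousOn u B)
    (h : Tst B φ) : Integrable (fun x => u x * φ x) :=
  (ra_cont hB hu h).integrable_of_hasCompactSupport (h.2.1.mul_left (f := u))

theorem ra_pdc {B : Set E} (hB : IsOpen B) {u : E → ℝ} (hu : ContDiffOn ℝ 1 u B) (a : Fin 3) :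
    ContinuousOn (pd a u) B := by
  have h1 : ContinuousOn (fderiv ℝ u) B := hu.continuousOn_fderiv_of_isOpen hB le_rfl
  exact h1.clm_apply continuousOn_const

theorem ra_ibp {B : Set E} (hB : IsOpen B) {u φ : E → ℝ} (hu : ContDiffOn ℝ 1 u B)
    (h : Tst B φ) (a : Fin 3) : ∫ x, pd a u x * φ x = - ∫ x, u x * pd a φ x := by
  have := integral_mul_fderiv_eq_neg_fderiv_mul_of_integrable (μ := (volume : Measure E))
    (f := φ) (g := u) (v := be a) ?_ ?_ ?_ ?_ ?_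
  · have e1 : ∫ x, pd a u x * φ x = ∫ x, φ x * fderiv ℝ u x (be a) := by
      congr 1; ext x; simp only [pd]; ring
    have e2 : ∫ x, u x * pd a φ x = ∫ x, fderiv ℝ φ x (be a) * u x := by
      congr 1; ext x; simp only [pd]; ring
    rw [e1, e2, this]
  · have := ra_int hB hu.continuousOn (ra_pd h a)
    refine this.congr (Eventually.of_forall fun x => ?_)
    simp only [pd]; ring
  · have := ra_int hB (ra_pdc hB hu a) h
    refine this.congr (Eventually.of_forall fun x => ?_)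
    simp only [pd]; ring
  · have := ra_int hB hu.continuousOn h
    refine this.congr (Eventually.of_forall fun x => ?_)
    ring
  · intro x _
    exact (h.1.differentiable (by simp)) x
  · intro x hx
    exact (hu.differentiableOn (by simp) x (h.2.2 hx)).differentiableAt (hB.mem_nhds (h.2.2 hx))

/-- sup bounds of a test function -/
theorem ra_bd {B : Set E} {φ : E → ℝ} (h : Tst B φ) :
    ∃ K, 0 ≤ K ∧ (∀ x, |φ x| ≤ K) ∧ ∀ x, ‖fderiv ℝ φ x‖ ≤ K := by
  obtain ⟨K1, h1⟩ := h.1.continuous.bounded_above_of_compact_support h.2.1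
  have hc : Continuous (fderiv ℝ φ) := h.1.continuous_fderiv (by simp)
  obtain ⟨K2, h2⟩ := hc.bounded_above_of_compact_support (h.2.1.fderiv (𝕜 := ℝ))
  refine ⟨max (max K1 K2) 0, le_max_right _ _, fun x => ?_, fun x => ?_⟩
  · exact (h1 x).trans ((le_max_left _ _).trans (le_max_left _ _))
  · exact (h2 x).trans ((le_max_right _ _).trans (le_max_left _ _))

/-- uniform limits -/
theorem ra_lim {B : Set E} (hB : IsOpen B) {w : ℕ → E → ℝ} {W : E → ℝ}
    (hw : ∀ n, ContinuousOn (w n) B) (hlim : TendstoUniformlyOn w W atTop B) {φ : E → ℝ}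
    (h : Tst B φ) : Tendsto (fun n => ∫ x, w n x * φ x) atTop (𝓝 (∫ x, W x * φ x)) := by
  have hW : ContinuousOn W B := hlim.continuousOn (Frequently.of_forall hw)
  have hiφ : Integrable (fun x => |φ x|) :=
    (h.1.continuous.integrable_of_hasCompactSupport h.2.1).abs
  rw [Metric.tendsto_atTop]
  intro ε hε
  set T := ∫ x, |φ x| with hT
  have hT0 : 0 ≤ T := integral_nonneg fun _ => abs_nonneg _
  have hδ : 0 < ε / (T + 1) := by positivity
  have := Metric.tendstoUniformlyOn_iff.1 hlim _ hδ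
  obtain ⟨N, hN⟩ := eventually_atTop.1 this
  refine ⟨N, fun n hn => ?_⟩
  rw [Real.dist_eq, ← integral_sub (ra_int hB (hw n) h) (ra_int hB hW h)]
  have h1 : |∫ x, (w n x * φ x - W x * φ x)| ≤ ∫ x, ε / (T + 1) * |φ x| := by
    rw [← Real.norm_eq_abs]
    refine norm_integral_le_of_norm_le (hiφ.const_mul _) (Eventually.of_forall fun x => ?_)
    by_cases hx : x ∈ B
    · have := hN n hn x hx
      rw [Real.dist_eq, abs_sub_comm] at this
      rw [← sub_mul, Real.norm_eq_abs, abs_mul]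
      exact mul_le_mul_of_nonneg_right this.le (abs_nonneg _)
    · simp [ra_zero h hx]
  refine h1.trans_lt ?_
  rw [integral_const_mul, ← hT, div_mul_eq_mul_div, div_lt_iff₀ (by positivity)]
  nlinarith

/-! ### `L⁴` bounded sequences -/

/-- uniformly `L⁴`-bounded sequences -/
def raL (B : Set E) (v : ℕ → E → ℝ) : Prop := ∃ Q : ℝ, ∀ n, ContinuousOn (v n) B ∧
  IntegrableOn (fun x => |v n x| ^ 4) B ∧ ∫ x in B, |v n x| ^ 4 ≤ Q

theorem ra_subset {B B' : Set E} {v : ℕ → E → ℝ} (h : raL B v)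
    (hs : B' ⊆ B) : raL B' v := by
  obtain ⟨Q, hQ⟩ := h
  refine ⟨Q, fun n => ⟨(hQ n).1.mono hs, (hQ n).2.1.mono_set hs, ?_⟩⟩
  refine (setIntegral_mono_set (hQ n).2.1 (Eventually.of_forall fun x => by positivity)
    (Eventually.of_forall hs)).trans (hQ n).2.2

theorem ra_dom {B : Set E} (hm : MeasurableSet B) {u v : ℕ → E → ℝ} (h : raL B v)
    (hu : ∀ n, ContinuousOn (u n) B) {C : ℝ} (hC : ∀ n, ∀ x ∈ B, |u n x| ≤ C * |v n x|) :
    raL B u := by
  obtain ⟨Q, hQ⟩ := h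
  have hpt : ∀ n, ∀ x ∈ B, |u n x| ^ 4 ≤ C ^ 4 * |v n x| ^ 4 := by
    intro n x hx
    rw [← mul_pow]
    exact pow_le_pow_left₀ (abs_nonneg _) (hC n x hx) 4
  have hi : ∀ n, IntegrableOn (fun x => |u n x| ^ 4) B := by
    intro n
    refine Integrable.mono' ((hQ n).2.1.const_mul (C ^ 4))
      (((hu n).abs.pow 4).aestronglyMeasurable hm) ?_
    filter_upwards [ae_restrict_mem hm] with x hx
    rw [Real.norm_of_nonneg (by positivity)]
    exact hpt n x hx
  refine ⟨C ^ 4 * Q, fun n => ⟨hu n, hi n, ?_⟩⟩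
  calc ∫ x in B, |u n x| ^ 4 ≤ ∫ x in B, C ^ 4 * |v n x| ^ 4 :=
        setIntegral_mono_on (hi n) ((hQ n).2.1.const_mul _) hm (hpt n)
    _ = C ^ 4 * ∫ x in B, |v n x| ^ 4 := by rw [integral_const_mul]
    _ ≤ C ^ 4 * Q := mul_le_mul_of_nonneg_left (hQ n).2.2 (by positivity)

theorem ra_add {B : Set E} (hm : MeasurableSet B) {u v : ℕ → E → ℝ} (hu : raL B u)
    (hv : raL B v) : raL B (fun n x => u n x + v n x) := by
  obtain ⟨Q, hQ⟩ := hu
  obtain ⟨R, hR⟩ := hv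
  have hpt : ∀ n x, |u n x + v n x| ^ 4 ≤ 8 * |u n x| ^ 4 + 8 * |v n x| ^ 4 := by
    intro n x
    have h1 : |u n x + v n x| ^ 4 ≤ (|u n x| + |v n x|) ^ 4 :=
      pow_le_pow_left₀ (abs_nonneg _) (abs_add_le _ _) 4
    refine h1.trans ?_
    generalize |u n x| = a
    generalize |v n x| = b
    nlinarith [sq_nonneg (a - b), sq_nonneg (a + b), sq_nonneg (a ^ 2 - b ^ 2),
      mul_nonneg (sq_nonneg (a - b)) (sq_nonneg (a + b)),
      mul_nonneg (sq_nonneg (a - b)) (sq_nonneg (a - b)), sq_nonneg (a * b)]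
  have hc : ∀ n, ContinuousOn (fun x => u n x + v n x) B := fun n => (hQ n).1.add (hR n).1
  have hi2 : ∀ n, IntegrableOn (fun x => 8 * |u n x| ^ 4 + 8 * |v n x| ^ 4) B := fun n =>
    ((hQ n).2.1.const_mul 8).add ((hR n).2.1.const_mul 8)
  have hi : ∀ n, IntegrableOn (fun x => |u n x + v n x| ^ 4) B := by
    intro n
    refine Integrable.mono' (hi2 n) (((hc n).abs.pow 4).aestronglyMeasurable hm) ?_
    refine Eventually.of_forall fun x => ?_
    rw [Real.norm_of_nonneg (by positivity)]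
    exact hpt n x
  refine ⟨8 * Q + 8 * R, fun n => ⟨hc n, hi n, ?_⟩⟩
  calc ∫ x in B, |u n x + v n x| ^ 4 ≤ ∫ x in B, (8 * |u n x| ^ 4 + 8 * |v n x| ^ 4) :=
        setIntegral_mono (hi n) (hi2 n) (hpt n)
    _ = 8 * (∫ x in B, |u n x| ^ 4) + 8 * ∫ x in B, |v n x| ^ 4 := by
        rw [integral_add ((hQ n).2.1.const_mul 8) ((hR n).2.1.const_mul 8),
          integral_const_mul, integral_const_mul]
    _ ≤ 8 * Q + 8 * R := by linarith [(hQ n).2.2, (hR n).2.2]

theorem ra_bdd {B : Set E} (hm : MeasurableSet B) (hf : volume B ≠ ⊤) {u : ℕ → E → ℝ}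
    (hu : ∀ n, ContinuousOn (u n) B) {C : ℝ} (hC : ∀ n, ∀ x ∈ B, |u n x| ≤ C) : raL B u := by
  have h1 : raL B (fun _ _ => (1 : ℝ)) := by
    refine ⟨∫ x in B, (1 : ℝ), fun n => ⟨continuousOn_const, ?_, ?_⟩⟩
    · simp only [abs_one, one_pow]
      exact integrableOn_const hf
    · simp
  exact ra_dom hm h1 hu (C := C) fun n x hx => by simpa using hC n x hx

theorem ra_zeroL {B : Set E} (hm : MeasurableSet B) (hf : volume B ≠ ⊤) :
    raL B (fun _ _ => (0 : ℝ)) :=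
  ra_bdd hm hf (fun _ => continuousOn_const) (C := 0) fun n x _ => by simp

theorem ra_sum {B : Set E} (hm : MeasurableSet B)
    {v : Fin 3 → ℕ → E → ℝ} (h : ∀ k, raL B (v k)) : raL B (fun n x => ∑ k, v k n x) := by
  have : raL B (fun n x => v 0 n x + v 1 n x + v 2 n x) :=
    ra_add hm (ra_add hm (h 0) (h 1)) (h 2)
  simpa only [Fin.sum_univ_three] using this

/-- pairing with bounded functions -/
theorem ra_pair1 {B : Set E} (hB : IsOpen B) (hf : volume B ≠ ⊤) {v : ℕ → E → ℝ}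
    (h : raL B v) : ∃ C, 0 ≤ C ∧ ∀ n φ, Tst B φ → ∀ K, (∀ x, |φ x| ≤ K) →
      |∫ x, v n x * φ x| ≤ C * K := by
  obtain ⟨Q, hQ⟩ := h
  have hm := hB.measurableSet
  have hQ0 : 0 ≤ Q := le_trans (integral_nonneg fun _ => by positivity) (hQ 0).2.2
  refine ⟨volume.real B + Q, by positivity, fun n φ hφ K hK => ?_⟩
  have hK0 : 0 ≤ K := (abs_nonneg _).trans (hK 0)
  have e : ∫ x, v n x * φ x = ∫ x in B, v n x * φ x :=
    (setIntegral_eq_integral_of_forall_compl_eq_zero fun x hx => by simp [ra_zero hφ hx]).symm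
  have hone : IntegrableOn (fun _ : E => (1 : ℝ)) B := integrableOn_const hf
  have hi : IntegrableOn (fun x => K * (1 + |v n x| ^ 4)) B :=
    (hone.add (hQ n).2.1).const_mul K
  have h1 : |∫ x in B, v n x * φ x| ≤ ∫ x in B, K * (1 + |v n x| ^ 4) := by
    rw [← Real.norm_eq_abs]
    refine norm_integral_le_of_norm_le hi (Eventually.of_forall fun x => ?_)
    rw [Real.norm_eq_abs, abs_mul, mul_comm K]
    refine mul_le_mul ?_ (hK x) (abs_nonneg _) (by positivity)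
    generalize |v n x| = a
    nlinarith [sq_nonneg (a ^ 2 - 1 / 2), sq_nonneg (a - 1 / 2), sq_nonneg a]
  rw [e]
  refine h1.trans ?_
  rw [integral_const_mul, integral_add hone (hQ n).2.1, setIntegral_const, smul_eq_mul, mul_one,
    mul_comm]
  exact mul_le_mul_of_nonneg_right (by linarith [(hQ n).2.2]) hK0

/-- pairing with `L^{4/3}` -/
theorem ra_pair2 {B : Set E} (hB : IsOpen B) {v : ℕ → E → ℝ}
    (h : raL B v) : ∃ C, 0 ≤ C ∧ ∀ n φ, Tst B φ →
      |∫ x, v n x * φ x| ≤ C * (∫ x, |φ x| ^ (4 / 3 : ℝ)) ^ (3 / 4 : ℝ) := by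
  obtain ⟨Q, hQ⟩ := h
  have hm := hB.measurableSet
  have hQ0 : 0 ≤ Q := le_trans (integral_nonneg fun _ => by positivity) (hQ 0).2.2
  refine ⟨Q ^ (1 / 4 : ℝ), by positivity, fun n φ hφ => ?_⟩
  have e : ∫ x, v n x * φ x = ∫ x in B, v n x * φ x :=
    (setIntegral_eq_integral_of_forall_compl_eq_zero fun x hx => by simp [ra_zero hφ hx]).symm
  have e2 : ∫ x, |φ x| ^ (4 / 3 : ℝ) = ∫ x in B, |φ x| ^ (4 / 3 : ℝ) :=
    (setIntegral_eq_integral_of_forall_compl_eq_zero fun x hx => by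
      rw [ra_zero hφ hx, abs_zero, Real.zero_rpow (by norm_num)]).symm
  rw [e, e2]
  have hpq : Real.HolderConjugate 4 (4 / 3) := by
    rw [Real.holderConjugate_iff]; norm_num
  have hvm : MemLp (v n) (ENNReal.ofReal 4) (volume.restrict B) := by
    have hms : AEStronglyMeasurable (v n) (volume.restrict B) :=
      (hQ n).1.aestronglyMeasurable hm
    have := integrable_norm_rpow_iff (μ := volume.restrict B) (p := ENNReal.ofReal 4) hms
      (by simp) (by simp)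
    refine this.1 ((hQ n).2.1.congr (Eventually.of_forall fun x => ?_))
    simp only [Real.norm_eq_abs]
    rw [ENNReal.toReal_ofReal (by norm_num)]
    exact (Real.rpow_natCast _ 4).symm
  have hφm : MemLp φ (ENNReal.ofReal (4 / 3)) (volume.restrict B) :=
    (hφ.1.continuous.memLp_of_hasCompactSupport hφ.2.1).restrict B
  have hh := integral_mul_norm_le_Lp_mul_Lq hpq hvm hφm
  have h1 : |∫ x in B, v n x * φ x| ≤ ∫ x in B, ‖v n x‖ * ‖φ x‖ := by
    rw [← Real.norm_eq_abs]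
    refine (norm_integral_le_integral_norm _).trans (le_of_eq ?_)
    simp only [norm_mul]
  refine h1.trans (hh.trans ?_)
  have e3 : ∫ x in B, ‖v n x‖ ^ (4 : ℝ) = ∫ x in B, |v n x| ^ 4 := by
    congr 1; ext x
    rw [Real.norm_eq_abs]
    exact Real.rpow_natCast _ 4
  rw [e3]
  simp only [Real.norm_eq_abs]
  have e4 : (1 / (4 / 3) : ℝ) = 3 / 4 := by norm_num
  rw [e4]
  refine mul_le_mul_of_nonneg_right ?_ (Real.rpow_nonneg (integral_nonneg fun _ =>
    Real.rpow_nonneg (abs_nonneg _) _) _)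
  exact Real.rpow_le_rpow (integral_nonneg fun _ => by positivity) (hQ n).2.2 (by norm_num)

/-! ### coefficients -/

theorem ra_coef {x0 : E} {r r1 : ℝ} (hr : r1 < r) {c : E → ℝ}
    (hc : ContDiffOn ℝ ∞ c (ball x0 r)) :
    ∃ C, 0 ≤ C ∧ (∀ x ∈ ball x0 r1, |c x| ≤ C) ∧ ∀ φ, Tst (ball x0 r1) φ → ∀ K,
      (∀ x, |φ x| ≤ K) → (∀ x, ‖fderiv ℝ φ x‖ ≤ K) →
      (∀ x, |c x * φ x| ≤ C * K) ∧ ∀ x, ‖fderiv ℝ (fun x => c x * φ x) x‖ ≤ C * K := by
  have hsub : closedBall x0 r1 ⊆ ball x0 r := closedBall_subset_ball hr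
  obtain ⟨C1, h1⟩ := (isCompact_closedBall x0 r1).exists_bound_of_continuousOn
    (hc.continuousOn.mono hsub)
  have hd : ContinuousOn (fderiv ℝ c) (ball x0 r) :=
    hc.continuousOn_fderiv_of_isOpen isOpen_ball (by simp)
  obtain ⟨C2, h2⟩ := (isCompact_closedBall x0 r1).exists_bound_of_continuousOn (hd.mono hsub)
  have hb : ball x0 r1 ⊆ closedBall x0 r1 := ball_subset_closedBall
  refine ⟨|C1| + |C2|, by positivity, fun x hx => ?_, fun φ hφ K hK hK' => ?_⟩
  · have := h1 x (hb hx)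
    rw [Real.norm_eq_abs] at this
    linarith [le_abs_self C1, abs_nonneg C2]
  · have hK0 : 0 ≤ K := (abs_nonneg _).trans (hK 0)
    have hc1 : ∀ x ∈ ball x0 r1, |c x| ≤ |C1| := fun x hx => by
      have := h1 x (hb hx)
      rw [Real.norm_eq_abs] at this
      linarith [le_abs_self C1]
    have hc2 : ∀ x ∈ ball x0 r1, ‖fderiv ℝ c x‖ ≤ |C2| := fun x hx => by
      have := h2 x (hb hx)
      linarith [le_abs_self C2]
    refine ⟨fun x => ?_, fun x => ?_⟩
    · by_cases hx : x ∈ ball x0 r1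
      · rw [abs_mul]
        refine mul_le_mul ?_ (hK x) (abs_nonneg _) (by positivity)
        linarith [hc1 x hx, abs_nonneg C2]
      · rw [ra_zero hφ hx, mul_zero, abs_zero]
        positivity
    · by_cases hx : x ∈ ball x0 r1
      · have hcd : DifferentiableAt ℝ c x :=
          (hc.differentiableOn (by simp) x (hsub (hb hx))).differentiableAt
            (isOpen_ball.mem_nhds (hsub (hb hx)))
        have hφd : DifferentiableAt ℝ φ x := (hφ.1.differentiable (by simp)) x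
        rw [show (fun x => c x * φ x) = c * φ from rfl, fderiv_mul hcd hφd]
        calc ‖c x • fderiv ℝ φ x + φ x • fderiv ℝ c x‖
            ≤ ‖c x • fderiv ℝ φ x‖ + ‖φ x • fderiv ℝ c x‖ := norm_add_le _ _
          _ = |c x| * ‖fderiv ℝ φ x‖ + |φ x| * ‖fderiv ℝ c x‖ := by
              rw [norm_smul, norm_smul, Real.norm_eq_abs, Real.norm_eq_abs]
          _ ≤ |C1| * K + K * |C2| := add_le_add
              (mul_le_mul (hc1 x hx) (hK' x) (norm_nonneg _) (abs_nonneg _))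
              (mul_le_mul (hK x) (hc2 x hx) (norm_nonneg _) hK0)
          _ = (|C1| + |C2|) * K := by ring
      · have hz : fderiv ℝ (fun x => c x * φ x) x = 0 := by
          by_contra hne
          have hT : Tst (ball x0 r1) (fun x => c x * φ x) :=
            ra_mul isOpen_ball (hc.mono (ball_subset_ball hr.le)) hφ
          exact hx (hT.2.2 (tsupport_fderiv_subset ℝ (subset_tsupport _ hne)))
        rw [hz, norm_zero]
        positivity

theorem ra_expand {B : Set E} (hB : IsOpen B) {c v : Fin 3 → E → ℝ}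
    (hc : ∀ k, ContDiffOn ℝ ∞ (c k) B) (hv : ∀ k, ContinuousOn (v k) B) {φ : E → ℝ}
    (h : Tst B φ) : ∫ x, (∑ k, c k x * v k x) * φ x = ∑ k, ∫ x, v k x * (c k x * φ x) := by
  rw [← integral_finsetSum _ fun k _ => ra_int hB (hv k) (ra_mul hB (hc k) h)]
  congr 1; ext x
  rw [Finset.sum_mul]
  exact Finset.sum_congr rfl fun k _ => by ring

/-- uniform bound for a uniformly convergent sequence on a smaller ball -/
theorem ra_wb {x0 : E} {r r1 : ℝ} (hr : r1 < r) {w : ℕ → E → ℝ} {W : E → ℝ}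
    (hw : ∀ n, ContinuousOn (w n) (ball x0 r))
    (hlim : TendstoUniformlyOn w W atTop (ball x0 r)) :
    ∃ C, ∀ n, ∀ x ∈ ball x0 r1, |w n x| ≤ C := by
  have hsub : closedBall x0 r1 ⊆ ball x0 r := closedBall_subset_ball hr
  have hb : ball x0 r1 ⊆ closedBall x0 r1 := ball_subset_closedBall
  have hW : ContinuousOn W (ball x0 r) := hlim.continuousOn (Frequently.of_forall hw)
  obtain ⟨C1, h1⟩ := (isCompact_closedBall x0 r1).exists_bound_of_continuousOn (hW.mono hsub)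
  have h2 : ∀ n, ∃ C, ∀ x ∈ closedBall x0 r1, ‖w n x‖ ≤ C := fun n =>
    (isCompact_closedBall x0 r1).exists_bound_of_continuousOn ((hw n).mono hsub)
  choose D hD using h2
  obtain ⟨N, hN⟩ := eventually_atTop.1 (Metric.tendstoUniformlyOn_iff.1 hlim 1 one_pos)
  refine ⟨(∑ n ∈ Finset.range N, |D n|) + |C1| + 1, fun n x hx => ?_⟩
  have hs0 : 0 ≤ ∑ n ∈ Finset.range N, |D n| := Finset.sum_nonneg fun _ _ => abs_nonneg _
  by_cases hn : n < N
  · have h3 : |D n| ≤ ∑ n ∈ Finset.range N, |D n| :=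
      Finset.single_le_sum (f := fun n => |D n|) (fun _ _ => abs_nonneg _) (Finset.mem_range.2 hn)
    have h4 := hD n x (hb hx)
    rw [Real.norm_eq_abs] at h4
    linarith [le_abs_self (D n), abs_nonneg C1]
  · have h3 := hN n (not_lt.1 hn) x (hsub (hb hx))
    rw [Real.dist_eq, abs_sub_comm] at h3
    have h4 := h1 x (hb hx)
    rw [Real.norm_eq_abs] at h4
    have h5 : |w n x| ≤ |w n x - W x| + |W x| := by
      have := abs_add_le (w n x - W x) (W x)
      simpa using this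
    linarith [le_abs_self C1]

/-! ### the data -/

structure RaD (x0 : E) (r : ℝ) (Γ : Fin 3 → Fin 3 → Fin 3 → E → ℝ) (S g s : Fin 3 → Fin 3 → E → ℝ)
    (w ρ : ℕ → E → ℝ) (W : E → ℝ) : Prop where
  hΓ : ∀ k a b, ContDiffOn ℝ ∞ (Γ k a b) (ball x0 r)
  hS : ∀ a b, ContDiffOn ℝ ∞ (S a b) (ball x0 r)
  hg : ∀ a b, ContDiffOn ℝ ∞ (g a b) (ball x0 r)
  hs : ∀ a b, ContDiffOn ℝ ∞ (s a b) (ball x0 r)
  hg0 : ∀ x ∈ ball x0 r, 0 < g 0 0 x
  hw : ∀ n, ContDiffOn ℝ ∞ (w n) (ball x0 r)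
  hρ : ∀ n, ContDiffOn ℝ ∞ (ρ n) (ball x0 r)
  hlim : TendstoUniformlyOn w W atTop (ball x0 r)
  hL : ∀ k, raL (ball x0 r) (fun n => pd k (w n))
  h1 : ∃ ε : ℕ → ℝ, Tendsto ε atTop (𝓝 0) ∧ ∀ n φ, Tst (ball x0 r) φ → ∀ K,
    (∀ x, |φ x| ≤ K) → (∀ x, ‖fderiv ℝ φ x‖ ≤ K) → ∀ a b,
      |(∫ x, ρ n x * (g a b x * φ x)) + (∫ x, pd b (w n) x * pd a φ x) +
        ∫ x, (∑ k, Γ k a b x * pd k (w n) x - w n x * S a b x) * φ x| ≤ ε n * K
  h2 : ∀ φ, Tst (ball x0 r) φ → ∀ b, Tendsto (fun n => (∫ x, ρ n x * pd b φ x) -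
    ∫ x, (∑ c, s b c x * pd c (w n) x) * φ x) atTop (𝓝 0)

namespace RaD

variable {x0 : E} {r : ℝ} {Γ : Fin 3 → Fin 3 → Fin 3 → E → ℝ} {S g s : Fin 3 → Fin 3 → E → ℝ}
    {w ρ : ℕ → E → ℝ} {W : E → ℝ} (D : RaD x0 r Γ S g s w ρ W)

include D

theorem w1 (n : ℕ) : ContDiffOn ℝ 1 (w n) (ball x0 r) := (D.hw n).of_le (by simp)

theorem pdc (n : ℕ) (k : Fin 3) : ContinuousOn (pd k (w n)) (ball x0 r) :=
  ra_pdc isOpen_ball (D.w1 n) k

theorem limw {φ : E → ℝ} (h : Tst (ball x0 r) φ) :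
    Tendsto (fun n => ∫ x, w n x * φ x) atTop (𝓝 (∫ x, W x * φ x)) :=
  ra_lim isOpen_ball (fun n => (D.hw n).continuousOn) D.hlim h

theorem limpd {φ : E → ℝ} (h : Tst (ball x0 r) φ) (a : Fin 3) :
    Tendsto (fun n => ∫ x, pd a (w n) x * φ x) atTop (𝓝 (-∫ x, W x * pd a φ x)) := by
  have h1 := (D.limw (ra_pd h a)).neg
  refine h1.congr fun n => ?_
  rw [ra_ibp isOpen_ball (D.w1 n) h a]

/-- limit of a combination of first derivatives -/
theorem limc {c : Fin 3 → E → ℝ} (hc : ∀ k, ContDiffOn ℝ ∞ (c k) (ball x0 r)) {φ : E → ℝ}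
    (h : Tst (ball x0 r) φ) {L : Fin 3 → ℝ}
    (hL : ∀ k, Tendsto (fun n => ∫ x, pd k (w n) x * (c k x * φ x)) atTop (𝓝 (L k))) :
    Tendsto (fun n => ∫ x, (∑ k, c k x * pd k (w n) x) * φ x) atTop (𝓝 (∑ k, L k)) := by
  have h1 : Tendsto (fun n => ∑ k, ∫ x, pd k (w n) x * (c k x * φ x)) atTop (𝓝 (∑ k, L k)) :=
    tendsto_finsetSum _ fun k _ => hL k
  refine h1.congr fun n => ?_
  rw [ra_expand isOpen_ball hc (fun k => D.pdc n k) h]

theorem zsplit (n : ℕ) (a b : Fin 3) {φ : E → ℝ} (h : Tst (ball x0 r) φ) :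
    ∫ x, (∑ k, Γ k a b x * pd k (w n) x - w n x * S a b x) * φ x =
      (∫ x, (∑ k, Γ k a b x * pd k (w n) x) * φ x) - ∫ x, w n x * (S a b x * φ x) := by
  rw [← integral_sub]
  · congr 1; ext x; ring
  · refine ra_int isOpen_ball ?_ h
    exact continuousOn_finsetSum _ fun k _ => (D.hΓ k a b).continuousOn.mul (D.pdc n k)
  · exact ra_int isOpen_ball (D.hw n).continuousOn (ra_mul isOpen_ball (D.hS a b) h)

theorem limz (a b : Fin 3) {φ : E → ℝ} (h : Tst (ball x0 r) φ) {L : Fin 3 → ℝ}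
    (hL : ∀ k, Tendsto (fun n => ∫ x, pd k (w n) x * (Γ k a b x * φ x)) atTop (𝓝 (L k))) :
    Tendsto (fun n => ∫ x, (∑ k, Γ k a b x * pd k (w n) x - w n x * S a b x) * φ x) atTop
      (𝓝 ((∑ k, L k) - ∫ x, W x * (S a b x * φ x))) := by
  have h1 := (D.limc (fun k => D.hΓ k a b) h hL).sub (D.limw (ra_mul isOpen_ball (D.hS a b) h))
  refine h1.congr fun n => ?_
  rw [D.zsplit n a b h]

theorem exz (a b : Fin 3) {φ : E → ℝ} (h : Tst (ball x0 r) φ) : ∃ L,
    Tendsto (fun n => ∫ x, (∑ k, Γ k a b x * pd k (w n) x - w n x * S a b x) * φ x) atTop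
      (𝓝 L) :=
  ⟨_, D.limz a b h fun k => D.limpd (ra_mul isOpen_ball (D.hΓ k a b) h) k⟩

theorem exc {c : Fin 3 → E → ℝ} (hc : ∀ k, ContDiffOn ℝ ∞ (c k) (ball x0 r)) {φ : E → ℝ}
    (h : Tst (ball x0 r) φ) : ∃ L,
    Tendsto (fun n => ∫ x, (∑ k, c k x * pd k (w n) x) * φ x) atTop (𝓝 L) :=
  ⟨_, D.limc hc h fun k => D.limpd (ra_mul isOpen_ball (hc k) h) k⟩

/-- the limit form of `h1` -/
theorem lim1 {φ : E → ℝ} (h : Tst (ball x0 r) φ) (a b : Fin 3) :
    Tendsto (fun n => (∫ x, ρ n x * (g a b x * φ x)) + (∫ x, pd b (w n) x * pd a φ x) +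
        ∫ x, (∑ k, Γ k a b x * pd k (w n) x - w n x * S a b x) * φ x) atTop (𝓝 0) := by
  obtain ⟨ε, hε, h1⟩ := D.h1
  obtain ⟨K, hK0, hK, hK'⟩ := ra_bd h
  have h2 : Tendsto (fun n => ε n * K) atTop (𝓝 0) := by simpa using hε.mul_const K
  exact squeeze_zero_norm (fun n => by simpa [Real.norm_eq_abs] using h1 n φ h K hK hK' a b) h2

/-- raL for combinations -/
theorem Lc {r1 : ℝ} (hr : r1 < r) {c : Fin 3 → E → ℝ}
    (hc : ∀ k, ContDiffOn ℝ ∞ (c k) (ball x0 r)) :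
    raL (ball x0 r1) (fun n x => ∑ k, c k x * pd k (w n) x) := by
  have hs : ball x0 r1 ⊆ ball x0 r := ball_subset_ball hr.le
  refine ra_sum (v := fun k n x => c k x * pd k (w n) x) measurableSet_ball fun k => ?_
  obtain ⟨C, hC0, hC, -⟩ := ra_coef hr (hc k)
  refine ra_dom measurableSet_ball (ra_subset (D.hL k) hs)
    (fun n => ((hc k).continuousOn.mono hs).mul ((D.pdc n k).mono hs)) (C := C) fun n x hx => ?_
  rw [abs_mul]
  exact mul_le_mul_of_nonneg_right (hC x hx) (abs_nonneg _)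

theorem Lz {r1 : ℝ} (hr : r1 < r) (a b : Fin 3) :
    raL (ball x0 r1) (fun n x => ∑ k, Γ k a b x * pd k (w n) x - w n x * S a b x) := by
  have hs : ball x0 r1 ⊆ ball x0 r := ball_subset_ball hr.le
  obtain ⟨Cw, hCw⟩ := ra_wb hr (fun n => (D.hw n).continuousOn) D.hlim
  obtain ⟨C, hC0, hC, -⟩ := ra_coef hr (D.hS a b)
  have h2 : raL (ball x0 r1) (fun n x => -(w n x * S a b x)) := by
    refine ra_bdd measurableSet_ball measure_ball_lt_top.ne (C := Cw * C)
      (fun n => (((D.hw n).continuousOn.mono hs).mul ((D.hS a b).continuousOn.mono hs)).neg)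
      fun n x hx => ?_
    rw [abs_neg, abs_mul]
    exact mul_le_mul (hCw n x hx) (hC x hx) (abs_nonneg _) ((abs_nonneg _).trans (hCw n x hx))
  have := ra_add measurableSet_ball (D.Lc hr (fun k => D.hΓ k a b)) h2
  simpa only [sub_eq_add_neg] using this

/-- the inverse of `g 0 0` -/
theorem hh : ContDiffOn ℝ ∞ (fun x => (g 0 0 x)⁻¹) (ball x0 r) :=
  (D.hg 0 0).inv fun x hx => (D.hg0 x hx).ne'

theorem rho_eq (n : ℕ) {φ : E → ℝ} (h : Tst (ball x0 r) φ) :
    ∫ x, ρ n x * φ x = ∫ x, ρ n x * (g 0 0 x * ((g 0 0 x)⁻¹ * φ x)) := by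
  congr 1; ext x
  by_cases hx : x ∈ ball x0 r
  · rw [mul_inv_cancel_left₀ (D.hg0 x hx).ne']
  · rw [ra_zero h hx]; simp

theorem exrho {φ : E → ℝ} (h : Tst (ball x0 r) φ) : ∃ L,
    Tendsto (fun n => ∫ x, ρ n x * φ x) atTop (𝓝 L) := by
  have hψ : Tst (ball x0 r) (fun x => (g 0 0 x)⁻¹ * φ x) := ra_mul isOpen_ball D.hh h
  obtain ⟨L1, hL1⟩ := D.exz 0 0 hψ
  have hL2 := D.limpd (ra_pd hψ 0) 0
  have h3 := ((D.lim1 hψ 0 0).sub hL2).sub hL1
  refine ⟨_, h3.congr fun n => ?_⟩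
  rw [D.rho_eq n h]
  ring

theorem rho_bd {r1 : ℝ} (hr : r1 < r) : ∃ C, ∀ n φ, Tst (ball x0 r1) φ → ∀ K,
    (∀ x, |φ x| ≤ K) → (∀ x, ‖fderiv ℝ φ x‖ ≤ K) → |∫ x, ρ n x * φ x| ≤ C * K := by
  have hs : ball x0 r1 ⊆ ball x0 r := ball_subset_ball hr.le
  obtain ⟨C, hC0, hC, hC'⟩ := ra_coef hr D.hh
  obtain ⟨ε, hε, h1⟩ := D.h1
  obtain ⟨Cε, hCε⟩ := hε.bddAbove_range.exists_ge 0
  obtain ⟨C1, hC1, hC1'⟩ := ra_pair1 isOpen_ball measure_ball_lt_top.ne (D.Lz hr 0 0)
  obtain ⟨C2, hC2, hC2'⟩ := ra_pair1 isOpen_ball measure_ball_lt_top.ne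
    (ra_subset (D.hL 0) hs)
  refine ⟨(Cε + C2 + C1) * C, fun n φ hφ K hK hK' => ?_⟩
  have hK0 : 0 ≤ K := (abs_nonneg _).trans (hK 0)
  have hψ : Tst (ball x0 r1) (fun x => (g 0 0 x)⁻¹ * φ x) :=
    ra_mul isOpen_ball (D.hh.mono hs) hφ
  obtain ⟨b1, b2⟩ := hC' φ hφ K hK hK'
  have k1 := h1 n _ (ra_mono hψ hs) (C * K) b1 b2 0 0
  have k2 := hC1' n _ hψ (C * K) b1
  have k3 := hC2' n _ (ra_pd hψ 0) (C * K) (fun x => by
    have := (fderiv ℝ (fun x => (g 0 0 x)⁻¹ * φ x) x).le_opNorm (be 0)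
    have hbe : ‖(be 0 : E)‖ = 1 := by simp [be]
    rw [hbe, mul_one, Real.norm_eq_abs] at this
    exact this.trans (b2 x))
  rw [D.rho_eq n (ra_mono hφ hs)]
  have hεn : ε n ≤ Cε := hCε.2 _ (mem_range_self n)
  have k4 : ε n * (C * K) ≤ Cε * (C * K) := mul_le_mul_of_nonneg_right hεn (by positivity)
  rw [abs_le] at k1 k2 k3 ⊢
  constructor <;> nlinarith [k1.1, k1.2, k2.1, k2.2, k3.1, k3.2]

/-- the weak limit of `ρ` -/
theorem exR {r1 : ℝ} (hr : r1 < r) : ∃ R : E → ℝ, ContinuousOn R (ball x0 r1) ∧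
    ∀ φ, Tst (ball x0 r1) φ → Tendsto (fun n => ∫ x, ρ n x * φ x) atTop (𝓝 (∫ x, R x * φ x)) := by
  have hs : ball x0 r1 ⊆ ball x0 r := ball_subset_ball hr.le
  set l : (E → ℝ) → ℝ := fun φ => limUnder atTop (fun n => ∫ x, ρ n x * φ x) with hl
  have hlt : ∀ φ, Tst (ball x0 r) φ → Tendsto (fun n => ∫ x, ρ n x * φ x) atTop (𝓝 (l φ)) :=
    fun φ h => tendsto_nhds_limUnder (D.exrho h)
  obtain ⟨C1, hC1⟩ := D.rho_bd hr
  have hP : ∀ b, ∃ C, 0 ≤ C ∧ ∀ n φ, Tst (ball x0 r1) φ →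
      |∫ x, (∑ c, s b c x * pd c (w n) x) * φ x| ≤
        C * (∫ x, |φ x| ^ (4 / 3 : ℝ)) ^ (3 / 4 : ℝ) := fun b =>
    ra_pair2 isOpen_ball (D.Lc hr (fun c => D.hs b c))
  choose C2 hC20 hC2 using hP
  obtain ⟨R, hR, hR'⟩ := weak_morrey (x0 := x0) (r := r1) ρ
    (fun n => (D.hρ n).continuousOn.mono hs) l (fun φ h => hlt φ (ra_mono h hs)) C1 hC1
    (∑ b, C2 b) (fun φ h a => by
      have hT := ra_mono h hs
      have h3 := (hlt _ (ra_pd hT a)).sub (D.h2 φ hT a)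
      have h4 : Tendsto (fun n => ∫ x, (∑ c, s a c x * pd c (w n) x) * φ x) atTop
          (𝓝 (l (pd a φ))) := by
        rw [sub_zero] at h3
        refine h3.congr fun n => ?_
        ring
      have h5 : |l (pd a φ)| ≤ C2 a * (∫ x, |φ x| ^ (4 / 3 : ℝ)) ^ (3 / 4 : ℝ) :=
        le_of_tendsto h4.abs (Eventually.of_forall fun n => hC2 a n φ h)
      refine h5.trans (mul_le_mul_of_nonneg_right ?_ (Real.rpow_nonneg (integral_nonneg fun _ =>
        Real.rpow_nonneg (abs_nonneg _) _) _))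
      exact Finset.single_le_sum (fun b _ => hC20 b) (Finset.mem_univ a))
  refine ⟨R, hR, fun φ h => ?_⟩
  rw [← hR' φ h]
  exact hlt φ (ra_mono h hs)

/-- the weak limits of `pd a w` -/
theorem exV {r1 r2 : ℝ} (hr : r1 < r) (hr' : r2 < r1) {R : E → ℝ}
    (hR : ContinuousOn R (ball x0 r1))
    (hRl : ∀ φ, Tst (ball x0 r1) φ →
      Tendsto (fun n => ∫ x, ρ n x * φ x) atTop (𝓝 (∫ x, R x * φ x))) (a : Fin 3) :
    ∃ V : E → ℝ, ContinuousOn V (ball x0 r2) ∧
    ∀ φ, Tst (ball x0 r2) φ → ∫ x, V x * φ x = -∫ x, W x * pd a φ x := by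
  have hs1 : ball x0 r1 ⊆ ball x0 r := ball_subset_ball hr.le
  have hs2 : ball x0 r2 ⊆ ball x0 r1 := ball_subset_ball hr'.le
  have hs : ball x0 r2 ⊆ ball x0 r := hs2.trans hs1
  have hr2 : r2 < r := hr'.trans hr
  obtain ⟨C1, hC10, hC1⟩ := ra_pair1 isOpen_ball measure_ball_lt_top.ne
    (ra_subset (D.hL a) hs)
  have hP : ∀ b, ∃ C, 0 ≤ C ∧ ∀ n φ, Tst (ball x0 r2) φ →
      |∫ x, (∑ k, Γ k b a x * pd k (w n) x - w n x * S b a x) * φ x| ≤
        C * (∫ x, |φ x| ^ (4 / 3 : ℝ)) ^ (3 / 4 : ℝ) := fun b =>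
    ra_pair2 isOpen_ball (D.Lz hr2 b a)
  have hQ : ∀ b, ∃ C, 0 ≤ C ∧ ∀ n : ℕ, ∀ φ, Tst (ball x0 r2) φ →
      |∫ x, (R x * g b a x) * φ x| ≤
        C * (∫ x, |φ x| ^ (4 / 3 : ℝ)) ^ (3 / 4 : ℝ) := by
    intro b
    have hc : ContinuousOn (fun x => R x * g b a x) (ball x0 r1) :=
      hR.mul ((D.hg b a).continuousOn.mono hs1)
    obtain ⟨K, hK⟩ := (isCompact_closedBall x0 r2).exists_bound_of_continuousOn
      (hc.mono (closedBall_subset_ball hr'))
    refine ra_pair2 (v := fun _ x => R x * g b a x) isOpen_ball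
      (ra_bdd measurableSet_ball measure_ball_lt_top.ne
      (fun _ => hc.mono hs2) (C := K) fun n x hx => ?_)
    simpa [Real.norm_eq_abs] using hK x (ball_subset_closedBall hx)
  choose C2 hC20 hC2 using hP
  choose C3 hC30 hC3 using hQ
  obtain ⟨V, hV, hV'⟩ := weak_morrey (x0 := x0) (r := r2) (fun n => pd a (w n))
    (fun n => (D.pdc n a).mono hs) (fun φ => -∫ x, W x * pd a φ x)
    (fun φ h => D.limpd (ra_mono h hs) a) C1 (fun n φ h K hK _ => hC1 n φ h K hK)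
    (∑ b, (C2 b + C3 b)) (fun φ h b => by
      have hT := ra_mono h hs
      have h1 := D.limpd (ra_pd hT b) a
      have h2 := hRl (fun x => g b a x * φ x)
        (ra_mono (ra_mul isOpen_ball ((D.hg b a).mono hs) h) hs2)
      obtain ⟨L, hL⟩ := D.exz b a hT
      have h3 := tendsto_nhds_unique (D.lim1 hT b a) ((h2.add h1).add hL)
      have h4 : |L| ≤ C2 b * (∫ x, |φ x| ^ (4 / 3 : ℝ)) ^ (3 / 4 : ℝ) :=
        le_of_tendsto hL.abs (Eventually.of_forall fun n => hC2 b n φ h)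
      have h5 := hC3 b 0 φ h
      have h6 : ∫ x, (R x * g b a x) * φ x = ∫ x, R x * (g b a x * φ x) := by
        congr 1; ext x; ring
      rw [h6] at h5
      have h7 : (C2 b + C3 b) * (∫ x, |φ x| ^ (4 / 3 : ℝ)) ^ (3 / 4 : ℝ) ≤
          (∑ b, (C2 b + C3 b)) * (∫ x, |φ x| ^ (4 / 3 : ℝ)) ^ (3 / 4 : ℝ) := by
        refine mul_le_mul_of_nonneg_right ?_ (Real.rpow_nonneg (integral_nonneg fun _ =>
          Real.rpow_nonneg (abs_nonneg _) _) _)
        exact Finset.single_le_sum (f := fun b => C2 b + C3 b)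
          (fun b _ => add_nonneg (hC20 b) (hC30 b)) (Finset.mem_univ b)
      refine le_trans ?_ h7
      rw [abs_le] at h4 h5 ⊢
      constructor <;> linarith [h4.1, h4.2, h5.1, h5.2])
  exact ⟨V, hV, fun φ h => (hV' φ h).symm⟩

end RaD

/-! ### bootstrap -/

theorem ra_fd {B : Set E} (hB : IsOpen B) {n : ℕ∞} {f : E → ℝ} (hf : DifferentiableOn ℝ f B)
    (h : ∀ a, ContDiffOn ℝ n (pd a f) B) : ContDiffOn ℝ (n + 1) f B := by
  rw [contDiffOn_succ_iff_fderiv_of_isOpen hB]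
  refine ⟨hf, by simp, ?_⟩
  have e : ∀ x ∈ B, fderiv ℝ f x =
      ∑ a, (pd a f x) • (EuclideanSpace.proj a : E →L[ℝ] ℝ) := by
    intro x _
    ext v
    rw [fderiv_eq_sum]
    simp [mul_comm]
  refine ContDiffOn.congr ?_ e
  exact ContDiffOn.sum fun a _ => (h a).smul contDiffOn_const

theorem ra_boot {B : Set E} (hB : IsOpen B) {Γ : Fin 3 → Fin 3 → Fin 3 → E → ℝ}
    {S g s : Fin 3 → Fin 3 → E → ℝ} (hΓ : ∀ k a b, ContDiffOn ℝ ∞ (Γ k a b) B)
    (hS : ∀ a b, ContDiffOn ℝ ∞ (S a b) B) (hg : ∀ a b, ContDiffOn ℝ ∞ (g a b) B)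
    (hs : ∀ a b, ContDiffOn ℝ ∞ (s a b) B) {W R : E → ℝ} {V : Fin 3 → E → ℝ}
    (hW : ContDiffOn ℝ 1 W B) (hV : ∀ a, ContDiffOn ℝ 1 (V a) B) (hR : ContDiffOn ℝ 1 R B)
    (eW : ∀ a, ∀ x ∈ B, pd a W x = V a x)
    (eV : ∀ a b, ∀ x ∈ B, pd b (V a) x = ∑ k, Γ k b a x * V k x - W x * S b a x + R x * g b a x)
    (eR : ∀ b, ∀ x ∈ B, pd b R x = -∑ c, s b c x * V c x) :
    ContDiffOn ℝ ∞ W B ∧ (∀ a, ContDiffOn ℝ ∞ (V a) B) ∧ ContDiffOn ℝ ∞ R B := by
  have key : ∀ n : ℕ, ContDiffOn ℝ n W B ∧ (∀ a, ContDiffOn ℝ n (V a) B) ∧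
      ContDiffOn ℝ n R B := by
    intro n
    induction n with
    | zero => exact ⟨hW.of_le (by simp), fun a => (hV a).of_le (by simp), hR.of_le (by simp)⟩
    | succ n ih =>
      obtain ⟨i1, i2, i3⟩ := ih
      have c : ∀ {f : E → ℝ}, ContDiffOn ℝ ∞ f B → ContDiffOn ℝ n f B := fun h =>
        h.of_le (by exact_mod_cast le_top)
      have hn : ((n : ℕ∞) : WithTop ℕ∞) + 1 = ((n + 1 : ℕ) : WithTop ℕ∞) := by push_cast; rfl
      refine ⟨?_, fun a => ?_, ?_⟩
      · have := ra_fd (n := n) hB (hW.differentiableOn (by simp)) fun a =>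
          (i2 a).congr (eW a)
        exact_mod_cast this
      · have := ra_fd (n := n) hB ((hV a).differentiableOn (by simp)) fun b => by
          refine ContDiffOn.congr ?_ (eV a b)
          exact ((ContDiffOn.sum fun k _ => (c (hΓ k b a)).mul (i2 k)).sub
            (i1.mul (c (hS b a)))).add (i3.mul (c (hg b a)))
        exact_mod_cast this
      · have := ra_fd (n := n) hB (hR.differentiableOn (by simp)) fun b => by
          refine ContDiffOn.congr ?_ (eR b)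
          exact (ContDiffOn.sum fun k _ => (c (hs b k)).mul (i2 k)).neg
        exact_mod_cast this
  exact ⟨contDiffOn_infty.2 fun n => (key n).1, fun a => contDiffOn_infty.2 fun n => (key n).2.1 a,
    contDiffOn_infty.2 fun n => (key n).2.2⟩

/-- local form -/
theorem RaD.loc {x0 : E} {r : ℝ} {Γ : Fin 3 → Fin 3 → Fin 3 → E → ℝ}
    {S g s : Fin 3 → Fin 3 → E → ℝ} {w ρ : ℕ → E → ℝ} {W : E → ℝ}
    (D : RaD x0 r Γ S g s w ρ W) {r2 : ℝ} (hr : r2 < r) :
    ∃ R : E → ℝ, ContDiffOn ℝ ∞ W (ball x0 r2) ∧ ContDiffOn ℝ ∞ R (ball x0 r2) ∧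
      ∀ x ∈ ball x0 r2, (∀ a b, pd a (pd b W) x =
        ∑ k, Γ k a b x * pd k W x - W x * S a b x + R x * g a b x) ∧
        ∀ b, pd b R x = - ∑ c, s b c x * pd c W x := by
  set r1 := (r2 + r) / 2 with hr1
  have h1 : r1 < r := by rw [hr1]; linarith
  have h2 : r2 < r1 := by rw [hr1]; linarith
  have hs1 : ball x0 r1 ⊆ ball x0 r := ball_subset_ball h1.le
  have hs2 : ball x0 r2 ⊆ ball x0 r1 := ball_subset_ball h2.le
  have hs : ball x0 r2 ⊆ ball x0 r := hs2.trans hs1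
  obtain ⟨R, hR, hRl⟩ := D.exR h1
  have hV := fun a => D.exV h1 h2 hR hRl a
  choose V hVc hVl using hV
  set B := ball x0 r2 with hBdef
  have hB : IsOpen B := isOpen_ball
  have hΓ : ∀ k a b, ContDiffOn ℝ ∞ (Γ k a b) B := fun k a b => (D.hΓ k a b).mono hs
  have hS : ∀ a b, ContDiffOn ℝ ∞ (S a b) B := fun a b => (D.hS a b).mono hs
  have hg : ∀ a b, ContDiffOn ℝ ∞ (g a b) B := fun a b => (D.hg a b).mono hs
  have hs' : ∀ a b, ContDiffOn ℝ ∞ (s a b) B := fun a b => (D.hs a b).mono hs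
  have hWc : ContinuousOn W (ball x0 r) :=
    D.hlim.continuousOn (Frequently.of_forall fun n => (D.hw n).continuousOn)
  have hRB : ContinuousOn R B := hR.mono hs2
  -- limits of first derivatives
  have hlV : ∀ k φ, Tst B φ → Tendsto (fun n => ∫ x, pd k (w n) x * φ x) atTop
      (𝓝 (∫ x, V k x * φ x)) := by
    intro k φ h
    rw [hVl k φ h]
    exact D.limpd (ra_mono h hs) k
  -- derivatives of W
  obtain ⟨hW1, eW⟩ := weak_deriv (U := W) (V := V) hB (hWc.mono hs) hVc fun φ h a => by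
    rw [hVl a φ h, neg_neg]
  -- derivatives of V a
  have hzc : ∀ a b, ContinuousOn (fun x => ∑ k, Γ k b a x * V k x - W x * S b a x
      + R x * g b a x) B := fun a b =>
    ((continuousOn_finsetSum _ fun k _ => (hΓ k b a).continuousOn.mul (hVc k)).sub
      ((hWc.mono hs).mul (hS b a).continuousOn)).add (hRB.mul (hg b a).continuousOn)
  have hVd : ∀ a, ContDiffOn ℝ 1 (V a) B ∧ ∀ b, ∀ x ∈ B, pd b (V a) x =
      ∑ k, Γ k b a x * V k x - W x * S b a x + R x * g b a x := by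
    intro a
    refine weak_deriv (U := V a) hB (hVc a) (V := fun b x => ∑ k, Γ k b a x * V k x
      - W x * S b a x + R x * g b a x) (hzc a) fun φ h b => ?_
    have hT := ra_mono h hs
    have l1 := hlV a _ (ra_pd h b)
    have l2 := hRl (fun x => g b a x * φ x) (ra_mono (ra_mul hB (hg b a) h) hs2)
    have l3 := D.limz b a hT fun k => hlV k _ (ra_mul hB (hΓ k b a) h)
    have l4 := tendsto_nhds_unique (D.lim1 hT b a) ((l2.add l1).add l3)
    have e : ∫ x, (∑ k, Γ k b a x * V k x - W x * S b a x + R x * g b a x) * φ x =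
        (∑ k, ∫ x, V k x * (Γ k b a x * φ x)) - (∫ x, W x * (S b a x * φ x))
          + ∫ x, R x * (g b a x * φ x) := by
      rw [← ra_expand hB (fun k => hΓ k b a) hVc h, ← integral_sub, ← integral_add]
      · congr 1; ext x; ring
      · refine Integrable.sub ?_ ?_
        · exact ra_int hB (continuousOn_finsetSum _ fun k _ =>
            (hΓ k b a).continuousOn.mul (hVc k)) h
        · exact ra_int hB (hWc.mono hs) (ra_mul hB (hS b a) h)
      · exact ra_int hB hRB (ra_mul hB (hg b a) h)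
      · exact ra_int hB (continuousOn_finsetSum _ fun k _ =>
            (hΓ k b a).continuousOn.mul (hVc k)) h
      · exact ra_int hB (hWc.mono hs) (ra_mul hB (hS b a) h)
    rw [e]
    linarith
  -- derivatives of R
  have hRd : ContDiffOn ℝ 1 R B ∧ ∀ b, ∀ x ∈ B, pd b R x = -∑ c, s b c x * V c x := by
    refine weak_deriv (U := R) hB hRB (V := fun b x => -∑ c, s b c x * V c x)
      (fun b => (continuousOn_finsetSum _ fun k _ =>
        (hs' b k).continuousOn.mul (hVc k)).neg) fun φ h b => ?_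
    have hT := ra_mono h hs
    have l1 := hRl _ (ra_mono (ra_pd h b) hs2)
    have l2 := D.limc (fun k => D.hs b k) hT fun k => hlV k _ (ra_mul hB (hs' b k) h)
    have l3 := tendsto_nhds_unique (D.h2 φ hT b) (l1.sub l2)
    have e : ∫ x, (-∑ c, s b c x * V c x) * φ x = -∑ c, ∫ x, V c x * (s b c x * φ x) := by
      rw [← ra_expand hB (fun k => hs' b k) hVc h, ← integral_neg]
      congr 1; ext x; ring
    rw [e]
    linarith
  obtain ⟨sW, sV, sR⟩ := ra_boot hB hΓ hS hg hs' hW1 (fun a => (hVd a).1) hRd.1 eW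
    (fun a b => (hVd a).2 b) hRd.2
  refine ⟨R, sW, sR, fun x hx => ⟨fun a b => ?_, fun b => ?_⟩⟩
  · have e1 : pd b W =ᶠ[𝓝 x] V b := by
      filter_upwards [hB.mem_nhds hx] with y hy
      exact eW b y hy
    rw [pd_congr e1, (hVd b).2 a x hx]
    simp only [eW _ x hx]
  · rw [hRd.2 b x hx]
    simp only [eW _ x hx]

/-- (REGABS) regularity of weak limits for a closed linear system -/
theorem regabs {x0 : E} {r : ℝ} (Γ : Fin 3 → Fin 3 → Fin 3 → E → ℝ) (S g : Fin 3 → Fin 3 → E → ℝ)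
    (s : Fin 3 → Fin 3 → E → ℝ) (hΓ : ∀ k a b, ContDiffOn ℝ ∞ (Γ k a b) (closedBall x0 r))
    (hS : ∀ a b, ContDiffOn ℝ ∞ (S a b) (closedBall x0 r))
    (hg : ∀ a b, ContDiffOn ℝ ∞ (g a b) (closedBall x0 r))
    (hs : ∀ a b, ContDiffOn ℝ ∞ (s a b) (closedBall x0 r))
    (hg0 : ∀ x ∈ closedBall x0 r, 0 < g 0 0 x)
    (w ρ : ℕ → E → ℝ) (hw : ∀ n, ContDiffOn ℝ ∞ (w n) (ball x0 r))
    (hρ : ∀ n, ContDiffOn ℝ ∞ (ρ n) (ball x0 r)) (W : E → ℝ)
    (hlim : TendstoUniformlyOn w W atTop (ball x0 r)) (A : ℝ)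
    (hi : ∀ n, IntegrableOn (fun x => ‖fderiv ℝ (w n) x‖ ^ 4) (ball x0 r))
    (hA : ∀ n, ∫ x in ball x0 r, ‖fderiv ℝ (w n) x‖ ^ 4 ≤ A)
    (ε : ℕ → ℝ) (hε : Tendsto ε atTop (𝓝 0))
    (h1 : ∀ n φ, Tst (ball x0 r) φ → ∀ K, (∀ x, |φ x| ≤ K) → (∀ x, ‖fderiv ℝ φ x‖ ≤ K) → ∀ a b,
      |∫ x, (pd a (pd b (w n)) x - ∑ k, Γ k a b x * pd k (w n) x + w n x * S a b x
        - ρ n x * g a b x) * φ x| ≤ ε n * K)
    (h2 : ∀ φ, Tst (ball x0 r) φ → ∀ b, Tendsto (fun n => ∫ x, (pd b (ρ n) x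
      + ∑ c, s b c x * pd c (w n) x) * φ x) atTop (𝓝 0)) :
    ContDiffOn ℝ ∞ W (ball x0 r) ∧ ∃ P : E → ℝ, ContDiffOn ℝ ∞ P (ball x0 r) ∧
      ∀ x ∈ ball x0 r, (∀ a b, pd a (pd b W) x =
        ∑ k, Γ k a b x * pd k W x - W x * S a b x + P x * g a b x) ∧
        ∀ b, pd b P x = - ∑ c, s b c x * pd c W x := by
  have hsub : ball x0 r ⊆ closedBall x0 r := ball_subset_closedBall
  set B := ball x0 r with hBdef
  have hB : IsOpen B := isOpen_ball
  have hpw : ∀ n k, ContDiffOn ℝ ∞ (pd k (w n)) B := fun n k => pd_smooth hB (hw n)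
  have D : RaD x0 r Γ S g s w ρ W := by
    refine ⟨fun k a b => (hΓ k a b).mono hsub, fun a b => (hS a b).mono hsub,
      fun a b => (hg a b).mono hsub, fun a b => (hs a b).mono hsub,
      fun x hx => hg0 x (hsub hx), hw, hρ, hlim, fun k => ?_, ⟨ε, hε, ?_⟩, ?_⟩
    · have hl : raL B (fun n x => ‖fderiv ℝ (w n) x‖) := by
        refine ⟨A, fun n => ⟨?_, ?_, ?_⟩⟩
        · exact ((hw n).continuousOn_fderiv_of_isOpen hB (by simp)).norm
        · simpa using hi n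
        · simpa using hA n
      refine ra_dom measurableSet_ball hl (fun n => (hpw n k).continuousOn) (C := 1)
        fun n x _ => ?_
      have := (fderiv ℝ (w n) x).le_opNorm (be k)
      have hbe : ‖(be k : E)‖ = 1 := by simp [be]
      rw [hbe, mul_one, Real.norm_eq_abs] at this
      rw [one_mul, abs_norm]
      exact this
    · intro n φ h K hK hK' a b
      have hn := h1 n φ h K hK hK' a b
      have cΓ : ContinuousOn (fun x => ∑ k, Γ k a b x * pd k (w n) x) B :=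
        continuousOn_finsetSum _ fun k _ =>
          ((hΓ k a b).mono hsub).continuousOn.mul (hpw n k).continuousOn
      have cS : ContinuousOn (fun x => w n x * S a b x) B :=
        (hw n).continuousOn.mul ((hS a b).mono hsub).continuousOn
      have cR : ContinuousOn (fun x => ρ n x * g a b x) B :=
        (hρ n).continuousOn.mul ((hg a b).mono hsub).continuousOn
      have cP : ContinuousOn (fun x => pd a (pd b (w n)) x) B :=
        (pd_smooth hB (hpw n b)).continuousOn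
      have i1 := ra_int hB cΓ h
      have i2 := ra_int hB cS h
      have i3 := ra_int hB cR h
      have i4 := ra_int hB cP h
      have cΓS : ContinuousOn (fun x => ∑ k, Γ k a b x * pd k (w n) x - w n x * S a b x) B :=
        cΓ.sub cS
      have i5 := ra_int hB cΓS h
      have i6 : Integrable (fun x => pd a (pd b (w n)) x * φ x -
          (∑ k, Γ k a b x * pd k (w n) x - w n x * S a b x) * φ x) := i4.sub i5
      have e0 := ra_ibp hB ((hpw n b).of_le (by simp)) h a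
      have e : ∫ x, (pd a (pd b (w n)) x - ∑ k, Γ k a b x * pd k (w n) x + w n x * S a b x
          - ρ n x * g a b x) * φ x = (∫ x, pd a (pd b (w n)) x * φ x) -
          (∫ x, (∑ k, Γ k a b x * pd k (w n) x - w n x * S a b x) * φ x) -
          ∫ x, (ρ n x * g a b x) * φ x := by
        rw [← integral_sub i4 i5, ← integral_sub i6 i3]
        congr 1; ext x; ring
      have e3 : ∫ x, (ρ n x * g a b x) * φ x = ∫ x, ρ n x * (g a b x * φ x) := by
        congr 1; ext x; ring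
      rw [e, e0, e3] at hn
      rw [← abs_neg]
      refine le_trans (le_of_eq ?_) hn
      congr 1
      ring
    · intro φ h b
      refine (h2 φ h b).neg.congr' (Eventually.of_forall fun n => ?_) |>.trans (by simp)
      have cΓ : ContinuousOn (fun x => ∑ c, s b c x * pd c (w n) x) B :=
        continuousOn_finsetSum _ fun k _ =>
          ((hs b k).mono hsub).continuousOn.mul (hpw n k).continuousOn
      have e0 := ra_ibp hB ((hρ n).of_le (by simp)) h b
      have i1 := ra_int hB cΓ h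
      have cR : ContinuousOn (pd b (ρ n)) B := (pd_smooth hB (hρ n)).continuousOn
      have i2 := ra_int hB cR h
      have e : ∫ x, (pd b (ρ n) x + ∑ c, s b c x * pd c (w n) x) * φ x =
          (∫ x, pd b (ρ n) x * φ x) + ∫ x, (∑ c, s b c x * pd c (w n) x) * φ x := by
        rw [← integral_add i2 i1]
        congr 1; ext x; ring
      rw [e, e0]
      ring
  -- local radii
  have hrad : ∀ x ∈ B, ∃ r2 < r, x ∈ ball x0 r2 := by
    intro x hx
    obtain ⟨t, ht1, ht2⟩ := exists_between (mem_ball.1 hx)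
    exact ⟨t, ht2, mem_ball.2 ht1⟩
  have hW : ContDiffOn ℝ ∞ W B := by
    intro x hx
    obtain ⟨r2, hr2, hx2⟩ := hrad x hx
    obtain ⟨R, hW, -, -⟩ := D.loc hr2
    exact (hW.contDiffAt (isOpen_ball.mem_nhds hx2)).contDiffWithinAt
  set P : E → ℝ := fun x => (pd 0 (pd 0 W) x - ∑ k, Γ k 0 0 x * pd k W x + W x * S 0 0 x) /
    g 0 0 x with hP
  have hloc : ∀ r2 < r, ∀ R : E → ℝ, (∀ x ∈ ball x0 r2, (∀ a b, pd a (pd b W) x =
        ∑ k, Γ k a b x * pd k W x - W x * S a b x + R x * g a b x)) →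
        ∀ x ∈ ball x0 r2, P x = R x := by
    intro r2 hr2 R hR x hx
    have hx' : x ∈ closedBall x0 r := hsub (ball_subset_ball hr2.le hx)
    rw [hP]
    simp only
    rw [div_eq_iff (hg0 x hx').ne', hR x hx 0 0]
    ring
  refine ⟨hW, P, ?_, ?_⟩
  · intro x hx
    obtain ⟨r2, hr2, hx2⟩ := hrad x hx
    obtain ⟨R, -, hR, hE⟩ := D.loc hr2
    have hev : P =ᶠ[𝓝 x] R := by
      filter_upwards [isOpen_ball.mem_nhds hx2] with y hy
      exact hloc r2 hr2 R (fun x hx => (hE x hx).1) y hy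
    exact ((hR.contDiffAt (isOpen_ball.mem_nhds hx2)).congr_of_eventuallyEq hev).contDiffWithinAt
  · intro x hx
    obtain ⟨r2, hr2, hx2⟩ := hrad x hx
    obtain ⟨R, -, hR, hE⟩ := D.loc hr2
    have hPR := hloc r2 hr2 R (fun x hx => (hE x hx).1)
    have hev : P =ᶠ[𝓝 x] R := by
      filter_upwards [isOpen_ball.mem_nhds hx2] with y hy
      exact hPR y hy
    refine ⟨fun a b => ?_, fun b => ?_⟩
    · rw [(hE x hx2).1 a b, hPR x hx2]
    · rw [pd_congr hev, (hE x hx2).2 b]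

end YR
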