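import Pool.Agent.Work.MP_71b0e8_gt.Defs

/-!
# MP_71b0e8_gt : the statement of Q1 for Mathlib manifolds and Riemannian metrics

`M` is a closed connected smooth 3-manifold, a metric is a smooth Riemannian metric on the tangent
bundle (`Bundle.ContMDiffRiemannianMetric`). Curvature is computed from the matrix of the metric in
the preferred chart at the point (coordinate formulas of `Defs`).
-/

open scoped ContDiff Manifold
open MeasureTheory Metric Set

noncomputable section

namespace YR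

section

variable (M : Type*) [TopologicalSpace M] [ChartedSpace E M] [IsManifold (𝓡 3) ∞ M]

/-- smooth Riemannian metrics on `M` -/
abbrev RMet := Bundle.ContMDiffRiemannianMetric (𝓡 3) ∞ E (fun x : M => TangentSpace (𝓡 3) x)

end

section

variable {M : Type*} [TopologicalSpace M] [ChartedSpace E M] [IsManifold (𝓡 3) ∞ M]

/-- the coordinate vector field `∂_a` of the chart `φ` at the point `φ⁻¹ z` -/
def cvec (φ : OpenPartialHomeomorph M E) (z : E) (a : Fin 3) :
    TangentSpace (𝓡 3) (φ.symm z) :=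
  mfderiv (𝓡 3) (𝓡 3) φ.symm z (be a)

/-- the matrix `g(∂_a, ∂_b)` of the metric in the chart `φ` -/
def gmat (g : RMet M) (φ : OpenPartialHomeomorph M E) (z : E) : Mat :=
  Matrix.of fun a b => g.inner (φ.symm z) (cvec φ z a) (cvec φ z b)

/-- scalar curvature -/
def scalR (g : RMet M) (p : M) : ℝ := scal (gmat g (chartAt E p)) (chartAt E p p)

/-- `σ₁(g) = R/4` -/
def sigma1 (g : RMet M) (p : M) : ℝ := scalR g p / 4

/-- `σ₂(g) = (-|Ric|² + (3/8) R²)/2` -/
def sigma2 (g : RMet M) (p : M) : ℝ := sig2 (gmat g (chartAt E p)) (chartAt E p p)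

/-- `h = e^{-2u} g` for a smooth function `u` -/
def ConfTo (g h : RMet M) : Prop :=
  ∃ u : M → ℝ, ContMDiff (𝓡 3) 𝓘(ℝ, ℝ) ∞ u ∧ ∀ (p : M) (X Y : TangentSpace (𝓡 3) p),
    h.inner p X Y = Real.exp (-2 * u p) * g.inner p X Y

/-- `μ` is the Riemannian measure of `g`: in each chart it is `√det g dx` -/
def IsVol [MeasurableSpace M] (g : RMet M) (μ : Measure M) : Prop :=
  ∀ x : M, μ.restrict (chartAt E x).source = Measure.map (chartAt E x).symm
    ((volume.restrict (chartAt E x).target).withDensity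
      fun z => ENNReal.ofReal (√(gmat g (chartAt E x) z).det))

/-- `𝓔(g) = vol ∫ σ₂ / (∫ σ₁)²` -/
def Efun [MeasurableSpace M] (g : RMet M) (μ : Measure M) : ℝ :=
  μ.real univ * (∫ p, sigma2 g p ∂μ) / (∫ p, sigma1 g p ∂μ) ^ 2

/-- `Ỹ([g₀])`: the supremum of `𝓔(g)` over the metrics `g = e^{-2u} g₀` with `σ₁(g) > 0` -/
def Ytilde [MeasurableSpace M] (g₀ : RMet M) : ℝ :=
  sSup {e | ∃ (g : RMet M) (μ : Measure M), ConfTo g₀ g ∧ (∀ p, 0 < sigma1 g p) ∧ IsVol g μ ∧
    e = Efun g μ}

/-- constant sectional curvature `1`: `R^k_{l ab} = δ^k_a g_{bl} - δ^k_b g_{al}` -/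
def CurvOne (g : RMet M) : Prop :=
  ∀ (p : M) (k l a b : Fin 3), riem (gmat g (chartAt E p)) k l a b (chartAt E p p) =
    (if k = a then gmat g (chartAt E p) (chartAt E p p) b l else 0) -
      (if k = b then gmat g (chartAt E p) (chartAt E p p) a l else 0)

end

/-- Q1 : rigidity of `Ỹ` at `1/3` -/
def Q1.{u} : Prop :=
  ∀ (M : Type u) [TopologicalSpace M] [ChartedSpace E M] [IsManifold (𝓡 3) ∞ M] [T2Space M]
    [CompactSpace M] [ConnectedSpace M] [MeasurableSpace M] [BorelSpace M] (g₀ : RMet M),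
    (∀ p, 0 < sigma1 g₀ p) → Ytilde g₀ = 1 / 3 → ∃ g : RMet M, ConfTo g₀ g ∧ CurvOne g

end YR
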