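import Pool.Agent.Work.MP_71b0e8_gt.DefsA
import Pool.Agent.Work.MP_71b0e8_gt.Skel.TL1
import Pool.Agent.Work.MP_71b0e8_gt.Skel.Loc3

/-! MP_71b0e8_gt, module TL2. -/

open scoped ContDiff Topology
open MeasureTheory Metric Set Filter

noncomputable section

namespace YR

theorem tl2_smooth {U : Set E} (hU : IsOpen U) {h φ : E → ℝ} (hh : ContDiffOn ℝ ∞ h U)
    (hφ : ContDiff ℝ ∞ φ) (hs : tsupport φ ⊆ U) : ContDiff ℝ ∞ (fun x => h x * φ x) := by
  rw [contDiff_iff_contDiffAt]
  intro x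
  by_cases hx : x ∈ tsupport φ
  · exact (hh.contDiffAt (hU.mem_nhds (hs hx))).mul hφ.contDiffAt
  · have h1 : (fun x => h x * φ x) =ᶠ[𝓝 x] fun _ => 0 := by
      filter_upwards [(isClosed_tsupport φ).isOpen_compl.mem_nhds hx] with y hy
      rw [image_eq_zero_of_notMem_tsupport hy, mul_zero]
    exact contDiffAt_const.congr_of_eventuallyEq h1

theorem tl2_cpt {h φ : E → ℝ} (hφ : HasCompactSupport φ) :
    HasCompactSupport (fun x => h x * φ x) := hφ.mul_left

theorem tl2_pd_cpt {g : E → ℝ} (hc : HasCompactSupport g) (a : Fin 3) :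
    HasCompactSupport (pd a g) :=
  (hc.fderiv ℝ).comp_left (g := fun L : E →L[ℝ] ℝ => L (be a)) rfl

theorem tl2_pd_cont {g : E → ℝ} (hg : ContDiff ℝ ∞ g) (a : Fin 3) : Continuous (pd a g) :=
  (hg.continuous_fderiv (by simp)).clm_apply continuous_const

theorem tl2_pd_int {g : E → ℝ} (hg : ContDiff ℝ ∞ g) (hc : HasCompactSupport g) (a : Fin 3) :
    Integrable (pd a g) :=
  (tl2_pd_cont hg a).integrable_of_hasCompactSupport (tl2_pd_cpt hc a)

theorem tl2_div {g : E → ℝ} (hg : ContDiff ℝ ∞ g) (hc : HasCompactSupport g) (a : Fin 3) :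
    ∫ x, pd a g x = 0 := by
  have h1 := integral_mul_fderiv_eq_neg_fderiv_mul_of_integrable (μ := (volume : Measure E))
    (f := fun _ : E => (1 : ℝ)) (g := g) (v := be a) (by simp)
    (by simpa using (show Integrable (fun x => fderiv ℝ g x (be a)) volume from tl2_pd_int hg hc a))
    (by simpa using hg.continuous.integrable_of_hasCompactSupport hc)
    (fun x _ => by fun_prop) (fun x _ => (hg.differentiable (by simp)) x)
  simpa [pd] using h1

/-- the four terms -/
def tl2D (G : E → Mat) (w f : E → ℝ) (x : E) : ℝ :=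
  w x * √(ip G (fun a b => ric0 (cf G w) a b x - qq (cf G w) f a b x)
            (fun a b => ric0 (cf G w) a b x - qq (cf G w) f a b x) x)
          + w x * √(inn G f f x) + √(inn G w w x) * √(inn G f f x) + w x * inn G f f x

/-- valid data -/
structure tl2V (r : ℝ) (w f φ : E → ℝ) (K : ℝ) (x : E) : Prop where
  hw : ContDiffOn ℝ ∞ w (ball 0 4)
  hf : ContDiffOn ℝ ∞ f (ball 0 4)
  hp : ∀ x ∈ ball (0 : E) 4, 0 < w x
  ht : Tst (ball 0 r) φ
  hk : ∀ x, |φ x| ≤ K
  hd : ∀ x, ‖fderiv ℝ φ x‖ ≤ K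
  hx : x ∈ ball (0 : E) r

/-- bounded by a constant times `K * D` -/
def tl2B (G : E → Mat) (r : ℝ) (g : (E → ℝ) → (E → ℝ) → (E → ℝ) → E → ℝ) : Prop :=
  ∃ C : ℝ, 0 ≤ C ∧ ∀ w f φ K x, tl2V r w f φ K x → |g w f φ x| ≤ C * (K * tl2D G w f x)

theorem tl2B.add {G : E → Mat} {r : ℝ} {g h : (E → ℝ) → (E → ℝ) → (E → ℝ) → E → ℝ}
    (hg : tl2B G r g) (hh : tl2B G r h) : tl2B G r (fun w f φ x => g w f φ x + h w f φ x) := by
  obtain ⟨C, hC, h1⟩ := hg
  obtain ⟨D, hD, h2⟩ := hh
  refine ⟨C + D, by positivity, fun w f φ K x hv => ?_⟩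
  rw [add_mul]
  exact (abs_add_le _ _).trans (add_le_add (h1 w f φ K x hv) (h2 w f φ K x hv))

theorem tl2B.neg {G : E → Mat} {r : ℝ} {g : (E → ℝ) → (E → ℝ) → (E → ℝ) → E → ℝ}
    (hg : tl2B G r g) : tl2B G r (fun w f φ x => -g w f φ x) := by
  obtain ⟨C, hC, h1⟩ := hg
  exact ⟨C, hC, fun w f φ K x hv => by rw [abs_neg]; exact h1 w f φ K x hv⟩

theorem tl2B.sub {G : E → Mat} {r : ℝ} {g h : (E → ℝ) → (E → ℝ) → (E → ℝ) → E → ℝ}
    (hg : tl2B G r g) (hh : tl2B G r h) : tl2B G r (fun w f φ x => g w f φ x - h w f φ x) := by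
  simpa only [sub_eq_add_neg] using hg.add hh.neg

theorem tl2B.zero {G : E → Mat} {r : ℝ} : tl2B G r (fun _ _ _ _ => 0) :=
  ⟨0, le_rfl, fun w f φ K x _ => by simp⟩

theorem tl2B.sum {G : E → Mat} {r : ℝ} {ι : Type*} (s : Finset ι)
    {g : ι → (E → ℝ) → (E → ℝ) → (E → ℝ) → E → ℝ}
    (hg : ∀ i, tl2B G r (g i)) : tl2B G r (fun w f φ x => ∑ i ∈ s, g i w f φ x) := by
  classical
  induction s using Finset.induction_on with
  | empty => simpa using tl2B.zero
  | insert i s hi ih => simpa only [Finset.sum_insert hi] using (hg i).add ih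

theorem tl2B.coef {G : E → Mat} {r : ℝ} (hr : r < 4)
    {g : (E → ℝ) → (E → ℝ) → (E → ℝ) → E → ℝ}
    (hg : tl2B G r g) {m : E → ℝ} (hm : ContinuousOn m (ball 0 4)) :
    tl2B G r (fun w f φ x => m x * g w f φ x) := by
  obtain ⟨C, hC, h1⟩ := hg
  obtain ⟨D, hD⟩ := (isCompact_closedBall (0 : E) r).exists_bound_of_continuousOn
    (hm.mono (closedBall_subset_ball hr))
  refine ⟨|D| * C, by positivity, fun w f φ K x hv => ?_⟩
  rw [abs_mul, mul_assoc]
  have h2 : |m x| ≤ |D| := (hD x (ball_subset_closedBall hv.hx)).trans (le_abs_self D)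
  exact mul_le_mul h2 (h1 w f φ K x hv) (abs_nonneg _) (abs_nonneg _)

theorem tl2B.congr {G : E → Mat} {r : ℝ} {g h : (E → ℝ) → (E → ℝ) → (E → ℝ) → E → ℝ}
    (hg : tl2B G r g) (he : ∀ w f φ K x, tl2V r w f φ K x → h w f φ x = g w f φ x) :
    tl2B G r h := by
  obtain ⟨C, hC, h1⟩ := hg
  exact ⟨C, hC, fun w f φ K x hv => by rw [he w f φ K x hv]; exact h1 w f φ K x hv⟩

section

variable {G : E → Mat} (hG : LM (ball 0 4) G) {r : ℝ} (hr : r < 4)

include hG hr

theorem tl2_facts {w f φ : E → ℝ} {K : ℝ} {x : E} (hv : tl2V r w f φ K x) :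
    x ∈ ball (0 : E) 4 ∧ 0 ≤ K ∧ 0 < w x ∧ 0 ≤ inn G f f x ∧
    w x * √(ip G (fun a b => ric0 (cf G w) a b x - qq (cf G w) f a b x)
            (fun a b => ric0 (cf G w) a b x - qq (cf G w) f a b x) x) ≤ tl2D G w f x ∧
    w x * √(inn G f f x) ≤ tl2D G w f x ∧
    √(inn G w w x) * √(inn G f f x) ≤ tl2D G w f x ∧
    w x * inn G f f x ≤ tl2D G w f x := by
  have hx : x ∈ ball (0 : E) 4 := ball_subset_ball hr.le hv.hx
  have hK : 0 ≤ K := (abs_nonneg _).trans (hv.hk x)
  have hw : 0 < w x := hv.hp x hx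
  have hi : 0 ≤ inn G f f x := inn_self_nonneg hG hx
  have h1 : 0 ≤ w x * √(ip G (fun a b => ric0 (cf G w) a b x - qq (cf G w) f a b x)
            (fun a b => ric0 (cf G w) a b x - qq (cf G w) f a b x) x) := by positivity
  have h2 : 0 ≤ w x * √(inn G f f x) := by positivity
  have h3 : 0 ≤ √(inn G w w x) * √(inn G f f x) := by positivity
  have h4 : 0 ≤ w x * inn G f f x := by positivity
  refine ⟨hx, hK, hw, hi, ?_, ?_, ?_, ?_⟩ <;> unfold tl2D <;> linarith

theorem tl2B.of_bound {g : (E → ℝ) → (E → ℝ) → (E → ℝ) → E → ℝ} {m : E → ℝ}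
    (hm : ContinuousOn m (ball 0 4))
    (h : ∀ w f φ K x, tl2V r w f φ K x → |g w f φ x| ≤ m x * (K * tl2D G w f x)) :
    tl2B G r g := by
  obtain ⟨D, hD⟩ := (isCompact_closedBall (0 : E) r).exists_bound_of_continuousOn
    (hm.mono (closedBall_subset_ball hr))
  refine ⟨|D|, abs_nonneg _, fun w f φ K x hv => (h w f φ K x hv).trans ?_⟩
  obtain ⟨hx, hK, hw, hi, h1, h2, h3, h4⟩ := tl2_facts hG hr hv
  have h5 : m x ≤ |D| := (le_abs_self _).trans
    ((hD x (ball_subset_closedBall hv.hx)).trans (le_abs_self D))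
  have h6 : 0 ≤ tl2D G w f x := le_trans (by positivity) h2
  exact mul_le_mul_of_nonneg_right h5 (by positivity)

omit hr in
theorem tl2_pd_le {x : E} (hx : x ∈ ball (0 : E) 4) (f : E → ℝ) (k : Fin 3) :
    |pd k f x| ≤ √(G x k k) * √(inn G f f x) := by
  rw [← Real.sqrt_sq_eq_abs, ← Real.sqrt_mul' _ (inn_self_nonneg hG hx)]
  exact Real.sqrt_le_sqrt (pd_sq_le hG hx k)

omit hr in
theorem tl2_sqrt_cont (k : Fin 3) : ContinuousOn (fun x => √(G x k k)) (ball 0 4) :=
  (hG.smooth k k).continuousOn.sqrt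

/-- error term -/
theorem tl2_at1 (a b : Fin 3) : tl2B G r (fun w f φ x =>
    φ x * (w x * (ric0 (cf G w) a b x - qq (cf G w) f a b x))) := by
  refine tl2B.of_bound hG hr (m := fun x => √(G x a a) * √(G x b b))
    ((tl2_sqrt_cont hG a).mul (tl2_sqrt_cont hG b)) fun w f φ K x hv => ?_
  obtain ⟨hx, hK, hw, hi, h1, h2, h3, h4⟩ := tl2_facts hG hr hv
  set err : Fin 3 → Fin 3 → ℝ := fun a b => ric0 (cf G w) a b x - qq (cf G w) f a b x with herr
  have h5 : |err a b| ≤ √(G x a a) * √(G x b b) * √(ip G err err x) := by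
    have ha : 0 ≤ G x a a := ((hG.pos x hx).diag_pos).le
    have hb : 0 ≤ G x b b := ((hG.pos x hx).diag_pos).le
    rw [← Real.sqrt_sq_eq_abs, ← Real.sqrt_mul ha, ← Real.sqrt_mul (mul_nonneg ha hb)]
    exact Real.sqrt_le_sqrt (comp_sq_le hG hx err a b)
  rw [abs_mul, abs_mul, abs_of_pos hw]
  calc |φ x| * (w x * |err a b|) ≤ K * (w x * (√(G x a a) * √(G x b b) * √(ip G err err x))) := by
        gcongr
        exact hv.hk x
    _ = √(G x a a) * √(G x b b) * (K * (w x * √(ip G err err x))) := by ring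
    _ ≤ _ := by gcongr

theorem tl2_at2 (k : Fin 3) : tl2B G r (fun w f φ x => φ x * (w x * pd k f x)) := by
  refine tl2B.of_bound hG hr (m := fun x => √(G x k k)) (tl2_sqrt_cont hG k)
    fun w f φ K x hv => ?_
  obtain ⟨hx, hK, hw, hi, h1, h2, h3, h4⟩ := tl2_facts hG hr hv
  rw [abs_mul, abs_mul, abs_of_pos hw]
  calc |φ x| * (w x * |pd k f x|) ≤ K * (w x * (√(G x k k) * √(inn G f f x))) := by
        gcongr
        · exact hv.hk x
        · exact tl2_pd_le hG hx f k
    _ = √(G x k k) * (K * (w x * √(inn G f f x))) := by ring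
    _ ≤ _ := by gcongr

theorem tl2_at7 (c k : Fin 3) : tl2B G r (fun w f φ x => pd c φ x * (w x * pd k f x)) := by
  refine tl2B.of_bound hG hr (m := fun x => √(G x k k)) (tl2_sqrt_cont hG k)
    fun w f φ K x hv => ?_
  obtain ⟨hx, hK, hw, hi, h1, h2, h3, h4⟩ := tl2_facts hG hr hv
  have h5 : |pd c φ x| ≤ K := by
    have := (fderiv ℝ φ x).le_opNorm (be c)
    have h6 : ‖be c‖ = 1 := by simp [be]
    rw [h6, mul_one] at this
    exact this.trans (hv.hd x)
  rw [abs_mul, abs_mul, abs_of_pos hw]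
  calc |pd c φ x| * (w x * |pd k f x|) ≤ K * (w x * (√(G x k k) * √(inn G f f x))) := by
        gcongr
        exact tl2_pd_le hG hx f k
    _ = √(G x k k) * (K * (w x * √(inn G f f x))) := by ring
    _ ≤ _ := by gcongr

theorem tl2_at3 (a b : Fin 3) : tl2B G r (fun w f φ x => φ x * (pd a w x * pd b f x)) := by
  refine tl2B.of_bound hG hr (m := fun x => √(G x a a) * √(G x b b))
    ((tl2_sqrt_cont hG a).mul (tl2_sqrt_cont hG b)) fun w f φ K x hv => ?_
  obtain ⟨hx, hK, hw, hi, h1, h2, h3, h4⟩ := tl2_facts hG hr hv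
  rw [abs_mul, abs_mul]
  calc |φ x| * (|pd a w x| * |pd b f x|)
      ≤ K * ((√(G x a a) * √(inn G w w x)) * (√(G x b b) * √(inn G f f x))) := by
        gcongr
        · exact hv.hk x
        · exact tl2_pd_le hG hx w a
        · exact tl2_pd_le hG hx f b
    _ = √(G x a a) * √(G x b b) * (K * (√(inn G w w x) * √(inn G f f x))) := by ring
    _ ≤ _ := by gcongr

theorem tl2_at4 (a b : Fin 3) :
    tl2B G r (fun w f φ x => φ x * (w x * (pd a f x * pd b f x))) := by
  refine tl2B.of_bound hG hr (m := fun x => √(G x a a) * √(G x b b))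
    ((tl2_sqrt_cont hG a).mul (tl2_sqrt_cont hG b)) fun w f φ K x hv => ?_
  obtain ⟨hx, hK, hw, hi, h1, h2, h3, h4⟩ := tl2_facts hG hr hv
  rw [abs_mul, abs_mul, abs_mul, abs_of_pos hw]
  calc |φ x| * (w x * (|pd a f x| * |pd b f x|))
      ≤ K * (w x * ((√(G x a a) * √(inn G f f x)) * (√(G x b b) * √(inn G f f x)))) := by
        gcongr
        · exact hv.hk x
        · exact tl2_pd_le hG hx f a
        · exact tl2_pd_le hG hx f b
    _ = √(G x a a) * √(G x b b) * (K * (w x * (√(inn G f f x) * √(inn G f f x)))) := by ring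
    _ = √(G x a a) * √(G x b b) * (K * (w x * inn G f f x)) := by
        rw [Real.mul_self_sqrt hi]
    _ ≤ _ := by gcongr

theorem tl2_at5 : tl2B G r (fun w f φ x => φ x * inn G w f x) := by
  refine tl2B.of_bound hG hr (m := fun _ => 1) continuousOn_const fun w f φ K x hv => ?_
  obtain ⟨hx, hK, hw, hi, h1, h2, h3, h4⟩ := tl2_facts hG hr hv
  have h5 : |inn G w f x| ≤ √(inn G w w x) * √(inn G f f x) := by
    rw [← Real.sqrt_sq_eq_abs, ← Real.sqrt_mul' _ hi]
    exact Real.sqrt_le_sqrt (inn_sq_le hG hx)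
  rw [abs_mul, one_mul]
  calc |φ x| * |inn G w f x| ≤ K * (√(inn G w w x) * √(inn G f f x)) := by
        gcongr
        exact hv.hk x
    _ ≤ _ := by gcongr

theorem tl2_at6 : tl2B G r (fun w f φ x => φ x * (w x * inn G f f x)) := by
  refine tl2B.of_bound hG hr (m := fun _ => 1) continuousOn_const fun w f φ K x hv => ?_
  obtain ⟨hx, hK, hw, hi, h1, h2, h3, h4⟩ := tl2_facts hG hr hv
  rw [abs_mul, one_mul, abs_mul, abs_of_pos hw, abs_of_nonneg hi]
  calc |φ x| * (w x * inn G f f x) ≤ K * (w x * inn G f f x) := by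
        gcongr
        exact hv.hk x
    _ ≤ _ := by gcongr

omit hG hr in
theorem tl2_pd3 {m w f φ : E → ℝ} (hm : ContDiffOn ℝ ∞ m (ball 0 4))
    (hw : ContDiffOn ℝ ∞ w (ball 0 4)) (hf : ContDiffOn ℝ ∞ f (ball 0 4))
    (hφ : ContDiff ℝ ∞ φ) {x : E} (hx : x ∈ ball (0 : E) 4) (c d : Fin 3) :
    pd c (fun y => (m y * (pd d f y * w y)) * φ y) x =
      pd c m x * (pd d f x * w x) * φ x + m x * (pd c (pd d f) x * w x) * φ x +
        m x * (pd d f x * pd c w x) * φ x + m x * (pd d f x * w x) * pd c φ x := by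
  have o : ball (0 : E) 4 ∈ 𝓝 x := isOpen_ball.mem_nhds hx
  have d1 : DifferentiableAt ℝ m x := (hm.contDiffAt o).differentiableAt (by simp)
  have d2 : DifferentiableAt ℝ w x := (hw.contDiffAt o).differentiableAt (by simp)
  have d3 : DifferentiableAt ℝ (pd d f) x :=
    ((pd_smooth isOpen_ball hf).contDiffAt o).differentiableAt (by simp)
  have d4 : DifferentiableAt ℝ φ x := (hφ.differentiable (by simp)) x
  rw [pd_mul (f := fun y => m y * (pd d f y * w y)) (g := φ) (d1.mul (d3.mul d2)) d4,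
    pd_mul (f := m) (g := fun y => pd d f y * w y) d1 (d3.mul d2), pd_mul d3 d2]
  ring

theorem tl2_main (a b : Fin 3) : tl2B G r (fun w f φ x => TT G w a b x * φ x
    - pd a (fun y => (1 * (pd b f y * w y)) * φ y) x
    + 1 / 3 * ∑ c, ∑ d,
      pd c (fun y => (gi G y c d * G y a b * (pd d f y * w y)) * φ y) x) := by
  have c1 : ∀ c d, ContDiffOn ℝ ∞ (fun y => gi G y c d * G y a b) (ball 0 4) := fun c d =>
    (gi_smooth hG c d).mul (hG.smooth a b)
  have c2 : ∀ k c d, ContinuousOn (chr G k c d) (ball 0 4) := fun k c d =>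
    (chr_smooth hG k c d).continuousOn
  have c3 : ContinuousOn (fun y => G y a b) (ball 0 4) := (hG.smooth a b).continuousOn
  have c4 : ∀ c d, ContinuousOn (pd c (fun y => gi G y c d * G y a b)) (ball 0 4) := fun c d =>
    (pd_smooth isOpen_ball (c1 c d)).continuousOn
  have t1 := tl2_at1 hG hr a b
  have t2 := tl2B.sum Finset.univ (fun k => (tl2_at2 hG hr k).coef hr (c2 k a b))
  have t3 := tl2B.sum Finset.univ (fun c => tl2B.sum Finset.univ (fun d =>
    tl2B.sum Finset.univ (fun k => ((tl2_at2 hG hr k).coef hr (c2 k c d)).coef hr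
      (c1 c d).continuousOn)))
  have t4 := tl2_at3 hG hr a b
  have t5 := tl2_at3 hG hr b a
  have t6 := (tl2_at5 hG hr).coef hr c3
  have t7 := tl2_at4 hG hr a b
  have t8 := (tl2_at6 hG hr).coef hr c3
  have t9 := tl2_at7 hG hr a b
  have t10 := tl2B.sum Finset.univ (fun c => tl2B.sum Finset.univ (fun d =>
    (((tl2_at2 hG hr d).coef hr (c4 c d)).add ((tl2_at3 hG hr c d).coef hr
      (c1 c d).continuousOn)).add ((tl2_at7 hG hr c d).coef hr (c1 c d).continuousOn)))
  have k1 : ∀ t : ℝ, ContinuousOn (fun _ : E => t) (ball 0 4) := fun t => continuousOn_const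
  refine ((((((((((t1.sub t2).add (t3.coef hr (k1 (1 / 3)))).add t4).add t5).sub
    (t6.coef hr (k1 (2 / 3)))).sub (t7.coef hr (k1 (1 / 2)))).add
    (t8.coef hr (k1 (1 / 6)))).sub t4).sub t9).add (t10.coef hr (k1 (1 / 3)))).congr ?_
  intro w f φ K x hv
  obtain ⟨hx, -⟩ := tl2_facts hG hr hv
  rw [TT_decomp hG hv.hw hv.hf hv.hp hx]
  have e1 : pd a (fun y => (1 * (pd b f y * w y)) * φ y) x =
      pd a (pd b f) x * w x * φ x + pd b f x * pd a w x * φ x + pd b f x * w x * pd a φ x := by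
    rw [tl2_pd3 (m := fun _ => 1) contDiffOn_const hv.hw hv.hf hv.ht.1 hx, pd_const]
    ring
  have e2 : ∀ c d, pd c (fun y => (gi G y c d * G y a b * (pd d f y * w y)) * φ y) x =
      pd c (fun y => gi G y c d * G y a b) x * (pd d f x * w x) * φ x +
        gi G x c d * G x a b * (pd c (pd d f) x * w x) * φ x +
        gi G x c d * G x a b * (pd d f x * pd c w x) * φ x +
        gi G x c d * G x a b * (pd d f x * w x) * pd c φ x := fun c d =>
    tl2_pd3 (m := fun y => gi G y c d * G y a b) (c1 c d) hv.hw hv.hf hv.ht.1 hx c d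
  rw [e1]
  simp only [e2]
  unfold lap tr hess
  simp only [Fin.sum_univ_three]
  ring

end

/-- (TL2) testing in a chart -/
theorem test_chart {G : E → Mat} (hG : LM (ball 0 4) G) {r : ℝ} (hr : r < 4) :
    ∃ C : ℝ, 0 ≤ C ∧ ∀ w f : E → ℝ, ContDiffOn ℝ ∞ w (ball 0 4) → ContDiffOn ℝ ∞ f (ball 0 4) →
      (∀ x ∈ ball (0 : E) 4, 0 < w x) →
      ∀ φ, Tst (ball 0 r) φ → ∀ K, (∀ x, |φ x| ≤ K) → (∀ x, ‖fderiv ℝ φ x‖ ≤ K) → ∀ a b,
      |∫ x, TT G w a b x * φ x| ≤ C * K * ∫ x in ball (0 : E) r,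
        (w x * √(ip G (fun a b => ric0 (cf G w) a b x - qq (cf G w) f a b x)
            (fun a b => ric0 (cf G w) a b x - qq (cf G w) f a b x) x)
          + w x * √(inn G f f x) + √(inn G w w x) * √(inn G f f x) + w x * inn G f f x) := by
  choose C hC hB using fun a b => tl2_main hG hr a b
  refine ⟨∑ a, ∑ b, C a b, Finset.sum_nonneg fun a _ => Finset.sum_nonneg fun b _ => hC a b,
    fun w f hw hf hp φ ht K hk hd a b => ?_⟩
  have hK : 0 ≤ K := (abs_nonneg _).trans (hk 0)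
  have hle : C a b ≤ ∑ a, ∑ b, C a b :=
    (Finset.single_le_sum (f := fun b => C a b) (fun b _ => hC a b) (Finset.mem_univ b)).trans
      (Finset.single_le_sum (f := fun a => ∑ b, C a b)
        (fun a _ => Finset.sum_nonneg fun b _ => hC a b) (Finset.mem_univ a))
  have hs4 : tsupport φ ⊆ ball 0 4 := ht.2.2.trans (ball_subset_ball hr.le)
  -- smooth compactly supported pieces
  have s1 : ∀ m : E → ℝ, ContDiffOn ℝ ∞ m (ball 0 4) → ∀ d,
      ContDiff ℝ ∞ (fun y => (m y * (pd d f y * w y)) * φ y) := fun m hm d =>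
    tl2_smooth isOpen_ball (hm.mul ((pd_smooth isOpen_ball hf).mul hw)) ht.1 hs4
  have s2 : ∀ m : E → ℝ, ∀ d, HasCompactSupport (fun y => (m y * (pd d f y * w y)) * φ y) :=
    fun m d => tl2_cpt ht.2.1
  have c1 : ∀ c d, ContDiffOn ℝ ∞ (fun y => gi G y c d * G y a b) (ball 0 4) := fun c d =>
    (gi_smooth hG c d).mul (hG.smooth a b)
  have i0 : Integrable (fun x => TT G w a b x * φ x) volume :=
    (tl2_smooth isOpen_ball (TT_smooth hG hw a b) ht.1 hs4).continuous.integrable_of_hasCompactSupport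
      (tl2_cpt ht.2.1)
  have i1 : Integrable (fun x => pd a (fun y => (1 * (pd b f y * w y)) * φ y) x) volume :=
    tl2_pd_int (s1 (fun _ => 1) contDiffOn_const b) (s2 (fun _ => 1) b) a
  have i2 : ∀ c d, Integrable
      (fun x => pd c (fun y => (gi G y c d * G y a b * (pd d f y * w y)) * φ y) x) volume :=
    fun c d => tl2_pd_int (s1 _ (c1 c d) d) (s2 _ d) c
  have i3 : Integrable (fun x => ∑ c, ∑ d,
      pd c (fun y => (gi G y c d * G y a b * (pd d f y * w y)) * φ y) x) volume :=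
    integrable_finsetSum _ fun c _ => integrable_finsetSum _ fun d _ => i2 c d
  set R : E → ℝ := fun x => TT G w a b x * φ x
    - pd a (fun y => (1 * (pd b f y * w y)) * φ y) x
    + 1 / 3 * ∑ c, ∑ d,
      pd c (fun y => (gi G y c d * G y a b * (pd d f y * w y)) * φ y) x with hR
  have iR : Integrable R volume := (i0.sub i1).add (i3.const_mul _)
  have e1 : ∫ x, R x = ∫ x, TT G w a b x * φ x := by
    have e2 : ∫ x, pd a (fun y => (1 * (pd b f y * w y)) * φ y) x = 0 :=
      tl2_div (s1 (fun _ => 1) contDiffOn_const b) (s2 (fun _ => 1) b) a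
    have e3 : ∫ x, ∑ c, ∑ d,
        pd c (fun y => (gi G y c d * G y a b * (pd d f y * w y)) * φ y) x = 0 := by
      rw [integral_finsetSum _ fun c _ => integrable_finsetSum _ fun d _ => i2 c d]
      refine Finset.sum_eq_zero fun c _ => ?_
      rw [integral_finsetSum _ fun d _ => i2 c d]
      exact Finset.sum_eq_zero fun d _ => tl2_div (s1 _ (c1 c d) d) (s2 _ d) c
    have e4 : ∫ x, R x = (∫ x, (TT G w a b x * φ x
        - pd a (fun y => (1 * (pd b f y * w y)) * φ y) x)) + ∫ x, 1 / 3 * ∑ c, ∑ d,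
        pd c (fun y => (gi G y c d * G y a b * (pd d f y * w y)) * φ y) x :=
      integral_add (i0.sub i1) (i3.const_mul _)
    rw [e4, integral_sub i0 i1, e2, integral_const_mul, e3]
    ring
  have z1 : ∀ x, x ∉ ball (0 : E) r → R x = 0 := by
    intro x hx
    have hx' : x ∉ tsupport φ := fun h => hx (ht.2.2 h)
    have z2 : ∀ h : E → ℝ, ∀ c, pd c (fun y => h y * φ y) x = 0 := by
      intro h c
      have : (fun y => h y * φ y) =ᶠ[𝓝 x] fun _ => 0 := by
        filter_upwards [(isClosed_tsupport φ).isOpen_compl.mem_nhds hx'] with y hy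
        rw [image_eq_zero_of_notMem_tsupport hy, mul_zero]
      rw [pd_congr this, pd_const]
    simp only [hR, z2, image_eq_zero_of_notMem_tsupport hx', mul_zero, sub_zero,
      Finset.sum_const_zero, add_zero]
  have cD : ContinuousOn (tl2D G w f) (ball 0 4) := by
    have h1 : ContinuousOn (fun x => √(ip G
        (fun a b => ric0 (cf G w) a b x - qq (cf G w) f a b x)
        (fun a b => ric0 (cf G w) a b x - qq (cf G w) f a b x) x)) (ball 0 4) := by
      have hcf := cf_lm hG hw hp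
      have h2 : ∀ a b, ContDiffOn ℝ ∞
          (fun x => ric0 (cf G w) a b x - qq (cf G w) f a b x) (ball 0 4) := fun a b =>
        (ric0_smooth hcf a b).sub (qq_smooth hcf hf a b)
      exact (ip_smooth hG h2 h2).continuousOn.sqrt
    have h2 := (inn_smooth hG hf hf).continuousOn
    have h3 := (inn_smooth hG hw hw).continuousOn
    have h4 := hw.continuousOn
    exact (((h4.mul h1).add (h4.mul h2.sqrt)).add (h3.sqrt.mul h2.sqrt)).add (h4.mul h2)
  have iD : IntegrableOn (tl2D G w f) (ball 0 r) :=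
    ((cD.mono (closedBall_subset_ball hr)).integrableOn_compact
      (isCompact_closedBall 0 r)).mono_set ball_subset_closedBall
  have hD0 : ∀ x ∈ ball (0 : E) r, 0 ≤ tl2D G w f x := fun x hx => by
    obtain ⟨hx4, -, h0, hi, -, h1, -⟩ := tl2_facts hG hr ⟨hw, hf, hp, ht, hk, hd, hx⟩
    exact le_trans (by positivity) h1
  rw [← e1, ← setIntegral_eq_integral_of_forall_compl_eq_zero (s := ball (0 : E) r)
    fun x hx => z1 x hx]
  have m1 : ∫ x in ball (0 : E) r, |R x| ≤
      ∫ x in ball (0 : E) r, (∑ a, ∑ b, C a b) * K * tl2D G w f x := by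
    refine setIntegral_mono_on iR.abs.integrableOn (iD.const_mul _) measurableSet_ball
      fun x hx => ?_
    have h5 := hB a b w f φ K x ⟨hw, hf, hp, ht, hk, hd, hx⟩
    have h6 := hD0 x hx
    calc |R x| ≤ C a b * (K * tl2D G w f x) := h5
      _ ≤ (∑ a, ∑ b, C a b) * (K * tl2D G w f x) := by gcongr
      _ = _ := by ring
  rw [integral_const_mul] at m1
  exact abs_integral_le_integral_abs.trans m1

end YR
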