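import Pool.Agent.Work.MP_71b0e8_gt.DefsA
import Pool.Agent.Work.MP_71b0e8_gt.Skel.TL2
import Pool.Agent.Work.MP_71b0e8_gt.Skel.Conf
import Pool.Agent.Work.MP_71b0e8_gt.Skel.Int

/-! MP_71b0e8_gt, module TestLim. -/

open scoped ContDiff Topology
open MeasureTheory Metric Set Filter

noncomputable section

namespace YR

variable {M : Type*} [TopologicalSpace M] [CompactSpace M] [T2Space M] [ConnectedSpace M]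
  [MeasurableSpace M] [BorelSpace M] {𝒜 : Atl M} (𝒢 : Met 𝒜)

omit [CompactSpace M] [T2Space M] [ConnectedSpace M] [MeasurableSpace M] [BorelSpace M] in
theorem testlim_inn {v : M → ℝ} (hv : 𝒜.Sm v) (p : M) :
    𝒢.inn (fun p => v p ^ 4) (fun p => v p ^ 4) p = 16 * v p ^ 6 * 𝒢.inn v v p := by
  have hF : HasDerivAt (fun t : ℝ => t ^ 4) (4 * v p ^ 3) (v p) := by
    simpa using hasDerivAt_pow 4 (v p)
  have h1 := 𝒢.inn_comp isOpen_univ (mem_univ p) (hv.on univ) (f := fun p => v p ^ 4) hF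
  have h2 := 𝒢.inn_comp isOpen_univ (mem_univ p) (hv.on univ) (f := v) hF
  simp only at h1 h2
  rw [h1, 𝒢.inn_symm, h2]
  ring

/-- the pointwise inequality -/
theorem testlim_pt {v P Q y δ : ℝ} (hv : 0 < v) (hv1 : v ≤ 1) (hP : 0 ≤ P) (hQ : 0 ≤ Q)
    (hy : 0 ≤ y) (hδ : 0 < δ) :
    v ^ 4 * √y + v ^ 4 * √Q + √(16 * v ^ 6 * P) * √Q + v ^ 4 * Q ≤
      5 * δ * (1 + P ^ 2) + (2 * δ⁻¹ ^ 3 + δ⁻¹) * (v ^ 4 * Q ^ 2 + v ^ 4 * y) := by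
  obtain ⟨s, hs, rfl⟩ : ∃ s : ℝ, 0 ≤ s ∧ s ^ 2 = y := ⟨√y, Real.sqrt_nonneg _, Real.sq_sqrt hy⟩
  obtain ⟨q, hq, rfl⟩ : ∃ s : ℝ, 0 ≤ s ∧ s ^ 2 = Q := ⟨√Q, Real.sqrt_nonneg _, Real.sq_sqrt hQ⟩
  obtain ⟨t, ht, rfl⟩ : ∃ s : ℝ, 0 ≤ s ∧ s ^ 2 = P := ⟨√P, Real.sqrt_nonneg _, Real.sq_sqrt hP⟩
  rw [Real.sqrt_sq hs, Real.sqrt_sq hq,
    show 16 * v ^ 6 * t ^ 2 = (4 * v ^ 3 * t) ^ 2 by ring, Real.sqrt_sq (by positivity)]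
  obtain ⟨z, hz⟩ : ∃ z, z = v * q := ⟨_, rfl⟩
  have hz0 : 0 ≤ z := by rw [hz]; positivity
  have hv4 : v ^ 4 ≤ 1 := pow_le_one₀ hv.le hv1
  have hv2 : v ^ 2 ≤ 1 := pow_le_one₀ hv.le hv1
  have hv3 : v ^ 3 ≤ 1 := pow_le_one₀ hv.le hv1
  set d := δ⁻¹ with hd
  have hd0 : 0 < d := inv_pos.2 hδ
  have hdd : δ * d = 1 := mul_inv_cancel₀ hδ.ne'
  -- term 1
  have h1 : v ^ 4 * s ≤ δ / 2 + d / 2 * (v ^ 4 * s ^ 2) := by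
    have e1 : 0 ≤ d * (δ - v ^ 4 * s) ^ 2 := by positivity
    have e2 : d * (δ - v ^ 4 * s) ^ 2 = δ * (δ * d) - 2 * (δ * d) * (v ^ 4 * s)
        + d * (v ^ 4 * v ^ 4 * s ^ 2) := by ring
    rw [e2, hdd] at e1
    have e3 : d * (v ^ 4 * v ^ 4 * s ^ 2) ≤ d * (1 * v ^ 4 * s ^ 2) := by gcongr
    linarith
  -- z^2
  have h2 : z ^ 2 ≤ δ / 2 + d / 2 * z ^ 4 := by
    have e1 : 0 ≤ d * (δ - z ^ 2) ^ 2 := by positivity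
    have e2 : d * (δ - z ^ 2) ^ 2 = δ * (δ * d) - 2 * (δ * d) * z ^ 2 + d * z ^ 4 := by ring
    rw [e2, hdd] at e1
    linarith
  have h2' : d * z ^ 2 ≤ δ / 2 + d ^ 3 / 2 * z ^ 4 := by
    have e1 : 0 ≤ d * (δ - d * z ^ 2) ^ 2 := by positivity
    have e2 : d * (δ - d * z ^ 2) ^ 2 = δ * (δ * d) - 2 * (δ * d) * (d * z ^ 2) + d ^ 3 * z ^ 4 := by
      ring
    rw [e2, hdd] at e1
    linarith
  have h3 : z ≤ δ + d ^ 3 * z ^ 4 := by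
    have e1 : z ≤ δ / 2 + d / 2 * z ^ 2 := by
      have e1 : 0 ≤ d * (δ - z) ^ 2 := by positivity
      have e2 : d * (δ - z) ^ 2 = δ * (δ * d) - 2 * (δ * d) * z + d * z ^ 2 := by ring
      rw [e2, hdd] at e1
      linarith
    have e2 : 0 ≤ d ^ 3 * z ^ 4 := by positivity
    linarith
  have h4 : t * z ≤ δ / 2 * t ^ 2 + d / 2 * z ^ 2 := by
    have e1 : 0 ≤ d * (δ * t - z) ^ 2 := by positivity
    have e2 : d * (δ * t - z) ^ 2 = δ * (δ * d) * t ^ 2 - 2 * (δ * d) * (t * z) + d * z ^ 2 := by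
      ring
    rw [e2, hdd] at e1
    linarith
  have h5 : t ^ 2 ≤ (1 + (t ^ 2) ^ 2) / 2 := by nlinarith [sq_nonneg (t ^ 2 - 1)]
  have f2 : v ^ 4 * q ≤ z := by
    have : v ^ 4 * q = v ^ 3 * z := by rw [hz]; ring
    rw [this]
    exact mul_le_of_le_one_left hz0 hv3
  have f3 : 4 * v ^ 3 * t * q ≤ 4 * (t * z) := by
    have : 4 * v ^ 3 * t * q = 4 * (v ^ 2 * (t * z)) := by rw [hz]; ring
    rw [this]
    have := mul_le_of_le_one_left (mul_nonneg ht hz0) hv2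
    linarith
  have f4 : v ^ 4 * q ^ 2 ≤ z ^ 2 := by
    have : v ^ 4 * q ^ 2 = v ^ 2 * z ^ 2 := by rw [hz]; ring
    rw [this]
    exact mul_le_of_le_one_left (by positivity) hv2
  have f5 : v ^ 4 * (q ^ 2) ^ 2 = z ^ 4 := by rw [hz]; ring
  rw [f5]
  have g1 : 0 ≤ d ^ 3 * (v ^ 4 * s ^ 2) := by positivity
  have g2 : 0 ≤ d ^ 3 * z ^ 4 := by positivity
  have g3 : 0 ≤ d * z ^ 4 := by positivity
  have g4 : 0 ≤ d * (v ^ 4 * s ^ 2) := by positivity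
  have g5 : δ * t ^ 2 ≤ δ * ((1 + (t ^ 2) ^ 2) / 2) := mul_le_mul_of_nonneg_left h5 hδ.le
  have g6 : 0 ≤ δ * (t ^ 2) ^ 2 := by positivity
  nlinarith

theorem testlim_delta {s t : ℝ} (hs : 0 ≤ s) (ht : s < t) :
    (2 * (√√t)⁻¹ ^ 3 + (√√t)⁻¹) * s ≤ 2 * √√t + √√t ^ 3 := by
  have ht0 : 0 < t := hs.trans_lt ht
  have h4 : √√t ^ 4 = t := by
    rw [show √√t ^ 4 = (√√t ^ 2) ^ 2 by ring, Real.sq_sqrt (Real.sqrt_nonneg _),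
      Real.sq_sqrt ht0.le]
  have hd : 0 < √√t := Real.sqrt_pos.2 (Real.sqrt_pos.2 ht0)
  have h1 : (2 * (√√t)⁻¹ ^ 3 + (√√t)⁻¹) * s ≤ (2 * (√√t)⁻¹ ^ 3 + (√√t)⁻¹) * √√t ^ 4 := by
    rw [h4]
    exact mul_le_mul_of_nonneg_left ht.le (by positivity)
  refine h1.trans (le_of_eq ?_)
  field_simp

omit [ConnectedSpace M] in
/-- the integral of the majorant -/
theorem testlim_int (P Q q2 v : M → ℝ) (hP : 𝒜.Sm P) (hQ : 𝒜.Sm Q) (hq : 𝒜.Sm q2)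
    (hv : 𝒜.Sm fun p => v p ^ 4) (hv0 : ∀ p, 0 < v p) (hq0 : ∀ p, 0 ≤ q2 p) {A s1 s2 t δ : ℝ}
    (hA : ∫ p, P p ^ 2 ∂𝒢.vol ≤ A) (h1 : ∫ p, v p ^ 4 * Q p ^ 2 ∂𝒢.vol = s1)
    (h2 : ∫ p, q2 p * (v p ^ 4)⁻¹ ^ 3 ∂𝒢.vol = s2) (hs : 0 ≤ s1 + s2) (ht : s1 + s2 < t)
    (hδ : δ = √√t) :
    let F : M → ℝ := fun p => 5 * δ * (1 + P p ^ 2) +
      (2 * δ⁻¹ ^ 3 + δ⁻¹) * (v p ^ 4 * Q p ^ 2 + q2 p * (v p ^ 4)⁻¹ ^ 3)
    Integrable F 𝒢.vol ∧ (∀ p, 0 ≤ F p) ∧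
      ∫ p, F p ∂𝒢.vol ≤ 5 * δ * (𝒢.V + A) + (2 * δ + δ ^ 3) := by
  intro F
  have ht0 : 0 < t := hs.trans_lt ht
  have hδ0 : 0 < δ := by rw [hδ]; exact Real.sqrt_pos.2 (Real.sqrt_pos.2 ht0)
  have hsm1 : 𝒜.Sm (fun p => P p ^ 2) := hP.pow 2
  have hsm2 : 𝒜.Sm (fun p => v p ^ 4 * Q p ^ 2) := hv.mul (hQ.pow 2)
  have hsm3 : 𝒜.Sm (fun p => q2 p * (v p ^ 4)⁻¹ ^ 3) := by
    have h1 : 𝒜.Sm (fun p => q2 p / (v p ^ 4) ^ 3) := Atl.Sm.div hq (hv.pow 3)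
          fun p => pow_ne_zero 3 (pow_pos (hv0 p) 4).ne'
    have h2 : (fun p => q2 p * (v p ^ 4)⁻¹ ^ 3) = (fun p => q2 p / (v p ^ 4) ^ 3) := by
      funext p
      rw [inv_pow, div_eq_mul_inv]
    rw [h2]
    exact h1
  have i1 := 𝒢.integrable_sm hsm1
  have i2 := 𝒢.integrable_sm hsm2
  have i3 := 𝒢.integrable_sm hsm3
  have i0 : Integrable (fun _ : M => (1 : ℝ)) 𝒢.vol := 𝒢.integrable_sm (Atl.Sm.const 1)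
  refine ⟨((i0.add i1).const_mul _).add ((i2.add i3).const_mul _), fun p => ?_, ?_⟩
  · have h2 := hq0 p
    have h3 := hv0 p
    have h4 : 0 ≤ P p ^ 2 := sq_nonneg _
    have h5 : 0 ≤ Q p ^ 2 := sq_nonneg _
    show 0 ≤ 5 * δ * (1 + P p ^ 2) +
      (2 * δ⁻¹ ^ 3 + δ⁻¹) * (v p ^ 4 * Q p ^ 2 + q2 p * (v p ^ 4)⁻¹ ^ 3)
    positivity
  · have e1 : ∫ p, F p ∂𝒢.vol = 5 * δ * (𝒢.V + ∫ p, P p ^ 2 ∂𝒢.vol) +
        (2 * δ⁻¹ ^ 3 + δ⁻¹) * (s1 + s2) := by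
      rw [← h1, ← h2]
      show ∫ p, (5 * δ * (1 + P p ^ 2) +
        (2 * δ⁻¹ ^ 3 + δ⁻¹) * (v p ^ 4 * Q p ^ 2 + q2 p * (v p ^ 4)⁻¹ ^ 3)) ∂𝒢.vol = _
      have i01 : Integrable (fun p => 1 + P p ^ 2) 𝒢.vol := i0.add i1
      have i23 : Integrable (fun p => v p ^ 4 * Q p ^ 2 + q2 p * (v p ^ 4)⁻¹ ^ 3) 𝒢.vol :=
        i2.add i3
      rw [integral_add (i01.const_mul _) (i23.const_mul _), integral_const_mul,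
        integral_const_mul, integral_add i0 i1, integral_add i2 i3]
      rfl
    rw [e1]
    have h3 : (2 * δ⁻¹ ^ 3 + δ⁻¹) * (s1 + s2) ≤ 2 * δ + δ ^ 3 := by
      rw [hδ]
      exact testlim_delta hs ht
    have h4 : 5 * δ * (𝒢.V + ∫ p, P p ^ 2 ∂𝒢.vol) ≤ 5 * δ * (𝒢.V + A) :=
      mul_le_mul_of_nonneg_left (by linarith) (by positivity)
    linarith

omit [CompactSpace M] [T2Space M] [ConnectedSpace M] [MeasurableSpace M] [BorelSpace M] in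
theorem testlim_q2 {w : M → ℝ} (hw : 𝒜.Sm w) (hp : ∀ p, 0 < w p) {f : M → ℝ} (hf : 𝒜.Sm f)
    (i : Fin 𝒜.n) {x : E} (hx : x ∈ ball (0 : E) 4) :
    (𝒢.conf w hw hp).q2 f ((𝒜.φ i).symm x) = 𝒜.rd w i x ^ 4 *
      ip (𝒢.g i) (fun a b => ric0 (cf (𝒢.g i) (𝒜.rd w i)) a b x -
          qq (cf (𝒢.g i) (𝒜.rd w i)) (𝒜.rd f i) a b x)
        (fun a b => ric0 (cf (𝒢.g i) (𝒜.rd w i)) a b x -
          qq (cf (𝒢.g i) (𝒜.rd w i)) (𝒜.rd f i) a b x) x := by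
  have k3 := Met.q2_chart (𝒢.conf w hw hp) isOpen_univ (hf.on univ) i
    (show x ∈ 𝒜.dom univ i from ⟨hx, mem_univ _⟩)
  have k4 : (𝒢.conf w hw hp).g i = cf (𝒢.g i) (𝒜.rd w i) := rfl
  have k5 : ∀ y ∈ ball (0 : E) 4, 0 < 𝒜.rd w i y := fun y _ => hp _
  rw [k4, ip_cf (𝒢.lm i) k5 hx] at k3
  exact k3

omit [CompactSpace M] [T2Space M] [ConnectedSpace M] [MeasurableSpace M] [BorelSpace M] in
/-- the pointwise inequality in the chart -/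
theorem testlim_chart {v f : M → ℝ} (hv : 𝒜.Sm v) (hv0 : ∀ p, 0 < v p)
    (hv1 : ∀ p, v p ≤ 1) (hf : 𝒜.Sm f) (hw : 𝒜.Sm (fun p => v p ^ 4))
    (hp : ∀ p, 0 < v p ^ 4) {P Q q2 : M → ℝ} (hP : P = 𝒢.inn v v) (hQ : Q = 𝒢.inn f f)
    (hq2 : q2 = (𝒢.conf (fun p => v p ^ 4) hw hp).q2 f) {δ : ℝ} (hδ : 0 < δ) (i : Fin 𝒜.n)
    {x : E} (hx : x ∈ ball (0 : E) 4) :
      𝒜.rd (fun p => v p ^ 4) i x * √(ip (𝒢.g i)
        (fun a b => ric0 (cf (𝒢.g i) (𝒜.rd (fun p => v p ^ 4) i)) a b x -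
          qq (cf (𝒢.g i) (𝒜.rd (fun p => v p ^ 4) i)) (𝒜.rd f i) a b x)
        (fun a b => ric0 (cf (𝒢.g i) (𝒜.rd (fun p => v p ^ 4) i)) a b x -
          qq (cf (𝒢.g i) (𝒜.rd (fun p => v p ^ 4) i)) (𝒜.rd f i) a b x) x)
      + 𝒜.rd (fun p => v p ^ 4) i x * √(inn (𝒢.g i) (𝒜.rd f i) (𝒜.rd f i) x)
      + √(inn (𝒢.g i) (𝒜.rd (fun p => v p ^ 4) i) (𝒜.rd (fun p => v p ^ 4) i) x) *
        √(inn (𝒢.g i) (𝒜.rd f i) (𝒜.rd f i) x)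
      + 𝒜.rd (fun p => v p ^ 4) i x * inn (𝒢.g i) (𝒜.rd f i) (𝒜.rd f i) x
      ≤ 𝒜.rd (fun p => 5 * δ * (1 + P p ^ 2) +
      (2 * δ⁻¹ ^ 3 + δ⁻¹) * (v p ^ 4 * Q p ^ 2 + q2 p * (v p ^ 4)⁻¹ ^ 3)) i x := by
  have hxd : x ∈ 𝒜.dom univ i := ⟨hx, mem_univ _⟩
  have k1 := 𝒢.inn_chart isOpen_univ (hf.on univ) (hf.on univ) i hxd
  have k2 := 𝒢.inn_chart isOpen_univ (hw.on univ) (hw.on univ) i hxd
  have k3 := testlim_q2 𝒢 hw hp hf i hx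
  rw [testlim_inn 𝒢 hv] at k2
  have hPn := 𝒢.inn_self_nonneg v ((𝒜.φ i).symm x)
  have hQn := 𝒢.inn_self_nonneg f ((𝒜.φ i).symm x)
  have hqn := Met.q2_nonneg (𝒢.conf (fun p => v p ^ 4) hw hp) f ((𝒜.φ i).symm x)
  rw [← hP] at hPn k2
  rw [← hQ] at hQn k1
  rw [← hq2] at hqn k3
  rw [← k1, ← k2]
  have k5 : 𝒜.rd (fun p => v p ^ 4) i x = v ((𝒜.φ i).symm x) ^ 4 := rfl
  have k6 : 𝒜.rd (fun p => 5 * δ * (1 + P p ^ 2) +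
      (2 * δ⁻¹ ^ 3 + δ⁻¹) * (v p ^ 4 * Q p ^ 2 + q2 p * (v p ^ 4)⁻¹ ^ 3)) i x =
      5 * δ * (1 + P ((𝒜.φ i).symm x) ^ 2) +
      (2 * δ⁻¹ ^ 3 + δ⁻¹) * (v ((𝒜.φ i).symm x) ^ 4 * Q ((𝒜.φ i).symm x) ^ 2 +
        q2 ((𝒜.φ i).symm x) * (v ((𝒜.φ i).symm x) ^ 4)⁻¹ ^ 3) := rfl
  rw [k6]
  generalize (ip (𝒢.g i)
        (fun a b => ric0 (cf (𝒢.g i) (𝒜.rd (fun p => v p ^ 4) i)) a b x -
          qq (cf (𝒢.g i) (𝒜.rd (fun p => v p ^ 4) i)) (𝒜.rd f i) a b x)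
        (fun a b => ric0 (cf (𝒢.g i) (𝒜.rd (fun p => v p ^ 4) i)) a b x -
          qq (cf (𝒢.g i) (𝒜.rd (fun p => v p ^ 4) i)) (𝒜.rd f i) a b x) x) = y at k3 ⊢
  rw [k5] at k3 ⊢
  rw [k3] at hqn ⊢
  clear k3 k6 k5 k2 k1
  have hvp := hv0 ((𝒜.φ i).symm x)
  have hv1p := hv1 ((𝒜.φ i).symm x)
  generalize v ((𝒜.φ i).symm x) = a at *
  generalize P ((𝒜.φ i).symm x) = P' at *
  generalize Q ((𝒜.φ i).symm x) = Q' at *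
  have hy : 0 ≤ y := by
    by_contra hneg
    push Not at hneg
    have : (a ^ 4) ^ 4 * y < 0 := mul_neg_of_pos_of_neg (by positivity) hneg
    linarith
  have e1 : (a ^ 4) ^ 4 * y * (a ^ 4)⁻¹ ^ 3 = a ^ 4 * y := by
    field_simp
  rw [e1]
  exact testlim_pt hvp hv1p hPn hQn hy hδ

/-- (TESTLIM) -/
theorem test_limit (v f : ℕ → M → ℝ) (hv : ∀ n, 𝒜.Sm (v n)) (hv0 : ∀ n p, 0 < v n p)
    (hv1 : ∀ n p, v n p ≤ 1) (hf : ∀ n, 𝒜.Sm (f n)) (hw : ∀ n, 𝒜.Sm (fun p => v n p ^ 4))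
    (hp : ∀ n p, 0 < v n p ^ 4) (A : ℝ)
    (hA : ∀ n, ∫ p, 𝒢.inn (v n) (v n) p ^ 2 ∂𝒢.vol ≤ A)
    (h4 : Tendsto (fun n => ∫ p, (𝒢.conf (fun p => v n p ^ 4) (hw n) (hp n)).inn (f n) (f n) p ^ 2
      ∂(𝒢.conf (fun p => v n p ^ 4) (hw n) (hp n)).vol) atTop (𝓝 0))
    (hq : Tendsto (fun n => ∫ p, (𝒢.conf (fun p => v n p ^ 4) (hw n) (hp n)).q2 (f n) p
      ∂(𝒢.conf (fun p => v n p ^ 4) (hw n) (hp n)).vol) atTop (𝓝 0))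
    (i : Fin 𝒜.n) {r : ℝ} (hr : r < 4) :
    ∃ ε : ℕ → ℝ, Tendsto ε atTop (𝓝 0) ∧ ∀ n φ, Tst (ball 0 r) φ → ∀ K, (∀ x, |φ x| ≤ K) →
      (∀ x, ‖fderiv ℝ φ x‖ ≤ K) → ∀ a b,
      |∫ x, TT (𝒢.g i) (𝒜.rd (fun p => v n p ^ 4) i) a b x * φ x| ≤ ε n * K := by
  obtain ⟨C, hC, hT⟩ := test_chart (𝒢.lm i) hr
  have hsub : closedBall (0 : E) r ⊆ ball 0 4 := closedBall_subset_ball hr
  obtain ⟨C₁, hC₁, hI⟩ := 𝒢.chart_integral_le i (isCompact_closedBall (0 : E) r) hsub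
  obtain ⟨S1, hS1⟩ : ∃ S : ℕ → ℝ, ∀ n, S n = ∫ p,
      (𝒢.conf (fun p => v n p ^ 4) (hw n) (hp n)).inn (f n) (f n) p ^ 2
      ∂(𝒢.conf (fun p => v n p ^ 4) (hw n) (hp n)).vol := ⟨_, fun n => rfl⟩
  obtain ⟨S2, hS2⟩ : ∃ S : ℕ → ℝ, ∀ n, S n = ∫ p,
      (𝒢.conf (fun p => v n p ^ 4) (hw n) (hp n)).q2 (f n) p
      ∂(𝒢.conf (fun p => v n p ^ 4) (hw n) (hp n)).vol := ⟨_, fun n => rfl⟩
  have h4' : Tendsto S1 atTop (𝓝 0) := h4.congr fun n => (hS1 n).symm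
  have hq' : Tendsto S2 atTop (𝓝 0) := hq.congr fun n => (hS2 n).symm
  have hS1n : ∀ n, 0 ≤ S1 n := fun n => by
    rw [hS1]; exact integral_nonneg fun p => sq_nonneg _
  have hS2n : ∀ n, 0 ≤ S2 n := fun n => by
    rw [hS2]; exact integral_nonneg fun p => Met.q2_nonneg _ _ _
  have hS1e : ∀ n, ∫ p, v n p ^ 4 * 𝒢.inn (f n) (f n) p ^ 2 ∂𝒢.vol = S1 n := by
    intro n
    rw [hS1, 𝒢.integral_conf (hw n) (hp n)]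
    refine integral_congr_ae (Eventually.of_forall fun p => ?_)
    have h0 := hv0 n p
    simp only
    rw [𝒢.inn_conf (hw n) (hp n)]
    generalize 𝒢.inn (f n) (f n) p = Q
    generalize v n p = a at *
    field_simp
  have hS2e : ∀ n, ∫ p, (𝒢.conf (fun p => v n p ^ 4) (hw n) (hp n)).q2 (f n) p *
      (v n p ^ 4)⁻¹ ^ 3 ∂𝒢.vol = S2 n := by
    intro n
    rw [hS2, 𝒢.integral_conf (hw n) (hp n)]
  obtain ⟨δ, hδ⟩ : ∃ δ : ℕ → ℝ, ∀ n, δ n = √√(S1 n + S2 n + 1 / ((n : ℝ) + 1)) :=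
    ⟨_, fun n => rfl⟩
  have hδ0 : ∀ n, 0 < δ n := fun n => by
    have h1 := hS1n n
    have h2 := hS2n n
    have h3 : 0 < 1 / ((n : ℝ) + 1) := by positivity
    rw [hδ]
    exact Real.sqrt_pos.2 (Real.sqrt_pos.2 (by linarith))
  have hδl : Tendsto δ atTop (𝓝 0) := by
    have h1 : Tendsto (fun n : ℕ => S1 n + S2 n + 1 / ((n : ℝ) + 1)) atTop (𝓝 (0 + 0 + 0)) :=
      (h4'.add hq').add tendsto_one_div_add_atTop_nhds_zero_nat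
    have h2 := h1.sqrt.sqrt
    rw [add_zero, add_zero, Real.sqrt_zero, Real.sqrt_zero] at h2
    exact h2.congr fun n => (hδ n).symm
  refine ⟨fun n => C * C₁ * (5 * δ n * (𝒢.V + A) + (2 * δ n + δ n ^ 3)), ?_, ?_⟩
  · have h1 : Tendsto (fun n => C * C₁ * (5 * δ n * (𝒢.V + A) + (2 * δ n + δ n ^ 3))) atTop
        (𝓝 (C * C₁ * (5 * 0 * (𝒢.V + A) + (2 * 0 + 0 ^ 3)))) :=
      (((hδl.const_mul 5).mul_const _).add ((hδl.const_mul 2).add (hδl.pow 3))).const_mul _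
    simpa using h1
  intro n φ hφ K hK hK' a b
  have hK0 : 0 ≤ K := (abs_nonneg _).trans (hK 0)
  have hposi : ∀ x ∈ ball (0 : E) 4, 0 < 𝒜.rd (fun p => v n p ^ 4) i x := fun x _ => hp n _
  refine (hT (𝒜.rd (fun p => v n p ^ 4) i) (𝒜.rd (f n) i) (hw n i) (hf n i) hposi φ hφ K hK hK'
    a b).trans ?_
  obtain ⟨q2, hq2⟩ : ∃ q2 : M → ℝ, q2 = (𝒢.conf (fun p => v n p ^ 4) (hw n) (hp n)).q2 (f n) :=
    ⟨_, rfl⟩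
  obtain ⟨P, hP⟩ : ∃ P : M → ℝ, P = 𝒢.inn (v n) (v n) := ⟨_, rfl⟩
  obtain ⟨Q, hQ⟩ : ∃ Q : M → ℝ, Q = 𝒢.inn (f n) (f n) := ⟨_, rfl⟩
  have hq2s : 𝒜.Sm q2 := by
    rw [hq2]
    exact Met.Sm_q2 _ (hf n)
  have hPs : 𝒜.Sm P := by
    rw [hP]
    exact 𝒢.Sm_inn (hv n) (hv n)
  have hQs : 𝒜.Sm Q := by
    rw [hQ]
    exact 𝒢.Sm_inn (hf n) (hf n)
  have hq2n : ∀ p, 0 ≤ q2 p := by
    rw [hq2]
    exact fun p => Met.q2_nonneg _ _ _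
  have hSS : S1 n + S2 n < S1 n + S2 n + 1 / ((n : ℝ) + 1) := by
    have : 0 < 1 / ((n : ℝ) + 1) := by positivity
    linarith
  have hA' : ∫ p, P p ^ 2 ∂𝒢.vol ≤ A := by
    rw [hP]
    exact hA n
  have hS1' : ∫ p, v n p ^ 4 * Q p ^ 2 ∂𝒢.vol = S1 n := by
    rw [hQ]
    exact hS1e n
  have hS2' : ∫ p, q2 p * (v n p ^ 4)⁻¹ ^ 3 ∂𝒢.vol = S2 n := by
    rw [hq2]
    exact hS2e n
  obtain ⟨hFi, hF0, hFint⟩ := testlim_int 𝒢 P Q q2 (v n) hPs hQs hq2s (hw n) (hv0 n) hq2n hA' hS1'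
    hS2' (add_nonneg (hS1n n) (hS2n n)) hSS (hδ n)
  have hpt : ∀ x ∈ ball (0 : E) r, _ ≤ _ := fun x hx =>
    testlim_chart 𝒢 (hv n) (hv0 n) (hv1 n) (hf n) (hw n) (hp n) hP hQ hq2 (hδ0 n) i
      (hsub (ball_subset_closedBall hx))
  generalize (fun p => 5 * δ n * (1 + P p ^ 2) + (2 * (δ n)⁻¹ ^ 3 + (δ n)⁻¹) *
    (v n p ^ 4 * Q p ^ 2 + q2 p * (v n p ^ 4)⁻¹ ^ 3)) = F at hFi hF0 hFint hpt
  obtain ⟨j1, j2⟩ := hI F hFi hF0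
  have hmain2 : ∫ x in ball (0 : E) r, 𝒜.rd F i x ≤ ∫ x in closedBall (0 : E) r, 𝒜.rd F i x :=
    setIntegral_mono_set j1 (Eventually.of_forall fun x => hF0 _)
      (Eventually.of_forall ball_subset_closedBall)
  have hCK : 0 ≤ C * K := mul_nonneg hC hK0
  have hfin2 : C * K * ∫ x in ball (0 : E) r, 𝒜.rd F i x ≤
      C * C₁ * (5 * δ n * (𝒢.V + A) + (2 * δ n + δ n ^ 3)) * K := by
    calc _ ≤ C * K * (C₁ * ∫ p, F p ∂𝒢.vol) :=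
          mul_le_mul_of_nonneg_left (hmain2.trans j2) hCK
      _ ≤ C * K * (C₁ * (5 * δ n * (𝒢.V + A) + (2 * δ n + δ n ^ 3))) :=
          mul_le_mul_of_nonneg_left (mul_le_mul_of_nonneg_left hFint hC₁.le) hCK
      _ = _ := by ring
  refine le_trans ?_ hfin2
  refine mul_le_mul_of_nonneg_left ?_ hCK
  refine integral_mono_of_nonneg ?_ (j1.mono_set ball_subset_closedBall) ?_
  · refine (ae_restrict_iff' measurableSet_ball).2 (Eventually.of_forall fun x hx => ?_)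
    have hx4 : x ∈ ball (0 : E) 4 := hsub (ball_subset_closedBall hx)
    have hxd : x ∈ 𝒜.dom univ i := ⟨hx4, mem_univ _⟩
    have k1 := 𝒢.inn_chart isOpen_univ ((hf n).on univ) ((hf n).on univ) i hxd
    have k2 : 0 ≤ inn (𝒢.g i) (𝒜.rd (f n) i) (𝒜.rd (f n) i) x := by
      rw [← k1]
      exact 𝒢.inn_self_nonneg _ _
    have k3 := hposi x hx4
    exact add_nonneg (add_nonneg (add_nonneg (mul_nonneg k3.le (Real.sqrt_nonneg _))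
      (mul_nonneg k3.le (Real.sqrt_nonneg _))) (mul_nonneg (Real.sqrt_nonneg _)
      (Real.sqrt_nonneg _))) (mul_nonneg k3.le k2)
  · exact (ae_restrict_iff' measurableSet_ball).2 (Eventually.of_forall hpt)

end YR
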