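import Pool.Agent.Work.MP_71b0e8_gt.DefsA

/-! MP_71b0e8_gt, module Weak2: continuous weak derivatives are classical derivatives
(mollification). -/

open scoped ContDiff Topology Convolution
open MeasureTheory Metric Set Filter

noncomputable section

namespace YR

/-- the linear form with values `v a` on the basis -/
def weak2_lin (v : Fin 3 → ℝ) : E →L[ℝ] ℝ := ∑ a, v a • (EuclideanSpace.proj a : E →L[ℝ] ℝ)

theorem weak2_lin_apply (v : Fin 3 → ℝ) (h : E) : weak2_lin v h = ∑ a, v a * h a := by
  simp [weak2_lin]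

theorem weak2_lin_be (v : Fin 3 → ℝ) (a : Fin 3) : weak2_lin v (be a) = v a := by
  rw [weak2_lin_apply]
  simp [be, EuclideanSpace.single_apply]

theorem weak2_ext {L₁ L₂ : E →L[ℝ] ℝ} (h : ∀ a, L₁ (be a) = L₂ (be a)) : L₁ = L₂ := by
  have h1 : (L₁ : E →ₗ[ℝ] ℝ) = L₂ := by
    refine (EuclideanSpace.basisFun (Fin 3) ℝ).toBasis.ext fun a => ?_
    have := h a
    simpa [be] using this
  exact ContinuousLinearMap.coe_injective h1

theorem weak2_fderiv_eq (f : E → ℝ) (x : E) :
    fderiv ℝ f x = weak2_lin (fun a => pd a f x) :=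
  weak2_ext fun a => by rw [weak2_lin_be]; rfl

/-- the bump functions -/
def weak2_bump (r : ℝ) (hr : 0 < r) (n : ℕ) : ContDiffBump (0 : E) where
  rIn := r / (2 * (n + 2))
  rOut := r / (n + 2)
  rIn_pos := by positivity
  rIn_lt_rOut := by
    apply div_lt_div_of_pos_left hr (by positivity)
    have : (0 : ℝ) ≤ n := n.cast_nonneg
    linarith

/-- uniform convergence of mollifications -/
theorem weak2_unif {W : E → ℝ} {x₀ : E} {r : ℝ} (hr : 0 < r)
    (hW : ContinuousOn W (closedBall x₀ (2 * r))) :
    ∀ ε > 0, ∃ N : ℕ, ∀ n ≥ N, ∀ x ∈ ball x₀ r,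
      |((weak2_bump r hr n).normed volume ⋆[ContinuousLinearMap.lsmul ℝ ℝ, volume]
        (indicator (closedBall x₀ (2 * r)) W)) x - W x| ≤ ε := by
  intro ε hε
  have huc := (isCompact_closedBall x₀ (2 * r)).uniformContinuousOn_of_continuous hW
  rw [Metric.uniformContinuousOn_iff] at huc
  obtain ⟨δ, hδ, huc⟩ := huc ε hε
  obtain ⟨N, hN⟩ := exists_nat_gt (r / δ)
  refine ⟨N, fun n hn x hx => ?_⟩
  have hn0 : (0 : ℝ) ≤ n := n.cast_nonneg
  have hro : (weak2_bump r hr n).rOut = r / (n + 2) := rfl
  have h1 : r / (n + 2) < δ := by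
    rw [div_lt_iff₀ (by positivity)]
    rw [div_lt_iff₀ hδ] at hN
    have : (N : ℝ) ≤ n := by exact_mod_cast hn
    nlinarith
  have h2 : r / (n + 2) ≤ r := by
    rw [div_le_iff₀ (by positivity)]
    nlinarith
  have hx' : dist x x₀ < r := hx
  have hxc : x ∈ closedBall x₀ (2 * r) := by
    rw [mem_closedBall]; linarith
  have hmeas : AEStronglyMeasurable (indicator (closedBall x₀ (2 * r)) W) volume := by
    rw [aestronglyMeasurable_indicator_iff measurableSet_closedBall]
    exact hW.aestronglyMeasurable measurableSet_closedBall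
  have key := ContDiffBump.dist_normed_convolution_le (φ := weak2_bump r hr n) (μ := volume)
    (g := indicator (closedBall x₀ (2 * r)) W) (x₀ := x) (ε := ε) hmeas
    (fun y hy => by
      rw [hro] at hy
      have hy' : dist y x < r / (n + 2) := hy
      have hyc : y ∈ closedBall x₀ (2 * r) := by
        rw [mem_closedBall]
        have := dist_triangle y x x₀
        linarith
      rw [indicator_of_mem hyc, indicator_of_mem hxc]
      exact (huc y hyc x hxc (by linarith)).le)
  rw [indicator_of_mem hxc, Real.dist_eq] at key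
  exact key

theorem weak2_int {W : E → ℝ} {x₀ : E} {r : ℝ}
    (hW : ContinuousOn W (closedBall x₀ (2 * r))) :
    Integrable (indicator (closedBall x₀ (2 * r)) W) volume := by
  rw [integrable_indicator_iff measurableSet_closedBall]
  exact hW.integrableOn_compact (isCompact_closedBall x₀ (2 * r))

theorem weak2_conv_apply (f g : E → ℝ) (x : E) :
    (f ⋆[ContinuousLinearMap.lsmul ℝ ℝ, volume] g) x = ∫ t, g t * f (x - t) := by
  rw [← convolution_flip, convolution_def]
  simp [ContinuousLinearMap.flip_apply, mul_comm]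

theorem weak2_local {B : Set E} {U : E → ℝ} (hU : ContinuousOn U B)
    {V : Fin 3 → E → ℝ} (hV : ∀ a, ContinuousOn (V a) B)
    (h : ∀ φ, Tst B φ → ∀ a, ∫ x, U x * pd a φ x = - ∫ x, V a x * φ x)
    {x₀ : E} {r : ℝ} (hr : 0 < r) (hsub : closedBall x₀ (2 * r) ⊆ B) :
    ∀ x ∈ ball x₀ r, HasFDerivAt U (weak2_lin (fun a => V a x)) x := by
  intro x hx
  set φ : ℕ → E → ℝ := fun n => (weak2_bump r hr n).normed volume with hφ
  have hφs : ∀ n, ContDiff ℝ ∞ (φ n) := fun n => (weak2_bump r hr n).contDiff_normed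
  have hφc : ∀ n, HasCompactSupport (φ n) := fun n => (weak2_bump r hr n).hasCompactSupport_normed
  have hro : ∀ n, (weak2_bump r hr n).rOut = r / (n + 2) := fun n => rfl
  have hφt : ∀ n, tsupport (φ n) = closedBall 0 (r / (n + 2)) := fun n => by
    rw [← hro n]; exact (weak2_bump r hr n).tsupport_normed_eq
  have hrn : ∀ n : ℕ, r / (n + 2) ≤ r / 2 := fun n => by
    apply div_le_div_of_nonneg_left hr.le (by norm_num)
    have : (0 : ℝ) ≤ n := n.cast_nonneg
    linarith
  set U' : E → ℝ := indicator (closedBall x₀ (2 * r)) U with hU'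
  have hUint : Integrable U' volume := weak2_int (hU.mono hsub)
  set u : ℕ → E → ℝ := fun n x => ∫ t, U' t * φ n (x - t) with hu
  have hu1 : ∀ n, u n = (U' ⋆[ContinuousLinearMap.mul ℝ ℝ, volume] φ n) := by
    intro n; ext x; rw [convolution_def]; rfl
  have hd1 : ∀ n x, HasFDerivAt (u n)
      ((U' ⋆[(ContinuousLinearMap.mul ℝ ℝ).precompR E, volume] fderiv ℝ (φ n)) x) x := by
    intro n x
    rw [hu1]
    exact (hφc n).hasFDerivAt_convolution_right _ hUint.locallyIntegrable
      ((hφs n).of_le (by simp)) x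
  have hpd : ∀ n x a, pd a (u n) x = ∫ t, U' t * pd a (φ n) (x - t) := by
    intro n x a
    unfold pd
    rw [(hd1 n x).fderiv, convolution_precompR_apply _ hUint.locallyIntegrable
      ((hφc n).fderiv ℝ) ((hφs n).continuous_fderiv (by simp)), convolution_def]
    rfl
  -- the test function
  have hder : ∀ n, ∀ x ∈ ball x₀ r, ∀ a, pd a (u n) x =
      ((φ n) ⋆[ContinuousLinearMap.lsmul ℝ ℝ, volume]
        (indicator (closedBall x₀ (2 * r)) (V a))) x := by
    intro n x hx a
    have hx' : dist x x₀ < r := hx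
    set ψ : E → ℝ := fun t => φ n (x - t) with hψ
    have hψs : ContDiff ℝ ∞ ψ := (hφs n).comp (contDiff_const.sub contDiff_id)
    have hsupp : ∀ t, t ∉ closedBall x (r / (n + 2)) → (x - t) ∉ tsupport (φ n) := by
      intro t ht
      rw [hφt, mem_closedBall, dist_zero_right]
      rw [mem_closedBall, dist_comm, dist_eq_norm] at ht
      exact ht
    have hin : closedBall x (r / (n + 2)) ⊆ closedBall x₀ (2 * r) := by
      intro t ht
      rw [mem_closedBall] at ht ⊢
      have := dist_triangle t x x₀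
      have := hrn n
      linarith
    have hts : tsupport ψ ⊆ closedBall x (r / (n + 2)) := by
      apply closure_minimal _ isClosed_closedBall
      intro t ht
      by_contra hc
      have h9 : φ n (x - t) = 0 := image_eq_zero_of_notMem_tsupport (hsupp t hc)
      exact ht h9
    have hψc : HasCompactSupport ψ :=
      HasCompactSupport.of_support_subset_isCompact (isCompact_closedBall x (r / (n + 2)))
        (subset_tsupport ψ |>.trans hts)
    have hT : Tst B ψ := ⟨hψs, hψc, hts.trans (hin.trans hsub)⟩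
    have h0 := h ψ hT a
    have hpψ : ∀ t, pd a ψ t = - pd a (φ n) (x - t) := by
      intro t
      have h1 : HasFDerivAt (φ n) (fderiv ℝ (φ n) (x - t)) (x - t) :=
        ((hφs n).differentiable (by simp) (x - t)).hasFDerivAt
      have h2 : HasFDerivAt (fun t : E => x - t) (-(ContinuousLinearMap.id ℝ E)) t :=
        (hasFDerivAt_id t).const_sub x
      have h3 : HasFDerivAt ψ ((fderiv ℝ (φ n) (x - t)).comp (-(ContinuousLinearMap.id ℝ E))) t :=
        h1.comp t h2
      unfold pd
      rw [h3.fderiv]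
      simp
    have hU2 : ∀ t, U' t * pd a (φ n) (x - t) = - (U t * pd a ψ t) := by
      intro t
      rw [hpψ]
      by_cases ht : t ∈ closedBall x₀ (2 * r)
      · rw [hU', indicator_of_mem ht]; ring
      · have h5 : pd a (φ n) (x - t) = 0 := by
          unfold pd
          have h6 : (x - t) ∉ tsupport (fderiv ℝ (φ n)) := fun hc =>
            hsupp t (fun hc2 => ht (hin hc2)) (tsupport_fderiv_subset ℝ hc)
          rw [image_eq_zero_of_notMem_tsupport h6]
          rfl
        rw [h5]; ring
    have hV2 : ∀ t, indicator (closedBall x₀ (2 * r)) (V a) t * φ n (x - t) =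
        V a t * ψ t := by
      intro t
      by_cases ht : t ∈ closedBall x₀ (2 * r)
      · rw [indicator_of_mem ht]
      · have h5 : φ n (x - t) = 0 :=
          image_eq_zero_of_notMem_tsupport (hsupp t fun hc2 => ht (hin hc2))
        have h6 : ψ t = 0 := h5
        rw [h5, h6]; ring
    rw [hpd, weak2_conv_apply]
    rw [integral_congr_ae (ae_of_all _ hU2), integral_congr_ae (ae_of_all _ hV2),
      integral_neg, h0, neg_neg]
  have hlim : ∀ x ∈ ball x₀ r, Tendsto (fun n => u n x) atTop (𝓝 (U x)) := by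
    intro x hx
    rw [Metric.tendsto_atTop]
    intro ε hε
    obtain ⟨N, hN⟩ := weak2_unif hr (hU.mono hsub) (ε / 2) (half_pos hε)
    refine ⟨N, fun n hn => ?_⟩
    have := hN n hn x hx
    rw [weak2_conv_apply] at this
    rw [Real.dist_eq]
    exact lt_of_le_of_lt this (half_lt_self hε)
  have hunif : TendstoUniformlyOn (fun n x => weak2_lin (fun a => pd a (u n) x))
      (fun x => weak2_lin (fun a => V a x)) atTop (ball x₀ r) := by
    rw [Metric.tendstoUniformlyOn_iff]
    intro ε hε
    have hN : ∀ a : Fin 3, ∃ N : ℕ, ∀ n ≥ N, ∀ x ∈ ball x₀ r,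
        |((weak2_bump r hr n).normed volume ⋆[ContinuousLinearMap.lsmul ℝ ℝ, volume]
        (indicator (closedBall x₀ (2 * r)) (V a))) x - V a x| ≤ ε / 6 := fun a =>
      weak2_unif hr ((hV a).mono hsub) (ε / 6) (by positivity)
    choose N hN using hN
    filter_upwards [eventually_ge_atTop (N 0 + N 1 + N 2)] with n hn x hx
    have hnN : ∀ a, N a ≤ n := by
      intro a
      fin_cases a <;> simp <;> omega
    rw [dist_eq_norm]
    have h7 : ‖weak2_lin (fun a => V a x) - weak2_lin (fun a => pd a (u n) x)‖ ≤ ε / 2 := by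
      apply ContinuousLinearMap.opNorm_le_bound _ (by positivity)
      intro y
      rw [ContinuousLinearMap.sub_apply, weak2_lin_apply, weak2_lin_apply,
        ← Finset.sum_sub_distrib]
      have h8 : ∀ a : Fin 3, |V a x * y a - pd a (u n) x * y a| ≤ ε / 6 * ‖y‖ := by
        intro a
        rw [← sub_mul, abs_mul, abs_sub_comm, hder n x hx a]
        apply mul_le_mul (hN a n (hnN a) x hx) _ (abs_nonneg _) (by positivity)
        have := EuclideanSpace.norm_eq y
        simpa using PiLp.norm_apply_le y a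
      calc ‖∑ a, (V a x * y a - pd a (u n) x * y a)‖
          ≤ ∑ a, ‖V a x * y a - pd a (u n) x * y a‖ := norm_sum_le _ _
        _ ≤ ∑ _a : Fin 3, ε / 6 * ‖y‖ := Finset.sum_le_sum fun a _ => h8 a
        _ = ε / 2 * ‖y‖ := by simp; ring
    linarith
  refine hasFDerivAt_of_tendstoUniformlyOn isOpen_ball hunif (fun n y _ => ?_) hlim hx
  rw [← weak2_fderiv_eq]
  exact (hd1 n y).differentiableAt.hasFDerivAt

/-- (WEAK2) continuous weak derivatives are classical -/
theorem weak_deriv {B : Set E} (hB : IsOpen B) {U : E → ℝ} (hU : ContinuousOn U B)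
    {V : Fin 3 → E → ℝ} (hV : ∀ a, ContinuousOn (V a) B)
    (h : ∀ φ, Tst B φ → ∀ a, ∫ x, U x * pd a φ x = - ∫ x, V a x * φ x) :
    ContDiffOn ℝ 1 U B ∧ ∀ a, ∀ x ∈ B, pd a U x = V a x := by
  have hd : ∀ x ∈ B, HasFDerivAt U (weak2_lin (fun a => V a x)) x := by
    intro x hx
    obtain ⟨ε, hε, hsub⟩ := Metric.isOpen_iff.1 hB x hx
    have h4 : closedBall x (2 * (ε / 4)) ⊆ B := by
      refine Subset.trans ?_ hsub
      intro y hy
      rw [mem_closedBall] at hy
      rw [mem_ball]
      linarith
    exact weak2_local hU hV h (by positivity : (0 : ℝ) < ε / 4) h4 x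
      (mem_ball_self (by positivity))
  refine ⟨?_, fun a x hx => ?_⟩
  · rw [show (1 : ℕ∞ω) = 0 + 1 from rfl, contDiffOn_succ_iff_fderiv_of_isOpen hB]
    refine ⟨fun x hx => (hd x hx).differentiableAt.differentiableWithinAt, by simp, ?_⟩
    rw [contDiffOn_zero]
    have h1 : ContinuousOn (fun x => weak2_lin (fun a => V a x)) B := by
      unfold weak2_lin
      exact continuousOn_finset_sum _ fun a _ => (hV a).smul continuousOn_const
    exact h1.congr fun x hx => (hd x hx).fderiv
  · unfold pd
    rw [(hd x hx).fderiv, weak2_lin_be]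

end YR
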